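import Pool.Agent.THR72.Perceptron
import Pool.Agent.Lib_helper88.PolyTime.Size
import Pool.Agent.Lib_helper88.OnlineDisj.Defs

/-!
# The Perceptron of degree `d` runs in polynomial time
-/

namespace Pool.Agent.THR72

open Finset
open Pool.Agent.PT
open Pool.Agent.OnlineDisj (Learner)

/-- memory: the stored examples -/
abbrev MemP : Type := List (List Bool × Bool)

/-- the number of the coordinates where the two vectors agree -/
def agr (x y : List Bool) : U :=
  (x.zip y).foldl (fun s z => if z.1 == z.2 then ⟨s.val + 1⟩ else s) ⟨0⟩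

/-- the kernel -/
def ker (d : ℕ) (x y : List Bool) : U := ⟨1 * ((agr x y).val + 1) ^ d⟩

/-- the sum of the values of the kernel over the stored examples with the label `b` -/
def ksum (d : ℕ) (b : Bool) (s : MemP) (x : List Bool) : U :=
  s.foldl (fun t e => if e.2 == b then ⟨t.val + (ker d e.1 x).val⟩ else t) ⟨0⟩

/-- the prediction -/
def predictP (d : ℕ) (p : MemP × List Bool) : Bool :=
  !(decide ((ksum d true p.1 p.2).val ≤ (ksum d false p.1 p.2).val))

/-- the update of the memory -/
def updateP (d : ℕ) (p : MemP × List Bool × Bool) : MemP :=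
  if predictP d (p.1, p.2.1) == p.2.2 then p.1
  else if decide (p.1.length + 2 ≤ phs p.2.1.length d) then (p.2.1, p.2.2) :: p.1 else []

/-- the learner -/
def learnerP (d : ℕ) : Learner MemP where
  start := []
  predict := predictP d
  update := updateP d

/-! ### polynomial time -/

theorem PT_agr {α : Type} [N487b59b3 α] {f g : α → List Bool} (hf : PT f) (hg : PT g) :
    PT (fun a => agr (f a) (g a)) := by
  refine PT.fold (g := fun p : Bool × U × (Bool × Bool) =>
      if p.2.2.1 == p.2.2.2 then U.mk (p.2.1.val + 1) else p.2.1)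
    (e := fun _ => true) (s := fun _ => U.mk 0) (l := fun a => (f a).zip (g a)) ?_
    1 ?_ (PT.const true) (PT.const _) (PT.zip hf hg)
  · exact PT.ite (PT.beq PT.snd.comp_snd.comp_fst PT.snd.comp_snd.comp_snd)
      PT.snd.comp_fst.usucc PT.snd.comp_fst
  · intro e s z
    simp only [Polynomial.eval_one]
    split_ifs
    · rw [length_enc_U, length_enc_U]
    · omega

theorem agr_fold_le (l : List (Bool × Bool)) (k : ℕ) :
    (l.foldl (fun (s : U) z => if z.1 == z.2 then ⟨s.val + 1⟩ else s) ⟨k⟩).val ≤
      k + l.length := by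
  induction l generalizing k with
  | nil => simp
  | cons z l ih =>
    rw [List.foldl_cons, List.length_cons]
    by_cases h : (z.1 == z.2) = true
    · rw [if_pos h]
      refine (ih (k + 1)).trans ?_
      omega
    · rw [if_neg h]
      refine (ih k).trans ?_
      omega

theorem agr_le (x y : List Bool) : (agr x y).val ≤ y.length := by
  have h := agr_fold_le (x.zip y) 0
  rw [List.length_zip] at h
  unfold agr
  omega

theorem PT_ker {α : Type} [N487b59b3 α] (d : ℕ) {f g : α → List Bool} (hf : PT f) (hg : PT g) :
    PT (fun a => ker d (f a) (g a)) :=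
  PT.umonomial (PT_agr hf hg).usucc 1 d

theorem PT_ksum {α : Type} [N487b59b3 α] (d : ℕ) (b : Bool) {f : α → MemP} {g : α → List Bool}
    (hf : PT f) (hg : PT g) : PT (fun a => ksum d b (f a) (g a)) := by
  refine PT.fold (g := fun p : List Bool × U × (List Bool × Bool) =>
      if p.2.2.2 == b then U.mk (p.2.1.val + (ker d p.2.2.1 p.1).val) else p.2.1)
    (e := g) (s := fun _ => U.mk 0) (l := f) ?_
    ((Polynomial.X + 1) ^ d) ?_ hg (PT.const _) hf
  · exact PT.ite (PT.beq PT.snd.comp_snd.comp_snd (PT.const b))
      (PT.uadd PT.snd.comp_fst (PT_ker d PT.snd.comp_snd.comp_fst PT.fst)) PT.snd.comp_fst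
  · intro e s a
    have h1 : (ker d a.1 e).val ≤ ((enc e).length + (enc a).length + 1) ^ d := by
      unfold ker
      rw [one_mul]
      apply Nat.pow_le_pow_left
      have h2 := agr_le a.1 e
      have h3 := length_le_enc e
      omega
    simp only [Polynomial.eval_pow, Polynomial.eval_add, Polynomial.eval_X, Polynomial.eval_one]
    split_ifs
    · rw [length_enc_U, length_enc_U]
      simp only
      omega
    · omega

theorem PT_predictP (d : ℕ) : PT (predictP d) :=
  PT.not (PT.ule (PT_ksum d true PT.fst PT.snd) (PT_ksum d false PT.fst PT.snd))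

/-- the polynomial of the lengths of the phases -/
noncomputable def phsP (d : ℕ) : Polynomial ℕ :=
  4 * (((d : Polynomial ℕ) + 1) ^ 2 * (2 ^ (d + 1) * (Polynomial.X + 1) + 1) ^ 2 *
    (2 * Polynomial.X + (d : Polynomial ℕ) ^ 2) ^ d) * (Polynomial.X + 1) ^ d

theorem phsP_eval (d n : ℕ) : (phsP d).eval n = phs n d := by
  unfold phs uu phsP
  simp

theorem PT_updateP (d : ℕ) : PT (updateP d) := by
  have hp : PT (fun p : MemP × List Bool × Bool => (p.1, p.2.1)) := PT.pair PT.fst PT.snd.comp_fst
  have hpoly : PT (fun p : MemP × List Bool × Bool => U.mk (phs p.2.1.length d)) := by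
    refine (PT.poly (PT.length (PT.snd (α := MemP) (β := List Bool × Bool)).comp_fst)
      (phsP d)).congr fun p => ?_
    rw [phsP_eval]
  refine PT.ite (PT.beq ((PT_predictP d).comp hp) PT.snd.comp_snd) PT.fst
    (PT.ite (PT.ule (PT.length PT.fst).usucc.usucc hpoly)
      (PT.cons PT.snd PT.fst) (PT.const _))

/-! ### simulation -/

/-- the memory which stores the examples `s` -/
def encS {n : ℕ} (s : List (Ex n)) : MemP := s.map fun e => (List.ofFn e.1, e.2)

theorem agr_ofFn : ∀ {n : ℕ} (x y : Fin n → Bool) (k : ℕ),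
    ((List.ofFn x).zip (List.ofFn y)).foldl
      (fun (s : U) z => if z.1 == z.2 then ⟨s.val + 1⟩ else s) ⟨k⟩ =
      ⟨k + ∑ i, if x i = y i then 1 else 0⟩ := by
  intro n
  induction n with
  | zero =>
    intro x y k
    simp
  | succ n ih =>
    intro x y k
    rw [List.ofFn_succ, List.ofFn_succ, List.zip_cons_cons, List.foldl_cons, Fin.sum_univ_succ]
    by_cases h : x 0 = y 0
    · rw [if_pos (by rw [h]; exact beq_self_eq_true _), if_pos h]
      show List.foldl _ (⟨k + 1⟩ : U) _ = _
      rw [ih (fun i => x i.succ) (fun i => y i.succ) (k + 1), add_assoc]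
    · rw [if_neg (by rwa [beq_iff_eq]), if_neg h]
      rw [ih (fun i => x i.succ) (fun i => y i.succ) k, zero_add]

theorem ker_real {n : ℕ} (d : ℕ) (x' x : Fin n → Bool) :
    ((ker d (List.ofFn x') (List.ofFn x)).val : ℝ) = ∑ α, phi d x' α * phi d x α := by
  unfold phi
  rw [sum_vec_mul, prod_const, card_univ, Fintype.card_fin, zz_sum]
  unfold ker agr
  rw [agr_ofFn]
  show (((1 * ((0 + ∑ i, if x' i = x i then 1 else 0) + 1) ^ d : ℕ)) : ℝ) =
    (1 + ∑ i, (if x' i = x i then (1 : ℝ) else 0)) ^ d
  push_cast
  ring

theorem ksum_fold (d : ℕ) (b : Bool) (x : List Bool) (s : MemP) (k : ℕ) :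
    (s.foldl (fun (t : U) e => if e.2 == b then ⟨t.val + (ker d e.1 x).val⟩ else t) ⟨k⟩).val =
      k + (ksum d b s x).val := by
  induction s generalizing k with
  | nil => rfl
  | cons e s ih =>
    unfold ksum
    rw [List.foldl_cons, List.foldl_cons]
    by_cases h : (e.2 == b) = true
    · rw [if_pos h, if_pos h]
      show (List.foldl _ (⟨k + (ker d e.1 x).val⟩ : U) s).val =
        k + (List.foldl _ (⟨0 + (ker d e.1 x).val⟩ : U) s).val
      rw [ih, ih]
      omega
    · rw [if_neg h, if_neg h, ih]
      rfl

theorem ksum_cons (d : ℕ) (b : Bool) (x : List Bool) (e : List Bool × Bool) (s : MemP) :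
    (ksum d b (e :: s) x).val =
      (if e.2 == b then (ker d e.1 x).val else 0) + (ksum d b s x).val := by
  conv_lhs => unfold ksum
  rw [List.foldl_cons]
  by_cases h : (e.2 == b) = true
  · rw [if_pos h, if_pos h]
    show (List.foldl _ (⟨0 + (ker d e.1 x).val⟩ : U) s).val = _
    rw [ksum_fold]
    omega
  · rw [if_neg h, if_neg h, ksum_fold]

theorem ksum_real {n : ℕ} (d : ℕ) (x : Fin n → Bool) (s : List (Ex n)) :
    ((ksum d true (encS s) (List.ofFn x)).val : ℝ) -
      ((ksum d false (encS s) (List.ofFn x)).val : ℝ) = ∑ α, wt d s α * phi d x α := by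
  induction s with
  | nil =>
    show ((0 : ℕ) : ℝ) - ((0 : ℕ) : ℝ) = ∑ α, (0 : ℝ) * phi d x α
    simp
  | cons e s ih =>
    have h1 : encS (e :: s) = (List.ofFn e.1, e.2) :: encS s := rfl
    rw [h1, ksum_cons, ksum_cons]
    have h2 : ∑ α, wt d (e :: s) α * phi d x α =
        ∑ α, wt d s α * phi d x α + sg e.2 * ∑ α, phi d e.1 α * phi d x α := by
      rw [mul_sum, ← sum_add_distrib]
      apply sum_congr rfl
      intro α _
      show (wt d s α + sg e.2 * phi d e.1 α) * phi d x α = _
      ring
    rw [h2, ← ih, ← ker_real]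
    cases he : e.2
    · show (((if (false == true) = true then (ker d (List.ofFn e.1) (List.ofFn x)).val else 0) +
        (ksum d true (encS s) (List.ofFn x)).val : ℕ) : ℝ) -
        (((if (false == false) = true then (ker d (List.ofFn e.1) (List.ofFn x)).val else 0) +
        (ksum d false (encS s) (List.ofFn x)).val : ℕ) : ℝ) = _ +
        (if false = true then (1 : ℝ) else -1) * _
      rw [if_neg (by decide), if_pos (by decide), if_neg (by decide)]
      push_cast
      ring
    · show (((if (true == true) = true then (ker d (List.ofFn e.1) (List.ofFn x)).val else 0) +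
        (ksum d true (encS s) (List.ofFn x)).val : ℕ) : ℝ) -
        (((if (true == false) = true then (ker d (List.ofFn e.1) (List.ofFn x)).val else 0) +
        (ksum d false (encS s) (List.ofFn x)).val : ℕ) : ℝ) = _ +
        (if true = true then (1 : ℝ) else -1) * _
      rw [if_pos (by decide), if_neg (by decide), if_pos rfl]
      push_cast
      ring

theorem predictP_eq {n : ℕ} (d : ℕ) (s : List (Ex n)) (x : Fin n → Bool) :
    predictP d (encS s, List.ofFn x) = thr (wpoly d s) x := by
  unfold predictP thr
  have h0 := ksum_real d x s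
  rw [← wpoly_eval] at h0
  by_cases h : (ksum d true (encS s) (List.ofFn x)).val ≤ (ksum d false (encS s) (List.ofFn x)).val
  · have h1 : ((ksum d true (encS s) (List.ofFn x)).val : ℝ) ≤
        (ksum d false (encS s) (List.ofFn x)).val := by exact_mod_cast h
    rw [decide_eq_true h, decide_eq_false (by rw [not_lt, ← h0]; linarith)]
    rfl
  · have h1 : ((ksum d false (encS s) (List.ofFn x)).val : ℝ) <
        (ksum d true (encS s) (List.ofFn x)).val := by exact_mod_cast not_le.1 h
    rw [decide_eq_false h, decide_eq_true (by rw [← h0]; linarith)]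
    rfl

theorem updateP_eq {n : ℕ} (d : ℕ) (s : List (Ex n)) (e : Ex n) :
    updateP d (encS s, List.ofFn e.1, e.2) = encS (pstep d s e) := by
  have h0 : (encS s).length = s.length := by
    unfold encS
    rw [List.length_map]
  have h1 : (List.ofFn e.1).length = n := List.length_ofFn
  unfold updateP pstep
  simp only [predictP_eq, h0, h1]
  by_cases h : thr (wpoly d s) e.1 = e.2
  · rw [if_pos h, if_pos (by rw [h]; exact beq_self_eq_true _)]
  · rw [if_neg h, if_neg (by rwa [beq_iff_eq])]
    by_cases h2 : s.length + 1 < phs n d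
    · rw [if_pos h2, if_pos (by rw [decide_eq_true_eq]; exact h2)]
      rfl
    · rw [if_neg h2, if_neg (by rw [decide_eq_true_eq]; exact h2)]
      rfl

theorem run_eq {n : ℕ} (d : ℕ) (S : List (Ex n)) (s : List (Ex n)) :
    (learnerP d).run (encS s) S = encS (S.foldl (pstep d) s) := by
  induction S generalizing s with
  | nil => rfl
  | cons e S ih =>
    show (learnerP d).run (updateP d (encS s, List.ofFn e.1, e.2)) S = _
    rw [updateP_eq, ih, List.foldl_cons]

theorem mistakesP_eq {n : ℕ} (d : ℕ) (S H : List (Ex n)) :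
    (learnerP d).mistakesFrom (encS (pst d H)) S = mistakesAfter (perc d) H S := by
  induction S generalizing H with
  | nil => rfl
  | cons e S ih =>
    show (if predictP d (encS (pst d H), List.ofFn e.1) = e.2 then 0 else 1) +
      (learnerP d).mistakesFrom (updateP d (encS (pst d H), List.ofFn e.1, e.2)) S =
      (if thr (perc d H) e.1 = e.2 then 0 else 1) + mistakesAfter (perc d) (H ++ [e]) S
    rw [updateP_eq, predictP_eq, ← pst_snoc, ih]
    rfl

theorem length_enc_bools : ∀ l : List Bool, (enc l).length = 3 * l.length := by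
  intro l
  induction l with
  | nil => simp [enc_nil]
  | cons b l ih =>
    rw [length_enc_cons, ih, enc_bool]
    show 2 * 1 + 1 + 3 * l.length = 3 * (l.length + 1)
    ring

theorem length_encS {n : ℕ} (s : List (Ex n)) :
    (enc (encS s)).length = s.length * (12 * n + 5) := by
  induction s with
  | nil =>
    show (enc ([] : MemP)).length = _
    rw [enc_nil]
    simp
  | cons e s ih =>
    have h1 : encS (e :: s) = (List.ofFn e.1, e.2) :: encS s := rfl
    rw [h1, length_enc_cons, length_enc_pair, ih, length_enc_bools, enc_bool, List.length_ofFn]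
    show 2 * (2 * (3 * n) + 1 + 1) + 1 + s.length * (12 * n + 5) = (s.length + 1) * (12 * n + 5)
    ring

/-- The learner runs in polynomial time. -/
theorem learnerP_polyTime {d : ℕ} (hd : 1 ≤ d) : (learnerP d).PolyTime where
  predict := (PT_predictP d).isPolyTime
  update := (PT_updateP d).isPolyTime
  memory := by
    refine ⟨phsP d * (12 * Polynomial.X + 5), fun n S => ?_⟩
    have h1 : (learnerP d).run (learnerP d).start S = encS (pst d S) := run_eq d S []
    have h2 : (enc ((learnerP d).run (learnerP d).start S)).length =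
        (pst d S).length * (12 * n + 5) := by
      rw [h1, length_encS]
    refine h2.le.trans ?_
    simp only [Polynomial.eval_mul, Polynomial.eval_add, Polynomial.eval_X, Polynomial.eval_ofNat,
      phsP_eval]
    exact Nat.mul_le_mul_right _ (pst_inv hd S).1.le

/-- **The Perceptron of degree `d`**: a polynomial-time learner, which predicts with thresholds of degree
at most `d`, with ratio `4 (1 + r / d ^ 2)`. -/
theorem polytime_perceptron {d : ℕ} (hd : 1 ≤ d) :
    (learnerP d).PolyTime ∧ ∃ p : Polynomial ℕ, ∀ n : ℕ,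
      ∃ L : List (Ex n) → MvPolynomial (Fin n) ℝ, (∀ H, (L H).totalDegree ≤ d) ∧
        (∀ (H : List (Ex n)) (x : Fin n → Bool), (learnerP d).predict
          ((learnerP d).run (learnerP d).start H, List.ofFn x) = thr (L H) x) ∧
        ∀ S : List (Ex n), (learnerP d).mistakes S = mistakes L S ∧
          (mistakes L S : ℝ) ≤ 4 * (1 + rDisj S / (d : ℝ) ^ 2) * mDisj S + p.eval n := by
  refine ⟨learnerP_polyTime hd, phsP d, fun n => ⟨perc d, fun H => wpoly_degree d _, ?_, ?_⟩⟩
  · intro H x
    have h1 : (learnerP d).run (learnerP d).start H = encS (pst d H) := run_eq d H []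
    rw [h1]
    exact predictP_eq d (pst d H) x
  · intro S
    refine ⟨mistakesP_eq d S [], ?_⟩
    obtain ⟨h, h1, h2⟩ := exists_rmin S
    have h3 := perc_pot hd h S []
    have h4 : pst d ([] : List (Ex n)) = [] := rfl
    have h9 : ((errors h ([] : List (Ex n)) : ℕ) : ℝ) = 0 := by
      show ((0 : ℕ) : ℝ) = 0
      exact Nat.cast_zero
    rw [h4, h9, h1, h2, List.length_nil, Nat.cast_zero, zero_add, sub_zero] at h3
    rw [phsP_eval]
    exact h3

end Pool.Agent.THR72
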