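import Pool.Agent.THR72.Prefix
import Pool.Agent.Lib_helper88.OnlineDisj.Analysis

/-!
# A learner with linear thresholds
-/

namespace Pool.Agent.THR72

open Finset

section

open Pool.Agent.OnlineDisj (Mem memOf ready update predict start learner rt tot phase sat)

/-- the memory describes a threshold -/
def Desc (n : ℕ) (s : Mem) (cnt : ℕ) (b w : Fin n × Bool → ℕ) : Prop :=
  ∀ x : Fin n → Bool, ready (s, List.ofFn x) = memOf cnt b w

lemma desc_update {n : ℕ} (hn : 1 ≤ n) {s : Mem} {cnt : ℕ} {b w : Fin n × Bool → ℕ}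
    (hs : Desc n s cnt b w) (x : Fin n → Bool) (y : Bool) :
    ∃ cnt' b' w', Desc n (update (s, List.ofFn x, y)) cnt' b' w' := by
  rw [OnlineDisj.update_of_ready (hs x) y]
  split_ifs
  · exact ⟨_, _, _, fun x' => OnlineDisj.ready_memOf hn _ _ _ _⟩
  · exact ⟨_, _, _, fun x' => OnlineDisj.ready_start x'⟩
  · exact ⟨_, _, _, fun x' => OnlineDisj.ready_memOf hn _ _ _ _⟩
  · exact ⟨_, _, _, fun x' => OnlineDisj.ready_memOf hn _ _ _ _⟩
  · exact ⟨_, _, _, fun x' => OnlineDisj.ready_memOf hn _ _ _ _⟩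

lemma desc_run {n : ℕ} (hn : 1 ≤ n) : ∀ (S : List (Ex n)) (s : Mem),
    (∃ cnt b w, Desc n s cnt b w) → ∃ cnt b w, Desc n (learner.run s S) cnt b w := by
  intro S
  induction S with
  | nil => exact fun s hs => hs
  | cons e S ih =>
    rintro s ⟨cnt, b, w, hs⟩
    exact ih _ (desc_update hn hs e.1 e.2)

lemma exists_desc {n : ℕ} (hn : 1 ≤ n) (H : List (Ex n)) :
    ∃ w : Fin n × Bool → ℕ, ∃ cnt b, Desc n (learner.run start H) cnt b w := by
  obtain ⟨cnt, b, w, h⟩ := desc_run hn H start ⟨_, _, _, fun x' => OnlineDisj.ready_start x'⟩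
  exact ⟨w, cnt, b, h⟩

/-- the weights after the examples `H` -/
noncomputable def wts {n : ℕ} (hn : 1 ≤ n) (H : List (Ex n)) : Fin n × Bool → ℕ :=
  (exists_desc hn H).choose

/-- the linear polynomial -/
noncomputable def linPoly {n : ℕ} (w : Fin n × Bool → ℕ) : MvPolynomial (Fin n) ℝ :=
  (∑ i, (MvPolynomial.C ((w (i, true) : ℝ) - w (i, false)) * MvPolynomial.X i +
    MvPolynomial.C (w (i, false) : ℝ))) - MvPolynomial.C (2 * (rt n : ℝ) - 1)

lemma linPoly_degree {n : ℕ} (w : Fin n × Bool → ℕ) : (linPoly w).totalDegree ≤ 1 := by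
  unfold linPoly
  refine (MvPolynomial.totalDegree_sub _ _).trans (max_le ?_ ?_)
  · refine (MvPolynomial.totalDegree_finsetSum _ _).trans (Finset.sup_le fun i _ => ?_)
    refine (MvPolynomial.totalDegree_add _ _).trans (max_le ?_ ?_)
    · refine (MvPolynomial.totalDegree_mul _ _).trans ?_
      rw [MvPolynomial.totalDegree_C, MvPolynomial.totalDegree_X]
    · rw [MvPolynomial.totalDegree_C]
      exact Nat.zero_le _
  · rw [MvPolynomial.totalDegree_C]
    exact Nat.zero_le _

lemma linPoly_thr {n : ℕ} (w : Fin n × Bool → ℕ) (x : Fin n → Bool) :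
    thr (linPoly w) x = decide (2 * rt n ≤ tot x w) := by
  unfold thr
  rw [decide_eq_decide]
  have h1 : MvPolynomial.eval (fun i => if x i = true then (1 : ℝ) else 0) (linPoly w) =
      (tot x w : ℝ) - (2 * (rt n : ℝ) - 1) := by
    unfold linPoly
    rw [map_sub, map_sum, MvPolynomial.eval_C]
    congr 1
    have h2 : tot x w = ∑ i, w (i, x i) := by
      unfold tot
      exact OnlineDisj.sum_sat x w
    rw [h2]
    push_cast
    apply sum_congr rfl
    intro i _
    rw [map_add, map_mul, MvPolynomial.eval_C, MvPolynomial.eval_C, MvPolynomial.eval_X]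
    cases h : x i
    · simp
    · simp
  rw [h1]
  constructor
  · intro h
    have h2 : ((2 * rt n : ℕ) : ℝ) < ((tot x w + 1 : ℕ) : ℝ) := by
      push_cast
      linarith
    have h3 : 2 * rt n < tot x w + 1 := by exact_mod_cast h2
    omega
  · intro h
    have h2 : ((2 * rt n : ℕ) : ℝ) ≤ (tot x w : ℝ) := by exact_mod_cast h
    push_cast at h2
    linarith

lemma run_snoc {n : ℕ} (e : Ex n) : ∀ (H : List (Ex n)) (s : Mem),
    learner.run s (H ++ [e]) = update (learner.run s H, List.ofFn e.1, e.2) := by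
  intro H
  induction H with
  | nil => exact fun s => rfl
  | cons f H ih => exact fun s => ih _

lemma mistakes_eq {n : ℕ} (hn : 1 ≤ n) : ∀ (S H : List (Ex n)),
    mistakesAfter (fun H => linPoly (wts hn H)) H S =
      learner.mistakesFrom (learner.run start H) S := by
  intro S
  induction S with
  | nil => exact fun H => rfl
  | cons e S ih =>
    intro H
    show (if thr (linPoly (wts hn H)) e.1 = e.2 then 0 else 1) +
      mistakesAfter (fun H => linPoly (wts hn H)) (H ++ [e]) S =
      (if predict (learner.run start H, List.ofFn e.1) = e.2 then 0 else 1) +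
        learner.mistakesFrom (update (learner.run start H, List.ofFn e.1, e.2)) S
    obtain ⟨cnt, b, h⟩ := (exists_desc hn H).choose_spec
    rw [ih, run_snoc, linPoly_thr, OnlineDisj.predict_of_ready (h e.1)]
    rfl

/-- **A learner with linear thresholds and ratio `O(√n)`.** -/
theorem upper (n : ℕ) (hn : 1 ≤ n) : ∃ L : List (Ex n) → MvPolynomial (Fin n) ℝ,
    (∀ H, (L H).totalDegree ≤ 1) ∧
    ∀ S : List (Ex n), (mistakes L S : ℝ) ≤ 42 * Real.sqrt n * mDisj S + 60 * n ^ 2 := by
  refine ⟨fun H => linPoly (wts hn H), fun H => linPoly_degree _, fun S => ?_⟩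
  obtain ⟨h, hh⟩ := exists_min S
  have h0 : mistakes (fun H => linPoly (wts hn H)) S = learner.mistakes S := mistakes_eq hn S []
  have h1 : learner.mistakes S ≤ (12 * rt n + 18) * errors h S + phase n :=
    OnlineDisj.mistakes_le hn h S
  have h2 : phase n ≤ 60 * n ^ 2 := by
    unfold phase
    have h3 := OnlineDisj.rt_le n
    calc 2 * n * (12 * rt n + 17) ≤ 2 * n * (12 * n + 18 * n) := by
          apply Nat.mul_le_mul_left
          omega
      _ = 60 * n ^ 2 := by ring
  have h3 : (rt n : ℝ) ≤ Real.sqrt n + 1 := by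
    have h4 : ((rt n - 1 : ℕ) : ℝ) ≤ Real.sqrt n := by
      apply Real.le_sqrt_of_sq_le
      have := OnlineDisj.rt_pred_sq n hn
      rw [pow_two]
      exact_mod_cast this.le
    have h5 : (rt n : ℝ) ≤ ((rt n - 1 : ℕ) : ℝ) + 1 := by
      have : rt n ≤ (rt n - 1) + 1 := by omega
      exact_mod_cast this
    linarith
  have h6 : (1 : ℝ) ≤ Real.sqrt n := by
    rw [Real.one_le_sqrt]
    exact_mod_cast hn
  rw [hh] at h1
  rw [h0]
  calc (learner.mistakes S : ℝ) ≤ ((12 * rt n + 18) * mDisj S + phase n : ℕ) := by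
        exact_mod_cast h1
    _ = (12 * (rt n : ℝ) + 18) * mDisj S + phase n := by push_cast; ring
    _ ≤ 42 * Real.sqrt n * mDisj S + 60 * n ^ 2 := by
        apply add_le_add
        · apply mul_le_mul_of_nonneg_right _ (Nat.cast_nonneg _)
          linarith
        · exact_mod_cast h2

end

end Pool.Agent.THR72
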