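import Mathlib

/-!
# Functions of low degree on the contents of blocks
-/

namespace Pool.Agent.THR72

open Finset

/-- the polynomials of degree at most `d` in the bits -/
def LowDeg {A : Type} [Fintype A] {s : ℕ} (d : ℕ) (G : (A → Finset (Fin s)) → ℝ) : Prop :=
  ∃ (J : Type) (I : Finset J) (coef : J → ℝ) (S : J → A → Finset (Fin s)),
    (∀ j ∈ I, ∑ a, (S j a).card ≤ d) ∧
      ∀ x, G x = ∑ j ∈ I, coef j * (open Classical in if ∀ a, S j a ⊆ x a then 1 else 0)

open Classical in
/-- A polynomial of degree at most `d` which is positive if no block is empty is positive somewhere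
where at most `B` blocks are not empty. -/
def NoSep (A : Type) [Fintype A] (s d B : ℕ) : Prop :=
  ∀ G : (A → Finset (Fin s)) → ℝ, LowDeg d G → (∀ x, (∀ a, (x a).Nonempty) → 0 < G x) →
    ∃ x, ((univ : Finset A).filter fun a => (x a).Nonempty).card ≤ B ∧ 0 < G x

end Pool.Agent.THR72
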