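import Pool.Agent.THR72.Content
import Pool.Agent.THR72.Gen

/-!
# No separation, with binomial laws
-/

namespace Pool.Agent.THR72

open Finset

section Moebius

variable {A : Type} [DecidableEq A]

/-- the coefficients are bounded by the values -/
lemma coef_bound : ∀ (T : Finset A) (F c : Finset A → ℝ),
    (∀ Z, F Z = ∑ T' ∈ Z.powerset, c T') → |c T| ≤ ∑ Y ∈ T.powerset, |F Y| := by
  intro T
  induction T using Finset.induction_on with
  | empty =>
    intro F c h
    have h1 := h ∅
    rw [powerset_empty, sum_singleton] at h1 ⊢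
    rw [h1]
  | insert a T ha ih =>
    intro F c h
    set c' : Finset A → ℝ := fun T' => c (insert a T') with hc'
    have h1 := ih (fun Z => ∑ T' ∈ Z.powerset, c' T') c' (fun Z => rfl)
    have h2 : ∀ Y ∈ T.powerset, ∑ T' ∈ Y.powerset, c' T' = F (insert a Y) - F Y := by
      intro Y hY
      have haY : a ∉ Y := fun h3 => ha (mem_powerset.1 hY h3)
      rw [h (insert a Y), h Y, sum_powerset_insert haY]
      ring
    rw [sum_powerset_insert ha]
    calc |c (insert a T)| ≤ ∑ Y ∈ T.powerset, |∑ T' ∈ Y.powerset, c' T'| := h1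
      _ = ∑ Y ∈ T.powerset, |F (insert a Y) - F Y| := sum_congr rfl fun Y hY => by rw [h2 Y hY]
      _ ≤ ∑ Y ∈ T.powerset, (|F Y| + |F (insert a Y)|) := by
        apply sum_le_sum
        intro Y _
        rw [add_comm]
        exact abs_sub _ _
      _ = _ := sum_add_distrib

/-- the value is bounded by the values at the small subsets -/
lemma value_bound {d : ℕ} (F c : Finset A → ℝ) (h : ∀ Z, F Z = ∑ T ∈ Z.powerset, c T)
    (hc : ∀ T, d < T.card → c T = 0) (Z : Finset A) :
    F Z ≤ ∑ Y ∈ Z.powerset.filter fun Y => Y.card ≤ d, 2 ^ (Z.card - Y.card) * |F Y| := by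
  calc F Z = ∑ T ∈ Z.powerset, c T := h Z
    _ = ∑ T ∈ Z.powerset.filter fun T => T.card ≤ d, c T := by
        symm
        apply sum_filter_of_ne
        intro T _ hne
        by_contra h1
        exact hne (hc T (not_le.1 h1))
    _ ≤ ∑ T ∈ Z.powerset.filter fun T => T.card ≤ d, ∑ Y ∈ T.powerset, |F Y| :=
        sum_le_sum fun T _ => (le_abs_self _).trans (coef_bound T F c h)
    _ = ∑ T ∈ Z.powerset.filter fun T => T.card ≤ d,
          ∑ Y ∈ Z.powerset.filter fun Y => Y.card ≤ d, if Y ⊆ T then |F Y| else 0 := by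
        apply sum_congr rfl
        intro T hT
        rw [mem_filter, mem_powerset] at hT
        rw [← sum_filter]
        apply sum_congr _ fun _ _ => rfl
        ext Y
        rw [mem_powerset, mem_filter, mem_filter, mem_powerset]
        constructor
        · intro hY
          exact ⟨⟨hY.trans hT.1, (card_le_card hY).trans hT.2⟩, hY⟩
        · exact fun hY => hY.2
    _ = ∑ Y ∈ Z.powerset.filter fun Y => Y.card ≤ d,
          ∑ T ∈ Z.powerset.filter fun T => T.card ≤ d, if Y ⊆ T then |F Y| else 0 := sum_comm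
    _ ≤ ∑ Y ∈ Z.powerset.filter fun Y => Y.card ≤ d, 2 ^ (Z.card - Y.card) * |F Y| := by
        apply sum_le_sum
        intro Y hY
        rw [mem_filter, mem_powerset] at hY
        rw [← sum_filter, sum_const, nsmul_eq_mul]
        apply mul_le_mul_of_nonneg_right _ (abs_nonneg _)
        have h1 : ((Z.powerset.filter fun T => T.card ≤ d).filter fun T => Y ⊆ T) ⊆
            Finset.Icc Y Z := by
          intro T hT
          rw [mem_filter, mem_filter, mem_powerset] at hT
          exact mem_Icc.2 ⟨hT.2, hT.1.1⟩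
        have h2 := card_le_card h1
        rw [card_Icc_finset hY.1] at h2
        exact_mod_cast h2

end Moebius

section Tail

variable {A : Type} [Fintype A] [DecidableEq A]

lemma sum_super (x : ℝ) (Y : Finset A) :
    ∑ Z ∈ (univ : Finset (Finset A)).filter fun Z => Y ⊆ Z, x ^ (Z.card - Y.card) =
      (1 + x) ^ (univ \ Y).card := by
  have h1 := Finset.sum_pow_mul_eq_add_pow x 1 (univ \ Y)
  rw [add_comm 1 x, ← h1]
  apply sum_nbij' (fun Z => Z \ Y) (fun U => U ∪ Y)
  · intro Z _
    exact mem_powerset.2 (sdiff_subset_sdiff (subset_univ _) (Subset.refl _))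
  · intro U _
    rw [mem_filter]
    exact ⟨mem_univ _, subset_union_right⟩
  · intro Z hZ
    rw [mem_filter] at hZ
    exact sdiff_union_of_subset hZ.2
  · intro U hU
    rw [mem_powerset] at hU
    have hd : Disjoint U Y := disjoint_of_subset_left hU sdiff_disjoint
    show (U ∪ Y) \ Y = U
    rw [union_sdiff_right]
    exact sdiff_eq_self_of_disjoint hd
  · intro Z hZ
    rw [mem_filter] at hZ
    rw [one_pow, mul_one, card_sdiff_of_subset hZ.2]

lemma tail {d j m : ℕ} (hm : 1 ≤ m) (hA : Fintype.card A ≤ j * m) (Y : Finset A)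
    (hY : Y.card ≤ d) :
    ∑ Z ∈ (univ : Finset (Finset A)).filter fun Z => Y ⊆ Z ∧ d + 6 * j < Z.card,
      (1 / (m : ℝ)) ^ Z.card * 2 ^ (Z.card - Y.card) ≤ (1 / (m : ℝ)) ^ Y.card := by
  set ρ : ℝ := 1 / m with hρ
  have hm0 : (0 : ℝ) < m := by exact_mod_cast hm
  have hρ0 : 0 ≤ ρ := by positivity
  have h3 : (0 : ℝ) < 3 ^ (6 * j) := by positivity
  calc ∑ Z ∈ (univ : Finset (Finset A)).filter fun Z => Y ⊆ Z ∧ d + 6 * j < Z.card,
        ρ ^ Z.card * 2 ^ (Z.card - Y.card)
      ≤ ∑ Z ∈ (univ : Finset (Finset A)).filter fun Z => Y ⊆ Z ∧ d + 6 * j < Z.card,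
        ρ ^ Y.card / 3 ^ (6 * j) * (6 * ρ) ^ (Z.card - Y.card) := by
        apply sum_le_sum
        intro Z hZ
        rw [mem_filter] at hZ
        obtain ⟨_, h1, h2⟩ := hZ
        have h4 : Z.card = Y.card + (Z.card - Y.card) := by
          have := card_le_card h1
          omega
        have h5 : 6 * j ≤ Z.card - Y.card := by omega
        set e := Z.card - Y.card with he
        have h6 : (3 : ℝ) ^ (6 * j) ≤ 3 ^ e := pow_le_pow_right₀ (by norm_num) h5
        rw [h4, pow_add]
        have h7 : (6 * ρ) ^ e = 2 ^ e * 3 ^ e * ρ ^ e := by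
          rw [← mul_pow, ← mul_pow]
          norm_num
        rw [h7, div_mul_eq_mul_div, le_div_iff₀ h3]
        have h8 : 0 ≤ ρ ^ Y.card * ρ ^ e * 2 ^ e := by positivity
        calc ρ ^ Y.card * ρ ^ e * 2 ^ e * 3 ^ (6 * j) ≤ ρ ^ Y.card * ρ ^ e * 2 ^ e * 3 ^ e :=
              mul_le_mul_of_nonneg_left h6 h8
          _ = ρ ^ Y.card * (2 ^ e * 3 ^ e * ρ ^ e) := by ring
    _ ≤ ∑ Z ∈ (univ : Finset (Finset A)).filter fun Z => Y ⊆ Z,
        ρ ^ Y.card / 3 ^ (6 * j) * (6 * ρ) ^ (Z.card - Y.card) := by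
        apply sum_le_sum_of_subset_of_nonneg
        · intro Z hZ
          rw [mem_filter] at hZ ⊢
          exact ⟨hZ.1, hZ.2.1⟩
        · intro Z _ _
          positivity
    _ = ρ ^ Y.card / 3 ^ (6 * j) * (1 + 6 * ρ) ^ (univ \ Y).card := by
        rw [← mul_sum, sum_super]
    _ ≤ ρ ^ Y.card / 3 ^ (6 * j) * 3 ^ (6 * j) := by
        apply mul_le_mul_of_nonneg_left _ (by positivity)
        have h1 : (univ \ Y).card ≤ j * m := by
          refine (card_le_card (subset_univ _)).trans ?_
          rw [card_univ]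
          exact hA
        calc (1 + 6 * ρ) ^ (univ \ Y).card ≤ (1 + 6 * ρ) ^ (j * m) :=
              pow_le_pow_right₀ (by linarith [mul_nonneg (by norm_num : (0 : ℝ) ≤ 6) hρ0]) h1
          _ ≤ (Real.exp (6 * ρ)) ^ (j * m) := by
              apply pow_le_pow_left₀ (by positivity)
              rw [add_comm]
              exact Real.add_one_le_exp _
          _ = Real.exp 1 ^ (6 * j) := by
              rw [← Real.exp_nat_mul, ← Real.exp_nat_mul]
              congr 1
              rw [hρ]
              push_cast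
              field_simp
          _ ≤ 3 ^ (6 * j) := by
              apply pow_le_pow_left₀ (Real.exp_nonneg _)
              have := Real.exp_one_lt_d9
              linarith
    _ = ρ ^ Y.card := by
        field_simp

/-- the sum with binomial weights -/
lemma weighted {d j m : ℕ} (hm : 1 ≤ m) (hA : Fintype.card A ≤ j * m) (F c : Finset A → ℝ)
    (h : ∀ Z, F Z = ∑ T ∈ Z.powerset, c T) (hc : ∀ T, d < T.card → c T = 0)
    (hF : ∀ Z : Finset A, Z.card ≤ d + 6 * j → F Z ≤ 0) :
    ∑ Z : Finset A, (1 / (m : ℝ)) ^ Z.card * F Z ≤ 0 := by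
  set ρ : ℝ := 1 / m with hρ
  have hρ0 : 0 ≤ ρ := by positivity
  have h1 : ∑ Z ∈ (univ : Finset (Finset A)).filter fun Z => Z.card ≤ d + 6 * j,
      ρ ^ Z.card * F Z ≤
      ∑ Y ∈ (univ : Finset (Finset A)).filter fun Y => Y.card ≤ d, ρ ^ Y.card * F Y := by
    have hsub : ((univ : Finset (Finset A)).filter fun Y => Y.card ≤ d) ⊆
        (univ : Finset (Finset A)).filter fun Z => Z.card ≤ d + 6 * j := by
      intro Y hY
      rw [mem_filter] at hY ⊢
      exact ⟨hY.1, by omega⟩
    rw [← sum_sdiff hsub]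
    have h2 : ∑ Z ∈ ((univ : Finset (Finset A)).filter fun Z => Z.card ≤ d + 6 * j) \
        ((univ : Finset (Finset A)).filter fun Y => Y.card ≤ d), ρ ^ Z.card * F Z ≤ 0 := by
      apply sum_nonpos
      intro Z hZ
      rw [mem_sdiff, mem_filter] at hZ
      exact mul_nonpos_of_nonneg_of_nonpos (by positivity) (hF Z hZ.1.2)
    linarith
  have h2 : ∑ Z ∈ (univ : Finset (Finset A)).filter fun Z => ¬ Z.card ≤ d + 6 * j,
      ρ ^ Z.card * F Z ≤
      ∑ Y ∈ (univ : Finset (Finset A)).filter fun Y => Y.card ≤ d, ρ ^ Y.card * |F Y| := by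
    calc ∑ Z ∈ (univ : Finset (Finset A)).filter fun Z => ¬ Z.card ≤ d + 6 * j, ρ ^ Z.card * F Z
        ≤ ∑ Z ∈ (univ : Finset (Finset A)).filter fun Z => ¬ Z.card ≤ d + 6 * j, ρ ^ Z.card *
            ∑ Y ∈ Z.powerset.filter fun Y => Y.card ≤ d, 2 ^ (Z.card - Y.card) * |F Y| :=
          sum_le_sum fun Z _ => mul_le_mul_of_nonneg_left (value_bound F c h hc Z) (by positivity)
      _ = ∑ Z ∈ (univ : Finset (Finset A)).filter fun Z => ¬ Z.card ≤ d + 6 * j,
            ∑ Y ∈ (univ : Finset (Finset A)).filter fun Y => Y.card ≤ d,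
              if Y ⊆ Z then ρ ^ Z.card * 2 ^ (Z.card - Y.card) * |F Y| else 0 := by
          apply sum_congr rfl
          intro Z _
          rw [← sum_filter, mul_sum]
          apply sum_congr
          · ext Y
            rw [mem_filter, mem_filter, mem_filter, mem_powerset]
            constructor
            · exact fun h3 => ⟨⟨mem_univ _, h3.2⟩, h3.1⟩
            · exact fun h3 => ⟨h3.2, h3.1.2⟩
          · intro Y _
            ring
      _ = ∑ Y ∈ (univ : Finset (Finset A)).filter fun Y => Y.card ≤ d,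
            ∑ Z ∈ (univ : Finset (Finset A)).filter fun Z => ¬ Z.card ≤ d + 6 * j,
              if Y ⊆ Z then ρ ^ Z.card * 2 ^ (Z.card - Y.card) * |F Y| else 0 := sum_comm
      _ ≤ ∑ Y ∈ (univ : Finset (Finset A)).filter fun Y => Y.card ≤ d, ρ ^ Y.card * |F Y| := by
          apply sum_le_sum
          intro Y hY
          rw [mem_filter] at hY
          rw [← sum_filter, filter_filter, ← sum_mul]
          apply mul_le_mul_of_nonneg_right _ (abs_nonneg _)
          refine le_trans (le_of_eq ?_) (tail hm hA Y hY.2)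
          apply sum_congr _ fun _ _ => rfl
          ext Z
          rw [mem_filter, mem_filter, not_le]
          exact and_congr_right fun _ => and_comm
  rw [← sum_filter_add_sum_filter_not univ fun Z : Finset A => Z.card ≤ d + 6 * j]
  have h3 : ∑ Y ∈ (univ : Finset (Finset A)).filter fun Y => Y.card ≤ d, ρ ^ Y.card * |F Y| =
      -∑ Y ∈ (univ : Finset (Finset A)).filter fun Y => Y.card ≤ d, ρ ^ Y.card * F Y := by
    rw [← sum_neg_distrib]
    apply sum_congr rfl
    intro Y hY
    rw [mem_filter] at hY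
    rw [abs_of_nonpos (hF Y (by omega))]
    ring
  linarith

end Tail

end Pool.Agent.THR72
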