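import Pool.Agent.THR72.Binom

/-!
# No separation, with binomial laws, continued
-/

namespace Pool.Agent.THR72

open Finset

variable {A : Type} [Fintype A] {d s : ℕ}

open Classical in
/-- expectations of products -/
lemma sum_prodA (κ : A → Finset (Fin s) → ℝ) (S : A → Finset (Fin s)) :
    ∑ x : A → Finset (Fin s), (∏ a, κ a (x a)) * (if ∀ a, S a ⊆ x a then 1 else 0) =
      ∏ a, ∑ X, κ a X * (if S a ⊆ X then 1 else 0) := by
  rw [prod_univ_sum, Fintype.piFinset_univ]
  apply sum_congr rfl
  intro x _
  rw [prod_mul_distrib]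
  congr 1
  by_cases h : ∀ a, S a ⊆ x a
  · rw [if_pos h]
    symm
    apply prod_eq_one
    intro a _
    rw [if_pos (h a)]
  · rw [if_neg h]
    push Not at h
    obtain ⟨a, ha⟩ := h
    symm
    exact prod_eq_zero (mem_univ a) (if_neg ha)

open Classical in
/-- the law of the contents, given the set of blocks -/
noncomputable def kapA (μ : Finset (Fin s) → ℝ) (Z : Finset A) (a : A) (X : Finset (Fin s)) : ℝ :=
  if a ∈ Z then μ X else if X = ∅ then 1 else 0

open Classical in
/-- the blocks of a monomial -/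
noncomputable def sup (S : A → Finset (Fin s)) : Finset A := univ.filter fun a => (S a).Nonempty

lemma sup_card (S : A → Finset (Fin s)) (hS : ∑ a, (S a).card ≤ d) : (sup S).card ≤ d := by
  refine le_trans ?_ hS
  calc (sup S).card = ∑ a ∈ sup S, 1 := by rw [card_eq_sum_ones]
    _ ≤ ∑ a ∈ sup S, (S a).card := by
      apply sum_le_sum
      intro a ha
      unfold sup at ha
      rw [mem_filter] at ha
      exact ha.2.card_pos
    _ ≤ ∑ a, (S a).card := sum_le_sum_of_subset (subset_univ _)

lemma sup_empty (S : A → Finset (Fin s)) (a : A) (ha : a ∉ sup S) : S a = ∅ := by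
  unfold sup at ha
  rw [mem_filter, not_and] at ha
  exact not_nonempty_iff_eq_empty.1 (ha (mem_univ a))

open Classical in
/-- the product law -/
lemma prod_law {ν : Finset (Fin s) → ℝ} (hν : ∑ X, ν X = 1) (S : A → Finset (Fin s)) :
    ∑ x : A → Finset (Fin s), (∏ a, ν (x a)) * (if ∀ a, S a ⊆ x a then 1 else 0) =
      ∏ a ∈ sup S, ∑ X, ν X * (if S a ⊆ X then 1 else 0) := by
  rw [sum_prodA (fun _ => ν) S]
  symm
  apply prod_subset (subset_univ (sup S))
  intro a _ ha
  rw [sup_empty S a ha]
  simp [hν]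

open Classical in
/-- the other law -/
lemma cond_law {μ : Finset (Fin s) → ℝ} (hμ : ∑ X, μ X = 1) (Z : Finset A)
    (S : A → Finset (Fin s)) :
    ∑ x : A → Finset (Fin s), (∏ a, kapA μ Z a (x a)) * (if ∀ a, S a ⊆ x a then 1 else 0) =
      (if sup S ⊆ Z then 1 else 0) * ∏ a ∈ sup S, ∑ X, μ X * (if S a ⊆ X then 1 else 0) := by
  rw [sum_prodA (fun a => kapA μ Z a) S]
  by_cases hc : sup S ⊆ Z
  · rw [if_pos hc, one_mul]
    symm
    have e1 : ∏ a ∈ sup S, ∑ X, μ X * (if S a ⊆ X then 1 else 0) =
        ∏ a ∈ sup S, ∑ X, kapA μ Z a X * (if S a ⊆ X then 1 else 0) := by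
      apply prod_congr rfl
      intro a ha
      apply sum_congr rfl
      intro X _
      unfold kapA
      rw [if_pos (hc ha)]
    rw [e1]
    apply prod_subset (subset_univ (sup S))
    intro a _ ha
    rw [sup_empty S a ha]
    by_cases h : a ∈ Z
    · simp only [kapA, if_pos h, empty_subset, if_true, mul_one]
      exact hμ
    · simp only [kapA, if_neg h, empty_subset, if_true, mul_one]
      rw [sum_ite_eq' univ ∅ fun _ => (1 : ℝ), if_pos (mem_univ _)]
  · rw [if_neg hc, zero_mul]
    obtain ⟨a, ha, hne⟩ := not_subset.1 hc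
    apply prod_eq_zero (mem_univ a)
    apply sum_eq_zero
    intro X _
    unfold kapA
    rw [if_neg hne]
    by_cases hX : X = ∅
    · rw [if_pos hX, if_neg]
      · ring
      · intro h
        rw [hX, subset_empty] at h
        unfold sup at ha
        rw [mem_filter] at ha
        rw [h] at ha
        exact not_nonempty_empty ha.2
    · rw [if_neg hX, zero_mul]

open Classical in
/-- **No separation with binomial laws.** -/
theorem noSep_binom (A : Type) [Fintype A] (d j m : ℕ) (hd : 1 ≤ d) (hm : 1 ≤ m)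
    (hA : Fintype.card A ≤ j * m) : NoSep A ((4 * (m + 1) + 1) * d ^ 2) d (d + 6 * j) := by
  intro G hG hpos
  obtain ⟨μ, ν, hμ0, hν0, hνe, hμ, hν, hμν⟩ := exists_contents d (m + 1) hd (by omega)
  generalize (4 * (m + 1) + 1) * d ^ 2 = s at *
  by_contra hno
  push Not at hno
  obtain ⟨J, I, coef, S, hS, hGx⟩ := hG
  have hm0 : (0 : ℝ) < m := by exact_mod_cast hm
  set ρ : ℝ := 1 / m with hρ
  have hρ0 : 0 < ρ := by positivity
  have hmρ : ((m + 1 : ℕ) : ℝ) * ρ = 1 + ρ := by
    rw [hρ]
    push_cast
    field_simp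
  -- expansions
  have e1 : ∀ w : (A → Finset (Fin s)) → ℝ, ∑ x, w x * G x =
      ∑ i ∈ I, coef i * ∑ x, w x * (if ∀ a, S i a ⊆ x a then 1 else 0) := by
    intro w
    simp only [mul_sum]
    rw [sum_comm]
    apply sum_congr rfl
    intro x _
    rw [hGx x, mul_sum]
    apply sum_congr rfl
    intro i _
    ring
  set W : J → ℝ := fun i => ∏ a ∈ sup (S i), ∑ X, μ X * (if S i a ⊆ X then 1 else 0) with hW
  set F : Finset A → ℝ := fun Z => ∑ x : A → Finset (Fin s), (∏ a, kapA μ Z a (x a)) * G x with hF
  have hFZ : ∀ Z, F Z = ∑ i ∈ I, coef i * ((if sup (S i) ⊆ Z then 1 else 0) * W i) := by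
    intro Z
    show ∑ x : A → Finset (Fin s), (∏ a, kapA μ Z a (x a)) * G x = _
    rw [e1]
    apply sum_congr rfl
    intro i _
    rw [cond_law hμ Z (S i)]
  have h1 := weighted (d := d) (j := j) hm hA F
    (fun T => ∑ i ∈ I, if sup (S i) = T then coef i * W i else 0) (by
      intro Z
      rw [hFZ Z, sum_comm]
      apply sum_congr rfl
      intro i _
      rw [sum_ite_eq]
      by_cases h : sup (S i) ⊆ Z
      · rw [if_pos h, if_pos (mem_powerset.2 h), one_mul]
      · rw [if_neg h, if_neg (fun h2 => h (mem_powerset.1 h2)), zero_mul, mul_zero]) (by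
      intro T hT
      apply sum_eq_zero
      intro i hi
      rw [if_neg]
      intro h
      have := sup_card (S i) (hS i hi)
      rw [h] at this
      omega) (by
      intro Z hZ
      apply sum_nonpos
      intro x _
      by_cases h : ∀ a, a ∉ Z → x a = ∅
      · apply mul_nonpos_of_nonneg_of_nonpos
        · apply prod_nonneg
          intro a _
          unfold kapA
          split_ifs
          · exact hμ0 _
          · exact zero_le_one
          · exact le_refl _
        · apply hno x
          refine (card_le_card ?_).trans hZ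
          intro a ha
          rw [mem_filter] at ha
          by_contra h2
          exact ha.2.ne_empty (h a h2)
      · push Not at h
        obtain ⟨a, ha, hne⟩ := h
        have : ∏ a, kapA μ Z a (x a) = 0 := by
          apply prod_eq_zero (mem_univ a)
          unfold kapA
          rw [if_neg ha, if_neg hne.ne_empty]
        rw [this, zero_mul])
  -- the sum is the expectation under the product law
  have h2 : ∑ Z : Finset A, ρ ^ Z.card * F Z =
      (1 + ρ) ^ Fintype.card A * ∑ x : A → Finset (Fin s), (∏ a, ν (x a)) * G x := by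
    rw [e1, mul_sum]
    have h9 : ∀ Z, ρ ^ Z.card * F Z =
        ∑ i ∈ I, ρ ^ Z.card * (coef i * ((if sup (S i) ⊆ Z then 1 else 0) * W i)) :=
      fun Z => by rw [hFZ Z, mul_sum]
    simp only [h9]
    rw [sum_comm]
    apply sum_congr rfl
    intro i hi
    have h3 : ∑ Z : Finset A, ρ ^ Z.card * (coef i * ((if sup (S i) ⊆ Z then 1 else 0) * W i)) =
        coef i * W i * ∑ Z ∈ (univ : Finset (Finset A)).filter fun Z => sup (S i) ⊆ Z,
          ρ ^ Z.card := by
      rw [sum_filter, mul_sum]
      apply sum_congr rfl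
      intro Z _
      split_ifs <;> ring
    have h4 : ∑ Z ∈ (univ : Finset (Finset A)).filter fun Z => sup (S i) ⊆ Z, ρ ^ Z.card =
        ρ ^ (sup (S i)).card * (1 + ρ) ^ (univ \ sup (S i)).card := by
      rw [← sum_super ρ (sup (S i)), mul_sum]
      apply sum_congr rfl
      intro Z hZ
      rw [mem_filter] at hZ
      rw [← pow_add, Nat.add_sub_cancel' (card_le_card hZ.2)]
    have h5 : W i = ((m + 1 : ℕ) : ℝ) ^ (sup (S i)).card *
        ∏ a ∈ sup (S i), ∑ X, ν X * (if S i a ⊆ X then 1 else 0) := by
      show ∏ a ∈ sup (S i), ∑ X, μ X * (if S i a ⊆ X then 1 else 0) = _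
      rw [← prod_const, ← prod_mul_distrib]
      apply prod_congr rfl
      intro a ha
      unfold sup at ha
      rw [mem_filter] at ha
      apply hμν _ ha.2
      exact (single_le_sum (f := fun a => (S i a).card) (fun _ _ => Nat.zero_le _)
        (mem_univ a)).trans (hS i hi)
    have h6 : (1 + ρ) ^ Fintype.card A =
        (1 + ρ) ^ (sup (S i)).card * (1 + ρ) ^ (univ \ sup (S i)).card := by
      rw [← pow_add, card_sdiff_of_subset (subset_univ _), card_univ,
        Nat.add_sub_cancel' (card_le_univ _)]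
    have h7 : ∀ e : ℕ, (1 + ρ) ^ e = ((m + 1 : ℕ) : ℝ) ^ e * ρ ^ e := by
      intro e
      rw [← mul_pow, hmρ]
    rw [h3, h4, h5, prod_law hν (S i), h6, h7 (sup (S i)).card]
    ring
  -- the right hand side is positive
  have hmass : ∑ x : A → Finset (Fin s), ∏ a, ν (x a) = 1 := by
    have := sum_prodA (fun _ : A => ν) (fun _ => (∅ : Finset (Fin s)))
    simpa [hν] using this
  have hw : ∀ x : A → Finset (Fin s), 0 ≤ ∏ a, ν (x a) := fun x => prod_nonneg fun a _ => hν0 _
  have hterm : ∀ x : A → Finset (Fin s), 0 ≤ (∏ a, ν (x a)) * G x := by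
    intro x
    by_cases h : ∀ a, (x a).Nonempty
    · exact mul_nonneg (hw x) (hpos x h).le
    · push Not at h
      obtain ⟨a, ha⟩ := h
      have : ∏ a, ν (x a) = 0 := prod_eq_zero (mem_univ a) (by rw [ha]; exact hνe)
      rw [this, zero_mul]
  have hR : 0 < ∑ x : A → Finset (Fin s), (∏ a, ν (x a)) * G x := by
    obtain ⟨x, hx⟩ : ∃ x : A → Finset (Fin s), 0 < ∏ a, ν (x a) := by
      by_contra h
      push Not at h
      have : ∑ x : A → Finset (Fin s), ∏ a, ν (x a) ≤ 0 := sum_nonpos fun x _ => h x
      linarith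
    have hne : ∀ a, (x a).Nonempty := by
      intro a
      by_contra h
      rw [not_nonempty_iff_eq_empty] at h
      have : ∏ a, ν (x a) = 0 := prod_eq_zero (mem_univ a) (by rw [h]; exact hνe)
      linarith
    exact sum_pos' (fun x _ => hterm x) ⟨x, mem_univ x, mul_pos hx (hpos x hne)⟩
  have h8 : 0 < (1 + ρ) ^ Fintype.card A * ∑ x : A → Finset (Fin s), (∏ a, ν (x a)) * G x := by
    positivity
  rw [← h2] at h8
  exact absurd h1 (not_le.2 h8)

end Pool.Agent.THR72
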