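import Mathlib

/-!
# Two laws on a line with the same moments up to a given order
-/

namespace Pool.Agent.THR72

open Finset Polynomial

/-- the square distance from `j` to `d` times `L` -/
def node (L d j : ℕ) : ℕ := L * ((j - d) ^ 2 + (d - j) ^ 2)

lemma node_cast (L d j : ℕ) : ((node L d j : ℕ) : ℝ) = L * ((j : ℝ) - d) ^ 2 := by
  unfold node
  rcases le_total j d with h | h
  · rw [Nat.sub_eq_zero_of_le h]
    push_cast [Nat.cast_sub h]
    ring
  · rw [Nat.sub_eq_zero_of_le h]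
    push_cast [Nat.cast_sub h]
    ring

/-- the alternating sum -/
lemma alternating {d : ℕ} (L : ℕ) (r : ℝ[X]) (hr : r.natDegree < d) :
    ∑ j ∈ range (2 * d + 1), (-1 : ℝ) ^ j * ((2 * d).choose j) * r.eval (node L d j : ℝ) = 0 := by
  set P : ℝ[X] := r.comp (C (L : ℝ) * (X - C (d : ℝ)) ^ 2) with hP
  have hdeg : P.natDegree < 2 * d := by
    have h1 : (C (L : ℝ) * (X - C (d : ℝ)) ^ 2).natDegree ≤ 2 := by
      refine (natDegree_C_mul_le _ _).trans ?_
      refine natDegree_pow_le.trans ?_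
      rw [natDegree_X_sub_C]
    have h2 : P.natDegree ≤ r.natDegree * 2 :=
      natDegree_comp_le.trans (Nat.mul_le_mul_left _ h1)
    omega
  have h1 := congrFun (Polynomial.fwdDiff_iter_eq_zero_of_degree_lt hdeg) 0
  rw [fwdDiff_iter_eq_sum_shift] at h1
  rw [Pi.zero_apply] at h1
  rw [← h1]
  apply sum_congr rfl
  intro j hj
  have hj' : j ≤ 2 * d := by have := mem_range.1 hj; omega
  have e1 : P.eval ((0 : ℝ) + j • (1 : ℝ)) = r.eval (node L d j : ℝ) := by
    rw [hP, eval_comp, node_cast]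
    simp
  rw [e1]
  have e2 : ((-1 : ℤ) ^ (2 * d - j)) = (-1) ^ j := by
    have h3 : (-1 : ℤ) ^ (2 * d - j) * (-1) ^ j = 1 := by
      rw [← pow_add, Nat.sub_add_cancel hj', pow_mul]
      norm_num
    have h4 : (-1 : ℤ) ^ j * (-1) ^ j = 1 := by
      rw [← mul_pow]
      norm_num
    have h5 : (-1 : ℤ) ^ j ≠ 0 := pow_ne_zero _ (by norm_num)
    exact mul_right_cancel₀ h5 (h3.trans h4.symm)
  rw [e2, zsmul_eq_mul]
  push_cast
  ring

/-- the weights -/
noncomputable def bwt (L d j : ℕ) : ℝ :=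
  -((-1 : ℝ) ^ (j + d) * (((2 * d).choose j : ℝ) / ((2 * d).choose d)) / ((node L d j : ℝ) - 1))

lemma choose_pos' (d : ℕ) : (0 : ℝ) < ((2 * d).choose d) := by
  exact_mod_cast Nat.choose_pos (by omega)

lemma node_ne_one {L d j : ℕ} (hL : 2 ≤ L) : (node L d j : ℝ) ≠ 1 := by
  have : node L d j ≠ 1 := by
    unfold node
    intro h
    have := Nat.eq_one_of_mul_eq_one_right h
    omega
  exact_mod_cast this

lemma bwt_sum {d L : ℕ} (hd : 1 ≤ d) (hL : 2 ≤ L) (p : ℝ[X]) (hp : p.natDegree ≤ d) :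
    ∑ j ∈ range (2 * d + 1), bwt L d j * (p.eval (node L d j : ℝ) - p.eval 1) = 0 := by
  obtain ⟨r, hr⟩ : (X - C 1) ∣ p - C (p.eval 1) := by
    rw [dvd_iff_isRoot]
    simp
  have hdeg : r.natDegree < d := by
    by_cases h0 : r = 0
    · rw [h0, natDegree_zero]
      omega
    · have h1 : (p - C (p.eval 1)).natDegree = 1 + r.natDegree := by
        rw [hr, natDegree_mul (X_sub_C_ne_zero 1) h0, natDegree_X_sub_C]
      have h2 : (p - C (p.eval 1)).natDegree ≤ d := (natDegree_sub_C (a := p.eval 1)).le.trans hp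
      omega
  have h1 := alternating L r hdeg
  have h2 : ∑ j ∈ range (2 * d + 1), bwt L d j * (p.eval (node L d j : ℝ) - p.eval 1) =
      -((-1) ^ d / ((2 * d).choose d)) *
        ∑ j ∈ range (2 * d + 1), (-1 : ℝ) ^ j * ((2 * d).choose j) * r.eval (node L d j : ℝ) := by
    rw [mul_sum]
    apply sum_congr rfl
    intro j _
    have h3 : p.eval (node L d j : ℝ) - p.eval 1 =
        ((node L d j : ℝ) - 1) * r.eval (node L d j : ℝ) := by
      have := congrArg (fun f => f.eval (node L d j : ℝ)) hr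
      simpa using this
    have h4 : (node L d j : ℝ) - 1 ≠ 0 := sub_ne_zero.2 (node_ne_one hL)
    have h5 := (choose_pos' d).ne'
    rw [h3]
    unfold bwt
    rw [pow_add]
    field_simp
  rw [h2, h1, mul_zero]

lemma bwt_self (L d : ℕ) : bwt L d d = 1 := by
  unfold bwt
  have h1 : node L d d = 0 := by
    unfold node
    simp
  have h2 : (-1 : ℝ) ^ (d + d) = 1 := by
    rw [← two_mul, pow_mul]
    norm_num
  rw [h1, h2, div_self (choose_pos' d).ne']
  norm_num

lemma abs_bwt_le {L d j : ℕ} (hL : 2 ≤ L) (hj : j ≠ d) :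
    |bwt L d j| ≤ 1 / ((L - 1) * ((j : ℝ) - d) ^ 2) := by
  have hL' : (1 : ℝ) ≤ (L : ℝ) - 1 := by
    have : (2 : ℝ) ≤ L := by exact_mod_cast hL
    linarith
  have hsq : (1 : ℝ) ≤ ((j : ℝ) - d) ^ 2 := by
    have h1 : (1 : ℤ) ≤ ((j : ℤ) - d) ^ 2 := by
      have : (j : ℤ) - d ≠ 0 := by
        rw [sub_ne_zero]
        exact_mod_cast hj
      have := pow_pos (abs_pos.2 this) 2
      rw [sq_abs] at this
      omega
    exact_mod_cast h1
  have h1 : (L - 1) * ((j : ℝ) - d) ^ 2 ≤ (node L d j : ℝ) - 1 := by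
    rw [node_cast]
    nlinarith
  have h0 : 0 < (L - 1) * ((j : ℝ) - d) ^ 2 := by nlinarith
  have h2 : 0 < (node L d j : ℝ) - 1 := lt_of_lt_of_le h0 h1
  have h3 : ((2 * d).choose j : ℝ) / ((2 * d).choose d) ≤ 1 := by
    rw [div_le_one (choose_pos' d)]
    have := Nat.choose_le_middle j (2 * d)
    rw [Nat.mul_div_cancel_left _ (by norm_num)] at this
    exact_mod_cast this
  have h4 : 0 ≤ ((2 * d).choose j : ℝ) / ((2 * d).choose d) := by positivity
  unfold bwt
  rw [abs_neg, abs_div, abs_mul, abs_pow, abs_neg, abs_one, one_pow, one_mul, abs_of_nonneg h4,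
    abs_of_pos h2]
  calc ((2 * d).choose j : ℝ) / ((2 * d).choose d) / ((node L d j : ℝ) - 1)
      ≤ 1 / ((node L d j : ℝ) - 1) := by gcongr
    _ ≤ 1 / ((L - 1) * ((j : ℝ) - d) ^ 2) := one_div_le_one_div_of_le h0 h1

lemma sum_sq_inv (d : ℕ) : ∑ j ∈ (range (2 * d + 1)).erase d, 1 / ((j : ℝ) - d) ^ 2 ≤ 4 := by
  have hsplit : (range (2 * d + 1)).erase d ⊆ range d ∪ Ioo d (2 * d + 1) := by
    intro j hj
    rw [mem_erase, mem_range] at hj
    rw [mem_union, mem_range, mem_Ioo]
    omega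
  have hnn : ∀ j : ℕ, (0 : ℝ) ≤ 1 / ((j : ℝ) - d) ^ 2 := fun j => by positivity
  have h1 : ∑ j ∈ range d, 1 / ((j : ℝ) - d) ^ 2 ≤ 2 := by
    have e1 : ∑ j ∈ range d, 1 / ((j : ℝ) - d) ^ 2 = ∑ m ∈ Ioo 0 (d + 1), ((m : ℝ) ^ 2)⁻¹ := by
      apply sum_nbij' (fun j => d - j) (fun m => d - m)
      · intro j hj
        rw [mem_range] at hj
        rw [mem_Ioo]
        omega
      · intro m hm
        rw [mem_Ioo] at hm
        rw [mem_range]
        omega
      · intro j hj
        rw [mem_range] at hj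
        omega
      · intro m hm
        rw [mem_Ioo] at hm
        omega
      · intro j hj
        rw [mem_range] at hj
        rw [Nat.cast_sub hj.le, one_div]
        congr 1
        ring
    rw [e1]
    refine (sum_Ioo_inv_sq_le 0 (d + 1)).trans ?_
    norm_num
  have h2 : ∑ j ∈ Ioo d (2 * d + 1), 1 / ((j : ℝ) - d) ^ 2 ≤ 2 := by
    have e1 : ∑ j ∈ Ioo d (2 * d + 1), 1 / ((j : ℝ) - d) ^ 2 =
        ∑ m ∈ Ioo 0 (d + 1), ((m : ℝ) ^ 2)⁻¹ := by
      apply sum_nbij' (fun j => j - d) (fun m => d + m)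
      · intro j hj
        rw [mem_Ioo] at hj ⊢
        omega
      · intro m hm
        rw [mem_Ioo] at hm ⊢
        omega
      · intro j hj
        rw [mem_Ioo] at hj
        omega
      · intro m hm
        rw [mem_Ioo] at hm
        omega
      · intro j hj
        rw [mem_Ioo] at hj
        rw [Nat.cast_sub hj.1.le, one_div]
    rw [e1]
    refine (sum_Ioo_inv_sq_le 0 (d + 1)).trans ?_
    norm_num
  calc ∑ j ∈ (range (2 * d + 1)).erase d, 1 / ((j : ℝ) - d) ^ 2
      ≤ ∑ j ∈ range d ∪ Ioo d (2 * d + 1), 1 / ((j : ℝ) - d) ^ 2 :=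
        sum_le_sum_of_subset_of_nonneg hsplit fun j _ _ => hnn j
    _ ≤ ∑ j ∈ range d, 1 / ((j : ℝ) - d) ^ 2 + ∑ j ∈ Ioo d (2 * d + 1), 1 / ((j : ℝ) - d) ^ 2 := by
        rw [← sum_union_inter]
        exact le_add_of_nonneg_right (sum_nonneg fun j _ => hnn j)
    _ ≤ 4 := by linarith

/-- **The two laws.** -/
theorem exists_laws (d q : ℕ) (hd : 1 ≤ d) (hq : 1 ≤ q) : ∃ pN pP : ℕ → ℝ,
    (∀ t, 0 ≤ pN t) ∧ (∀ t, 0 ≤ pP t) ∧ pP 0 = 0 ∧ 1 - 1 / (q : ℝ) ≤ pN 0 ∧
    ∑ t ∈ range ((4 * q + 1) * d ^ 2 + 1), pN t = 1 ∧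
    ∀ p : ℝ[X], p.natDegree ≤ d →
      ∑ t ∈ range ((4 * q + 1) * d ^ 2 + 1), pN t * p.eval (t : ℝ) =
        ∑ t ∈ range ((4 * q + 1) * d ^ 2 + 1), pP t * p.eval (t : ℝ) := by
  set L := 4 * q + 1 with hLdef
  have hL : 2 ≤ L := by omega
  have hq0 : (0 : ℝ) < q := by exact_mod_cast hq
  set R := range (2 * d + 1) with hR
  have hdR : d ∈ R := by rw [hR, mem_range]; omega
  -- the sum of the absolute values
  have habs : ∑ j ∈ R.erase d, |bwt L d j| ≤ 1 / q := by
    calc ∑ j ∈ R.erase d, |bwt L d j| ≤ ∑ j ∈ R.erase d, 1 / (4 * q) * (1 / ((j : ℝ) - d) ^ 2) := by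
          apply sum_le_sum
          intro j hj
          refine (abs_bwt_le hL (ne_of_mem_erase hj)).trans (le_of_eq ?_)
          have : (L : ℝ) - 1 = 4 * q := by rw [hLdef]; push_cast; ring
          rw [this, one_div_mul_one_div]
      _ = 1 / (4 * q) * ∑ j ∈ R.erase d, (1 / ((j : ℝ) - d) ^ 2) := by rw [mul_sum]
      _ ≤ 1 / (4 * q) * 4 := by
          have := sum_sq_inv d
          gcongr
      _ = 1 / q := by field_simp
  set Z : ℝ := ∑ j ∈ R, max (bwt L d j) 0 with hZ
  have hZ1 : 1 ≤ Z := by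
    rw [hZ, ← add_sum_erase _ _ hdR, bwt_self]
    have : 0 ≤ ∑ j ∈ R.erase d, max (bwt L d j) 0 := sum_nonneg fun j _ => le_max_right _ _
    have h2 : max (1 : ℝ) 0 = 1 := by norm_num
    rw [h2]
    linarith
  have hZ2 : Z ≤ 1 + 1 / q := by
    rw [hZ, ← add_sum_erase _ _ hdR, bwt_self]
    have h1 : ∑ j ∈ R.erase d, max (bwt L d j) 0 ≤ ∑ j ∈ R.erase d, |bwt L d j| :=
      sum_le_sum fun j _ => max_le (le_abs_self _) (abs_nonneg _)
    have h2 : max (1 : ℝ) 0 = 1 := by norm_num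
    rw [h2]
    linarith
  have hZ0 : 0 < Z := by linarith
  set A : ℝ := ∑ j ∈ R, bwt L d j with hA
  have hA0 : 0 ≤ A := by
    rw [hA, ← add_sum_erase _ _ hdR, bwt_self]
    have h1 : -∑ j ∈ R.erase d, |bwt L d j| ≤ ∑ j ∈ R.erase d, bwt L d j := by
      rw [← sum_neg_distrib]
      exact sum_le_sum fun j _ => neg_abs_le _
    have h2 : 1 / (q : ℝ) ≤ 1 := by
      rw [div_le_one hq0]
      exact_mod_cast hq
    linarith
  have hbound : ∀ j ∈ R, node L d j ∈ range (L * d ^ 2 + 1) := by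
    intro j hj
    rw [hR, mem_range] at hj
    rw [mem_range]
    unfold node
    have h1 : (j - d) ^ 2 + (d - j) ^ 2 ≤ d ^ 2 := by
      rcases le_total j d with h | h
      · rw [Nat.sub_eq_zero_of_le h]
        have := Nat.pow_le_pow_left (Nat.sub_le d j) 2
        simpa using this
      · rw [Nat.sub_eq_zero_of_le h]
        have h2 : j - d ≤ d := by omega
        have := Nat.pow_le_pow_left h2 2
        simpa using this
    exact Nat.lt_succ_of_le (Nat.mul_le_mul_left _ h1)
  have hone : (1 : ℕ) ∈ range (L * d ^ 2 + 1) := by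
    rw [mem_range]
    have h1 : 1 ≤ d ^ 2 := Nat.one_le_pow _ _ hd
    nlinarith
  -- the sums over the nodes
  have key : ∀ (c : ℕ → ℝ) (f : ℕ → ℝ), ∑ t ∈ range (L * d ^ 2 + 1),
      (∑ j ∈ R, if node L d j = t then c j else 0) * f t = ∑ j ∈ R, c j * f (node L d j) := by
    intro c f
    simp only [sum_mul]
    rw [sum_comm]
    apply sum_congr rfl
    intro j hj
    rw [sum_eq_single_of_mem _ (hbound j hj)]
    · rw [if_pos rfl]
    · intro t _ ht
      rw [if_neg (Ne.symm ht), zero_mul]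
  refine ⟨fun t => ∑ j ∈ R, if node L d j = t then max (bwt L d j) 0 / Z else 0,
    fun t => (if t = 1 then A / Z else 0) +
      ∑ j ∈ R, if node L d j = t then max (-bwt L d j) 0 / Z else 0, ?_, ?_, ?_, ?_, ?_, ?_⟩
  · intro t
    apply sum_nonneg
    intro j _
    split_ifs
    · exact div_nonneg (le_max_right _ _) hZ0.le
    · exact le_refl _
  · intro t
    apply add_nonneg
    · split_ifs
      · exact div_nonneg hA0 hZ0.le
      · exact le_refl _
    · apply sum_nonneg
      intro j _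
      split_ifs
      · exact div_nonneg (le_max_right _ _) hZ0.le
      · exact le_refl _
  · show (if (0 : ℕ) = 1 then A / Z else 0) +
      ∑ j ∈ R, (if node L d j = 0 then max (-bwt L d j) 0 / Z else 0) = 0
    rw [if_neg (by norm_num), zero_add]
    apply sum_eq_zero
    intro j _
    by_cases h : node L d j = 0
    · rw [if_pos h]
      have hj : j = d := by
        unfold node at h
        rcases Nat.mul_eq_zero.1 h with h1 | h1
        · omega
        · have h2 : (j - d) ^ 2 = 0 := by omega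
          have h3 : (d - j) ^ 2 = 0 := by omega
          have h4 := pow_eq_zero_iff (two_ne_zero) |>.1 h2
          have h5 := pow_eq_zero_iff (two_ne_zero) |>.1 h3
          omega
      rw [hj, bwt_self]
      norm_num
    · rw [if_neg h]
  · show 1 - 1 / (q : ℝ) ≤ ∑ j ∈ R, (if node L d j = 0 then max (bwt L d j) 0 / Z else 0)
    have h1 : (if node L d d = 0 then max (bwt L d d) 0 / Z else 0) ≤
        ∑ j ∈ R, (if node L d j = 0 then max (bwt L d j) 0 / Z else 0) := by
      apply single_le_sum (f := fun j => if node L d j = 0 then max (bwt L d j) 0 / Z else 0) _ hdR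
      intro j _
      show 0 ≤ (if node L d j = 0 then max (bwt L d j) 0 / Z else 0)
      split_ifs
      · exact div_nonneg (le_max_right _ _) hZ0.le
      · exact le_refl _
    refine le_trans ?_ h1
    have h2 : node L d d = 0 := by unfold node; simp
    rw [if_pos h2, bwt_self]
    have h3 : max (1 : ℝ) 0 = 1 := by norm_num
    rw [h3, le_div_iff₀ hZ0]
    have h4 : 0 ≤ 1 - 1 / (q : ℝ) := by
      rw [sub_nonneg, div_le_one hq0]
      exact_mod_cast hq
    calc (1 - 1 / (q : ℝ)) * Z ≤ (1 - 1 / q) * (1 + 1 / q) := by gcongr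
      _ = 1 - (1 / q) ^ 2 := by ring
      _ ≤ 1 := by
        have : 0 ≤ (1 / (q : ℝ)) ^ 2 := by positivity
        linarith
  · have h1 := key (fun j => max (bwt L d j) 0 / Z) (fun _ => 1)
    simp only [mul_one] at h1
    rw [h1, ← sum_div, ← hZ, div_self hZ0.ne']
  · intro p hp
    have h1 := key (fun j => max (bwt L d j) 0 / Z) (fun t => p.eval (t : ℝ))
    have h2 := key (fun j => max (-bwt L d j) 0 / Z) (fun t => p.eval (t : ℝ))
    have h3 := bwt_sum hd hL p hp
    simp only [add_mul, sum_add_distrib]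
    rw [h1, h2]
    have h4 : ∑ t ∈ range (L * d ^ 2 + 1), (if t = 1 then A / Z else 0) * p.eval (t : ℝ) =
        A / Z * p.eval 1 := by
      rw [sum_eq_single_of_mem _ hone]
      · rw [if_pos rfl, Nat.cast_one]
      · intro t _ ht
        rw [if_neg ht, zero_mul]
    rw [h4]
    have h5 : ∑ j ∈ R, max (bwt L d j) 0 / Z * p.eval (node L d j : ℝ) -
        ∑ j ∈ R, max (-bwt L d j) 0 / Z * p.eval (node L d j : ℝ) =
        ∑ j ∈ R, bwt L d j * p.eval (node L d j : ℝ) / Z := by
      rw [← sum_sub_distrib]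
      apply sum_congr rfl
      intro j _
      have h6 : max (bwt L d j) 0 - max (-bwt L d j) 0 = bwt L d j := by
        rcases le_total 0 (bwt L d j) with h | h
        · rw [max_eq_left h, max_eq_right (by linarith)]
          ring
        · rw [max_eq_right h, max_eq_left (by linarith)]
          ring
      calc _ = (max (bwt L d j) 0 - max (-bwt L d j) 0) * p.eval (node L d j : ℝ) / Z := by ring
        _ = _ := by rw [h6]
    have h7 : ∑ j ∈ R, bwt L d j * p.eval (node L d j : ℝ) = A * p.eval 1 := by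
      simp only [mul_sub, sum_sub_distrib] at h3
      rw [hA, sum_mul]
      linarith
    rw [← sum_div, h7] at h5
    have h8 : A * p.eval 1 / Z = A / Z * p.eval 1 := by ring
    linarith

end Pool.Agent.THR72
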