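import Mathlib

/-!
# Polynomials of degree `d` which approximate the disjunction of `r` variables
-/

namespace Pool.Agent.THR72

open Finset Polynomial

/-- Growth of the Chebyshev polynomials at the right of `1`. -/
theorem T_lower (y : ℝ) (hy : 0 ≤ y) (k : ℕ) :
    1 + (k : ℝ) ^ 2 * y ≤ (Chebyshev.T ℝ k).eval (1 + y) := by
  have key : ∀ k : ℕ, 1 + (k : ℝ) ^ 2 * y ≤ (Chebyshev.T ℝ (k : ℤ)).eval (1 + y) ∧
      (2 * (k : ℝ) + 1) * y ≤ (Chebyshev.T ℝ ((k : ℤ) + 1)).eval (1 + y) -
        (Chebyshev.T ℝ (k : ℤ)).eval (1 + y) := by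
    intro k
    induction k with
    | zero => simp
    | succ k ih =>
      obtain ⟨h1, h2⟩ := ih
      have h3 : (Chebyshev.T ℝ ((k : ℤ) + 2)).eval (1 + y) =
          2 * (1 + y) * (Chebyshev.T ℝ ((k : ℤ) + 1)).eval (1 + y) -
            (Chebyshev.T ℝ (k : ℤ)).eval (1 + y) := by
        rw [Chebyshev.T_add_two]
        simp
      have h4 : (((k + 1 : ℕ) : ℤ)) = (k : ℤ) + 1 := by push_cast; ring
      have h5 : ((k : ℤ) + 1 + 1) = (k : ℤ) + 2 := by ring
      have hk : (0 : ℝ) ≤ k := Nat.cast_nonneg k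
      rw [h4, h5, h3]
      push_cast
      have h6 : 1 ≤ (Chebyshev.T ℝ ((k : ℤ) + 1)).eval (1 + y) := by
        have : 0 ≤ (k : ℝ) ^ 2 * y := by positivity
        have : 0 ≤ (2 * (k : ℝ) + 1) * y := by positivity
        linarith
      constructor
      · nlinarith
      · nlinarith
  exact (key k).1

/-- The coefficients in the binomial basis of a polynomial of degree `d` with the value `0` at `0` and
values between `1` and `1 + r / d ^ 2` at `1, …, r`. -/
theorem exists_coef (d r : ℕ) (hd : 1 ≤ d) : ∃ a : ℕ → ℝ,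
    (∀ j, j ≤ d → |a j| ≤ 2 ^ d * (r + 1)) ∧ a 0 = 0 ∧
    ∀ N : ℕ, 1 ≤ N → N ≤ r →
      1 ≤ ∑ j ∈ range (d + 1), (N.choose j : ℝ) * a j ∧
      ∑ j ∈ range (d + 1), (N.choose j : ℝ) * a j ≤ 1 + r / (d : ℝ) ^ 2 := by
  have hd0 : (0 : ℝ) < d := by exact_mod_cast hd
  rcases Nat.lt_or_ge d r with hr | hr
  · -- Chebyshev
    have hr2 : 2 ≤ r := by omega
    have hr0 : (0 : ℝ) < (r : ℝ) - 1 := by
      have : (2 : ℝ) ≤ r := by exact_mod_cast hr2
      linarith
    set A : ℝ[X] := C (((r : ℝ) + 1) / (r - 1)) - C (2 / ((r : ℝ) - 1)) * X with hA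
    set P : ℝ[X] := (Chebyshev.T ℝ (d : ℤ)).comp A with hP
    have hPev : ∀ t : ℝ, P.eval t =
        (Chebyshev.T ℝ (d : ℤ)).eval (((r : ℝ) + 1 - 2 * t) / (r - 1)) := by
      intro t
      rw [hP, eval_comp, hA]
      congr 1
      simp only [eval_sub, eval_mul, eval_C, eval_X]
      field_simp
    set T0 := P.eval 0 with hT0
    have hT0' : 1 + (d : ℝ) ^ 2 * (2 / ((r : ℝ) - 1)) ≤ T0 := by
      have h1 := T_lower (2 / ((r : ℝ) - 1)) (by positivity) d
      rw [hT0, hPev]
      refine h1.trans (le_of_eq ?_)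
      congr 1
      field_simp
      ring
    have hD : 0 < T0 - 1 := by
      have : 0 < (d : ℝ) ^ 2 * (2 / ((r : ℝ) - 1)) := by positivity
      linarith
    set q : ℝ[X] := C (T0 / (T0 - 1)) - C (1 / (T0 - 1)) * P with hq
    have hqev : ∀ t : ℝ, q.eval t = (T0 - P.eval t) / (T0 - 1) := by
      intro t
      rw [hq]
      simp only [eval_sub, eval_mul, eval_C]
      ring
    have hqdeg : q.natDegree ≤ d := by
      have hAdeg : A.natDegree ≤ 1 := by
        rw [hA]
        refine (natDegree_sub_le _ _).trans (max_le (by rw [natDegree_C]; omega) ?_)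
        exact (natDegree_C_mul_le _ _).trans (by rw [natDegree_X])
      have hPdeg : P.natDegree ≤ d := by
        rw [hP]
        refine natDegree_comp_le.trans ?_
        rw [Chebyshev.natDegree_T]
        calc (d : ℤ).natAbs * A.natDegree ≤ d * 1 := by
              rw [Int.natAbs_natCast]
              exact Nat.mul_le_mul_left _ hAdeg
          _ = d := mul_one d
      rw [hq]
      refine (natDegree_sub_le _ _).trans (max_le (by rw [natDegree_C]; omega) ?_)
      exact (natDegree_C_mul_le _ _).trans hPdeg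
    have hq0 : q.eval 0 = 0 := by
      rw [hqev, hT0, sub_self, zero_div]
    have hqN : ∀ N : ℕ, 1 ≤ N → N ≤ r → 1 ≤ q.eval (N : ℝ) ∧
        q.eval (N : ℝ) ≤ 1 + r / (d : ℝ) ^ 2 := by
      intro N h1 h2
      have h1' : (1 : ℝ) ≤ N := by exact_mod_cast h1
      have h2' : (N : ℝ) ≤ r := by exact_mod_cast h2
      have h3 : |((r : ℝ) + 1 - 2 * N) / (r - 1)| ≤ 1 := by
        rw [abs_div, abs_of_pos hr0, div_le_one hr0, abs_le]
        constructor <;> linarith
      have h4 := Chebyshev.abs_eval_T_real_le_one (d : ℤ) h3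
      rw [← hPev, abs_le] at h4
      rw [hqev]
      constructor
      · rw [le_div_iff₀ hD]
        linarith
      · rw [div_le_iff₀ hD]
        have h5 : 2 ≤ (r : ℝ) / (d : ℝ) ^ 2 * (T0 - 1) := by
          have h6 : (d : ℝ) ^ 2 * (2 / ((r : ℝ) - 1)) ≤ T0 - 1 := by linarith
          calc (2 : ℝ) ≤ (r : ℝ) * (2 / ((r : ℝ) - 1)) := by
                rw [← mul_div_assoc, le_div_iff₀ hr0]
                linarith
            _ = (r : ℝ) / (d : ℝ) ^ 2 * ((d : ℝ) ^ 2 * (2 / ((r : ℝ) - 1))) := by
                field_simp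
            _ ≤ (r : ℝ) / (d : ℝ) ^ 2 * (T0 - 1) := by gcongr
        nlinarith
    -- the binomial basis
    refine ⟨fun j => (fwdDiff (1 : ℝ))^[j] (fun x => q.eval x) 0, ?_, ?_, ?_⟩
    · intro j hj
      show |(fwdDiff (1 : ℝ))^[j] (fun x => q.eval x) 0| ≤ _
      rw [fwdDiff_iter_eq_sum_shift]
      refine (abs_sum_le_sum_abs _ _).trans ?_
      have h1 : ∀ i ∈ range (j + 1), |(((-1) ^ (j - i) * (j.choose i : ℤ)) •
          q.eval (0 + i • (1 : ℝ)))| ≤ (j.choose i : ℝ) * (r + 1) := by
        intro i hi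
        rw [mem_range] at hi
        rw [zsmul_eq_mul, abs_mul]
        push_cast
        rw [abs_mul, abs_pow, abs_neg, abs_one, one_pow, one_mul, Nat.abs_cast]
        apply mul_le_mul_of_nonneg_left _ (Nat.cast_nonneg _)
        rw [zero_add, nsmul_eq_mul, mul_one]
        rcases Nat.eq_zero_or_pos i with h2 | h2
        · rw [h2, Nat.cast_zero, hq0, abs_zero]
          positivity
        · obtain ⟨h3, h4⟩ := hqN i h2 (by omega)
          rw [abs_of_nonneg (by linarith)]
          have h5 : (r : ℝ) / (d : ℝ) ^ 2 ≤ r := by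
            apply div_le_self (Nat.cast_nonneg _)
            exact one_le_pow₀ (by exact_mod_cast hd)
          linarith
      refine (sum_le_sum h1).trans ?_
      rw [← sum_mul]
      apply mul_le_mul_of_nonneg_right _ (by positivity)
      have h2 : ∑ i ∈ range (j + 1), (j.choose i : ℝ) = 2 ^ j := by
        have := Nat.sum_range_choose j
        exact_mod_cast this
      rw [h2]
      exact pow_le_pow_right₀ (by norm_num) hj
    · show (fwdDiff (1 : ℝ))^[0] (fun x => q.eval x) 0 = 0
      exact hq0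
    · intro N h1 h2
      have h3 : ∑ j ∈ range (d + 1), (N.choose j : ℝ) *
          (fwdDiff (1 : ℝ))^[j] (fun x => q.eval x) 0 = q.eval (N : ℝ) := by
        have h4 := shift_eq_sum_fwdDiff_iter (1 : ℝ) (fun x => q.eval x) N 0
        rw [zero_add, nsmul_eq_mul, mul_one] at h4
        rw [h4]
        have h5 : ∀ j, N < j ∨ d < j → (N.choose j : ℝ) *
            (fwdDiff (1 : ℝ))^[j] (fun x => q.eval x) 0 = 0 := by
          rintro j (hj | hj)
          · rw [Nat.choose_eq_zero_of_lt hj, Nat.cast_zero, zero_mul]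
          · have := Polynomial.fwdDiff_iter_eq_zero_of_degree_lt (P := q)
              (lt_of_le_of_lt hqdeg hj)
            have h6 : (fwdDiff (1 : ℝ))^[j] (fun x => q.eval x) 0 = 0 := congrFun this 0
            rw [h6, mul_zero]
        have h7 : ∑ j ∈ range (N + 1), N.choose j • (fwdDiff (1 : ℝ))^[j] (fun x => q.eval x) 0 =
            ∑ j ∈ range (N + 1), (N.choose j : ℝ) *
              (fwdDiff (1 : ℝ))^[j] (fun x => q.eval x) 0 :=
          sum_congr rfl fun j _ => nsmul_eq_mul _ _
        rw [h7]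
        rcases Nat.le_total N d with h8 | h8
        · symm
          apply sum_subset (range_subset_range.2 (by omega))
          intro j _ hj
          rw [mem_range, not_lt] at hj
          exact h5 j (Or.inl (by omega))
        · apply sum_subset (range_subset_range.2 (by omega))
          intro j _ hj
          rw [mem_range, not_lt] at hj
          exact h5 j (Or.inr (by omega))
      show 1 ≤ ∑ j ∈ range (d + 1), (N.choose j : ℝ) *
          (fwdDiff (1 : ℝ))^[j] (fun x => q.eval x) 0 ∧
        ∑ j ∈ range (d + 1), (N.choose j : ℝ) *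
          (fwdDiff (1 : ℝ))^[j] (fun x => q.eval x) 0 ≤ 1 + r / (d : ℝ) ^ 2
      rw [h3]
      exact hqN N h1 h2
  · -- exact representation
    refine ⟨fun j => if j = 0 then 0 else (-1) ^ (j + 1), ?_, if_pos rfl, ?_⟩
    · intro j _
      have h1 : (1 : ℝ) ≤ 2 ^ d * (r + 1) := by
        have h2 : (1 : ℝ) ≤ 2 ^ d := one_le_pow₀ (by norm_num)
        have h3 : (0 : ℝ) ≤ r := Nat.cast_nonneg r
        nlinarith
      show |if j = 0 then (0 : ℝ) else (-1) ^ (j + 1)| ≤ _
      split_ifs
      · rw [abs_zero]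
        linarith
      · rw [abs_pow, abs_neg, abs_one, one_pow]
        exact h1
    · intro N h1 h2
      have h3 : ∑ j ∈ range (d + 1), (N.choose j : ℝ) *
          (if j = 0 then 0 else (-1 : ℝ) ^ (j + 1)) = 1 := by
        rw [sum_range_succ']
        simp only [Nat.add_eq_zero_iff, one_ne_zero, and_false, if_false, if_true, mul_zero,
          add_zero]
        have h4 : ∑ j ∈ range (N + 1), (-1 : ℝ) ^ j * (N.choose j : ℝ) = 0 := by
          have := Int.alternating_sum_range_choose_of_ne (show N ≠ 0 by omega)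
          exact_mod_cast this
        rw [sum_range_succ'] at h4
        have h5 : ∑ j ∈ range d, (N.choose (j + 1) : ℝ) * (-1) ^ (j + 1 + 1) =
            ∑ j ∈ range N, (N.choose (j + 1) : ℝ) * (-1) ^ (j + 1 + 1) := by
          symm
          apply sum_subset (range_subset_range.2 (by omega))
          intro j _ hj
          rw [mem_range, not_lt] at hj
          rw [Nat.choose_eq_zero_of_lt (by omega), Nat.cast_zero, zero_mul]
        rw [h5]
        have h6 : ∑ j ∈ range N, (N.choose (j + 1) : ℝ) * (-1) ^ (j + 1 + 1) =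
            -∑ j ∈ range N, (-1 : ℝ) ^ (j + 1) * (N.choose (j + 1) : ℝ) := by
          rw [← sum_neg_distrib]
          apply sum_congr rfl
          intro j _
          ring
        rw [h6]
        simp only [pow_zero, Nat.choose_zero_right, Nat.cast_one, mul_one] at h4
        linarith
      show 1 ≤ ∑ j ∈ range (d + 1), (N.choose j : ℝ) *
          (if j = 0 then 0 else (-1 : ℝ) ^ (j + 1)) ∧
        ∑ j ∈ range (d + 1), (N.choose j : ℝ) *
          (if j = 0 then 0 else (-1 : ℝ) ^ (j + 1)) ≤ 1 + r / (d : ℝ) ^ 2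
      rw [h3]
      exact ⟨le_refl _, by
        have : (0 : ℝ) ≤ (r : ℝ) / (d : ℝ) ^ 2 := by positivity
        linarith⟩

end Pool.Agent.THR72
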