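import Pool.Agent.THR72.Block

/-!
# Laws of random subsets of a block
-/

namespace Pool.Agent.THR72

open Finset Polynomial

/-- the number of supersets of given size -/
lemma card_supersets {s : ℕ} (I : Finset (Fin s)) (t : ℕ) (h : I.card ≤ t) :
    ((powersetCard t (univ : Finset (Fin s))).filter fun X => I ⊆ X).card =
      (s - I.card).choose (t - I.card) := by
  have h1 : (powersetCard (t - I.card) (univ \ I)).card = (s - I.card).choose (t - I.card) := by
    rw [card_powersetCard, card_sdiff_of_subset (subset_univ _), card_univ, Fintype.card_fin]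
  rw [← h1]
  apply card_bij' (fun X _ => X \ I) (fun Y _ => Y ∪ I)
  · intro X hX
    rw [mem_filter, mem_powersetCard] at hX
    rw [mem_powersetCard]
    exact ⟨sdiff_subset_sdiff (subset_univ _) (Subset.refl _), by
      rw [card_sdiff_of_subset hX.2, hX.1.2]⟩
  · intro Y hY
    rw [mem_powersetCard] at hY
    rw [mem_filter, mem_powersetCard]
    have hd : Disjoint Y I := disjoint_of_subset_left hY.1 sdiff_disjoint
    refine ⟨⟨subset_univ _, ?_⟩, subset_union_right⟩
    rw [card_union_of_disjoint hd, hY.2]
    omega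
  · intro X hX
    rw [mem_filter] at hX
    exact sdiff_union_of_subset hX.2
  · intro Y hY
    rw [mem_powersetCard] at hY
    have hd : Disjoint Y I := disjoint_of_subset_left hY.1 sdiff_disjoint
    show (Y ∪ I) \ I = Y
    rw [union_sdiff_right]
    exact sdiff_eq_self_of_disjoint hd

open Classical in
/-- the probability that a random set contains a given set -/
lemma sum_law {s : ℕ} (f : ℕ → ℝ) (I : Finset (Fin s)) :
    ∑ X : Finset (Fin s), f X.card / (s.choose X.card) * (if I ⊆ X then 1 else 0) =
      ∑ t ∈ range (s + 1), f t * ((t.choose I.card : ℝ) / (s.choose I.card)) := by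
  have h0 : I.card ≤ s := by
    have := card_le_univ I
    rwa [Fintype.card_fin] at this
  rw [← powerset_univ, sum_powerset, card_univ, Fintype.card_fin]
  apply sum_congr rfl
  intro t ht
  have hts : t ≤ s := by have := mem_range.1 ht; omega
  have h1 : ∑ X ∈ powersetCard t (univ : Finset (Fin s)),
      f X.card / (s.choose X.card) * (if I ⊆ X then 1 else 0) =
      f t / (s.choose t) *
        ((powersetCard t (univ : Finset (Fin s))).filter fun X => I ⊆ X).card := by
    rw [← sum_boole, mul_sum]
    apply sum_congr rfl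
    intro X hX
    rw [(mem_powersetCard.1 hX).2]
  rw [h1]
  rcases Nat.lt_or_ge t I.card with h | h
  · have e1 : ((powersetCard t (univ : Finset (Fin s))).filter fun X => I ⊆ X) = ∅ := by
      rw [filter_eq_empty_iff]
      intro X hX hI
      have := card_le_card hI
      rw [(mem_powersetCard.1 hX).2] at this
      omega
    rw [e1, card_empty, Nat.choose_eq_zero_of_lt h]
    simp
  · rw [card_supersets I t h]
    have h2 := Nat.choose_mul (n := s) h
    have h3 : (0 : ℝ) < s.choose t := by exact_mod_cast Nat.choose_pos hts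
    have h4 : (0 : ℝ) < s.choose I.card := by exact_mod_cast Nat.choose_pos h0
    have h5 : (s.choose t : ℝ) * (t.choose I.card) =
        (s.choose I.card) * ((s - I.card).choose (t - I.card)) := by exact_mod_cast h2
    rw [div_mul_eq_mul_div, mul_div_assoc]
    congr 1
    rw [div_eq_div_iff h3.ne' h4.ne']
    linarith

/-- the polynomial of a binomial coefficient -/
lemma choose_poly (c : ℕ) (u : ℝ) : ∃ p : ℝ[X], p.natDegree ≤ c ∧
    ∀ t : ℕ, p.eval (t : ℝ) = (t.choose c : ℝ) / u := by
  refine ⟨C (1 / (c.factorial * u)) * descPochhammer ℝ c, ?_, ?_⟩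
  · refine (natDegree_C_mul_le _ _).trans ?_
    rw [descPochhammer_natDegree]
  · intro t
    have hf : (c.factorial : ℝ) ≠ 0 := by exact_mod_cast Nat.factorial_ne_zero c
    rw [eval_mul, eval_C, descPochhammer_eval_eq_descFactorial,
      Nat.descFactorial_eq_factorial_mul_choose]
    push_cast
    by_cases hu : u = 0
    · rw [hu]; simp
    · field_simp

open Classical in
/-- **The laws of the contents of a block.** -/
theorem exists_contents (d q : ℕ) (hd : 1 ≤ d) (hq : 1 ≤ q) :
    ∃ μ ν : Finset (Fin ((4 * q + 1) * d ^ 2)) → ℝ,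
      (∀ X, 0 ≤ μ X) ∧ (∀ X, 0 ≤ ν X) ∧ ν ∅ = 0 ∧ ∑ X, μ X = 1 ∧ ∑ X, ν X = 1 ∧
      ∀ I : Finset (Fin ((4 * q + 1) * d ^ 2)), I.Nonempty → I.card ≤ d →
        ∑ X, μ X * (if I ⊆ X then 1 else 0) = q * ∑ X, ν X * (if I ⊆ X then 1 else 0) := by
  obtain ⟨pN, pP, h1, h2, h3, h4, h5, h6⟩ := exists_laws d q hd hq
  generalize (4 * q + 1) * d ^ 2 = s at *
  have hq0 : (0 : ℝ) < q := by exact_mod_cast hq
  let pA : ℕ → ℝ := fun t => if t = 0 then 1 - q * (1 - pN 0) else q * pN t
  have hA : ∀ t, 0 ≤ pA t := by
    intro t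
    show 0 ≤ if t = 0 then 1 - q * (1 - pN 0) else q * pN t
    split_ifs
    · have : (q : ℝ) * (1 - pN 0) ≤ q * (1 / q) := by
        apply mul_le_mul_of_nonneg_left _ hq0.le
        linarith
      rw [mul_one_div_cancel hq0.ne'] at this
      linarith
    · exact mul_nonneg hq0.le (h1 t)
  -- the masses
  have hmass : ∀ f : ℕ → ℝ, ∑ X : Finset (Fin s), f X.card / (s.choose X.card) =
      ∑ t ∈ range (s + 1), f t := by
    intro f
    have := sum_law f (∅ : Finset (Fin s))
    simpa using this
  have hsumP : ∑ t ∈ range (s + 1), pP t = 1 := by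
    have := h6 (C 1) (by simp)
    simp only [eval_C, mul_one] at this
    rw [← this, h5]
  have hsumA : ∑ t ∈ range (s + 1), pA t = 1 := by
    rw [sum_range_succ'] at h5 ⊢
    have e1 : ∑ t ∈ range s, pA (t + 1) = q * ∑ t ∈ range s, pN (t + 1) := by
      rw [mul_sum]
      apply sum_congr rfl
      intro t _
      show (if t + 1 = 0 then _ else _) = _
      rw [if_neg (Nat.succ_ne_zero t)]
    have e2 : pA 0 = 1 - q * (1 - pN 0) := rfl
    rw [e1, e2]
    have e3 : ∑ t ∈ range s, pN (t + 1) = 1 - pN 0 := by linarith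
    rw [e3]
    ring
  refine ⟨fun X => pA X.card / (s.choose X.card), fun X => pP X.card / (s.choose X.card), ?_, ?_,
    ?_, ?_, ?_, ?_⟩
  · intro X
    exact div_nonneg (hA _) (by positivity)
  · intro X
    exact div_nonneg (h2 _) (by positivity)
  · show pP (∅ : Finset (Fin s)).card / _ = 0
    rw [card_empty, h3, zero_div]
  · rw [hmass, hsumA]
  · rw [hmass, hsumP]
  · intro I hI hId
    have hc : I.card ≠ 0 := hI.card_pos.ne'
    rw [sum_law pA I, sum_law pP I]
    obtain ⟨p, hp1, hp2⟩ := choose_poly I.card (s.choose I.card)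
    have h7 := h6 p (hp1.trans hId)
    simp only [hp2] at h7
    rw [← h7, mul_sum]
    apply sum_congr rfl
    intro t _
    by_cases ht : t = 0
    · rw [ht, Nat.choose_eq_zero_of_lt (Nat.pos_of_ne_zero hc)]
      simp
    · have : pA t = q * pN t := if_neg ht
      rw [this]
      ring

end Pool.Agent.THR72
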