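import Pool.Agent.THR72.Gen

/-!
# Linear functions
-/

namespace Pool.Agent.THR72

open Finset

open Classical in
/-- **Linear functions do not separate.** -/
theorem noSep_linear (A : Type) [Fintype A] [Nonempty A] (q : ℕ) (hq : Fintype.card A = q) :
    NoSep A q 1 1 := by
  intro G hG hpos
  obtain ⟨J, I, coef, S, hS, hGx⟩ := hG
  have hq0 : 0 < q := by
    rw [← hq]
    exact Fintype.card_pos
  by_contra hno
  push Not at hno
  -- the two averages are equal
  have key : ∑ i : Fin q, G (fun _ => {i}) = ∑ a : A, G (fun b => if b = a then univ else ∅) := by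
    simp only [hGx]
    rw [sum_comm, sum_comm (s := (univ : Finset A))]
    apply sum_congr rfl
    intro t ht
    rw [← mul_sum, ← mul_sum]
    congr 1
    by_cases h0 : ∀ a, S t a = ∅
    · have e1 : ∀ i : Fin q, (if ∀ a, S t a ⊆ ({i} : Finset (Fin q)) then (1 : ℝ) else 0) = 1 := by
        intro i
        rw [if_pos]
        intro a
        rw [h0 a]
        exact empty_subset _
      have e2 : ∀ a : A, (if ∀ b, S t b ⊆ (if b = a then univ else ∅) then (1 : ℝ) else 0) = 1 := by
        intro a
        rw [if_pos]
        intro b
        rw [h0 b]
        exact empty_subset _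
      simp only [e1, e2]
      rw [sum_const, sum_const, card_univ, card_univ, Fintype.card_fin, hq]
    · push Not at h0
      obtain ⟨a₀, ha₀⟩ := h0
      have h1 : ∑ a, (S t a).card ≤ 1 := hS t ht
      have h2 : (S t a₀).card + ∑ a ∈ univ.erase a₀, (S t a).card = ∑ a, (S t a).card :=
        add_sum_erase univ (fun a => (S t a).card) (mem_univ a₀)
      have h3 : 1 ≤ (S t a₀).card := ha₀.card_pos
      have h4 : (S t a₀).card = 1 := by omega
      have h5 : ∀ a, a ≠ a₀ → S t a = ∅ := by
        intro a ha
        rw [← card_eq_zero]
        have := single_le_sum (f := fun a => (S t a).card) (fun _ _ => Nat.zero_le _)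
          (mem_erase.2 ⟨ha, mem_univ a⟩)
        omega
      obtain ⟨i₀, hi₀⟩ := card_eq_one.1 h4
      have e1 : ∀ i : Fin q, (if ∀ a, S t a ⊆ ({i} : Finset (Fin q)) then (1 : ℝ) else 0) =
          if i = i₀ then 1 else 0 := by
        intro i
        by_cases h : i = i₀
        · rw [if_pos h, if_pos]
          intro a
          by_cases h6 : a = a₀
          · rw [h6, hi₀, h]
          · rw [h5 a h6]
            exact empty_subset _
        · rw [if_neg h, if_neg]
          intro h6
          have h7 := h6 a₀
          rw [hi₀, singleton_subset_iff, mem_singleton] at h7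
          exact h h7.symm
      have e2 : ∀ a : A, (if ∀ b, S t b ⊆ (if b = a then univ else ∅) then (1 : ℝ) else 0) =
          if a = a₀ then 1 else 0 := by
        intro a
        by_cases h : a = a₀
        · rw [if_pos h, if_pos]
          intro b
          by_cases h6 : b = a
          · rw [if_pos h6]
            exact subset_univ _
          · rw [h5 b (fun h7 => h6 (h7.trans h.symm))]
            exact empty_subset _
        · rw [if_neg h, if_neg]
          intro h6
          have h7 := h6 a₀
          rw [hi₀, if_neg (Ne.symm h), singleton_subset_iff] at h7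
          exact absurd h7 (notMem_empty _)
      simp only [e1, e2]
      rw [sum_ite_eq', sum_ite_eq', if_pos (mem_univ _), if_pos (mem_univ _)]
  have h1 : 0 < ∑ i : Fin q, G (fun _ => {i}) := by
    have : Nonempty (Fin q) := ⟨⟨0, hq0⟩⟩
    exact sum_pos (fun i _ => hpos _ fun _ => singleton_nonempty i) univ_nonempty
  have h2 : ∑ a : A, G (fun b => if b = a then univ else ∅) ≤ 0 := by
    apply sum_nonpos
    intro a _
    apply hno
    calc _ ≤ ({a} : Finset A).card := by
          apply card_le_card
          intro b hb
          rw [mem_filter] at hb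
          rw [mem_singleton]
          by_contra h3
          rw [if_neg h3] at hb
          exact not_nonempty_empty hb.2
      _ = 1 := card_singleton a
  rw [key] at h1
  exact absurd h2 (not_le.2 h1)

end Pool.Agent.THR72
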