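import Pool.Agent.THR72.Defs

/-!
# A prefix which fixes the number of variables of the best disjunction
-/

namespace Pool.Agent.THR72

open Finset

section Errors

variable {n : ℕ}

theorem errors_append (h : Finset (Fin n × Bool)) (S S' : List (Ex n)) :
    errors h (S ++ S') = errors h S + errors h S' := by
  unfold errors
  rw [List.countP_append]

theorem errors_rep (h : Finset (Fin n × Bool)) (B : List (Ex n)) (m : ℕ) :
    errors h (List.replicate m B).flatten = m * errors h B := by
  unfold errors
  rw [List.countP_flatten, List.map_replicate, List.sum_replicate, smul_eq_mul]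

theorem errors_zero (h : Finset (Fin n × Bool)) (B : List (Ex n)) (h0 : errors h B = 0)
    {e : Ex n} (he : e ∈ B) : disj h e.1 = e.2 := by
  unfold errors at h0
  rw [List.countP_eq_zero] at h0
  have h1 := h0 e he
  rw [bne_iff_ne, ne_eq, not_not] at h1
  exact h1

theorem errors_mono (h h' : Finset (Fin n × Bool)) (S : List (Ex n))
    (H : ∀ e ∈ S, disj h e.1 ≠ e.2 → disj h' e.1 ≠ e.2) : errors h S ≤ errors h' S := by
  unfold errors
  apply List.countP_mono_left
  intro e he h1
  rw [bne_iff_ne] at h1 ⊢
  exact H e he h1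

theorem errors_length (h : Finset (Fin n × Bool)) (S : List (Ex n)) : errors h S ≤ S.length :=
  List.countP_le_length

theorem mDisj_min (h : Finset (Fin n × Bool)) (S : List (Ex n)) : mDisj S ≤ errors h S :=
  Nat.sInf_le ⟨h, rfl⟩

theorem exists_min (S : List (Ex n)) : ∃ h : Finset (Fin n × Bool), errors h S = mDisj S :=
  Nat.sInf_mem (Set.range_nonempty _)

theorem disj_pos (D : Finset (Fin n)) (x : Fin n → Bool) :
    disj (D.image fun i => (i, true)) x = true ↔ ∃ i ∈ D, x i = true := by
  unfold disj
  rw [decide_eq_true_eq]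
  constructor
  · rintro ⟨l, hl, h⟩
    obtain ⟨i, hi, rfl⟩ := mem_image.1 hl
    exact ⟨i, hi, h⟩
  · rintro ⟨i, hi, h⟩
    exact ⟨(i, true), mem_image_of_mem _ hi, h⟩

theorem card_pos_fst (D : Finset (Fin n)) :
    ((D.image fun i => ((i, true) : Fin n × Bool)).image Prod.fst).card = D.card := by
  rw [image_image]
  congr 1
  exact image_id

end Errors

open Classical in
/-- The prefix, with the bits of the base point `z` outside of the blocks. -/
theorem prefix_rz {n k : ℕ} {A : Type} [Fintype A] [Nonempty A] (D : A → Finset (Fin n))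
    (hk : ∀ a, (D a).card = k) (z : Fin n → Bool)
    (hz : ∀ a, ∀ i ∈ D a, z i = false) (T : ℕ) :
    ∃ Pre : List (Ex n), ∀ S : List (Ex n), S.length ≤ T →
      (∀ e ∈ S, e.2 = true → ∀ a, ∃ i ∈ D a, e.1 i = true) →
      rDisj (Pre ++ S) = k ∧
        ∀ a, mDisj (Pre ++ S) ≤ errors ((D a).image fun i => (i, true)) S := by
  set X : Finset (Fin n → Bool) := univ.filter fun x =>
    (∀ a, ∃ i ∈ D a, x i = true) ∧ ∀ i, (∀ a, i ∉ D a) → x i = z i with hX
  set B : List (Ex n) := (z, false) :: X.toList.map fun x => (x, true) with hB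
  have hmemz : ((z, false) : Ex n) ∈ B := by
    rw [hB]
    exact List.mem_cons_self
  have hmemX : ∀ x ∈ X, ((x, true) : Ex n) ∈ B := by
    intro x hx
    rw [hB]
    exact List.mem_cons_of_mem _ (List.mem_map.2 ⟨x, by rwa [Finset.mem_toList], rfl⟩)
  -- the blocks make no error on `B`
  have hblk : ∀ a, errors ((D a).image fun i => (i, true)) B = 0 := by
    intro a
    unfold errors
    rw [List.countP_eq_zero]
    intro e he
    rw [bne_iff_ne, ne_eq, not_not]
    rw [hB, List.mem_cons, List.mem_map] at he
    rcases he with he | ⟨x, hx, he⟩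
    · subst he
      rw [← Bool.not_eq_true, disj_pos]
      rintro ⟨i, hi, h1⟩
      exact Bool.noConfusion ((hz a i hi).symm.trans h1)
    · subst he
      rw [Finset.mem_toList, hX, mem_filter] at hx
      exact (disj_pos _ _).2 (hx.2.1 a)
  -- a disjunction without errors on `B` contains a block
  have hcont : ∀ h : Finset (Fin n × Bool), errors h B = 0 →
      ∃ a, ((D a).image fun i => ((i, true) : Fin n × Bool)) ⊆ h := by
    intro h h0
    have hz0 : ∀ l ∈ h, z l.1 ≠ l.2 := by
      intro l hl h1
      have h2 : disj h z = false := errors_zero h B h0 hmemz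
      have h3 : disj h z = true := by
        unfold disj
        rw [decide_eq_true_eq]
        exact ⟨l, hl, h1⟩
      rw [h2] at h3
      exact Bool.noConfusion h3
    by_contra hno
    push Not at hno
    have hpick : ∀ a, ∃ i ∈ D a, ((i, true) : Fin n × Bool) ∉ h := by
      intro a
      obtain ⟨l, hl, hlh⟩ := Finset.not_subset.1 (hno a)
      obtain ⟨i, hi, rfl⟩ := mem_image.1 hl
      exact ⟨i, hi, hlh⟩
    choose f hf hfh using hpick
    let x : Fin n → Bool := fun i => if ∃ a, f a = i then true else z i
    have hx : x ∈ X := by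
      rw [hX, mem_filter]
      refine ⟨mem_univ _, fun a => ⟨f a, hf a, if_pos ⟨a, rfl⟩⟩, fun i hi => if_neg ?_⟩
      rintro ⟨a, rfl⟩
      exact hi a (hf a)
    have h2 : disj h x = true := errors_zero h B h0 (hmemX x hx)
    unfold disj at h2
    rw [decide_eq_true_eq] at h2
    obtain ⟨l, hl, h3⟩ := h2
    by_cases h4 : ∃ a, f a = l.1
    · have h5 : x l.1 = true := if_pos h4
      rw [h5] at h3
      obtain ⟨a, ha⟩ := h4
      apply hfh a
      have h6 : l = (f a, true) := Prod.ext ha.symm h3.symm
      rw [← h6]
      exact hl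
    · have h5 : x l.1 = z l.1 := if_neg h4
      rw [h5] at h3
      exact hz0 l hl h3
  refine ⟨(List.replicate (T + 1) B).flatten, fun S hS hS1 => ?_⟩
  have herr : ∀ h, errors h ((List.replicate (T + 1) B).flatten ++ S) =
      (T + 1) * errors h B + errors h S := by
    intro h
    rw [errors_append, errors_rep]
  have herrD : ∀ a, errors ((D a).image fun i => (i, true))
      ((List.replicate (T + 1) B).flatten ++ S) =
      errors ((D a).image fun i => (i, true)) S := by
    intro a
    rw [herr, hblk a, mul_zero, zero_add]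
  -- a minimizer contains a block
  have hmin : ∀ h, errors h ((List.replicate (T + 1) B).flatten ++ S) =
      mDisj ((List.replicate (T + 1) B).flatten ++ S) →
      ∃ a, ((D a).image fun i => ((i, true) : Fin n × Bool)) ⊆ h := by
    intro h hh
    apply hcont
    obtain ⟨a⟩ := (inferInstance : Nonempty A)
    have h1 := mDisj_min ((D a).image fun i => (i, true))
      ((List.replicate (T + 1) B).flatten ++ S)
    rw [herrD a, ← hh, herr] at h1
    have h2 := errors_length ((D a).image fun i => (i, true)) S
    have h3 : (T + 1) * errors h B ≤ T := by omega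
    by_contra h4
    have h5 : 1 ≤ errors h B := Nat.one_le_iff_ne_zero.2 h4
    have h6 : (T + 1) * 1 ≤ (T + 1) * errors h B := Nat.mul_le_mul_left _ h5
    omega
  refine ⟨le_antisymm ?_ ?_, fun a => ?_⟩
  · obtain ⟨h, hh⟩ := exists_min ((List.replicate (T + 1) B).flatten ++ S)
    obtain ⟨a, ha⟩ := hmin h hh
    apply Nat.sInf_le
    refine ⟨(D a).image fun i => (i, true), ?_, ?_⟩
    · refine le_antisymm ?_ (mDisj_min _ _)
      rw [← hh, herrD a, herr]
      refine le_trans ?_ (Nat.le_add_left _ _)
      apply errors_mono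
      intro e he h1 h2
      rcases Bool.eq_false_or_eq_true e.2 with h3 | h3
      · rw [h3] at h1
        exact h1 ((disj_pos _ _).2 (hS1 e he h3 a))
      · rw [h3] at h1 h2
        rw [ne_eq, Bool.not_eq_false, disj_pos] at h1
        obtain ⟨i, hi, h4⟩ := h1
        have h5 : disj h e.1 = true := by
          unfold disj
          rw [decide_eq_true_eq]
          exact ⟨(i, true), ha (mem_image_of_mem _ hi), h4⟩
        rw [h2] at h5
        exact Bool.noConfusion h5
    · change (((D a).image fun i => ((i, true) : Fin n × Bool)).image Prod.fst).card = k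
      rw [card_pos_fst, hk]
  · apply le_csInf
    · obtain ⟨h, hh⟩ := exists_min ((List.replicate (T + 1) B).flatten ++ S)
      exact ⟨_, h, hh, rfl⟩
    · rintro _ ⟨h, hh, rfl⟩
      obtain ⟨a, ha⟩ := hmin h hh
      rw [← hk a, ← card_pos_fst (D a)]
      exact card_le_card (image_subset_image ha)
  · rw [← herrD a]
    exact mDisj_min _ _

/-- The prefix with the base point `0`. -/
theorem prefix_r {n k : ℕ} {A : Type} [Fintype A] [Nonempty A] (D : A → Finset (Fin n))
    (hk : ∀ a, (D a).card = k) (T : ℕ) :
    ∃ Pre : List (Ex n), ∀ S : List (Ex n), S.length ≤ T →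
      (∀ e ∈ S, e.2 = true → ∀ a, ∃ i ∈ D a, e.1 i = true) →
      rDisj (Pre ++ S) = k ∧
        ∀ a, mDisj (Pre ++ S) ≤ errors ((D a).image fun i => (i, true)) S :=
  prefix_rz D hk (fun _ => false) (fun _ _ _ => rfl) T

end Pool.Agent.THR72
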