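import Pool.Agent.THR72.Sparse
import Pool.Agent.THR72.Prefix
import Pool.Agent.THR72.Binom2
import Pool.Agent.THR72.Linear

/-!
# From separation to mistakes
-/

namespace Pool.Agent.THR72

open Finset

lemma mistakesAfter_append {n : ℕ} (L : List (Ex n) → MvPolynomial (Fin n) ℝ) :
    ∀ (A H B : List (Ex n)), mistakesAfter L H (A ++ B) =
      mistakesAfter L H A + mistakesAfter L (H ++ A) B := by
  intro A
  induction A with
  | nil =>
    intro H B
    rw [List.nil_append, List.append_nil]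
    exact (Nat.zero_add _).symm
  | cons e A ih =>
    intro H B
    show (if thr (L H) e.1 = e.2 then 0 else 1) + mistakesAfter L (H ++ [e]) (A ++ B) =
      (if thr (L H) e.1 = e.2 then 0 else 1) + mistakesAfter L (H ++ [e]) A +
        mistakesAfter L (H ++ e :: A) B
    rw [ih (H ++ [e]) B, List.append_assoc, List.singleton_append, ← add_assoc]

/-- every learner can be forced to err -/
theorem always {n : ℕ} (L : List (Ex n) → MvPolynomial (Fin n) ℝ) : ∀ (T : ℕ) (H : List (Ex n)),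
    ∃ S : List (Ex n), S.length = T ∧ mistakesAfter L H S = T := by
  intro T
  induction T with
  | zero =>
    intro H
    exact ⟨[], rfl, rfl⟩
  | succ T ih =>
    intro H
    obtain ⟨S, hS1, hS2⟩ := ih (H ++ [(fun _ => false, !(thr (L H) fun _ => false))])
    refine ⟨(fun _ => false, !(thr (L H) fun _ => false)) :: S, by rw [List.length_cons, hS1], ?_⟩
    show (if thr (L H) (fun _ => false) = !(thr (L H) fun _ => false) then 0 else 1) +
      mistakesAfter L (H ++ [(fun _ => false, !(thr (L H) fun _ => false))]) S = T + 1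
    rw [hS2, if_neg]
    · omega
    · intro h
      cases h2 : thr (L H) fun _ => false
      · rw [h2] at h; exact Bool.noConfusion h
      · rw [h2] at h; exact Bool.noConfusion h

/-- The conclusion: mistakes against the best disjunction, which has `k` variables. -/
def Fools {n : ℕ} (L : List (Ex n) → MvPolynomial (Fin n) ℝ) (k q B : ℕ) : Prop :=
  ∀ T : ℕ, ∃ S : List (Ex n), T ≤ mistakes L S ∧ rDisj S = k ∧ q * mDisj S ≤ B * T

/-- The learner is fooled wherever there is no separation; `κ` copies of every variable. -/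
def Barrier {n : ℕ} (L : List (Ex n) → MvPolynomial (Fin n) ℝ) (d Q κ : ℕ) : Prop :=
  ∀ (A : Type) [Fintype A] [Nonempty A] (s B k : ℕ), NoSep A s d B → s * Q ≤ k →
    κ * (Fintype.card A * k) ≤ n → Fools L k (Fintype.card A) B

/-- **Sparse polynomials.** -/
theorem barrier_sparse {n d Q : ℕ} (hQ : 1 ≤ Q) (L : List (Ex n) → MvPolynomial (Fin n) ℝ)
    (hL : ∀ H, Sparse Q d (L H)) : Barrier L d Q 1 := by
  intro A _ _ s B k hNS hk hn T
  rw [one_mul] at hn
  obtain ⟨e⟩ : Nonempty (A × Fin k ↪ Fin n) := by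
    apply Function.Embedding.nonempty_of_card_le
    rw [Fintype.card_prod, Fintype.card_fin, Fintype.card_fin]
    exact hn
  obtain ⟨g⟩ : Nonempty (Fin s × Fin Q ↪ Fin k) := by
    apply Function.Embedding.nonempty_of_card_le
    rw [Fintype.card_prod, Fintype.card_fin, Fintype.card_fin, Fintype.card_fin]
    exact hk
  obtain ⟨Pre, hPre⟩ := prefix_r (fun a : A => univ.image fun j : Fin k => e (a, j))
    (fun a => by
      rw [card_image_of_injective, card_univ, Fintype.card_fin]
      intro i j h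
      exact congrArg Prod.snd (e.injective h)) T
  obtain ⟨S, hS1, hS2, hS3, hS4⟩ := adversary hNS hQ e g L hL T Pre
  obtain ⟨hr, hm⟩ := hPre S hS1.le hS3
  refine ⟨Pre ++ S, ?_, hr, ?_⟩
  · show T ≤ mistakesAfter L [] (Pre ++ S)
    rw [mistakesAfter_append, List.nil_append, hS2]
    exact Nat.le_add_left _ _
  · calc Fintype.card A * mDisj (Pre ++ S) = ∑ _a : A, mDisj (Pre ++ S) := by
          rw [sum_const, card_univ, smul_eq_mul]
      _ ≤ ∑ a : A, errors (lits (univ.image fun j : Fin k => e (a, j))) S :=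
          sum_le_sum fun a _ => hm a
      _ ≤ B * T := hS4

/-- from the inequality for all `T` to the ratio -/
theorem ratio_of {n : ℕ} (L : List (Ex n) → MvPolynomial (Fin n) ℝ) (x B : ℝ)
    (hB : 0 < B) (key : ∀ T : ℕ, ∃ S : List (Ex n), T ≤ mistakes L S ∧ x * mDisj S ≤ B * T)
    (c b : ℝ) (hc : c < x / B) : ∃ S : List (Ex n), c * mDisj S + b < mistakes L S := by
  rcases le_or_gt c 0 with hc0 | hc0
  · obtain ⟨T, hT⟩ := exists_nat_gt b
    obtain ⟨S, hS1, _⟩ := key T
    refine ⟨S, ?_⟩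
    have h1 : (T : ℝ) ≤ mistakes L S := by exact_mod_cast hS1
    have : c * (mDisj S : ℝ) ≤ 0 := mul_nonpos_of_nonpos_of_nonneg hc0 (by positivity)
    linarith
  · have hs0 : 0 < x := by
      have : 0 < x / B := hc0.trans hc
      by_contra h
      have h1 : x / B ≤ 0 := div_nonpos_of_nonpos_of_nonneg (not_lt.1 h) hB.le
      linarith
    set δ : ℝ := 1 - c * B / x with hδ
    have hδ0 : 0 < δ := by
      rw [hδ, sub_pos, div_lt_one hs0]
      rw [lt_div_iff₀ hB] at hc
      exact hc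
    obtain ⟨T, hT⟩ := exists_nat_gt (b / δ)
    obtain ⟨S, hS1, hS2⟩ := key T
    refine ⟨S, ?_⟩
    have hS3 : (T : ℝ) ≤ mistakes L S := by exact_mod_cast hS1
    rw [div_lt_iff₀ hδ0] at hT
    have h1 : (mDisj S : ℝ) ≤ B * T / x := by
      rw [le_div_iff₀ hs0]
      linarith
    have h2 : c * (mDisj S : ℝ) ≤ (1 - δ) * T := by
      calc c * (mDisj S : ℝ) ≤ c * (B * T / x) := by gcongr
        _ = (c * B / x) * T := by ring
        _ = (1 - δ) * T := by rw [hδ]; ring
    linarith

/-- **Linear thresholds.** -/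
theorem linear_k {n k : ℕ} (hk : 1 ≤ k) (hkn : k ^ 2 ≤ n)
    (L : List (Ex n) → MvPolynomial (Fin n) ℝ) (hL : ∀ H, (L H).totalDegree ≤ 1) (T : ℕ) :
    ∃ S : List (Ex n), T ≤ mistakes L S ∧ rDisj S = k ∧ k * mDisj S ≤ T := by
  have hne : Nonempty (Fin k) := ⟨⟨0, hk⟩⟩
  have h1 : ∀ H, Sparse 1 1 (L H) := by
    intro H
    unfold Sparse
    rw [one_pow, Nat.lt_one_iff, card_eq_zero, filter_eq_empty_iff]
    intro m hm
    rw [not_lt]
    have h2 : m.support.card ≤ m.sum fun _ e => e := by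
      rw [card_eq_sum_ones, Finsupp.sum]
      apply sum_le_sum
      intro v hv
      exact Nat.one_le_iff_ne_zero.2 (Finsupp.mem_support_iff.1 hv)
    exact h2.trans ((MvPolynomial.le_totalDegree hm).trans (hL H))
  have h2 := barrier_sparse le_rfl L h1 (Fin k) k 1 k
    (noSep_linear (Fin k) k (Fintype.card_fin k)) (by rw [mul_one])
    (by rw [Fintype.card_fin, one_mul, ← pow_two]; exact hkn) T
  rw [Fintype.card_fin, one_mul] at h2
  exact h2

theorem linear_n {n : ℕ} (L : List (Ex n) → MvPolynomial (Fin n) ℝ)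
    (hL : ∀ H, (L H).totalDegree ≤ 1) (c b : ℝ) (hc : c < Nat.sqrt n) :
    ∃ S : List (Ex n), c * mDisj S + b < mistakes L S := by
  apply ratio_of L (Nat.sqrt n) 1 one_pos _ c b (by rwa [div_one])
  intro T
  rcases Nat.eq_zero_or_pos (Nat.sqrt n) with h0 | h0
  · obtain ⟨S, _, hS2⟩ := always L T []
    refine ⟨S, hS2.ge, ?_⟩
    rw [h0, Nat.cast_zero, zero_mul, one_mul]
    exact Nat.cast_nonneg _
  · obtain ⟨S, hS1, _, hS3⟩ := linear_k h0 (Nat.sqrt_le' n) L hL T
    refine ⟨S, hS1, ?_⟩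
    rw [one_mul]
    exact_mod_cast hS3

/-- **The ratio in terms of the number of relevant variables.** -/
theorem barrier_k {n d Q κ k : ℕ} (hd : 1 ≤ d) (hQ : 1 ≤ Q)
    (L : List (Ex n) → MvPolynomial (Fin n) ℝ) (hL : Barrier L d Q κ)
    (hk1 : 60 * d ^ 2 * Q ≤ k) (hk2 : κ * k ^ 2 ≤ 4 * d * Q * n) :
    Fools L k k (57 * d ^ 2 * Q) := by
  intro T
  set w := d ^ 2 * Q with hw
  have hw0 : 0 < w := by positivity
  set x := k / w with hx
  have hx1 : x * w ≤ k := Nat.div_mul_le_self _ _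
  have hx2 : k < (x + 1) * w := by
    have h := Nat.div_add_mod k w
    have h2 := Nat.mod_lt k hw0
    rw [← hx] at h
    nlinarith
  have hx3 : 60 ≤ x := by
    rw [hx, Nat.le_div_iff_mul_le hw0]
    calc 60 * w = 60 * d ^ 2 * Q := by rw [hw]; ring
      _ ≤ k := hk1
  set m := (x - 5) / 4 with hm
  have hm13 : 13 ≤ m := by omega
  have hm1 : 4 * m + 5 ≤ x := by omega
  have hm2 : x + 1 ≤ 4 * m + 9 := by omega
  set j := (d + 5) / 6 with hj
  have hj1 : 1 ≤ j := by omega
  have hj2 : d ≤ 6 * j := by omega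
  have hj3 : j ≤ d := by omega
  have : Nonempty (Fin (j * m)) := ⟨⟨0, by positivity⟩⟩
  have hs : (4 * (m + 1) + 1) * d ^ 2 * Q ≤ k := by
    calc (4 * (m + 1) + 1) * d ^ 2 * Q = (4 * m + 5) * w := by rw [hw]; ring
      _ ≤ x * w := Nat.mul_le_mul_right _ hm1
      _ ≤ k := hx1
  have hn : κ * (Fintype.card (Fin (j * m)) * k) ≤ n := by
    rw [Fintype.card_fin]
    have h0 : 0 < 4 * d * Q := by positivity
    have h1 : 4 * m * w ≤ k := by
      calc 4 * m * w ≤ x * w := Nat.mul_le_mul_right _ (by omega)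
        _ ≤ k := hx1
    have h2 : (4 * d * Q) * (κ * (j * m * k)) ≤ (4 * d * Q) * n := by
      calc (4 * d * Q) * (κ * (j * m * k)) = κ * (4 * m * (d * j * Q) * k) := by ring
        _ ≤ κ * (4 * m * (d * d * Q) * k) := by gcongr
        _ = κ * (4 * m * w * k) := by rw [hw]; ring
        _ ≤ κ * (k * k) := by gcongr
        _ = κ * k ^ 2 := by ring
        _ ≤ 4 * d * Q * n := hk2
    exact Nat.le_of_mul_le_mul_left h2 h0
  obtain ⟨S, hS1, hS2, hS3⟩ := hL (Fin (j * m)) _ _ k
    (noSep_binom (Fin (j * m)) d j m hd (by omega) (by rw [Fintype.card_fin])) hs hn T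
  refine ⟨S, hS1, hS2, ?_⟩
  rw [Fintype.card_fin] at hS3
  have h1 : m * mDisj S ≤ 12 * T := by
    have h2 : j * (m * mDisj S) ≤ j * (12 * T) := by
      calc j * (m * mDisj S) = j * m * mDisj S := by ring
        _ ≤ (d + 6 * j) * T := hS3
        _ ≤ (6 * j + 6 * j) * T := Nat.mul_le_mul_right _ (by omega)
        _ = j * (12 * T) := by ring
    exact Nat.le_of_mul_le_mul_left h2 hj1
  have h2 : 10 * k ≤ 47 * (m * w) := by
    have h3 : 10 * (x + 1) ≤ 47 * m := by omega
    calc 10 * k ≤ 10 * ((x + 1) * w) := Nat.mul_le_mul_left _ hx2.le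
      _ = (10 * (x + 1)) * w := by ring
      _ ≤ (47 * m) * w := Nat.mul_le_mul_right _ h3
      _ = 47 * (m * w) := by ring
  have h3 : 10 * (k * mDisj S) ≤ 10 * (57 * d ^ 2 * Q * T) := by
    calc 10 * (k * mDisj S) = 10 * k * mDisj S := by ring
      _ ≤ 47 * (m * w) * mDisj S := Nat.mul_le_mul_right _ h2
      _ = 47 * w * (m * mDisj S) := by ring
      _ ≤ 47 * w * (12 * T) := Nat.mul_le_mul_left _ h1
      _ = 564 * (w * T) := by ring
      _ ≤ 570 * (w * T) := Nat.mul_le_mul_right _ (by norm_num)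
      _ = 10 * (57 * d ^ 2 * Q * T) := by rw [hw]; ring
  exact Nat.le_of_mul_le_mul_left h3 (by norm_num)

/-- **The ratio in terms of the number of variables.** -/
theorem barrier_n {n d Q l : ℕ} (hd : 1 ≤ d) (hQ : 1 ≤ Q) (hl : 1 ≤ l)
    (L : List (Ex n) → MvPolynomial (Fin n) ℝ) (hL : Barrier L d Q (l ^ 2)) (c b : ℝ)
    (hc : c < Real.sqrt n / (30 * l * d * Real.sqrt (d * Q))) :
    ∃ S : List (Ex n), c * mDisj S + b < mistakes L S := by
  have hd1 : (1 : ℝ) ≤ d := by exact_mod_cast hd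
  have hQ1 : (1 : ℝ) ≤ Q := by exact_mod_cast hQ
  have hl1 : (1 : ℝ) ≤ l := by exact_mod_cast hl
  have hdQ : (1 : ℝ) ≤ d * Q := by nlinarith
  set s : ℝ := Real.sqrt (d * Q) with hs
  have hs1 : 1 ≤ s := by rwa [hs, Real.one_le_sqrt]
  have hss : s * s = d * Q := Real.mul_self_sqrt (by positivity)
  apply ratio_of L (Real.sqrt n) (30 * l * d * s) (by positivity) _ c b hc
  intro T
  set Y : ℝ := Real.sqrt n * s with hY
  have hY0 : 0 ≤ Y := by positivity
  have hYY : Y ^ 2 = d * Q * n := by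
    rw [hY, mul_pow, Real.sq_sqrt (by positivity), pow_two, hss]
    ring
  set k := ⌊2 / l * Y⌋₊ with hk
  have hk1 : (k : ℝ) ≤ 2 / l * Y := Nat.floor_le (by positivity)
  have hk2 : 2 / l * Y < k + 1 := Nat.lt_floor_add_one _
  have hk2' : 2 * Y < l * (k + 1) := by
    have h1 : l * (2 / l * Y) = 2 * Y := by field_simp
    rw [← h1]
    exact mul_lt_mul_of_pos_left hk2 (by linarith)
  rcases Nat.lt_or_ge k (60 * d ^ 2 * Q) with h10 | h10
  · obtain ⟨S, hS1, hS2⟩ := always L T []
    refine ⟨S, hS2.ge, ?_⟩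
    have h1 : (mDisj S : ℝ) ≤ T := by
      have h2 := (mDisj_min ∅ S).trans (errors_length ∅ S)
      rw [hS1] at h2
      exact_mod_cast h2
    have h2 : (k : ℝ) + 1 ≤ 60 * d ^ 2 * Q := by exact_mod_cast h10
    have h3 : Real.sqrt n ≤ 30 * l * d * s := by
      have h4 : s * Real.sqrt n ≤ s * (30 * l * d * s) := by
        have h5 : 2 * Y ≤ l * (60 * d ^ 2 * Q) := by
          refine hk2'.le.trans ?_
          exact mul_le_mul_of_nonneg_left h2 (by linarith)
        calc s * Real.sqrt n = Y := by rw [hY]; ring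
          _ ≤ 30 * l * d * (d * Q) := by linarith
          _ = s * (30 * l * d * s) := by rw [← hss]; ring
      exact le_of_mul_le_mul_left h4 (by linarith)
    calc Real.sqrt n * mDisj S ≤ Real.sqrt n * T := by gcongr
      _ ≤ 30 * l * d * s * T := by gcongr
  · have hk3 : l ^ 2 * k ^ 2 ≤ 4 * d * Q * n := by
      have h1 : ((l : ℝ) * k) ^ 2 ≤ (2 * Y) ^ 2 := by
        apply pow_le_pow_left₀ (by positivity)
        have h2 : l * (2 / l * Y) = 2 * Y := by field_simp
        rw [← h2]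
        exact mul_le_mul_of_nonneg_left hk1 (by linarith)
      have h2 : (l : ℝ) ^ 2 * k ^ 2 ≤ 4 * d * Q * n := by
        have h3 : (2 * Y) ^ 2 = 4 * Y ^ 2 := by ring
        rw [mul_pow, h3, hYY] at h1
        linarith
      exact_mod_cast h2
    obtain ⟨S, hS1, _, hS2⟩ := barrier_k hd hQ L hL h10 hk3 T
    refine ⟨S, hS1, ?_⟩
    have h1 : (k : ℝ) * mDisj S ≤ 57 * d ^ 2 * Q * T := by exact_mod_cast hS2
    have hk60 : (60 : ℝ) ≤ k := by
      have h2 : 1 ≤ d ^ 2 * Q := Nat.one_le_iff_ne_zero.2 (by positivity)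
      have h3 : 60 * d ^ 2 * Q = 60 * (d ^ 2 * Q) := by ring
      have : 60 ≤ k := by omega
      exact_mod_cast this
    have h3 : 2 * Y ≤ 61 / 60 * (l * k) := by
      have h4 : (l : ℝ) * (k + 1) ≤ l * (61 / 60 * k) :=
        mul_le_mul_of_nonneg_left (by linarith) (by linarith)
      linarith
    have h4 : s * (Real.sqrt n * mDisj S) ≤ s * (30 * l * d * s * T) := by
      have hm0 : (0 : ℝ) ≤ mDisj S := Nat.cast_nonneg _
      have hT0 : (0 : ℝ) ≤ T := Nat.cast_nonneg _
      calc s * (Real.sqrt n * mDisj S) = (2 * Y) * mDisj S / 2 := by rw [hY]; ring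
        _ ≤ (61 / 60 * (l * k)) * mDisj S / 2 := by
            apply div_le_div_of_nonneg_right _ (by norm_num)
            exact mul_le_mul_of_nonneg_right h3 hm0
        _ = 61 / 120 * l * (k * mDisj S) := by ring
        _ ≤ 61 / 120 * l * (57 * d ^ 2 * Q * T) :=
            mul_le_mul_of_nonneg_left h1 (by linarith)
        _ = (61 / 120 * 57) * (l * d * (d * Q) * T) := by ring
        _ ≤ 30 * (l * d * (d * Q) * T) := by
            apply mul_le_mul_of_nonneg_right (by norm_num)
            positivity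
        _ = s * (30 * l * d * s * T) := by rw [← hss]; ring
    exact le_of_mul_le_mul_left h4 (by linarith)

/-- **Few monomials.** -/
theorem few_monomials {n N : ℕ} (hN : 16 ≤ N)
    (L : List (Ex n) → MvPolynomial (Fin n) ℝ) (hL : ∀ H, (L H).support.card ≤ N) (c b : ℝ)
    (hc : c < Real.sqrt n / (15 * Nat.log 2 N * Real.sqrt (Nat.log 2 N))) :
    ∃ S : List (Ex n), c * mDisj S + b < mistakes L S := by
  set l := Nat.log 2 N with hl
  have hl4 : 4 ≤ l := by
    rw [hl]
    exact Nat.le_log_of_pow_le (by norm_num) (by simpa using hN)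
  set d := l / 4 with hd
  have hd1 : 1 ≤ d := by omega
  have hB : Barrier L d 16 (1 ^ 2) := by
    rw [one_pow]
    apply barrier_sparse (by norm_num)
    intro H
    unfold Sparse
    calc ((L H).support.filter fun m => d < m.support.card).card ≤ (L H).support.card :=
          card_le_card (filter_subset _ _)
      _ ≤ N := hL H
      _ < 2 ^ (l + 1) := Nat.lt_pow_succ_log_self (by norm_num) N
      _ ≤ 2 ^ (4 * (d + 1)) := Nat.pow_le_pow_right (by norm_num) (by omega)
      _ = 16 ^ (d + 1) := by rw [pow_mul]; norm_num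
  apply barrier_n hd1 (by norm_num) le_rfl L hB c b
  refine hc.trans_le ?_
  have hd1' : (1 : ℝ) ≤ d := by exact_mod_cast hd1
  have hl0 : (4 : ℝ) ≤ l := by exact_mod_cast hl4
  have h4d : 4 * (d : ℝ) ≤ l := by
    have : 4 * d ≤ l := by omega
    exact_mod_cast this
  have h1 : Real.sqrt ((d : ℝ) * ((16 : ℕ) : ℝ)) ≤ 2 * Real.sqrt l := by
    rw [Real.sqrt_le_left (by positivity), mul_pow, Real.sq_sqrt (by positivity)]
    push_cast
    linarith
  have h2 : 0 < Real.sqrt ((d : ℝ) * ((16 : ℕ) : ℝ)) := by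
    apply Real.sqrt_pos.2
    positivity
  have h3 : 0 < Real.sqrt (l : ℝ) := Real.sqrt_pos.2 (by linarith)
  apply div_le_div_of_nonneg_left (Real.sqrt_nonneg _) (by positivity)
  calc 30 * ((1 : ℕ) : ℝ) * d * Real.sqrt ((d : ℝ) * ((16 : ℕ) : ℝ)) ≤
        30 * ((1 : ℕ) : ℝ) * d * (2 * Real.sqrt l) :=
          mul_le_mul_of_nonneg_left h1 (by positivity)
    _ = 15 * (4 * d) * Real.sqrt l := by push_cast; ring
    _ ≤ 15 * l * Real.sqrt l := by
        apply mul_le_mul_of_nonneg_right _ h3.le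
        linarith

end Pool.Agent.THR72
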