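import Pool.Agent.THR72.Content

/-!
# The zeros of the monic polynomials of degree d over a prime field
-/

namespace Pool.Agent.THR72

open Finset Polynomial

variable {q : ℕ} [Fact q.Prime] {d : ℕ}

/-- the lower part -/
noncomputable def low (c : Fin d → ZMod q) : (ZMod q)[X] := ∑ i : Fin d, C (c i) * X ^ (i : ℕ)

/-- the value of a monic polynomial -/
noncomputable def mon (c : Fin d → ZMod q) (a : ZMod q) : ZMod q := a ^ d + (low c).eval a

lemma low_degree (c : Fin d → ZMod q) : (low c).degree < d := degree_sum_fin_lt _

lemma low_coeff (c : Fin d → ZMod q) (i : Fin d) : (low c).coeff i = c i := by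
  unfold low
  rw [finsetSum_coeff]
  rw [sum_eq_single i]
  · rw [coeff_C_mul_X_pow, if_pos rfl]
  · intro j _ hj
    rw [coeff_C_mul_X_pow, if_neg]
    intro h
    exact hj (Fin.ext h.symm)
  · intro h
    exact absurd (mem_univ _) h

open Classical in
lemma zeros_le (c : Fin d → ZMod q) :
    ((univ : Finset (ZMod q)).filter fun a => mon c a = 0).card ≤ d := by
  set H : (ZMod q)[X] := X ^ d + low c with hH
  have hmonic : H.Monic := monic_X_pow_add (low_degree c)
  have hdeg : H.natDegree = d := by
    have h1 : (X ^ d + low c).degree = (d : WithBot ℕ) := by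
      rw [degree_add_eq_left_of_degree_lt, degree_X_pow]
      rw [degree_X_pow]
      exact low_degree c
    exact natDegree_eq_of_degree_eq_some h1
  calc ((univ : Finset (ZMod q)).filter fun a => mon c a = 0).card ≤ H.roots.toFinset.card := by
        apply card_le_card
        intro a ha
        rw [mem_filter] at ha
        rw [Multiset.mem_toFinset, mem_roots hmonic.ne_zero]
        show H.eval a = 0
        rw [hH, eval_add, eval_pow, eval_X]
        exact ha.2
    _ ≤ Multiset.card H.roots := Multiset.toFinset_card_le _
    _ ≤ H.natDegree := H.card_roots'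
    _ = d := hdeg

open Classical in
/-- the zeros are independent -/
theorem card_zero (hdq : d ≤ q) (A : Finset (ZMod q)) (hA : A.card ≤ d) :
    q ^ A.card * ((univ : Finset (Fin d → ZMod q)).filter fun c => ∀ a ∈ A, mon c a = 0).card =
      q ^ d := by
  obtain ⟨A', hAA', hA'⟩ := exists_superset_card_eq hA (by rw [ZMod.card]; exact hdq)
  let E : (Fin d → ZMod q) → (A' → ZMod q) := fun c a => mon c a
  have hinj : Function.Injective E := by
    intro c c' h
    have h1 : low c = low c' := by
      apply Polynomial.eq_of_degree_sub_lt_of_eval_finset_eq A'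
      · rw [hA']
        exact lt_of_le_of_lt (degree_sub_le _ _) (max_lt (low_degree c) (low_degree c'))
      · intro a ha
        have h2 : mon c a = mon c' a := congrFun h ⟨a, ha⟩
        exact add_left_cancel h2
    funext i
    rw [← low_coeff c i, h1, low_coeff]
  have hcard : Fintype.card (Fin d → ZMod q) = Fintype.card (A' → ZMod q) := by
    rw [Fintype.card_fun, Fintype.card_fun, Fintype.card_fin, Fintype.card_coe, hA']
  have hbij : Function.Bijective E := (Fintype.bijective_iff_injective_and_card E).2 ⟨hinj, hcard⟩
  have h1 : ((univ : Finset (Fin d → ZMod q)).filter fun c => ∀ a ∈ A, mon c a = 0).card =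
      (Fintype.piFinset fun a : A' => if (a : ZMod q) ∈ A then ({0} : Finset (ZMod q))
        else univ).card := by
    apply card_bij (fun c _ => E c)
    · intro c hc
      rw [mem_filter] at hc
      rw [Fintype.mem_piFinset]
      intro a
      by_cases h : (a : ZMod q) ∈ A
      · rw [if_pos h, mem_singleton]
        exact hc.2 a h
      · rw [if_neg h]
        exact mem_univ _
    · intro c _ c' _ h
      exact hinj h
    · intro v hv
      obtain ⟨c, hc⟩ := hbij.2 v
      refine ⟨c, ?_, hc⟩
      rw [mem_filter]
      refine ⟨mem_univ _, fun a ha => ?_⟩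
      rw [Fintype.mem_piFinset] at hv
      have h2 := hv ⟨a, hAA' ha⟩
      rw [if_pos ha, mem_singleton] at h2
      have h3 := congrFun hc ⟨a, hAA' ha⟩
      rw [h2] at h3
      exact h3
  rw [h1, Fintype.card_piFinset]
  have h2 : ∏ a : A', (if (a : ZMod q) ∈ A then ({0} : Finset (ZMod q)) else univ).card =
      ∏ a ∈ A', if a ∈ A then 1 else q := by
    rw [← prod_coe_sort A' (fun a => if a ∈ A then 1 else q)]
    apply prod_congr rfl
    intro a _
    by_cases h : (a : ZMod q) ∈ A
    · rw [if_pos h, if_pos h, card_singleton]
    · rw [if_neg h, if_neg h, card_univ, ZMod.card]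
  rw [h2, prod_ite, prod_const_one, one_mul, prod_const, ← pow_add]
  congr 1
  have h3 : (A'.filter fun a => ¬ a ∈ A) = A' \ A := by
    ext a
    rw [mem_filter, mem_sdiff]
  have h4 : (A'.filter fun x => x ∉ A).card = A'.card - A.card := by
    rw [h3, card_sdiff_of_subset hAA']
  rw [h4, hA']
  omega

end Pool.Agent.THR72
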