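import Mathlib

/-!
# Online learners that predict with polynomial threshold functions
-/

namespace Pool.Agent.THR72

/-- A labelled example: the input and the label. -/
abbrev Ex (n : ℕ) : Type := (Fin n → Bool) × Bool

open Classical in
/-- The threshold function of the polynomial `p`: `true` if `p` is positive at the 0/1 point
`x`. -/
noncomputable def thr {n : ℕ} (p : MvPolynomial (Fin n) ℝ) (x : Fin n → Bool) : Bool :=
  decide (0 < MvPolynomial.eval (fun i => if x i = true then (1 : ℝ) else 0) p)

/-- A learner `L` predicts with `thr (L H)` after the labelled examples `H`. The number of its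
mistakes on the examples `S` if the examples `H` came before. -/
noncomputable def mistakesAfter {n : ℕ} (L : List (Ex n) → MvPolynomial (Fin n) ℝ) :
    List (Ex n) → List (Ex n) → ℕ
  | _, [] => 0
  | H, e :: S => (if thr (L H) e.1 = e.2 then 0 else 1) + mistakesAfter L (H ++ [e]) S

/-- The number of mistakes of the learner on the sequence `S`. -/
noncomputable def mistakes {n : ℕ} (L : List (Ex n) → MvPolynomial (Fin n) ℝ) (S : List (Ex n)) :
    ℕ := mistakesAfter L [] S

/-- The disjunction of the literals in `h`: the literal `(i, b)` is true if `x i = b`. -/
def disj {n : ℕ} (h : Finset (Fin n × Bool)) (x : Fin n → Bool) : Bool :=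
  decide (∃ l ∈ h, x l.1 = l.2)

/-- The number of trials on which the disjunction is wrong. -/
def errors {n : ℕ} (h : Finset (Fin n × Bool)) (S : List (Ex n)) : ℕ :=
  S.countP fun e => disj h e.1 != e.2

/-- The number of errors of the best disjunction. -/
noncomputable def mDisj {n : ℕ} (S : List (Ex n)) : ℕ :=
  sInf (Set.range fun h : Finset (Fin n × Bool) => errors h S)

/-- The polynomial has fewer than `Q ^ (d + 1)` monomials with more than `d` variables. (`Q = 1`:
it has no such monomial.) -/
def Sparse {n : ℕ} (Q d : ℕ) (p : MvPolynomial (Fin n) ℝ) : Prop :=
  (p.support.filter fun m => d < m.support.card).card < Q ^ (d + 1)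

/-- The least number of variables of a disjunction with the least number of errors. -/
noncomputable def rDisj {n : ℕ} (S : List (Ex n)) : ℕ :=
  sInf ((fun h : Finset (Fin n × Bool) => (h.image Prod.fst).card) ''
    {h | errors h S = mDisj S})

end Pool.Agent.THR72
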