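import Mathlib

/-!
# Characters of the cube and the high part of an average over hidden codes
-/

namespace Pool.Agent.THR72.FS

open Finset

/-- The sign of a bit. -/
noncomputable def sg (b : Bool) : ℝ := if b = true then 1 else -1

lemma sg_mul_self (b : Bool) : sg b * sg b = 1 := by cases b <;> simp [sg]

lemma sg_beq (a b : Bool) : sg (a == b) = sg a * sg b := by cases a <;> cases b <;> simp [sg]

/-- The characters of the cube. -/
noncomputable def chi {Q : Type} (R : Finset Q) (X : Q → Bool) : ℝ := ∏ q ∈ R, sg (X q)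

lemma chi_mul_self {Q : Type} (R : Finset Q) (X : Q → Bool) : chi R X * chi R X = 1 := by
  unfold chi
  rw [← prod_mul_distrib]
  exact prod_eq_one fun q _ => sg_mul_self _

lemma abs_chi {Q : Type} (R : Finset Q) (X : Q → Bool) : |chi R X| = 1 := by
  have h := chi_mul_self R X
  rcases mul_self_eq_one_iff.1 h with h | h
  · rw [h, abs_one]
  · rw [h, abs_neg, abs_one]

lemma chi_beq {Q : Type} (R : Finset Q) (X Y : Q → Bool) :
    chi R (fun q => X q == Y q) = chi R X * chi R Y := by
  unfold chi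
  rw [← prod_mul_distrib]
  exact prod_congr rfl fun q _ => sg_beq _ _

section Orth

variable {Q : Type} [Fintype Q] [DecidableEq Q]

lemma sum_chi (X Y : Q → Bool) :
    ∑ R : Finset Q, chi R X * chi R Y = if X = Y then (2 : ℝ) ^ Fintype.card Q else 0 := by
  have h : ∀ R : Finset Q, chi R X * chi R Y = ∏ q ∈ R, sg (X q) * sg (Y q) := fun R => by
    unfold chi
    rw [prod_mul_distrib]
  rw [sum_congr rfl fun R _ => h R]
  have h2 : ∑ R : Finset Q, ∏ q ∈ R, sg (X q) * sg (Y q) =
      ∏ q : Q, (1 + sg (X q) * sg (Y q)) := by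
    rw [prod_one_add, powerset_univ]
  rw [h2]
  by_cases hXY : X = Y
  · rw [if_pos hXY, hXY]
    have h3 : ∀ q : Q, 1 + sg (Y q) * sg (Y q) = 2 := fun q => by
      rw [sg_mul_self]
      norm_num
    rw [prod_congr rfl fun q _ => h3 q, prod_const, card_univ]
  · rw [if_neg hXY]
    obtain ⟨q, hq⟩ := Function.ne_iff.1 hXY
    apply prod_eq_zero (mem_univ q)
    revert hq
    generalize X q = a
    generalize Y q = b
    cases a <;> cases b <;> simp [sg]

lemma chi_sum (R R' : Finset Q) :
    ∑ X : Q → Bool, chi R X * chi R' X = if R = R' then (2 : ℝ) ^ Fintype.card Q else 0 := by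
  have h : ∀ X : Q → Bool, chi R X * chi R' X =
      ∏ q : Q, ((if q ∈ R then sg (X q) else 1) * (if q ∈ R' then sg (X q) else 1)) := fun X => by
    unfold chi
    rw [prod_mul_distrib, prod_ite_mem, prod_ite_mem, univ_inter, univ_inter]
  have h2 : ∑ X : Q → Bool,
      ∏ q : Q, ((if q ∈ R then sg (X q) else 1) * (if q ∈ R' then sg (X q) else 1)) =
      ∏ q : Q, ∑ b : Bool, ((if q ∈ R then sg b else 1) * (if q ∈ R' then sg b else 1)) := by
    rw [prod_univ_sum, Fintype.piFinset_univ]
  rw [sum_congr rfl fun X _ => h X, h2]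
  by_cases hR : R = R'
  · rw [if_pos hR, hR]
    have h3 : ∀ q : Q, ∑ b : Bool, ((if q ∈ R' then sg b else 1) * (if q ∈ R' then sg b else 1)) =
        (2 : ℝ) := fun q => by
      by_cases hq : q ∈ R'
      · simp only [if_pos hq, sg_mul_self]
        simp
      · simp only [if_neg hq]
        simp
    rw [prod_congr rfl fun q _ => h3 q, prod_const, card_univ]
  · rw [if_neg hR]
    have h3 : ∃ q, ¬ (q ∈ R ↔ q ∈ R') := by
      by_contra h4
      push Not at h4
      exact hR (ext h4)
    obtain ⟨q, hq⟩ := h3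
    apply prod_eq_zero (mem_univ q)
    by_cases h1 : q ∈ R
    · have h2' : q ∉ R' := fun h5 => hq ⟨fun _ => h5, fun _ => h1⟩
      simp [h1, h2', sg]
    · have h2' : q ∈ R' := by
        by_contra h5
        exact hq ⟨fun h6 => absurd h6 h1, fun h6 => absurd h6 h5⟩
      simp [h1, h2', sg]

end Orth

section Inner

variable {E : Type*} [NormedAddCommGroup E] [InnerProductSpace ℝ E]

/-- Sums of squares and orthogonality. -/
theorem sum_norm_sq {I J : Type*} [Fintype I] (F : Finset J) [DecidableEq J] (K : I → J → ℝ)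
    (C : ℝ) (hK : ∀ j ∈ F, ∀ j' ∈ F, ∑ i, K i j * K i j' = if j = j' then C else 0) (c : J → E) :
    ∑ i, ‖∑ j ∈ F, K i j • c j‖ ^ 2 = C * ∑ j ∈ F, ‖c j‖ ^ 2 := by
  have h1 : ∀ i, ‖∑ j ∈ F, K i j • c j‖ ^ 2 =
      ∑ j ∈ F, ∑ j' ∈ F, K i j * K i j' * inner ℝ (c j) (c j') := by
    intro i
    rw [← real_inner_self_eq_norm_sq, sum_inner]
    refine sum_congr rfl fun j _ => ?_
    rw [inner_sum]
    refine sum_congr rfl fun j' _ => ?_
    rw [real_inner_smul_left, real_inner_smul_right]
    ring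
  rw [sum_congr rfl fun i _ => h1 i, sum_comm, mul_sum]
  refine sum_congr rfl fun j hj => ?_
  rw [sum_comm]
  have h2 : ∀ j' ∈ F, ∑ i, K i j * K i j' * inner ℝ (c j) (c j') =
      if j = j' then C * ‖c j‖ ^ 2 else 0 := by
    intro j' hj'
    rw [← sum_mul, hK j hj j' hj']
    by_cases h : j = j'
    · rw [if_pos h, if_pos h, ← h, real_inner_self_eq_norm_sq]
    · rw [if_neg h, if_neg h, zero_mul]
  rw [sum_congr rfl h2, sum_ite_eq, if_pos hj]

theorem parseval {Q : Type} [Fintype Q] [DecidableEq Q] (F : Finset (Finset Q))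
    (c : Finset Q → E) : ∑ X : Q → Bool, ‖∑ S ∈ F, chi S X • c S‖ ^ 2 =
      2 ^ Fintype.card Q * ∑ S ∈ F, ‖c S‖ ^ 2 :=
  sum_norm_sq F (fun (X : Q → Bool) S => chi S X) _ (fun S _ S' _ => chi_sum S S') c

theorem bessel {Q : Type} [Fintype Q] [DecidableEq Q] (φ : (Q → Bool) → E) :
    ∑ R : Finset Q, ‖∑ X : Q → Bool, chi R X • φ X‖ ^ 2 =
      2 ^ Fintype.card Q * ∑ X : Q → Bool, ‖φ X‖ ^ 2 :=
  sum_norm_sq univ (fun (R : Finset Q) (X : Q → Bool) => chi R X) _
    (fun X _ Y _ => sum_chi X Y) φ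

end Inner

section Count

variable {P : Type} [Fintype P] [DecidableEq P] {m : ℕ}

/-- The cells of the positions in `S`. -/
def cells (τ : P → Fin m) (S : Finset P) : Finset (P × Fin m) := S.image fun v => (v, τ v)

omit [Fintype P] in
lemma mem_cells (τ : P → Fin m) (S : Finset P) (q : P × Fin m) :
    q ∈ cells τ S ↔ q.1 ∈ S ∧ τ q.1 = q.2 := by
  unfold cells
  rw [mem_image]
  constructor
  · rintro ⟨v, hv, rfl⟩
    exact ⟨hv, rfl⟩
  · rintro ⟨h1, h2⟩
    exact ⟨q.1, h1, Prod.ext rfl h2⟩

omit [Fintype P] in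
lemma chi_cells (τ : P → Fin m) (S : Finset P) (X : P × Fin m → Bool) :
    chi S (fun v => X (v, τ v)) = chi (cells τ S) X := by
  unfold chi cells
  rw [prod_image]
  intro a _ b _ h
  exact congrArg Prod.fst h

omit [Fintype P] in
lemma cells_fst (τ : P → Fin m) (S : Finset P) : (cells τ S).image Prod.fst = S := by
  ext v
  rw [mem_image]
  constructor
  · rintro ⟨q, hq, rfl⟩
    exact ((mem_cells τ S q).1 hq).1
  · intro hv
    exact ⟨(v, τ v), (mem_cells τ S _).2 ⟨hv, rfl⟩, rfl⟩

lemma card_agree (τ₀ : P → Fin m) (S : Finset P) :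
    (univ.filter fun τ : P → Fin m => ∀ v ∈ S, τ v = τ₀ v).card * m ^ S.card =
      m ^ Fintype.card P := by
  have h1 : (univ.filter fun τ : P → Fin m => ∀ v ∈ S, τ v = τ₀ v) =
      Fintype.piFinset fun v => if v ∈ S then {τ₀ v} else univ := by
    ext τ
    rw [mem_filter, Fintype.mem_piFinset]
    constructor
    · rintro ⟨_, h⟩ v
      by_cases hv : v ∈ S
      · rw [if_pos hv, mem_singleton]
        exact h v hv
      · rw [if_neg hv]
        exact mem_univ _
    · intro h
      refine ⟨mem_univ _, fun v hv => ?_⟩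
      have h2 := h v
      rw [if_pos hv, mem_singleton] at h2
      exact h2
  rw [h1, Fintype.card_piFinset]
  have h2 : ∏ v, (if v ∈ S then {τ₀ v} else univ : Finset (Fin m)).card =
      ∏ v ∈ univ \ S, m := by
    rw [← prod_sdiff (subset_univ S)]
    have h3 : ∏ v ∈ S, (if v ∈ S then {τ₀ v} else univ : Finset (Fin m)).card = 1 :=
      prod_eq_one fun v hv => by rw [if_pos hv, card_singleton]
    rw [h3, mul_one]
    refine prod_congr rfl fun v hv => ?_
    rw [if_neg (mem_sdiff.1 hv).2, card_univ, Fintype.card_fin]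
  rw [h2, prod_const, ← pow_add, card_sdiff_of_subset (subset_univ _), card_univ,
    Nat.sub_add_cancel (by rw [← card_univ]; exact card_le_card (subset_univ _))]

omit [DecidableEq P] in
/-- The number of functions with given values on `S`. -/
lemma card_agree' {Q K : Type} [Fintype Q] [DecidableEq Q] [Fintype K] [DecidableEq K]
    (τ₀ : Q → K) (S : Finset Q) :
    (univ.filter fun τ : Q → K => ∀ v ∈ S, τ v = τ₀ v).card * Fintype.card K ^ S.card =
      Fintype.card K ^ Fintype.card Q := by
  have h1 : (univ.filter fun τ : Q → K => ∀ v ∈ S, τ v = τ₀ v) =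
      Fintype.piFinset fun v => if v ∈ S then {τ₀ v} else univ := by
    ext τ
    rw [mem_filter, Fintype.mem_piFinset]
    constructor
    · rintro ⟨_, h⟩ v
      by_cases hv : v ∈ S
      · rw [if_pos hv, mem_singleton]
        exact h v hv
      · rw [if_neg hv]
        exact mem_univ _
    · intro h
      refine ⟨mem_univ _, fun v hv => ?_⟩
      have h2 := h v
      rw [if_pos hv, mem_singleton] at h2
      exact h2
  rw [h1, Fintype.card_piFinset]
  have h2 : ∏ v, (if v ∈ S then {τ₀ v} else univ : Finset K).card =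
      ∏ v ∈ univ \ S, Fintype.card K := by
    rw [← prod_sdiff (subset_univ S)]
    have h3 : ∏ v ∈ S, (if v ∈ S then {τ₀ v} else univ : Finset K).card = 1 :=
      prod_eq_one fun v hv => by rw [if_pos hv, card_singleton]
    rw [h3, mul_one]
    refine prod_congr rfl fun v hv => ?_
    rw [if_neg (mem_sdiff.1 hv).2, card_univ]
  rw [h2, prod_const, ← pow_add, card_sdiff_of_subset (subset_univ _), card_univ,
    Nat.sub_add_cancel (by rw [← card_univ]; exact card_le_card (subset_univ _))]

/-- The number of hidden places with given cells. -/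
lemma card_fib (d : ℕ) (hm : 1 ≤ m) (R : Finset (P × Fin m)) :
    m ^ (d + 1) * ((univ : Finset ((P → Fin m) × Finset P)).filter fun z =>
      d < z.2.card ∧ cells z.1 z.2 = R).card ≤ m ^ Fintype.card P := by
  by_cases hne : ((univ : Finset ((P → Fin m) × Finset P)).filter fun z =>
      d < z.2.card ∧ cells z.1 z.2 = R).Nonempty
  · obtain ⟨z₀, hz₀⟩ := hne
    rw [mem_filter] at hz₀
    have hsub : ((univ : Finset ((P → Fin m) × Finset P)).filter fun z =>
        d < z.2.card ∧ cells z.1 z.2 = R) ⊆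
        (univ.filter fun τ : P → Fin m => ∀ v ∈ z₀.2, τ v = z₀.1 v) ×ˢ {z₀.2} := by
      intro z hz
      rw [mem_filter] at hz
      have h2 : z.2 = z₀.2 := by
        rw [← cells_fst z.1 z.2, ← cells_fst z₀.1 z₀.2, hz.2.2, hz₀.2.2]
      rw [mem_product, mem_filter, mem_singleton]
      refine ⟨⟨mem_univ _, fun v hv => ?_⟩, h2⟩
      have h3 : (v, z₀.1 v) ∈ cells z.1 z.2 := by
        rw [hz.2.2, ← hz₀.2.2, mem_cells]
        exact ⟨hv, rfl⟩
      exact ((mem_cells _ _ _).1 h3).2
    have h1 := card_le_card hsub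
    rw [card_product, card_singleton, mul_one] at h1
    calc m ^ (d + 1) * _ ≤ m ^ (d + 1) *
          (univ.filter fun τ : P → Fin m => ∀ v ∈ z₀.2, τ v = z₀.1 v).card :=
          Nat.mul_le_mul_left _ h1
      _ ≤ m ^ z₀.2.card * (univ.filter fun τ : P → Fin m => ∀ v ∈ z₀.2, τ v = z₀.1 v).card :=
          Nat.mul_le_mul_right _ (Nat.pow_le_pow_right hm hz₀.2.1)
      _ = m ^ Fintype.card P := by
          rw [mul_comm]
          exact card_agree _ _
  · rw [not_nonempty_iff_eq_empty] at hne
    rw [hne, card_empty, mul_zero]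
    exact Nat.zero_le _

lemma sum_cells (d : ℕ) (hm : 1 ≤ m) (c : Finset (P × Fin m) → ℝ) (hc : ∀ R, 0 ≤ c R) :
    (m : ℝ) ^ (d + 1) * ∑ τ : P → Fin m, ∑ S ∈ univ.filter fun S : Finset P => d < S.card,
      c (cells τ S) ≤ (m : ℝ) ^ Fintype.card P * ∑ R, c R := by
  have h1 : ∑ τ : P → Fin m, ∑ S ∈ univ.filter fun S : Finset P => d < S.card,
      c (cells τ S) = ∑ z ∈ (univ : Finset ((P → Fin m) × Finset P)).filter fun z =>
        d < z.2.card, c (cells z.1 z.2) := by
    rw [sum_filter, ← univ_product_univ, sum_product]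
    refine sum_congr rfl fun τ _ => ?_
    rw [sum_filter]
  have h2 : ∑ z ∈ (univ : Finset ((P → Fin m) × Finset P)).filter fun z =>
        d < z.2.card, c (cells z.1 z.2) =
      ∑ R, (((univ : Finset ((P → Fin m) × Finset P)).filter fun z =>
        d < z.2.card ∧ cells z.1 z.2 = R).card : ℝ) * c R := by
    rw [← sum_fiberwise (g := fun z : (P → Fin m) × Finset P => cells z.1 z.2)]
    refine sum_congr rfl fun R _ => ?_
    rw [filter_filter, ← nsmul_eq_mul, ← sum_const]
    refine sum_congr rfl fun z hz => ?_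
    rw [(mem_filter.1 hz).2.2]
  rw [h1, h2, mul_sum, mul_sum]
  refine sum_le_sum fun R _ => ?_
  rw [← mul_assoc]
  refine mul_le_mul_of_nonneg_right ?_ (hc R)
  exact_mod_cast card_fib d hm R

end Count

end Pool.Agent.THR72.FS
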