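import Pool.Agent.THR72.Gen

/-!
# Functions of low degree, and a counting lemma for random restrictions
-/

namespace Pool.Agent.THR72

open Finset

section Low

variable {A : Type} [Fintype A] {d s : ℕ}

open Classical in
theorem card_fibers (U : Finset (A × Fin s)) :
    ∑ a : A, (univ.filter fun i : Fin s => (a, i) ∈ U).card = U.card := by
  have h1 : U.card = ∑ v : A × Fin s, if v ∈ U then 1 else 0 := by
    rw [← card_filter, filter_mem_eq_inter, univ_inter]
  rw [h1, Fintype.sum_prod_type]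
  apply sum_congr rfl
  intro a _
  rw [card_filter]

theorem lowDeg_zero : LowDeg d fun _ : A → Finset (Fin s) => (0 : ℝ) :=
  ⟨Unit, ∅, fun _ => 0, fun _ _ => ∅, fun j hj => absurd hj (notMem_empty j), fun x => by simp⟩

theorem lowDeg_sum {K : Type} (F : Finset K) (w : K → ℝ)
    (G : K → (A → Finset (Fin s)) → ℝ) (h : ∀ t ∈ F, LowDeg d (G t)) :
    LowDeg d fun x => ∑ t ∈ F, w t * G t x := by
  classical
  have h' : ∀ t, ∃ (J : Type) (I : Finset J) (coef : J → ℝ) (S : J → A → Finset (Fin s)),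
      (∀ j ∈ I, ∑ a, (S j a).card ≤ d) ∧
      (t ∈ F → ∀ x, G t x = ∑ j ∈ I, coef j * (if ∀ a, S j a ⊆ x a then 1 else 0)) := by
    intro t
    by_cases ht : t ∈ F
    · obtain ⟨J, I, coef, S, h1, h2⟩ := h t ht
      refine ⟨J, I, coef, S, h1, fun _ x => ?_⟩
      rw [h2 x]
    · exact ⟨Unit, ∅, fun _ => 0, fun _ _ => ∅, fun j hj => absurd hj (notMem_empty j),
        fun h0 => absurd h0 ht⟩
  choose J I coef S h1 h2 using h'
  refine ⟨Σ t : K, J t, F.sigma I, fun j => w j.1 * coef j.1 j.2, fun j => S j.1 j.2, ?_, ?_⟩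
  · intro j hj
    exact h1 j.1 j.2 (mem_sigma.1 hj).2
  · intro x
    rw [sum_sigma]
    apply sum_congr rfl
    intro t ht
    rw [h2 t ht x, mul_sum]
    apply sum_congr rfl
    intro j _
    rw [mul_assoc]

open Classical in
theorem lowDeg_term (P N : Finset (A × Fin s)) (h : P.card + N.card ≤ d) :
    LowDeg d fun x : A → Finset (Fin s) =>
      (if ∀ v ∈ P, v.2 ∈ x v.1 then (1 : ℝ) else 0) *
        (if ∀ v ∈ N, v.2 ∉ x v.1 then 1 else 0) := by
  refine ⟨Finset (A × Fin s), N.powerset, fun C => (-1) ^ C.card,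
    fun C a => univ.filter fun i => (a, i) ∈ P ∪ C, ?_, ?_⟩
  · intro C hC
    rw [card_fibers]
    exact (card_union_le _ _).trans
      ((Nat.add_le_add_left (card_le_card (mem_powerset.1 hC)) _).trans h)
  · intro x
    have h1 : (if ∀ v ∈ N, v.2 ∉ x v.1 then (1 : ℝ) else 0) =
        ∏ v ∈ N, (-(if v.2 ∈ x v.1 then (1 : ℝ) else 0) + 1) := by
      by_cases h : ∀ v ∈ N, v.2 ∉ x v.1
      · rw [if_pos h]
        symm
        apply prod_eq_one
        intro v hv
        rw [if_neg (h v hv)]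
        norm_num
      · rw [if_neg h]
        push Not at h
        obtain ⟨v, hv, h2⟩ := h
        symm
        apply prod_eq_zero hv
        rw [if_pos h2]
        norm_num
    show _ * (if ∀ v ∈ N, v.2 ∉ x v.1 then (1 : ℝ) else 0) = _
    rw [h1, prod_add, mul_sum]
    apply sum_congr rfl
    intro C _
    show _ = (-1) ^ C.card *
      (if ∀ a, (univ.filter fun i : Fin s => (a, i) ∈ P ∪ C) ⊆ x a then (1 : ℝ) else 0)
    rw [prod_const_one, mul_one, prod_neg]
    have h2 : ∏ v ∈ C, (if v.2 ∈ x v.1 then (1 : ℝ) else 0) =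
        if ∀ v ∈ C, v.2 ∈ x v.1 then 1 else 0 := by
      by_cases h : ∀ v ∈ C, v.2 ∈ x v.1
      · rw [if_pos h]
        exact prod_eq_one fun v hv => if_pos (h v hv)
      · rw [if_neg h]
        push Not at h
        obtain ⟨v, hv, h2⟩ := h
        exact prod_eq_zero hv (if_neg h2)
    rw [h2]
    have h3 : (∀ a, (univ.filter fun i : Fin s => (a, i) ∈ P ∪ C) ⊆ x a) ↔
        (∀ v ∈ P, v.2 ∈ x v.1) ∧ ∀ v ∈ C, v.2 ∈ x v.1 := by
      constructor
      · intro h
        exact ⟨fun v hv => h v.1 (mem_filter.2 ⟨mem_univ _, mem_union_left _ hv⟩),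
          fun v hv => h v.1 (mem_filter.2 ⟨mem_univ _, mem_union_right _ hv⟩)⟩
      · rintro ⟨h4, h5⟩ a i hi
        rcases mem_union.1 (mem_filter.1 hi).2 with h6 | h6
        · exact h4 _ h6
        · exact h5 _ h6
    by_cases h4 : ∀ v ∈ P, v.2 ∈ x v.1
    · by_cases h5 : ∀ v ∈ C, v.2 ∈ x v.1
      · rw [if_pos h4, if_pos h5, if_pos (h3.2 ⟨h4, h5⟩)]
        ring
      · rw [if_pos h4, if_neg h5, if_neg fun h => h5 (h3.1 h).2]
        ring
    · rw [if_neg h4, if_neg fun h => h4 (h3.1 h).1]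
      ring

/-- A function of at most `d` bits has low degree. -/
theorem lowDeg_of_depends (W : Finset (A × Fin s)) (hW : W.card ≤ d)
    (G : (A → Finset (Fin s)) → ℝ)
    (hG : ∀ x y, (∀ v ∈ W, v.2 ∈ x v.1 ↔ v.2 ∈ y v.1) → G x = G y) : LowDeg d G := by
  classical
  let xB : Finset (A × Fin s) → A → Finset (Fin s) :=
    fun B a => univ.filter fun i => (a, i) ∈ B
  have h1 : ∀ x, G x = ∑ B ∈ W.powerset, G (xB B) *
      ((if ∀ v ∈ B, v.2 ∈ x v.1 then (1 : ℝ) else 0) *
        (if ∀ v ∈ W \ B, v.2 ∉ x v.1 then 1 else 0)) := by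
    intro x
    have h2 : (W.filter fun v => v.2 ∈ x v.1) ∈ W.powerset :=
      mem_powerset.2 (filter_subset _ _)
    rw [sum_eq_single_of_mem _ h2]
    · rw [if_pos fun v hv => (mem_filter.1 hv).2, if_pos, mul_one, mul_one]
      · apply hG
        intro v hv
        constructor
        · intro h3
          exact mem_filter.2 ⟨mem_univ _, mem_filter.2 ⟨hv, h3⟩⟩
        · intro h3
          exact (mem_filter.1 (mem_filter.1 h3).2).2
      · intro v hv h3
        rw [mem_sdiff] at hv
        exact hv.2 (mem_filter.2 ⟨hv.1, h3⟩)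
    · intro B hB hne
      by_cases h3 : ∀ v ∈ B, v.2 ∈ x v.1
      · rw [if_neg (c := ∀ v ∈ W \ B, v.2 ∉ x v.1), mul_zero, mul_zero]
        intro h4
        apply hne
        apply subset_antisymm
        · intro v hv
          exact mem_filter.2 ⟨mem_powerset.1 hB hv, h3 v hv⟩
        · intro v hv
          by_contra h5
          exact h4 v (mem_sdiff.2 ⟨(mem_filter.1 hv).1, h5⟩) (mem_filter.1 hv).2
      · rw [if_neg h3, zero_mul, mul_zero]
  have h2 := lowDeg_sum (d := d) W.powerset (fun B => G (xB B))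
    (fun B x => (if ∀ v ∈ B, v.2 ∈ x v.1 then (1 : ℝ) else 0) *
        (if ∀ v ∈ W \ B, v.2 ∉ x v.1 then 1 else 0)) (by
      intro B hB
      have h3 : B.card + (W \ B).card ≤ d := by
        rw [card_sdiff_of_subset (mem_powerset.1 hB)]
        have := card_le_card (mem_powerset.1 hB)
        omega
      exact lowDeg_term B (W \ B) h3)
  have h3 : G = fun x => ∑ B ∈ W.powerset, G (xB B) *
      ((if ∀ v ∈ B, v.2 ∈ x v.1 then (1 : ℝ) else 0) *
        (if ∀ v ∈ W \ B, v.2 ∉ x v.1 then 1 else 0)) := funext h1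
  rw [h3]
  exact h2

end Low

section Count

open Classical in
/-- **Union bound.** Every `g ∈ F` is killed if some coordinate `v ∈ W g` of `ρ` is in `κ g v`; some
`ρ` kills them all. -/
theorem exists_kill {V Ω K : Type} [Fintype V] [Fintype Ω] [Nonempty Ω] (F : Finset K) (e m : ℕ)
    (W : K → Finset V) (κ : K → V → Finset Ω) (hW : ∀ g ∈ F, (W g).card = e)
    (hκ : ∀ g ∈ F, ∀ v ∈ W g, m ≤ (κ g v).card)
    (hF : F.card * (Fintype.card Ω - m) ^ e < Fintype.card Ω ^ e) :
    ∃ ρ : V → Ω, ∀ g ∈ F, ∃ v ∈ W g, ρ v ∈ κ g v := by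
  by_contra hno
  push Not at hno
  have hcard : ∀ g ∈ F, ((univ : Finset (V → Ω)).filter fun ρ => ∀ v ∈ W g, ρ v ∉ κ g v).card ≤
      (Fintype.card Ω - m) ^ e * Fintype.card Ω ^ (Fintype.card V - e) := by
    intro g hg
    have h1 : ((univ : Finset (V → Ω)).filter fun ρ => ∀ v ∈ W g, ρ v ∉ κ g v) =
        Fintype.piFinset fun v => if v ∈ W g then univ \ κ g v else univ := by
      ext ρ
      rw [mem_filter, Fintype.mem_piFinset]
      constructor
      · rintro ⟨_, h⟩ v
        by_cases hv : v ∈ W g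
        · rw [if_pos hv, mem_sdiff]
          exact ⟨mem_univ _, h v hv⟩
        · rw [if_neg hv]
          exact mem_univ _
      · intro h
        refine ⟨mem_univ _, fun v hv => ?_⟩
        have h2 := h v
        rw [if_pos hv, mem_sdiff] at h2
        exact h2.2
    rw [h1, Fintype.card_piFinset]
    have h2 : ∏ v, (if v ∈ W g then univ \ κ g v else univ : Finset Ω).card =
        (∏ v ∈ W g, (univ \ κ g v).card) * ∏ v ∈ univ \ W g, Fintype.card Ω := by
      rw [← prod_sdiff (subset_univ (W g)), mul_comm]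
      congr 1
      · exact prod_congr rfl fun v hv => by rw [if_pos hv]
      · exact prod_congr rfl fun v hv => by
          rw [if_neg (mem_sdiff.1 hv).2, card_univ]
    rw [h2, prod_const, card_sdiff_of_subset (subset_univ _), card_univ, hW g hg]
    apply Nat.mul_le_mul_right
    calc ∏ v ∈ W g, (univ \ κ g v).card ≤ ∏ _v ∈ W g, (Fintype.card Ω - m) := by
          apply prod_le_prod'
          intro v hv
          rw [card_sdiff_of_subset (subset_univ _), card_univ]
          exact Nat.sub_le_sub_left (hκ g hg v hv) _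
      _ = (Fintype.card Ω - m) ^ e := by rw [prod_const, hW g hg]
  have hcov : (univ : Finset (V → Ω)) ⊆ F.biUnion fun g =>
      (univ : Finset (V → Ω)).filter fun ρ => ∀ v ∈ W g, ρ v ∉ κ g v := by
    intro ρ _
    obtain ⟨g, hg, h⟩ := hno ρ
    exact mem_biUnion.2 ⟨g, hg, mem_filter.2 ⟨mem_univ _, h⟩⟩
  have h3 := (card_le_card hcov).trans card_biUnion_le
  have h4 : Fintype.card Ω ^ Fintype.card V ≤ F.card *
      ((Fintype.card Ω - m) ^ e * Fintype.card Ω ^ (Fintype.card V - e)) := by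
    rw [card_univ, Fintype.card_fun] at h3
    refine h3.trans ?_
    rw [← smul_eq_mul, ← sum_const]
    exact sum_le_sum hcard
  rcases F.eq_empty_or_nonempty with h5 | ⟨g, hg⟩
  · obtain ⟨g, hg, _⟩ := hno (Classical.arbitrary _)
    rw [h5] at hg
    exact notMem_empty g hg
  · have h6 : e ≤ Fintype.card V := by
      rw [← hW g hg, ← card_univ]
      exact card_le_card (subset_univ _)
    have h7 : Fintype.card Ω ^ Fintype.card V =
        Fintype.card Ω ^ e * Fintype.card Ω ^ (Fintype.card V - e) := by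
      rw [← pow_add, Nat.add_sub_cancel' h6]
    rw [h7, ← mul_assoc] at h4
    have h8 : 0 < Fintype.card Ω ^ (Fintype.card V - e) := pow_pos Fintype.card_pos _
    exact absurd h4 (not_le.2 (Nat.mul_lt_mul_of_pos_right hF h8))

end Count

end Pool.Agent.THR72
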