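import Pool.Agent.THR72.FeatA
import Pool.Agent.THR72.LowDeg

/-!
# A hidden code which no vector of bounded norm and margin one can separate
-/

namespace Pool.Agent.THR72.FS

open Finset

section High

variable {P : Type} {m : ℕ}

/-- The bits of the alive cells. -/
def alive (τ : P → Fin m) (X : P × Fin m → Bool) : P → Bool := fun v => X (v, τ v)

/-- Bitwise equality. -/
def eqv (x y : P → Bool) : P → Bool := fun v => x v == y v

lemma eqv_eqv (x y : P → Bool) : eqv x (eqv x y) = y := by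
  funext v
  unfold eqv
  generalize x v = a
  generalize y v = b
  cases a <;> cases b <;> rfl

/-- Bitwise equality with `x` as a permutation. -/
def eqvPerm (x : P → Bool) : Equiv.Perm (P → Bool) :=
  ⟨eqv x, eqv x, eqv_eqv x, eqv_eqv x⟩

variable [Fintype P] [DecidableEq P]

/-- The Fourier coefficients. -/
noncomputable def four (G : (P → Bool) → ℝ) (S : Finset P) : ℝ := ∑ y, G y * chi S y

theorem four_inv (G : (P → Bool) → ℝ) (y : P → Bool) :
    ∑ S, four G S * chi S y = 2 ^ Fintype.card P * G y := by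
  have h1 : ∀ S : Finset P, four G S * chi S y = ∑ y', G y' * (chi S y' * chi S y) := by
    intro S
    unfold four
    rw [sum_mul]
    refine sum_congr rfl fun y' _ => ?_
    ring
  rw [sum_congr rfl fun S _ => h1 S, sum_comm]
  have h2 : ∀ y' : P → Bool, ∑ S : Finset P, G y' * (chi S y' * chi S y) =
      if y = y' then 2 ^ Fintype.card P * G y else 0 := by
    intro y'
    rw [← mul_sum, sum_chi]
    by_cases h : y = y'
    · rw [if_pos h, if_pos h.symm, h, mul_comm]
    · rw [if_neg h, if_neg fun h' => h h'.symm, mul_zero]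
  rw [sum_congr rfl fun y' _ => h2 y', sum_ite_eq, if_pos (mem_univ _)]

variable {E : Type*} [NormedAddCommGroup E] [InnerProductSpace ℝ E]

/-- The sum over the hidden codes and the inputs with the content `y`. -/
noncomputable def avg (φ : (P × Fin m → Bool) → E) (w : (P → Fin m) → (P → Bool) → E)
    (y : P → Bool) : ℝ :=
  ∑ τ : P → Fin m, ∑ X : P × Fin m → Bool, inner ℝ (w τ (eqv (alive τ X) y)) (φ X)

/-- The high part of the average is small, general form. -/
theorem highG (d : ℕ) (hm : 1 ≤ m) (φ : (P × Fin m → Bool) → E)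
    (w : (P → Fin m) → (P → Bool) → E) (R Φ : ℝ) (hφ : ∑ X, ‖φ X‖ ^ 2 ≤ Φ)
    (hw : ∀ τ ω, ‖w τ ω‖ ≤ R) :
    (∑ S ∈ univ.filter fun S : Finset P => d < S.card, |four (avg φ w) S|) ^ 2 *
      (m : ℝ) ^ (d + 1) ≤
      R ^ 2 * (2 ^ Fintype.card P * (m : ℝ) ^ Fintype.card P) ^ 2 *
        (2 ^ (Fintype.card P * m) * Φ) := by
  set p := Fintype.card P with hp
  set F : Finset (Finset P) := univ.filter fun S : Finset P => d < S.card with hF
  set G := avg φ w with hG
  obtain ⟨eps, he1, he2⟩ : ∃ eps : Finset P → ℝ, (∀ S, |four G S| = eps S * four G S) ∧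
      ∀ S, |eps S| = 1 := by
    refine ⟨fun S => if 0 ≤ four G S then 1 else -1, fun S => ?_, fun S => ?_⟩
    · by_cases h : 0 ≤ four G S
      · simp only [if_pos h, one_mul]
        exact abs_of_nonneg h
      · simp only [if_neg h, neg_one_mul]
        exact abs_of_neg (not_le.1 h)
    · by_cases h : 0 ≤ four G S
      · simp only [if_pos h, abs_one]
      · simp only [if_neg h, abs_neg, abs_one]
  let En : (P → Bool) → ℝ := fun y => ∑ S ∈ F, eps S * chi S y
  let a : (P → Fin m) → (P → Bool) → E := fun τ ω =>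
    ∑ X : P × Fin m → Bool, En (eqv (alive τ X) ω) • φ X
  -- the sum as a sum of inner products
  have h1 : ∑ S ∈ F, |four G S| = ∑ z : (P → Fin m) × (P → Bool), inner ℝ (w z.1 z.2) (a z.1 z.2) := by
    have e1 : ∑ S ∈ F, |four G S| = ∑ y, G y * En y := by
      have : ∀ S, |four G S| = ∑ y, G y * (eps S * chi S y) := by
        intro S
        rw [he1]
        unfold four
        rw [mul_sum]
        refine sum_congr rfl fun y _ => ?_
        ring
      rw [sum_congr rfl fun S _ => this S, sum_comm]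
      refine sum_congr rfl fun y _ => ?_
      rw [← mul_sum]
    rw [e1, Fintype.sum_prod_type]
    have e2 : ∀ y, G y * En y = ∑ τ : P → Fin m, ∑ X : P × Fin m → Bool,
        inner ℝ (w τ (eqv (alive τ X) y)) (φ X) * En y := by
      intro y
      rw [hG]
      unfold avg
      rw [sum_mul]
      refine sum_congr rfl fun τ _ => ?_
      rw [sum_mul]
    rw [sum_congr rfl fun y _ => e2 y, sum_comm]
    refine sum_congr rfl fun τ _ => ?_
    rw [sum_comm]
    have e3 : ∀ X : P × Fin m → Bool,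
        ∑ y, inner ℝ (w τ (eqv (alive τ X) y)) (φ X) * En y =
        ∑ ω, inner ℝ (w τ ω) (φ X) * En (eqv (alive τ X) ω) := by
      intro X
      rw [← Equiv.sum_comp (eqvPerm (alive τ X))]
      refine sum_congr rfl fun ω _ => ?_
      have : eqvPerm (alive τ X) ω = eqv (alive τ X) ω := rfl
      rw [this, eqv_eqv]
    rw [sum_congr rfl fun X _ => e3 X, sum_comm]
    refine sum_congr rfl fun ω _ => ?_
    show _ = inner ℝ (w τ ω) (∑ X : P × Fin m → Bool, En (eqv (alive τ X) ω) • φ X)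
    rw [inner_sum]
    refine sum_congr rfl fun X _ => ?_
    rw [real_inner_smul_right]
    ring
  -- the Fourier expansion of `a`
  have h2 : ∀ τ ω, a τ ω = ∑ S ∈ F, chi S ω •
      (eps S • ∑ X : P × Fin m → Bool, chi (cells τ S) X • φ X) := by
    intro τ ω
    have e1 : ∀ X : P × Fin m → Bool, En (eqv (alive τ X) ω) • φ X =
        ∑ S ∈ F, chi S ω • (eps S • (chi (cells τ S) X • φ X)) := by
      intro X
      show (∑ S ∈ F, eps S * chi S (eqv (alive τ X) ω)) • φ X = _
      rw [sum_smul]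
      refine sum_congr rfl fun S _ => ?_
      have e2 : chi S (eqv (alive τ X) ω) = chi (cells τ S) X * chi S ω := by
        rw [← chi_cells]
        exact chi_beq S _ _
      rw [e2, smul_smul, smul_smul]
      congr 1
      ring
    show ∑ X : P × Fin m → Bool, En (eqv (alive τ X) ω) • φ X = _
    rw [sum_congr rfl fun X _ => e1 X, sum_comm]
    refine sum_congr rfl fun S _ => ?_
    rw [smul_sum, smul_sum]
  -- the sum of squares
  have h3 : (m : ℝ) ^ (d + 1) * ∑ z : (P → Fin m) × (P → Bool), ‖a z.1 z.2‖ ^ 2 ≤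
      2 ^ p * ((m : ℝ) ^ p * (2 ^ (p * m) * Φ)) := by
    have e1 : ∑ z : (P → Fin m) × (P → Bool), ‖a z.1 z.2‖ ^ 2 =
        2 ^ p * ∑ τ : P → Fin m, ∑ S ∈ F,
          ‖∑ X : P × Fin m → Bool, chi (cells τ S) X • φ X‖ ^ 2 := by
      rw [Fintype.sum_prod_type, mul_sum]
      refine sum_congr rfl fun τ _ => ?_
      have e2 : ∀ ω, ‖a τ ω‖ ^ 2 = ‖∑ S ∈ F, chi S ω •
          (eps S • ∑ X : P × Fin m → Bool, chi (cells τ S) X • φ X)‖ ^ 2 := fun ω => by
        rw [h2]
      show ∑ ω, ‖a τ ω‖ ^ 2 = _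
      rw [sum_congr rfl fun ω _ => e2 ω, parseval]
      congr 1
      refine sum_congr rfl fun S _ => ?_
      rw [norm_smul, Real.norm_eq_abs, he2, one_mul]
    have e3 := sum_cells (P := P) d hm (fun R => ‖∑ X : P × Fin m → Bool, chi R X • φ X‖ ^ 2)
      (fun R => by positivity)
    rw [bessel] at e3
    have e5 : (Fintype.card (P × Fin m)) = p * m := by
      rw [Fintype.card_prod, Fintype.card_fin]
    rw [e5] at e3
    rw [e1]
    calc (m : ℝ) ^ (d + 1) * (2 ^ p * ∑ τ : P → Fin m, ∑ S ∈ F,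
          ‖∑ X : P × Fin m → Bool, chi (cells τ S) X • φ X‖ ^ 2)
        = 2 ^ p * ((m : ℝ) ^ (d + 1) * ∑ τ : P → Fin m, ∑ S ∈ F,
          ‖∑ X : P × Fin m → Bool, chi (cells τ S) X • φ X‖ ^ 2) := by ring
      _ ≤ 2 ^ p * ((m : ℝ) ^ p * (2 ^ (p * m) * ∑ X : P × Fin m → Bool, ‖φ X‖ ^ 2)) := by
          gcongr
      _ ≤ 2 ^ p * ((m : ℝ) ^ p * (2 ^ (p * m) * Φ)) := by gcongr
  have h4 : ∑ z : (P → Fin m) × (P → Bool), ‖w z.1 z.2‖ ^ 2 ≤ R ^ 2 * ((m : ℝ) ^ p * 2 ^ p) := by
    calc ∑ z : (P → Fin m) × (P → Bool), ‖w z.1 z.2‖ ^ 2 ≤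
          ∑ _z : (P → Fin m) × (P → Bool), R ^ 2 :=
          sum_le_sum fun z _ => pow_le_pow_left₀ (norm_nonneg _) (hw _ _) 2
      _ = R ^ 2 * ((m : ℝ) ^ p * 2 ^ p) := by
          rw [sum_const, card_univ, Fintype.card_prod, Fintype.card_fun, Fintype.card_fun,
            Fintype.card_bool, Fintype.card_fin, nsmul_eq_mul]
          push_cast
          ring
  have h5 : (∑ S ∈ F, |four G S|) ^ 2 ≤
      (∑ z : (P → Fin m) × (P → Bool), ‖w z.1 z.2‖ ^ 2) *
        ∑ z : (P → Fin m) × (P → Bool), ‖a z.1 z.2‖ ^ 2 := by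
    have e1 : ∑ S ∈ F, |four G S| ≤
        ∑ z : (P → Fin m) × (P → Bool), ‖w z.1 z.2‖ * ‖a z.1 z.2‖ := by
      rw [h1]
      exact sum_le_sum fun z _ => real_inner_le_norm _ _
    have e2 : 0 ≤ ∑ S ∈ F, |four G S| := sum_nonneg fun S _ => abs_nonneg _
    exact (pow_le_pow_left₀ e2 e1 2).trans (sum_mul_sq_le_sq_mul_sq _ _ _)
  have h6 : 0 ≤ ∑ z : (P → Fin m) × (P → Bool), ‖a z.1 z.2‖ ^ 2 :=
    sum_nonneg fun z _ => by positivity
  calc (∑ S ∈ F, |four G S|) ^ 2 * (m : ℝ) ^ (d + 1)
      ≤ ((∑ z : (P → Fin m) × (P → Bool), ‖w z.1 z.2‖ ^ 2) *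
        ∑ z : (P → Fin m) × (P → Bool), ‖a z.1 z.2‖ ^ 2) * (m : ℝ) ^ (d + 1) := by gcongr
    _ ≤ ((R ^ 2 * ((m : ℝ) ^ p * 2 ^ p)) *
        ∑ z : (P → Fin m) × (P → Bool), ‖a z.1 z.2‖ ^ 2) * (m : ℝ) ^ (d + 1) := by gcongr
    _ = (R ^ 2 * ((m : ℝ) ^ p * 2 ^ p)) * ((m : ℝ) ^ (d + 1) *
        ∑ z : (P → Fin m) × (P → Bool), ‖a z.1 z.2‖ ^ 2) := by ring
    _ ≤ (R ^ 2 * ((m : ℝ) ^ p * 2 ^ p)) *
        (2 ^ p * ((m : ℝ) ^ p * (2 ^ (p * m) * Φ))) := by gcongr
    _ = R ^ 2 * (2 ^ p * (m : ℝ) ^ p) ^ 2 * (2 ^ (p * m) * Φ) := by ring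

/-- **The high part of the average is small.** -/
theorem high (d : ℕ) (hm : 1 ≤ m) (φ : (P × Fin m → Bool) → E)
    (w : (P → Fin m) → (P → Bool) → E) (R : ℝ) (hφ : ∀ X, ‖φ X‖ ≤ 1)
    (hw : ∀ τ ω, ‖w τ ω‖ ≤ R) :
    (∑ S ∈ univ.filter fun S : Finset P => d < S.card, |four (avg φ w) S|) ^ 2 *
      (m : ℝ) ^ (d + 1) ≤
      R ^ 2 * (2 ^ Fintype.card P * ((m : ℝ) ^ Fintype.card P * 2 ^ (Fintype.card P * m))) ^ 2 := by
  have e4 : ∑ X : P × Fin m → Bool, ‖φ X‖ ^ 2 ≤ 2 ^ (Fintype.card P * m) := by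
    calc ∑ X : P × Fin m → Bool, ‖φ X‖ ^ 2 ≤ ∑ _X : P × Fin m → Bool, (1 : ℝ) :=
          sum_le_sum fun X _ => by
            have := hφ X
            have h0 := norm_nonneg (φ X)
            nlinarith
      _ = 2 ^ (Fintype.card P * m) := by
          rw [sum_const, card_univ, Fintype.card_fun, Fintype.card_bool, Fintype.card_prod,
            Fintype.card_fin, nsmul_eq_mul, mul_one]
          push_cast
          rfl
  refine (highG d hm φ w R _ e4 hw).trans (le_of_eq ?_)
  ring

end High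

section Code

variable {A : Type} [Fintype A] [DecidableEq A] {s m : ℕ}

/-- The content of the blocks for the code `(τ, ω)`. -/
def cont (τ : A × Fin s → Fin m) (ω : A × Fin s → Bool) (X : (A × Fin s) × Fin m → Bool) (a : A) :
    Finset (Fin s) :=
  univ.filter fun j => X ((a, j), τ (a, j)) = ω (a, j)

/-- The bits of a content. -/
def bits (x : A → Finset (Fin s)) : A × Fin s → Bool := fun v => decide (v.2 ∈ x v.1)

omit [Fintype A] [DecidableEq A] in
lemma cont_eqv (τ : A × Fin s → Fin m) (X : (A × Fin s) × Fin m → Bool)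
    (x : A → Finset (Fin s)) : cont τ (eqv (alive τ X) (bits x)) X = x := by
  funext a
  ext j
  unfold cont eqv alive bits
  rw [mem_filter]
  have h : ∀ b : Bool, ∀ q : Prop, ∀ _ : Decidable q, (b = (b == decide q)) ↔ q := by
    intro b q hq
    by_cases h : q
    · rw [decide_eq_true h]
      cases b <;> simp [h]
    · rw [decide_eq_false h]
      cases b <;> simp [h]
  rw [h]
  exact ⟨fun h => h.2, fun h => ⟨mem_univ _, h⟩⟩

variable {E : Type*} [NormedAddCommGroup E] [InnerProductSpace ℝ E]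

/-- **The hidden code.** -/
theorem exists_code {d B : ℕ} (hNS : NoSep A s d B) (φ : ((A × Fin s) × Fin m → Bool) → E)
    (hφ : ∀ X, ‖φ X‖ ≤ 1) (R : ℝ) (hR : 4 * R ^ 2 < (m : ℝ) ^ (d + 1)) :
    ∃ (τ : A × Fin s → Fin m) (ω : A × Fin s → Bool), ∀ w : E, ‖w‖ ≤ R →
      (∀ X, 0 < inner ℝ w (φ X) → 1 ≤ inner ℝ w (φ X)) →
      (∃ X, (∀ a, (cont τ ω X a).Nonempty) ∧ inner ℝ w (φ X) ≤ 0) ∨
      ∃ X, ((univ : Finset A).filter fun a => (cont τ ω X a).Nonempty).card ≤ B ∧
        0 < inner ℝ w (φ X) := by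
  by_contra hcon
  push Not at hcon
  choose w hw1 hw2 hw3 hw4 using hcon
  have hm : 1 ≤ m := by
    by_contra h
    have h0 : m = 0 := by omega
    rw [h0, Nat.cast_zero, zero_pow (Nat.succ_ne_zero d)] at hR
    nlinarith [sq_nonneg R]
  have hm0 : (0 : ℝ) < m := by exact_mod_cast hm
  set p := Fintype.card (A × Fin s) with hp
  set Z : ℝ := (m : ℝ) ^ p * 2 ^ (p * m) with hZ
  have hZ0 : 0 < Z := by positivity
  have hcard : (Fintype.card ((A × Fin s) × Fin m → Bool) : ℝ) = 2 ^ (p * m) := by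
    rw [Fintype.card_fun, Fintype.card_bool, Fintype.card_prod, Fintype.card_fin]
    push_cast
    rfl
  have hcard2 : (Fintype.card (A × Fin s → Fin m) : ℝ) = (m : ℝ) ^ p := by
    rw [Fintype.card_fun, Fintype.card_fin]
    push_cast
    rfl
  set G := avg φ w with hG
  have hH := high d hm φ w R hφ hw1
  set D0 := ∑ S ∈ univ.filter fun S : Finset (A × Fin s) => d < S.card, |four G S| with hD0
  have hD0n : 0 ≤ D0 := sum_nonneg fun S _ => abs_nonneg _
  set D := D0 / 2 ^ p with hD
  have hDn : 0 ≤ D := by positivity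
  have h2D : 2 * D < Z := by
    have e1 : D ^ 2 * (m : ℝ) ^ (d + 1) ≤ R ^ 2 * Z ^ 2 := by
      rw [hD, div_pow, div_mul_eq_mul_div, div_le_iff₀ (by positivity)]
      calc D0 ^ 2 * (m : ℝ) ^ (d + 1) ≤ R ^ 2 * (2 ^ p * Z) ^ 2 := hH
        _ = R ^ 2 * Z ^ 2 * (2 ^ p) ^ 2 := by ring
    have e2 : 0 < (m : ℝ) ^ (d + 1) := by positivity
    have e3 : (2 * D) ^ 2 * (m : ℝ) ^ (d + 1) < Z ^ 2 * (m : ℝ) ^ (d + 1) := by
      calc (2 * D) ^ 2 * (m : ℝ) ^ (d + 1) = 4 * (D ^ 2 * (m : ℝ) ^ (d + 1)) := by ring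
        _ ≤ 4 * (R ^ 2 * Z ^ 2) := by gcongr
        _ = 4 * R ^ 2 * Z ^ 2 := by ring
        _ < (m : ℝ) ^ (d + 1) * Z ^ 2 := by
            have : 0 < Z ^ 2 := by positivity
            exact mul_lt_mul_of_pos_right hR this
        _ = Z ^ 2 * (m : ℝ) ^ (d + 1) := by ring
    have e4 : (2 * D) ^ 2 < Z ^ 2 := lt_of_mul_lt_mul_right e3 e2.le
    exact lt_of_pow_lt_pow_left₀ 2 hZ0.le e4
  -- the low part
  set Lo : Finset (Finset (A × Fin s)) := univ.filter fun S : Finset (A × Fin s) => ¬ d < S.card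
    with hLo
  let Gw : (A × Fin s → Bool) → ℝ := fun y => ∑ S ∈ Lo, four G S / 2 ^ p * chi S y
  have hGw : ∀ y, |G y - Gw y| ≤ D := by
    intro y
    have e1 : G y = ∑ S, four G S / 2 ^ p * chi S y := by
      have := four_inv G y
      have e2 : ∀ S : Finset (A × Fin s), four G S / 2 ^ p * chi S y =
          four G S * chi S y / 2 ^ p := fun S => by ring
      rw [sum_congr rfl fun S _ => e2 S, ← sum_div, this, mul_div_cancel_left₀]
      positivity
    have e2 : G y - Gw y = ∑ S ∈ univ.filter fun S : Finset (A × Fin s) => d < S.card,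
        four G S / 2 ^ p * chi S y := by
      rw [e1, ← sum_filter_add_sum_filter_not univ (fun S : Finset (A × Fin s) => d < S.card)]
      exact add_sub_cancel_right _ _
    rw [e2, hD, hD0, sum_div]
    refine (abs_sum_le_sum_abs _ _).trans (sum_le_sum fun S _ => ?_)
    rw [abs_mul, abs_chi, mul_one, abs_div, abs_of_pos (show (0 : ℝ) < 2 ^ p by positivity)]
  -- positive and negative contents
  have hpos : ∀ x : A → Finset (Fin s), (∀ a, (x a).Nonempty) → Z ≤ G (bits x) := by
    intro x hx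
    rw [hG]
    unfold avg
    have e1 : ∀ (τ : A × Fin s → Fin m) (X : (A × Fin s) × Fin m → Bool),
        (1 : ℝ) ≤ inner ℝ (w τ (eqv (alive τ X) (bits x))) (φ X) := by
      intro τ X
      apply hw2
      apply hw3
      rw [cont_eqv]
      exact hx
    calc Z = ∑ _τ : A × Fin s → Fin m, ∑ _X : (A × Fin s) × Fin m → Bool, (1 : ℝ) := by
          rw [sum_const, sum_const, card_univ, card_univ, nsmul_eq_mul, nsmul_eq_mul, mul_one,
            hcard, hcard2]
      _ ≤ _ := sum_le_sum fun τ _ => sum_le_sum fun X _ => e1 τ X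
  have hneg : ∀ x : A → Finset (Fin s),
      ((univ : Finset A).filter fun a => (x a).Nonempty).card ≤ B → G (bits x) ≤ 0 := by
    intro x hx
    rw [hG]
    unfold avg
    refine sum_nonpos fun τ _ => sum_nonpos fun X _ => ?_
    apply hw4
    rw [cont_eqv]
    exact hx
  -- the low part is of low degree
  have hlow : LowDeg d fun x : A → Finset (Fin s) => Gw (bits x) - D := by
    have e1 : LowDeg d fun x : A → Finset (Fin s) => ∑ t ∈ (univ : Finset (Option (Finset (A × Fin s)))),
        (fun t : Option (Finset (A × Fin s)) => t.elim (-D)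
          fun S => if S ∈ Lo then four G S / 2 ^ p else 0) t *
        (fun t : Option (Finset (A × Fin s)) => t.elim (fun _ => 1)
          fun S x => if S ∈ Lo then chi S (bits x) else 0) t x := by
      apply lowDeg_sum
      intro t _
      rcases t with _ | S
      · exact lowDeg_of_depends ∅ (by rw [card_empty]; exact Nat.zero_le _) _ fun _ _ _ => rfl
      · by_cases hS : S ∈ Lo
        · have e2 : S.card ≤ d := not_lt.1 (mem_filter.1 hS).2
          apply lowDeg_of_depends S e2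
          intro x y hxy
          show (if S ∈ Lo then chi S (bits x) else 0) = if S ∈ Lo then chi S (bits y) else 0
          rw [if_pos hS, if_pos hS]
          unfold chi
          refine prod_congr rfl fun v hv => ?_
          unfold bits
          rw [decide_eq_decide.2 (hxy v hv)]
        · have e2 : (fun x : A → Finset (Fin s) => if S ∈ Lo then chi S (bits x) else 0) =
              fun _ => 0 := by
            funext x
            rw [if_neg hS]
          show LowDeg d fun x : A → Finset (Fin s) => if S ∈ Lo then chi S (bits x) else 0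
          rw [e2]
          exact lowDeg_zero
    have e2 : (fun x : A → Finset (Fin s) => Gw (bits x) - D) =
        fun x : A → Finset (Fin s) => ∑ t ∈ (univ : Finset (Option (Finset (A × Fin s)))),
        (fun t : Option (Finset (A × Fin s)) => t.elim (-D)
          fun S => if S ∈ Lo then four G S / 2 ^ p else 0) t *
        (fun t : Option (Finset (A × Fin s)) => t.elim (fun _ => 1)
          fun S x => if S ∈ Lo then chi S (bits x) else 0) t x := by
      funext x
      rw [Fintype.sum_option]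
      show (∑ S ∈ Lo, four G S / 2 ^ p * chi S (bits x)) - D = -D * 1 +
        ∑ S, (if S ∈ Lo then four G S / 2 ^ p else 0) * (if S ∈ Lo then chi S (bits x) else 0)
      have e3 : ∀ S, (if S ∈ Lo then four G S / 2 ^ p else 0) *
          (if S ∈ Lo then chi S (bits x) else 0) =
          if S ∈ Lo then four G S / 2 ^ p * chi S (bits x) else 0 := by
        intro S
        by_cases hS : S ∈ Lo
        · rw [if_pos hS, if_pos hS, if_pos hS]
        · rw [if_neg hS, if_neg hS, if_neg hS, zero_mul]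
      rw [sum_congr rfl fun S _ => e3 S, sum_ite_mem, univ_inter]
      ring
    rw [e2]
    exact e1
  obtain ⟨x, hx1, hx2⟩ := hNS _ hlow (by
    intro x hx
    have e1 := hpos x hx
    have e2 := abs_le.1 (hGw (bits x))
    show 0 < Gw (bits x) - D
    linarith [e2.2])
  have e1 := hneg x (by convert hx1)
  have e2 := abs_le.1 (hGw (bits x))
  have hx2' : 0 < Gw (bits x) - D := hx2
  linarith [e2.1]

end Code

end Pool.Agent.THR72.FS
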