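import Pool.Agent.THR72.FeatB
import Pool.Agent.THR72.Core

/-!
# Hidden signs, the adversary, and the barrier for thresholds with margin
-/

namespace Pool.Agent.THR72.FS

open Finset

section Flip

variable {n : ℕ}

/-- Change of signs of the inputs. -/
def flipE (b : Fin n → Bool) (e : Ex n) : Ex n := (fun i => e.1 i == b i, e.2)

/-- Change of signs of the literals. -/
def flipH (b : Fin n → Bool) (h : Finset (Fin n × Bool)) : Finset (Fin n × Bool) :=
  h.image fun l => (l.1, l.2 == b l.1)

lemma beq_beq' (a b : Bool) : ((a == b) == b) = a := by cases a <;> cases b <;> rfl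

lemma flipE_flipE (b : Fin n → Bool) (e : Ex n) : flipE b (flipE b e) = e := by
  unfold flipE
  refine Prod.ext ?_ rfl
  funext i
  exact beq_beq' _ _

lemma flipH_flipH (b : Fin n → Bool) (h : Finset (Fin n × Bool)) : flipH b (flipH b h) = h := by
  unfold flipH
  rw [image_image]
  have h1 : (fun l : Fin n × Bool => (l.1, l.2 == b l.1)) ∘
      (fun l : Fin n × Bool => (l.1, l.2 == b l.1)) = id := by
    funext l
    exact Prod.ext rfl (beq_beq' _ _)
  rw [h1, image_id]

lemma disj_flip (b : Fin n → Bool) (h : Finset (Fin n × Bool)) (e : Ex n) :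
    disj (flipH b h) (flipE b e).1 = disj h e.1 := by
  unfold disj
  rw [decide_eq_decide]
  unfold flipH flipE
  have h1 : ∀ x y z : Bool, (x == z) = (y == z) ↔ x = y := by
    intro x y z
    cases x <;> cases y <;> cases z <;> decide
  constructor
  · rintro ⟨l, hl, h2⟩
    obtain ⟨l', hl', rfl⟩ := mem_image.1 hl
    exact ⟨l', hl', (h1 _ _ _).1 h2⟩
  · rintro ⟨l, hl, h2⟩
    exact ⟨(l.1, l.2 == b l.1), mem_image_of_mem _ hl, (h1 _ _ _).2 h2⟩

lemma errors_flip (b : Fin n → Bool) (h : Finset (Fin n × Bool)) (S : List (Ex n)) :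
    errors (flipH b h) (S.map (flipE b)) = errors h S := by
  unfold errors
  rw [List.countP_map]
  apply List.countP_congr
  intro e _
  show (disj (flipH b h) (flipE b e).1 != (flipE b e).2) = true ↔ _
  rw [disj_flip]
  rfl

lemma mDisj_flip (b : Fin n → Bool) (S : List (Ex n)) : mDisj (S.map (flipE b)) = mDisj S := by
  unfold mDisj
  congr 1
  ext t
  constructor
  · rintro ⟨h, rfl⟩
    refine ⟨flipH b h, ?_⟩
    show errors (flipH b h) S = errors h (S.map (flipE b))
    rw [← errors_flip b (flipH b h), flipH_flipH]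
  · rintro ⟨h, rfl⟩
    exact ⟨flipH b h, errors_flip b h S⟩

lemma flipH_fst (b : Fin n → Bool) (h : Finset (Fin n × Bool)) :
    (flipH b h).image Prod.fst = h.image Prod.fst := by
  unfold flipH
  rw [image_image]
  rfl

lemma rDisj_flip (b : Fin n → Bool) (S : List (Ex n)) : rDisj (S.map (flipE b)) = rDisj S := by
  unfold rDisj
  rw [mDisj_flip]
  congr 1
  ext t
  constructor
  · rintro ⟨h, hh, rfl⟩
    refine ⟨flipH b h, ?_, ?_⟩
    · show errors (flipH b h) S = mDisj S
      rw [← errors_flip b (flipH b h), flipH_flipH]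
      exact hh
    · show ((flipH b h).image Prod.fst).card = (h.image Prod.fst).card
      rw [flipH_fst]
  · rintro ⟨h, hh, rfl⟩
    refine ⟨flipH b h, ?_, ?_⟩
    · show errors (flipH b h) (S.map (flipE b)) = mDisj S
      rw [errors_flip]
      exact hh
    · show ((flipH b h).image Prod.fst).card = (h.image Prod.fst).card
      rw [flipH_fst]

lemma flipH_lits (b : Fin n → Bool) (C : Finset (Fin n)) :
    flipH b (C.image fun i => (i, b i)) = C.image fun i => (i, true) := by
  unfold flipH
  rw [image_image]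
  congr 1
  funext i
  show (i, b i == b i) = (i, true)
  rw [beq_self_eq_true]

/-- The prefix for blocks of signed literals. -/
theorem prefix_m {k : ℕ} {A : Type} [Fintype A] [Nonempty A] (C : A → Finset (Fin n))
    (hk : ∀ a, (C a).card = k) (b : Fin n → Bool) (T : ℕ) :
    ∃ Pre : List (Ex n), ∀ S : List (Ex n), S.length ≤ T →
      (∀ e ∈ S, e.2 = true → ∀ a, ∃ i ∈ C a, e.1 i = b i) →
      rDisj (Pre ++ S) = k ∧
        ∀ a, mDisj (Pre ++ S) ≤ errors ((C a).image fun i => (i, b i)) S := by
  obtain ⟨Pre, hPre⟩ := prefix_r C hk T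
  refine ⟨Pre.map (flipE b), fun S hS hS1 => ?_⟩
  obtain ⟨h1, h2⟩ := hPre (S.map (flipE b)) (by rw [List.length_map]; exact hS) (by
    intro e he h3 a
    obtain ⟨e', he', rfl⟩ := List.mem_map.1 he
    obtain ⟨i, hi, h4⟩ := hS1 e' he' h3 a
    refine ⟨i, hi, ?_⟩
    show (e'.1 i == b i) = true
    rw [h4, beq_self_eq_true])
  have h3 : (Pre.map (flipE b) ++ S).map (flipE b) = Pre ++ S.map (flipE b) := by
    rw [List.map_append, List.map_map]
    congr 1
    have : flipE b ∘ flipE b = id := funext fun e => flipE_flipE b e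
    rw [this, List.map_id]
  refine ⟨?_, fun a => ?_⟩
  · rw [← rDisj_flip b, h3]
    exact h1
  · rw [← mDisj_flip b, h3]
    refine (h2 a).trans (le_of_eq ?_)
    rw [← flipH_lits b, errors_flip]

end Flip

open Classical in
/-- The adversary, from the trials. -/
theorem adversaryS {n d : ℕ} {A : Type} [Fintype A] (h : A → Finset (Fin n × Bool))
    (Q : (Fin n → Bool) → Prop) (L : List (Ex n) → MvPolynomial (Fin n) ℝ)
    (hL : ∀ H, ∃ E : Ex n, thr (L H) E.1 ≠ E.2 ∧ (E.2 = true → Q E.1) ∧
      ((univ : Finset A).filter fun a => disj (h a) E.1 ≠ E.2).card ≤ d) :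
    ∀ (T : ℕ) (H : List (Ex n)), ∃ S : List (Ex n),
      S.length = T ∧ mistakesAfter L H S = T ∧ (∀ E ∈ S, E.2 = true → Q E.1) ∧
      ∑ a, errors (h a) S ≤ d * T := by
  intro T
  induction T with
  | zero =>
    intro H
    exact ⟨[], rfl, rfl, fun E hE => absurd hE List.not_mem_nil, by simp [errors]⟩
  | succ T ih =>
    intro H
    obtain ⟨E, he1, he3, he2⟩ := hL H
    obtain ⟨S, hS1, hS2, hS4, hS3⟩ := ih (H ++ [E])
    refine ⟨E :: S, by rw [List.length_cons, hS1], ?_, ?_, ?_⟩
    · show (if thr (L H) E.1 = E.2 then 0 else 1) + mistakesAfter L (H ++ [E]) S = T + 1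
      rw [if_neg he1, hS2]
      omega
    · intro E' hE'
      rcases List.mem_cons.1 hE' with rfl | h
      · exact he3
      · exact hS4 E' h
    · have h1 : ∀ a, errors (h a) (E :: S) =
          errors (h a) S + if disj (h a) E.1 ≠ E.2 then 1 else 0 := by
        intro a
        unfold errors
        rw [List.countP_cons]
        congr 1
        by_cases h : disj (h a) E.1 = E.2
        · rw [if_neg (by rw [h]; simp), if_neg (not_not.2 h)]
        · rw [if_pos (by rw [bne_iff_ne]; exact h), if_pos h]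
      simp only [h1]
      rw [sum_add_distrib, sum_boole]
      have h2 : d * (T + 1) = d * T + d := by ring
      rw [h2]
      exact Nat.add_le_add hS3 (by exact_mod_cast he2)

section Trial

variable {A : Type} {n s m : ℕ}

/-- The input with given cells. -/
noncomputable def ext (ι : (A × Fin s) × Fin m ↪ Fin n) (X : (A × Fin s) × Fin m → Bool) :
    Fin n → Bool := Function.extend ι X fun _ => false

lemma ext_apply (ι : (A × Fin s) × Fin m ↪ Fin n) (X : (A × Fin s) × Fin m → Bool)
    (q : (A × Fin s) × Fin m) : ext ι X (ι q) = X q := ι.injective.extend_apply _ _ _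

lemma ext_out (ι : (A × Fin s) × Fin m ↪ Fin n) (X : (A × Fin s) × Fin m → Bool) (i : Fin n)
    (hi : ¬ ∃ q, ι q = i) : ext ι X i = false := Function.extend_apply' _ _ _ hi

open Classical in
/-- The signs. -/
noncomputable def signs (ι : (A × Fin s) × Fin m ↪ Fin n) (τ : A × Fin s → Fin m)
    (ω : A × Fin s → Bool) (i : Fin n) : Bool :=
  decide (∀ v, ι (v, τ v) = i → ω v = true)

lemma signs_apply (ι : (A × Fin s) × Fin m ↪ Fin n) (τ : A × Fin s → Fin m)
    (ω : A × Fin s → Bool) (v : A × Fin s) : signs ι τ ω (ι (v, τ v)) = ω v := by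
  classical
  unfold signs
  by_cases h : ω v = true
  · rw [h, decide_eq_true_eq]
    intro v' hv'
    have h1 := congrArg Prod.fst (ι.injective hv')
    have h2 : v' = v := h1
    rw [h2, h]
  · have h' : ω v = false := Bool.eq_false_of_not_eq_true h
    rw [h', decide_eq_false_iff_not]
    intro h1
    have h2 := h1 v rfl
    rw [h'] at h2
    exact Bool.noConfusion h2

lemma signs_out (ι : (A × Fin s) × Fin m ↪ Fin n) (τ : A × Fin s → Fin m)
    (ω : A × Fin s → Bool) (i : Fin n) (hi : ¬ ∃ q, ι q = i) : signs ι τ ω i = true := by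
  classical
  unfold signs
  rw [decide_eq_true_eq]
  intro v hv
  exact absurd ⟨_, hv⟩ hi

open Classical in
/-- The variables of a block: the alive cells and the padding. -/
noncomputable def blkS (ι : (A × Fin s) × Fin m ↪ Fin n) (τ : A × Fin s → Fin m)
    (Pad : Finset (Fin n)) (a : A) : Finset (Fin n) :=
  (univ.image fun j : Fin s => ι ((a, j), τ (a, j))) ∪ Pad

theorem blkS_card {k : ℕ} (ι : (A × Fin s) × Fin m ↪ Fin n) (τ : A × Fin s → Fin m)
    (Pad : Finset (Fin n)) (hPad : ∀ i ∈ Pad, ¬ ∃ w, ι w = i) (hk : s + Pad.card = k) (a : A) :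
    (blkS ι τ Pad a).card = k := by
  classical
  unfold blkS
  rw [card_union_of_disjoint, card_image_of_injective, card_univ, Fintype.card_fin, hk]
  · intro i j h
    have h1 := ι.injective h
    rw [Prod.mk.injEq, Prod.mk.injEq] at h1
    exact h1.1.2
  · rw [disjoint_left]
    intro i hi hi'
    obtain ⟨j, _, hj⟩ := mem_image.1 hi
    exact hPad i hi' ⟨_, hj⟩

theorem hitS [Fintype A] (ι : (A × Fin s) × Fin m ↪ Fin n) (τ : A × Fin s → Fin m)
    (ω : A × Fin s → Bool) (Pad : Finset (Fin n)) (hPad : ∀ i ∈ Pad, ¬ ∃ w, ι w = i)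
    (X : (A × Fin s) × Fin m → Bool) (a : A) :
    (∃ i ∈ blkS ι τ Pad a, ext ι X i = signs ι τ ω i) ↔ (cont τ ω X a).Nonempty := by
  classical
  have hval : ∀ j : Fin s, ext ι X (ι ((a, j), τ (a, j))) = signs ι τ ω (ι ((a, j), τ (a, j))) ↔
      j ∈ cont τ ω X a := by
    intro j
    rw [ext_apply, signs_apply]
    unfold cont
    rw [mem_filter]
    exact ⟨fun h => ⟨mem_univ _, h⟩, fun h => h.2⟩
  unfold blkS
  constructor
  · rintro ⟨i, hi, h⟩
    rcases mem_union.1 hi with h1 | h1
    · obtain ⟨j, _, rfl⟩ := mem_image.1 h1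
      exact ⟨j, (hval j).1 h⟩
    · rw [ext_out ι X i (hPad i h1), signs_out ι τ ω i (hPad i h1)] at h
      exact Bool.noConfusion h
  · rintro ⟨j, hj⟩
    exact ⟨_, mem_union_left _ (mem_image_of_mem _ (mem_univ j)), (hval j).2 hj⟩

lemma disj_signed (b : Fin n → Bool) (C : Finset (Fin n)) (x : Fin n → Bool) :
    disj (C.image fun i => (i, b i)) x = true ↔ ∃ i ∈ C, x i = b i := by
  unfold disj
  rw [decide_eq_true_eq]
  constructor
  · rintro ⟨l, hl, h⟩
    obtain ⟨i, hi, rfl⟩ := mem_image.1 hl
    exact ⟨i, hi, h⟩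
  · rintro ⟨i, hi, h⟩
    exact ⟨(i, b i), mem_image_of_mem _ hi, h⟩

end Trial

/-- **The barrier for thresholds with margin one and vectors of norm at most `R`.** -/
theorem barrier_margin {E : Type*} [NormedAddCommGroup E] [InnerProductSpace ℝ E] {n d m : ℕ}
    (φ : (Fin n → Bool) → E) (hφ : ∀ x, ‖φ x‖ ≤ 1) (R : ℝ) (hR : 4 * R ^ 2 < (m : ℝ) ^ (d + 1))
    (w : List (Ex n) → E) (hw : ∀ H, ‖w H‖ ≤ R)
    (hmar : ∀ H x, 0 < inner ℝ (w H) (φ x) → 1 ≤ inner ℝ (w H) (φ x))
    (L : List (Ex n) → MvPolynomial (Fin n) ℝ)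
    (hL : ∀ H x, thr (L H) x = true ↔ 0 < inner ℝ (w H) (φ x)) : Barrier L d 1 m := by
  classical
  intro A _ _ s B k hNS hk hn T
  rw [mul_one] at hk
  have hm : 1 ≤ m := by
    by_contra h
    have h0 : m = 0 := by omega
    rw [h0, Nat.cast_zero, zero_pow (Nat.succ_ne_zero d)] at hR
    nlinarith [sq_nonneg R]
  obtain ⟨e⟩ : Nonempty (((A × Fin s) × Fin m) ⊕ Fin (k - s) ↪ Fin n) := by
    apply Function.Embedding.nonempty_of_card_le
    rw [Fintype.card_sum, Fintype.card_prod, Fintype.card_prod, Fintype.card_fin,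
      Fintype.card_fin, Fintype.card_fin, Fintype.card_fin]
    obtain ⟨t, rfl⟩ := Nat.exists_eq_add_of_le hk
    have h1 : 1 ≤ m * Fintype.card A := Nat.mul_pos hm Fintype.card_pos
    calc Fintype.card A * s * m + (s + t - s) ≤ Fintype.card A * s * m + m * Fintype.card A * t := by
          have : s + t - s = t := by omega
          rw [this]
          have := Nat.mul_le_mul_right t h1
          omega
      _ = m * (Fintype.card A * (s + t)) := by ring
      _ ≤ n := hn
  set ι : (A × Fin s) × Fin m ↪ Fin n := Function.Embedding.inl.trans e with hι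
  set Pad : Finset (Fin n) := univ.image fun j : Fin (k - s) => e (Sum.inr j) with hPadDef
  have hPadc : Pad.card = k - s := by
    rw [hPadDef, card_image_of_injective, card_univ, Fintype.card_fin]
    intro i j h
    exact Sum.inr_injective (e.injective h)
  have hPad : ∀ i ∈ Pad, ¬ ∃ w, ι w = i := by
    rintro i hi ⟨w', hw'⟩
    obtain ⟨j, _, hj⟩ := mem_image.1 hi
    have h1 : e (Sum.inl w') = e (Sum.inr j) := hw'.trans hj.symm
    exact Sum.inl_ne_inr (e.injective h1)
  obtain ⟨τ, ω, hcode⟩ := exists_code hNS (fun X => φ (ext ι X)) (fun X => hφ _) R hR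
  obtain ⟨Pre, hPre⟩ := prefix_m (fun a : A => blkS ι τ Pad a)
    (fun a => blkS_card (k := k) ι τ Pad hPad (by rw [hPadc]; omega) a) (signs ι τ ω) T
  obtain ⟨S, hS1, hS2, hS3, hS4⟩ := adversaryS
    (fun a : A => (blkS ι τ Pad a).image fun i => (i, signs ι τ ω i))
    (fun x => ∀ a, ∃ i ∈ blkS ι τ Pad a, x i = signs ι τ ω i) L (d := B) (by
      intro H
      rcases hcode (w H) (hw H) (fun X h => hmar H _ h) with ⟨X, h1, h2⟩ | ⟨X, h1, h2⟩
      · refine ⟨(ext ι X, true), ?_, fun _ a => (hitS ι τ ω Pad hPad X a).2 (h1 a), ?_⟩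
        · intro h3
          exact absurd ((hL H _).1 h3) (not_lt.2 h2)
        · have : ((univ : Finset A).filter fun a =>
              disj ((blkS ι τ Pad a).image fun i => (i, signs ι τ ω i)) (ext ι X, true).1 ≠
                (ext ι X, true).2) = ∅ := by
            rw [filter_eq_empty_iff]
            intro a _
            rw [not_not]
            exact (disj_signed _ _ _).2 ((hitS ι τ ω Pad hPad X a).2 (h1 a))
          rw [this, card_empty]
          exact Nat.zero_le _
      · refine ⟨(ext ι X, false), ?_, fun h => Bool.noConfusion h, ?_⟩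
        · intro h3
          have h4 := (hL H (ext ι X)).2 h2
          have h5 : thr (L H) (ext ι X) = false := h3
          rw [h5] at h4
          exact Bool.noConfusion h4
        · refine (card_le_card ?_).trans h1
          intro a ha
          rw [mem_filter] at ha ⊢
          refine ⟨mem_univ _, (hitS ι τ ω Pad hPad X a).1 ((disj_signed _ _ _).1 ?_)⟩
          exact Bool.eq_true_of_not_eq_false ha.2) T Pre
  obtain ⟨hr, hmD⟩ := hPre S hS1.le hS3
  refine ⟨Pre ++ S, ?_, hr, ?_⟩
  · show T ≤ mistakesAfter L [] (Pre ++ S)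
    rw [mistakesAfter_append, List.nil_append, hS2]
    exact Nat.le_add_left _ _
  · calc Fintype.card A * mDisj (Pre ++ S) = ∑ _a : A, mDisj (Pre ++ S) := by
          rw [sum_const, card_univ, smul_eq_mul]
      _ ≤ ∑ a : A, errors ((blkS ι τ Pad a).image fun i => (i, signs ι τ ω i)) S :=
          sum_le_sum fun a _ => hmD a
      _ ≤ B * T := hS4

end Pool.Agent.THR72.FS
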