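import Pool.Agent.THR72.FeatC

/-!
# Online learners that predict with thresholds in a feature space, with margin
-/

namespace Pool.Agent.THR72

open Finset

section Defs

variable {E : Type*} [NormedAddCommGroup E] [InnerProductSpace ℝ E] {n : ℕ}

open Classical in
/-- The learner with the features `φ` and the weights `w` predicts `true` on the input `x` after the
labelled examples `H` if and only if `⟨w H, φ x⟩ > 0`. The number of its mistakes on the examples
`S` if the examples `H` came before. -/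
noncomputable def kErrAfter (φ : (Fin n → Bool) → E) (w : List (Ex n) → E) :
    List (Ex n) → List (Ex n) → ℕ
  | _, [] => 0
  | H, e :: S => (if 0 < inner ℝ (w H) (φ e.1) ↔ e.2 = true then 0 else 1) +
      kErrAfter φ w (H ++ [e]) S

/-- The number of mistakes on the sequence `S`. -/
noncomputable def kErr (φ : (Fin n → Bool) → E) (w : List (Ex n) → E) (S : List (Ex n)) : ℕ :=
  kErrAfter φ w [] S

/-- A positive value of a threshold function is at least one. -/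
def Margin (φ : (Fin n → Bool) → E) (w : List (Ex n) → E) : Prop :=
  ∀ H x, 0 < inner ℝ (w H) (φ x) → 1 ≤ inner ℝ (w H) (φ x)

end Defs

namespace FS

section

variable {E : Type*} [NormedAddCommGroup E] [InnerProductSpace ℝ E] {n : ℕ}

lemma kErrAfter_append (φ : (Fin n → Bool) → E) (w : List (Ex n) → E) :
    ∀ (A H B : List (Ex n)), kErrAfter φ w H (A ++ B) =
      kErrAfter φ w H A + kErrAfter φ w (H ++ A) B := by
  classical
  intro A
  induction A with
  | nil =>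
    intro H B
    rw [List.nil_append, List.append_nil]
    exact (Nat.zero_add _).symm
  | cons e A ih =>
    intro H B
    show (if 0 < inner ℝ (w H) (φ e.1) ↔ e.2 = true then 0 else 1) +
        kErrAfter φ w (H ++ [e]) (A ++ B) =
      (if 0 < inner ℝ (w H) (φ e.1) ↔ e.2 = true then 0 else 1) + kErrAfter φ w (H ++ [e]) A +
        kErrAfter φ w (H ++ e :: A) B
    rw [ih (H ++ [e]) B, List.append_assoc, List.singleton_append, ← add_assoc]

open Classical in
lemma kErr_snoc (φ : (Fin n → Bool) → E) (w : List (Ex n) → E) (S : List (Ex n)) (e : Ex n) :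
    kErr φ w (S ++ [e]) = kErr φ w S +
      (if 0 < inner ℝ (w S) (φ e.1) ↔ e.2 = true then 0 else 1) := by
  unfold kErr
  rw [kErrAfter_append]
  rfl

/-- Replacing the weights after `M` mistakes. -/
theorem trunc (φ : (Fin n → Bool) → E) (w w' : List (Ex n) → E) (M : ℕ)
    (h : ∀ H, kErr φ w H < M → w' H = w H) (S : List (Ex n)) :
    kErr φ w S < M → kErr φ w' S = kErr φ w S := by
  classical
  induction S using List.reverseRecOn with
  | nil => exact fun _ => rfl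
  | append_singleton S e ih =>
    intro h1
    rw [kErr_snoc] at h1
    have h2 : kErr φ w S < M := lt_of_le_of_lt (Nat.le_add_right _ _) h1
    rw [kErr_snoc, kErr_snoc, ih h2, h S h2]

/-- A polynomial with given values. -/
noncomputable def interp (g : (Fin n → Bool) → ℝ) : MvPolynomial (Fin n) ℝ :=
  ∑ x : Fin n → Bool, MvPolynomial.C (g x) * ∏ i, (if x i = true then MvPolynomial.X i
    else 1 - MvPolynomial.X i)

lemma eval_interp (g : (Fin n → Bool) → ℝ) (y : Fin n → Bool) :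
    MvPolynomial.eval (fun i => if y i = true then (1 : ℝ) else 0) (interp g) = g y := by
  unfold interp
  rw [map_sum, sum_eq_single_of_mem y (mem_univ _)]
  · rw [map_mul, MvPolynomial.eval_C, map_prod, prod_eq_one, mul_one]
    intro i _
    cases h : y i <;> simp [h]
  · intro x _ hxy
    obtain ⟨i, hi⟩ := Function.ne_iff.1 hxy
    rw [map_mul, map_prod, prod_eq_zero (mem_univ i), mul_zero]
    revert hi
    cases h : x i <;> cases h' : y i <;> simp [h']

theorem exists_L (φ : (Fin n → Bool) → E) (w : List (Ex n) → E) :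
    ∃ L : List (Ex n) → MvPolynomial (Fin n) ℝ,
      (∀ H x, thr (L H) x = true ↔ 0 < inner ℝ (w H) (φ x)) ∧
      ∀ S, mistakes L S = kErr φ w S := by
  classical
  let L : List (Ex n) → MvPolynomial (Fin n) ℝ := fun H => interp fun x =>
    if 0 < inner ℝ (w H) (φ x) then 1 else 0
  have h1 : ∀ H x, thr (L H) x = true ↔ 0 < inner ℝ (w H) (φ x) := by
    intro H x
    unfold thr
    rw [decide_eq_true_eq]
    show 0 < MvPolynomial.eval (fun i => if x i = true then (1 : ℝ) else 0) (interp fun x =>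
      if 0 < inner ℝ (w H) (φ x) then 1 else 0) ↔ _
    rw [eval_interp]
    by_cases h : 0 < inner ℝ (w H) (φ x)
    · rw [if_pos h]
      exact ⟨fun _ => h, fun _ => one_pos⟩
    · rw [if_neg h]
      exact ⟨fun h' => absurd h' (lt_irrefl _), fun h' => absurd h' h⟩
  have h2 : ∀ S H, mistakesAfter L H S = kErrAfter φ w H S := by
    intro S
    induction S with
    | nil => intro H; rfl
    | cons e S ih =>
      intro H
      show (if thr (L H) e.1 = e.2 then 0 else 1) + mistakesAfter L (H ++ [e]) S =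
        (if 0 < inner ℝ (w H) (φ e.1) ↔ e.2 = true then 0 else 1) + kErrAfter φ w (H ++ [e]) S
      rw [ih]
      congr 1
      have h3 : thr (L H) e.1 = e.2 ↔ (0 < inner ℝ (w H) (φ e.1) ↔ e.2 = true) := by
        rw [← h1]
        exact Bool.eq_iff_iff
      by_cases h : thr (L H) e.1 = e.2
      · rw [if_pos h, if_pos (h3.1 h)]
      · rw [if_neg h, if_neg fun h' => h (h3.2 h')]
  exact ⟨L, h1, fun S => h2 S []⟩

/-- **The explicit bound.** -/
theorem margin_k {d k m M : ℕ} (hd : 1 ≤ d) (hk1 : 60 * d ^ 2 ≤ k) (hk2 : m * k ^ 2 ≤ 4 * d * n)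
    (R : ℝ) (hR : 4 * R ^ 2 < (m : ℝ) ^ (d + 1)) (φ : (Fin n → Bool) → E) (hφ : ∀ x, ‖φ x‖ ≤ 1)
    (w : List (Ex n) → E) (hmar : Margin φ w) (hw : ∀ H, kErr φ w H < M → ‖w H‖ ≤ R) :
    ∃ S : List (Ex n), M ≤ kErr φ w S ∧ rDisj S = k ∧ k * mDisj S ≤ 57 * d ^ 2 * M := by
  classical
  rcases Nat.eq_zero_or_pos M with hM | hM
  · -- the vector zero
    obtain ⟨L, hL1, hL2⟩ := exists_L (n := n) (fun _ => (0 : ℝ)) (fun _ => (0 : ℝ))
    have hB := barrier_margin (n := n) (d := d) (m := m) (fun _ => (0 : ℝ))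
      (fun _ => by rw [norm_zero]; exact zero_le_one) 0 (by
        refine lt_of_le_of_lt ?_ hR
        nlinarith [sq_nonneg R]) (fun _ => (0 : ℝ)) (fun _ => by rw [norm_zero])
      (fun _ _ h => by simp at h) L hL1
    obtain ⟨S, hS1, hS2, hS3⟩ := barrier_k (k := k) hd le_rfl L hB (by rw [mul_one]; exact hk1)
      (by rw [mul_one]; exact hk2) 0
    refine ⟨S, by rw [hM]; exact Nat.zero_le _, hS2, ?_⟩
    rw [mul_one] at hS3
    rw [hM]
    exact hS3
  · set w' : List (Ex n) → E := fun H => if kErr φ w H < M then w H else 0 with hw'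
    have hR0 : 0 ≤ R := (norm_nonneg _).trans (hw [] hM)
    obtain ⟨L, hL1, hL2⟩ := exists_L φ w'
    have hB := barrier_margin (d := d) (m := m) φ hφ R hR w' (by
        intro H
        rw [hw']
        by_cases h : kErr φ w H < M
        · simp only [if_pos h]
          exact hw H h
        · simp only [if_neg h, norm_zero]
          exact hR0) (by
        intro H x h1
        by_cases h : kErr φ w H < M
        · have h2 : w' H = w H := if_pos h
          rw [h2] at h1 ⊢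
          exact hmar H x h1
        · have h2 : w' H = 0 := if_neg h
          rw [h2, inner_zero_left] at h1
          exact absurd h1 (lt_irrefl _)) L hL1
    obtain ⟨S, hS1, hS2, hS3⟩ := barrier_k (k := k) hd le_rfl L hB (by rw [mul_one]; exact hk1)
      (by rw [mul_one]; exact hk2) M
    refine ⟨S, ?_, hS2, ?_⟩
    · by_contra h1
      rw [not_le] at h1
      have h2 := trunc φ w w' M (fun H hH => if_pos hH) S h1
      rw [hL2, h2] at hS1
      omega
    · rw [mul_one] at hS3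
      exact hS3

end

/-- **The ratio in terms of `r`.** -/
theorem margin_r (K : ℕ) (ε : ℝ) (hε : 0 < ε) : ∃ c : ℝ, 0 < c ∧ ∃ n₀ : ℕ, ∀ n : ℕ, n₀ ≤ n →
    ∀ k : ℕ, 1 ≤ c * k → (k : ℝ) ≤ (n : ℝ) ^ (1 / 2 - ε) →
    ∀ (E : Type) [NormedAddCommGroup E] [InnerProductSpace ℝ E] (φ : (Fin n → Bool) → E)
      (w : List (Ex n) → E), (∀ x, ‖φ x‖ ≤ 1) → Margin φ w →
      (∀ H, ‖w H‖ ≤ ((n : ℝ) + kErr φ w H) ^ K) →
      ∃ S : List (Ex n), rDisj S = k ∧ c * k * mDisj S + (n : ℝ) ^ K < kErr φ w S := by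
  set a : ℝ := (2 * (K : ℝ) ^ 2 + 4 * K + 1) / (2 * ε) with ha
  have ha0 : 0 < a := by positivity
  set d := ⌈a⌉₊ with hd
  have hd1 : 1 ≤ d := Nat.ceil_pos.2 ha0
  have hd1' : (1 : ℝ) ≤ d := by exact_mod_cast hd1
  refine ⟨1 / (114 * d ^ 2), by positivity, 4, fun n hn k hk1 hk2 E _ _ φ w hφ hmar hw => ?_⟩
  have hn4 : (4 : ℝ) ≤ n := by exact_mod_cast hn
  have hn0 : (0 : ℝ) < n := by linarith
  have hn1 : (1 : ℝ) ≤ n := by linarith
  set m := ⌈(n : ℝ) ^ (2 * ε)⌉₊ with hm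
  have hm1 : (n : ℝ) ^ (2 * ε) ≤ m := Nat.le_ceil _
  have hne : 1 ≤ (n : ℝ) ^ (2 * ε) := Real.one_le_rpow hn1 (by linarith)
  have hm2 : (m : ℝ) ≤ 2 * (n : ℝ) ^ (2 * ε) := by
    have := Nat.ceil_lt_add_one (show (0 : ℝ) ≤ (n : ℝ) ^ (2 * ε) by positivity)
    rw [← hm] at this
    linarith
  set M := 2 * n ^ K + 1 with hM
  have hMr : (M : ℝ) = 2 * (n : ℝ) ^ K + 1 := by rw [hM]; push_cast; ring
  -- the bound for the norm
  have hnM : (n : ℝ) + M ≤ (n : ℝ) ^ (K + 2) := by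
    rw [hMr]
    have h1 : (n : ℝ) ≤ (n : ℝ) ^ (K + 1) := by
      calc (n : ℝ) = (n : ℝ) ^ 1 := (pow_one _).symm
        _ ≤ (n : ℝ) ^ (K + 1) := pow_le_pow_right₀ hn1 (by omega)
    have h2 : (n : ℝ) ^ K ≤ (n : ℝ) ^ (K + 1) := pow_le_pow_right₀ hn1 (by omega)
    have h3 : (1 : ℝ) ≤ (n : ℝ) ^ (K + 1) := one_le_pow₀ hn1
    calc (n : ℝ) + (2 * (n : ℝ) ^ K + 1) ≤ 4 * (n : ℝ) ^ (K + 1) := by linarith
      _ ≤ n * (n : ℝ) ^ (K + 1) := by gcongr
      _ = (n : ℝ) ^ (K + 2) := by ring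
  have hR : 4 * (((n : ℝ) ^ (K + 2)) ^ K) ^ 2 < (m : ℝ) ^ (d + 1) := by
    have h1 : 4 * (((n : ℝ) ^ (K + 2)) ^ K) ^ 2 ≤ (n : ℝ) ^ (2 * K ^ 2 + 4 * K + 1) := by
      calc 4 * (((n : ℝ) ^ (K + 2)) ^ K) ^ 2 ≤ n * (((n : ℝ) ^ (K + 2)) ^ K) ^ 2 := by gcongr
        _ = (n : ℝ) ^ (2 * K ^ 2 + 4 * K + 1) := by
          rw [← pow_mul, ← pow_mul, ← pow_succ']
          congr 1
          ring
    have h2 : (n : ℝ) ^ (2 * K ^ 2 + 4 * K + 1) < ((n : ℝ) ^ (2 * ε)) ^ (d + 1) := by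
      rw [← Real.rpow_natCast, ← Real.rpow_natCast, ← Real.rpow_mul hn0.le]
      apply Real.rpow_lt_rpow_of_exponent_lt (by linarith)
      have h3 : a < d + 1 := lt_of_le_of_lt (Nat.le_ceil a) (by linarith)
      rw [ha, div_lt_iff₀ (by positivity)] at h3
      push_cast
      linarith
    calc 4 * (((n : ℝ) ^ (K + 2)) ^ K) ^ 2 ≤ (n : ℝ) ^ (2 * K ^ 2 + 4 * K + 1) := h1
      _ < ((n : ℝ) ^ (2 * ε)) ^ (d + 1) := h2
      _ ≤ (m : ℝ) ^ (d + 1) := by gcongr
  have hk3 : 114 * (d : ℝ) ^ 2 ≤ k := by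
    have h1 : 0 < 114 * (d : ℝ) ^ 2 := by positivity
    rw [one_div, inv_mul_eq_div, le_div_iff₀ h1, one_mul] at hk1
    exact hk1
  have hk4 : 60 * d ^ 2 ≤ k := by
    have h1 : 114 * d ^ 2 ≤ k := by exact_mod_cast hk3
    omega
  have hk5 : m * k ^ 2 ≤ 4 * d * n := by
    have h1 : (k : ℝ) ^ 2 ≤ (n : ℝ) ^ (1 - 2 * ε) := by
      calc (k : ℝ) ^ 2 ≤ ((n : ℝ) ^ (1 / 2 - ε)) ^ 2 := by gcongr
        _ = (n : ℝ) ^ (1 - 2 * ε) := by
          rw [← Real.rpow_natCast, ← Real.rpow_mul hn0.le]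
          congr 1
          push_cast
          ring
    have h2 : (m : ℝ) * (k : ℝ) ^ 2 ≤ 4 * d * n := by
      calc (m : ℝ) * (k : ℝ) ^ 2 ≤ (2 * (n : ℝ) ^ (2 * ε)) * (n : ℝ) ^ (1 - 2 * ε) := by gcongr
        _ = 2 * ((n : ℝ) ^ (2 * ε) * (n : ℝ) ^ (1 - 2 * ε)) := by ring
        _ = 2 * n := by
          rw [← Real.rpow_add hn0]
          have : 2 * ε + (1 - 2 * ε) = 1 := by ring
          rw [this, Real.rpow_one]
        _ ≤ 4 * d * n := by nlinarith
    exact_mod_cast h2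
  obtain ⟨S, hS1, hS2, hS3⟩ := margin_k (M := M) hd1 hk4 hk5 (((n : ℝ) ^ (K + 2)) ^ K) hR φ hφ w
    hmar (by
      intro H hH
      refine (hw H).trans ?_
      apply pow_le_pow_left₀ (by positivity)
      refine le_trans ?_ hnM
      have : (kErr φ w H : ℝ) ≤ M := by exact_mod_cast hH.le
      linarith)
  refine ⟨S, hS2, ?_⟩
  have h1 : (k : ℝ) * mDisj S ≤ 57 * d ^ 2 * M := by exact_mod_cast hS3
  have h2 : 1 / (114 * (d : ℝ) ^ 2) * k * mDisj S ≤ M / 2 := by
    calc 1 / (114 * (d : ℝ) ^ 2) * k * mDisj S = 1 / (114 * (d : ℝ) ^ 2) * (k * mDisj S) := by ring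
      _ ≤ 1 / (114 * (d : ℝ) ^ 2) * (57 * d ^ 2 * M) := by gcongr
      _ = M / 2 := by field_simp; ring
  have h3 : (M : ℝ) ≤ kErr φ w S := by exact_mod_cast hS1
  calc 1 / (114 * (d : ℝ) ^ 2) * k * mDisj S + (n : ℝ) ^ K ≤ M / 2 + (n : ℝ) ^ K := by gcongr
    _ < M := by rw [hMr]; linarith
    _ ≤ kErr φ w S := h3

/-- **The ratio in terms of `n`.** -/
theorem margin_n (K : ℕ) (a : ℝ) (ha0 : 0 ≤ a) (ha : a < 1 / 2) : ∃ n₀ : ℕ, ∀ n : ℕ, n₀ ≤ n →
    ∀ (E : Type) [NormedAddCommGroup E] [InnerProductSpace ℝ E] (φ : (Fin n → Bool) → E)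
      (w : List (Ex n) → E), (∀ x, ‖φ x‖ ≤ 1) → Margin φ w →
      (∀ H, ‖w H‖ ≤ ((n : ℝ) + kErr φ w H) ^ K) →
      ∃ S : List (Ex n), (n : ℝ) ^ a * mDisj S + (n : ℝ) ^ K < kErr φ w S := by
  set ε : ℝ := (1 / 2 - a) / 2 with hε
  have hε0 : 0 < ε := by linarith
  obtain ⟨c, hc, n₀, h⟩ := margin_r K ε hε0
  have hlim : ∀ᶠ n : ℕ in Filter.atTop, 1 + 1 / c ≤ (n : ℝ) ^ ε :=
    ((tendsto_rpow_atTop hε0).comp tendsto_natCast_atTop_atTop).eventually_ge_atTop _
  obtain ⟨n₁, hn₁⟩ := Filter.eventually_atTop.1 hlim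
  refine ⟨max (max n₀ n₁) 1, fun n hn E _ _ φ w hφ hmar hw => ?_⟩
  have hnn₀ : n₀ ≤ n := (le_max_left _ _).trans ((le_max_left _ _).trans hn)
  have hnn₁ : n₁ ≤ n := (le_max_right _ _).trans ((le_max_left _ _).trans hn)
  have hn1 : (1 : ℝ) ≤ n := by exact_mod_cast (le_max_right _ _).trans hn
  have hn0 : (0 : ℝ) < n := by linarith
  have h1 := hn₁ n hnn₁
  set k := ⌊(n : ℝ) ^ (1 / 2 - ε)⌋₊ with hk
  have hk1 : (k : ℝ) ≤ (n : ℝ) ^ (1 / 2 - ε) := Nat.floor_le (by positivity)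
  have hk2 : (n : ℝ) ^ (1 / 2 - ε) < k + 1 := Nat.lt_floor_add_one _
  have hna : 1 ≤ (n : ℝ) ^ a := Real.one_le_rpow hn1 ha0
  have hexp : (n : ℝ) ^ (1 / 2 - ε) = (n : ℝ) ^ a * (n : ℝ) ^ ε := by
    rw [← Real.rpow_add hn0]
    congr 1
    rw [hε]
    ring
  have hck : (n : ℝ) ^ a ≤ c * k := by
    have h2 : (n : ℝ) ^ a * (1 + 1 / c) ≤ k + 1 := by
      refine le_trans ?_ hk2.le
      rw [hexp]
      gcongr
    have h3 : c * ((n : ℝ) ^ a * (1 + 1 / c)) ≤ c * (k + 1) := by gcongr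
    have h4 : c * ((n : ℝ) ^ a * (1 + 1 / c)) = c * (n : ℝ) ^ a + (n : ℝ) ^ a := by
      field_simp
    have h5 : c * 1 ≤ c * (n : ℝ) ^ a := by gcongr
    linarith
  obtain ⟨S, _, hS⟩ := h n hnn₀ k (hna.trans hck) hk1 E φ w hφ hmar hw
  refine ⟨S, lt_of_le_of_lt ?_ hS⟩
  have h2 : (n : ℝ) ^ a * mDisj S ≤ c * k * mDisj S := by gcongr
  linarith

end FS

end Pool.Agent.THR72
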