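import Mathlib

/-!
# A scaling lemma

For a linear space `V` of functions on a finite set and `β > 0` there are weights `z X ∈ [0, 1]`, all
but `dim V / β` of them equal to `1`, such that `z X * f X ^ 2 ≤ β * ∑ z Y * f Y ^ 2` for `f ∈ V`.
-/

namespace Pool.Agent.THR72.FS

open Finset Matrix Filter Topology

section Gram

variable {Ω : Type} [Fintype Ω] {r : ℕ}

/-- The weighted Gram matrix. -/
noncomputable def Gam (u : Ω → Fin r → ℝ) (z : Ω → ℝ) : Matrix (Fin r) (Fin r) ℝ :=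
  Matrix.of fun i j => ∑ X, z X * (u X i * u X j)

lemma Gam_quad (u : Ω → Fin r → ℝ) (z : Ω → ℝ) (a b : Fin r → ℝ) :
    a ⬝ᵥ (Gam u z *ᵥ b) = ∑ X, z X * ((a ⬝ᵥ u X) * (b ⬝ᵥ u X)) := by
  have h1 : a ⬝ᵥ (Gam u z *ᵥ b) = ∑ i, ∑ j, ∑ X, z X * ((a i * u X i) * (b j * u X j)) := by
    unfold Matrix.mulVec dotProduct
    refine sum_congr rfl fun i _ => ?_
    rw [mul_sum]
    refine sum_congr rfl fun j _ => ?_
    show a i * ((∑ X, z X * (u X i * u X j)) * b j) = _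
    rw [sum_mul, mul_sum]
    refine sum_congr rfl fun X _ => ?_
    ring
  rw [h1]
  have h2 : ∀ X, z X * ((a ⬝ᵥ u X) * (b ⬝ᵥ u X)) =
      ∑ i, ∑ j, z X * ((a i * u X i) * (b j * u X j)) := by
    intro X
    unfold dotProduct
    rw [sum_mul_sum, mul_sum]
    refine sum_congr rfl fun i _ => ?_
    rw [mul_sum]
  rw [sum_congr rfl fun X _ => h2 X]
  symm
  rw [sum_comm]
  refine sum_congr rfl fun i _ => ?_
  rw [sum_comm]

lemma Gam_symm (u : Ω → Fin r → ℝ) (z : Ω → ℝ) : (Gam u z).IsHermitian := by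
  ext i j
  show star (Gam u z j i) = Gam u z i j
  rw [star_trivial]
  show ∑ X, z X * (u X j * u X i) = ∑ X, z X * (u X i * u X j)
  refine sum_congr rfl fun X _ => ?_
  rw [mul_comm (u X j)]

/-- The functions are linearly independent. -/
def Indep (u : Ω → Fin r → ℝ) : Prop := ∀ a : Fin r → ℝ, (∀ X, a ⬝ᵥ u X = 0) → a = 0

lemma Gam_posDef {u : Ω → Fin r → ℝ} (hu : Indep u) {z : Ω → ℝ} (hz : ∀ X, 0 < z X) :
    (Gam u z).PosDef := by
  apply Matrix.PosDef.of_dotProduct_mulVec_pos (Gam_symm u z)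
  intro a ha
  rw [star_trivial, Gam_quad]
  have h1 : ∃ X, a ⬝ᵥ u X ≠ 0 := by
    by_contra h
    push Not at h
    exact ha (hu a h)
  obtain ⟨X, hX⟩ := h1
  apply sum_pos'
  · intro Y _
    have := (hz Y).le
    have h2 : 0 ≤ (a ⬝ᵥ u Y) * (a ⬝ᵥ u Y) := mul_self_nonneg _
    positivity
  · exact ⟨X, mem_univ X, mul_pos (hz X) (mul_self_pos.2 hX)⟩

variable [DecidableEq Ω]

lemma Gam_update (u : Ω → Fin r → ℝ) (z : Ω → ℝ) (X : Ω) (t : ℝ) :
    Gam u (Function.update z X (z X + t)) =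
      Gam u z + replicateCol Unit (t • u X) * replicateRow Unit (u X) := by
  ext i j
  rw [Matrix.add_apply, Matrix.mul_apply]
  show ∑ Y, Function.update z X (z X + t) Y * (u Y i * u Y j) =
    (∑ Y, z Y * (u Y i * u Y j)) + ∑ x : Unit, (t • u X) i * u X j
  have h1 : ∀ Y, Function.update z X (z X + t) Y * (u Y i * u Y j) =
      z Y * (u Y i * u Y j) + if X = Y then t * (u Y i * u Y j) else 0 := by
    intro Y
    by_cases h : X = Y
    · subst h
      rw [Function.update_self, if_pos rfl]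
      ring
    · rw [Function.update_of_ne (fun h' => h h'.symm), if_neg h, add_zero]
  rw [sum_congr rfl fun Y _ => h1 Y, sum_add_distrib, sum_ite_eq, if_pos (mem_univ _)]
  simp only [univ_unique, sum_singleton, Pi.smul_apply, smul_eq_mul]
  ring

lemma det_update (u : Ω → Fin r → ℝ) (z : Ω → ℝ) (h : IsUnit (Gam u z).det) (X : Ω) (t : ℝ) :
    (Gam u (Function.update z X (z X + t))).det =
      (Gam u z).det * (1 + t * (u X ⬝ᵥ ((Gam u z)⁻¹ *ᵥ u X))) := by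
  rw [Gam_update, det_add_replicateCol_mul_replicateRow h]
  congr 1
  rw [det_unique, Matrix.add_apply, Matrix.one_apply_eq]
  congr 1
  rw [Matrix.mul_assoc, Matrix.mul_apply]
  show ∑ j, u X j * ((Gam u z)⁻¹ * replicateCol Unit (t • u X)) j default = _
  have h1 : ∀ j, ((Gam u z)⁻¹ * replicateCol Unit (t • u X)) j default =
      t * ((Gam u z)⁻¹ *ᵥ u X) j := by
    intro j
    rw [Matrix.mul_apply]
    unfold Matrix.mulVec dotProduct
    rw [mul_sum]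
    refine sum_congr rfl fun i _ => ?_
    show (Gam u z)⁻¹ j i * (t • u X) i = _
    rw [Pi.smul_apply, smul_eq_mul]
    ring
  unfold dotProduct
  rw [mul_sum]
  refine sum_congr rfl fun j _ => ?_
  rw [h1 j]
  ring

omit [DecidableEq Ω] in
/-- The sum of the leverages. -/
lemma sum_lev (u : Ω → Fin r → ℝ) (z : Ω → ℝ) (h : IsUnit (Gam u z).det) :
    ∑ X, z X * (u X ⬝ᵥ ((Gam u z)⁻¹ *ᵥ u X)) = r := by
  have h1 : ∀ X, z X * (u X ⬝ᵥ ((Gam u z)⁻¹ *ᵥ u X)) =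
      ∑ i, ∑ j, (Gam u z)⁻¹ i j * (z X * (u X j * u X i)) := by
    intro X
    unfold Matrix.mulVec dotProduct
    rw [mul_sum]
    refine sum_congr rfl fun i _ => ?_
    rw [mul_sum, mul_sum]
    refine sum_congr rfl fun j _ => ?_
    ring
  have h2 : ∑ i, ∑ j, (Gam u z)⁻¹ i j * Gam u z j i = (r : ℝ) := by
    have h3 : ((Gam u z)⁻¹ * Gam u z).trace = (r : ℝ) := by
      rw [Matrix.nonsing_inv_mul _ h, Matrix.trace_one, Fintype.card_fin]
    rw [← h3]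
    unfold Matrix.trace
    refine sum_congr rfl fun i _ => ?_
    rw [Matrix.diag_apply, Matrix.mul_apply]
  rw [sum_congr rfl fun X _ => h1 X, sum_comm, ← h2]
  refine sum_congr rfl fun i _ => ?_
  rw [sum_comm]
  refine sum_congr rfl fun j _ => ?_
  rw [← mul_sum]
  rfl

omit [DecidableEq Ω] in
/-- The value at a point is bounded by the leverage. -/
lemma sq_le_lev (u : Ω → Fin r → ℝ) (z : Ω → ℝ) (hz : ∀ X, 0 ≤ z X)
    (h : IsUnit (Gam u z).det) (a : Fin r → ℝ) (X : Ω) :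
    (a ⬝ᵥ u X) ^ 2 ≤ (u X ⬝ᵥ ((Gam u z)⁻¹ *ᵥ u X)) * ∑ Y, z Y * (a ⬝ᵥ u Y) ^ 2 := by
  set b := (Gam u z)⁻¹ *ᵥ u X with hb
  have h1 : Gam u z *ᵥ b = u X := by
    rw [hb, Matrix.mulVec_mulVec, Matrix.mul_nonsing_inv _ h, Matrix.one_mulVec]
  have h2 : a ⬝ᵥ u X = ∑ Y, z Y * ((a ⬝ᵥ u Y) * (b ⬝ᵥ u Y)) := by
    rw [← Gam_quad, h1]
  have h3 : u X ⬝ᵥ b = ∑ Y, z Y * (b ⬝ᵥ u Y) ^ 2 := by
    have h4 := Gam_quad u z b b
    rw [h1, dotProduct_comm] at h4
    rw [h4]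
    refine sum_congr rfl fun Y _ => ?_
    ring
  rw [h2, h3]
  have h5 := sum_mul_sq_le_sq_mul_sq univ (fun Y => Real.sqrt (z Y) * (a ⬝ᵥ u Y))
    (fun Y => Real.sqrt (z Y) * (b ⬝ᵥ u Y))
  have e1 : ∀ Y, Real.sqrt (z Y) * (a ⬝ᵥ u Y) * (Real.sqrt (z Y) * (b ⬝ᵥ u Y)) =
      z Y * ((a ⬝ᵥ u Y) * (b ⬝ᵥ u Y)) := by
    intro Y
    calc _ = (Real.sqrt (z Y) * Real.sqrt (z Y)) * ((a ⬝ᵥ u Y) * (b ⬝ᵥ u Y)) := by ring
      _ = _ := by rw [Real.mul_self_sqrt (hz Y)]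
  have e2 : ∀ Y, (Real.sqrt (z Y) * (a ⬝ᵥ u Y)) ^ 2 = z Y * (a ⬝ᵥ u Y) ^ 2 := by
    intro Y
    rw [mul_pow, Real.sq_sqrt (hz Y)]
  have e3 : ∀ Y, (Real.sqrt (z Y) * (b ⬝ᵥ u Y)) ^ 2 = z Y * (b ⬝ᵥ u Y) ^ 2 := by
    intro Y
    rw [mul_pow, Real.sq_sqrt (hz Y)]
  rw [sum_congr rfl fun Y _ => e1 Y, sum_congr rfl fun Y _ => e2 Y,
    sum_congr rfl fun Y _ => e3 Y] at h5
  rw [mul_comm]
  exact h5

omit [DecidableEq Ω] in
lemma continuous_det (u : Ω → Fin r → ℝ) : Continuous fun z : Ω → ℝ => (Gam u z).det := by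
  apply Continuous.matrix_det
  apply continuous_pi
  intro i
  apply continuous_pi
  intro j
  show Continuous fun z : Ω → ℝ => ∑ X, z X * (u X i * u X j)
  fun_prop

end Gram

/-- One-sided derivatives. -/
lemma slope_right {κ β δ : ℝ} (hδ : 0 < δ) (h : ∀ σ, 0 < σ → σ < δ → (1 + σ) ^ β ≤ 1 + σ * κ) :
    β ≤ κ := by
  have h1 : HasDerivAt (fun σ : ℝ => (1 + σ) ^ β) β 0 := by
    have h2 := ((hasDerivAt_id (0 : ℝ)).const_add 1).rpow_const (p := β)
      (Or.inl (by simp))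
    simpa using h2
  have h2 := h1.tendsto_slope_zero_right
  have h3 : ∀ᶠ t in 𝓝[>] (0 : ℝ), t⁻¹ • ((1 + (0 + t)) ^ β - (1 + 0) ^ β) ≤ κ := by
    have h4 : ∀ᶠ t in 𝓝[>] (0 : ℝ), t ∈ Set.Ioo 0 δ := Ioo_mem_nhdsGT hδ
    filter_upwards [h4] with t ht
    have h5 := h t ht.1 ht.2
    rw [smul_eq_mul, zero_add, add_zero, Real.one_rpow, inv_mul_le_iff₀ ht.1]
    linarith
  exact le_of_tendsto h2 h3

lemma slope_left {κ β δ : ℝ} (hδ : 0 < δ) (h : ∀ σ, -δ < σ → σ < 0 → (1 + σ) ^ β ≤ 1 + σ * κ) :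
    κ ≤ β := by
  have h1 : HasDerivAt (fun σ : ℝ => (1 + σ) ^ β) β 0 := by
    have h2 := ((hasDerivAt_id (0 : ℝ)).const_add 1).rpow_const (p := β)
      (Or.inl (by simp))
    simpa using h2
  have h2 := h1.tendsto_slope_zero_left
  have h3 : ∀ᶠ t in 𝓝[<] (0 : ℝ), κ ≤ t⁻¹ • ((1 + (0 + t)) ^ β - (1 + 0) ^ β) := by
    have h4 : ∀ᶠ t in 𝓝[<] (0 : ℝ), t ∈ Set.Ioo (-δ) 0 := Ioo_mem_nhdsLT (by linarith)
    filter_upwards [h4] with t ht
    have h5 := h t ht.1 ht.2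
    rw [smul_eq_mul, zero_add, add_zero, Real.one_rpow]
    have h6 : t⁻¹ * (t * κ) = κ := by
      rw [← mul_assoc, inv_mul_cancel₀ ht.2.ne, one_mul]
    rw [← h6]
    apply mul_le_mul_of_nonpos_left _ (inv_nonpos.2 ht.2.le)
    linarith
  exact ge_of_tendsto h2 h3

section Box

variable {Ω : Type} [Fintype Ω] {r : ℕ}

/-- The minimiser on a box. -/
theorem exists_box {u : Ω → Fin r → ℝ} (hu : Indep u) {β : ℝ} (hβ : 0 < β) {ε : ℝ} (hε : 0 < ε)
    (hε1 : ε < 1) : ∃ z : Ω → ℝ, (∀ X, ε ≤ z X ∧ z X ≤ 1) ∧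
      β * ((univ.filter fun X => z X < 1).card : ℝ) ≤ r ∧
      ∀ (a : Fin r → ℝ) (X : Ω), ε < z X →
        z X * (a ⬝ᵥ u X) ^ 2 ≤ β * ∑ Y, z Y * (a ⬝ᵥ u Y) ^ 2 := by
  classical
  set Bx : Set (Ω → ℝ) := Set.pi Set.univ fun _ => Set.Icc ε 1 with hBx
  have hcomp : IsCompact Bx := isCompact_univ_pi fun _ => isCompact_Icc
  have hne : Bx.Nonempty := ⟨fun _ => 1, fun X _ => ⟨hε1.le, le_rfl⟩⟩
  have hposB : ∀ z ∈ Bx, ∀ X, 0 < z X := fun z hz X => lt_of_lt_of_le hε (hz X (Set.mem_univ X)).1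
  have hprod : ∀ z ∈ Bx, 0 < ∏ X, z X ^ β := fun z hz =>
    prod_pos fun X _ => Real.rpow_pos_of_pos (hposB z hz X) β
  have hcont : ContinuousOn (fun z : Ω → ℝ => (Gam u z).det / ∏ X, z X ^ β) Bx := by
    apply ContinuousOn.div
    · exact (continuous_det u).continuousOn
    · apply continuousOn_finsetProd
      intro X _
      apply ContinuousOn.rpow_const
      · exact (continuous_apply X).continuousOn
      · intro z hz
        exact Or.inl (hposB z hz X).ne'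
    · exact fun z hz => (hprod z hz).ne'
  obtain ⟨z, hz, hmin⟩ := hcomp.exists_isMinOn hne hcont
  have hz0 := hposB z hz
  have hPD := Gam_posDef hu hz0
  have hdet : 0 < (Gam u z).det := hPD.det_pos
  have hunit : IsUnit (Gam u z).det := isUnit_iff_ne_zero.2 hdet.ne'
  -- the leverages
  set κ : Ω → ℝ := fun X => z X * (u X ⬝ᵥ ((Gam u z)⁻¹ *ᵥ u X)) with hκ
  have key : ∀ X σ, ε ≤ z X * (1 + σ) → z X * (1 + σ) ≤ 1 → (1 + σ) ^ β ≤ 1 + σ * κ X := by
    intro X σ h1 h2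
    have hσ : 0 < 1 + σ := by
      by_contra h
      have : z X * (1 + σ) ≤ 0 := mul_nonpos_of_nonneg_of_nonpos (hz0 X).le (not_lt.1 h)
      linarith
    set z' := Function.update z X (z X + z X * σ) with hz'
    have hz'B : z' ∈ Bx := by
      intro Y _
      by_cases hY : Y = X
      · subst hY
        rw [hz', Function.update_self]
        constructor <;> linarith
      · rw [hz', Function.update_of_ne hY]
        exact hz Y (Set.mem_univ Y)
    have h3 := hmin hz'B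
    have h4 : (Gam u z').det = (Gam u z).det * (1 + σ * κ X) := by
      rw [hz', det_update u z hunit, hκ]
      ring
    have h5 : ∏ Y, z' Y ^ β = (1 + σ) ^ β * ∏ Y, z Y ^ β := by
      rw [← mul_prod_erase univ (fun Y => z' Y ^ β) (mem_univ X),
        ← mul_prod_erase univ (fun Y => z Y ^ β) (mem_univ X)]
      have e1 : ∏ Y ∈ univ.erase X, z' Y ^ β = ∏ Y ∈ univ.erase X, z Y ^ β := by
        refine prod_congr rfl fun Y hY => ?_
        rw [hz', Function.update_of_ne (ne_of_mem_erase hY)]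
      have e2 : z' X ^ β = (1 + σ) ^ β * z X ^ β := by
        rw [hz', Function.update_self, ← Real.mul_rpow hσ.le (hz0 X).le]
        congr 1
        ring
      show z' X ^ β * ∏ Y ∈ univ.erase X, z' Y ^ β = _
      rw [e1, e2]
      ring
    have h6 : (Gam u z).det / ∏ Y, z Y ^ β ≤ (Gam u z').det / ∏ Y, z' Y ^ β := h3
    have hp := hprod z hz
    have hs : 0 < (1 + σ) ^ β := Real.rpow_pos_of_pos hσ β
    rw [h4, h5, div_le_div_iff₀ hp (by positivity)] at h6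
    have h7 : ((Gam u z).det * ∏ Y, z Y ^ β) * (1 + σ) ^ β ≤
        ((Gam u z).det * ∏ Y, z Y ^ β) * (1 + σ * κ X) := by
      calc _ = (Gam u z).det * ((1 + σ) ^ β * ∏ Y, z Y ^ β) := by ring
        _ ≤ (Gam u z).det * (1 + σ * κ X) * ∏ Y, z Y ^ β := h6
        _ = _ := by ring
    exact le_of_mul_le_mul_left h7 (by positivity)
  have hlow : ∀ X, z X < 1 → β ≤ κ X := by
    intro X hX
    apply slope_right (δ := 1 / z X - 1) (by rw [sub_pos, one_lt_div (hz0 X)]; exact hX)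
    intro σ h1 h2
    apply key X σ
    · have h3 := (hz X (Set.mem_univ X)).1
      have h4 : 0 < z X * σ := mul_pos (hz0 X) h1
      linarith
    · have h3 : z X * σ < z X * (1 / z X - 1) := mul_lt_mul_of_pos_left h2 (hz0 X)
      have h4 : z X * (1 / z X - 1) = 1 - z X := by
        have := (hz0 X).ne'
        field_simp
      linarith
  have hup : ∀ X, ε < z X → κ X ≤ β := by
    intro X hX
    apply slope_left (δ := 1 - ε / z X) (by rw [sub_pos, div_lt_one (hz0 X)]; exact hX)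
    intro σ h1 h2
    apply key X σ
    · have h3 : z X * -(1 - ε / z X) < z X * σ := mul_lt_mul_of_pos_left h1 (hz0 X)
      have h4 : z X * -(1 - ε / z X) = ε - z X := by
        have := (hz0 X).ne'
        field_simp
        ring
      linarith
    · have h3 := (hz X (Set.mem_univ X)).2
      have h4 : z X * σ ≤ 0 := mul_nonpos_of_nonneg_of_nonpos (hz0 X).le h2.le
      linarith
  refine ⟨z, fun X => hz X (Set.mem_univ X), ?_, ?_⟩
  · have h1 : ∑ X, κ X = r := sum_lev u z hunit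
    have hκ0 : ∀ X, 0 ≤ κ X := by
      intro X
      have h2 := sq_le_lev u z (fun Y => (hz0 Y).le) hunit ((Gam u z)⁻¹ *ᵥ u X) X
      by_cases h3 : z X < 1
      · exact hβ.le.trans (hlow X h3)
      · have h4 : (Gam u z)⁻¹.PosDef := hPD.inv
        have h5 := h4.posSemidef.dotProduct_mulVec_nonneg (u X)
        rw [star_trivial] at h5
        exact mul_nonneg (hz0 X).le h5
    calc β * ((univ.filter fun X => z X < 1).card : ℝ) = ∑ X ∈ univ.filter fun X => z X < 1, β := by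
          rw [sum_const, nsmul_eq_mul, mul_comm]
      _ ≤ ∑ X ∈ univ.filter fun X => z X < 1, κ X :=
          sum_le_sum fun X hX => hlow X (mem_filter.1 hX).2
      _ ≤ ∑ X, κ X := sum_le_sum_of_subset_of_nonneg (filter_subset _ _) fun X _ _ => hκ0 X
      _ = r := h1
  · intro a X hX
    have h1 := sq_le_lev u z (fun Y => (hz0 Y).le) hunit a X
    have h2 : 0 ≤ ∑ Y, z Y * (a ⬝ᵥ u Y) ^ 2 :=
      sum_nonneg fun Y _ => mul_nonneg (hz0 Y).le (sq_nonneg _)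
    calc z X * (a ⬝ᵥ u X) ^ 2 ≤
          z X * ((u X ⬝ᵥ ((Gam u z)⁻¹ *ᵥ u X)) * ∑ Y, z Y * (a ⬝ᵥ u Y) ^ 2) :=
          mul_le_mul_of_nonneg_left h1 (hz0 X).le
      _ = κ X * ∑ Y, z Y * (a ⬝ᵥ u Y) ^ 2 := by rw [hκ]; ring
      _ ≤ β * ∑ Y, z Y * (a ⬝ᵥ u Y) ^ 2 := mul_le_mul_of_nonneg_right (hup X hX) h2

/-- The limit. -/
theorem exists_lim {u : Ω → Fin r → ℝ} (hu : Indep u) {β : ℝ} (hβ : 0 < β) :
    ∃ z : Ω → ℝ, (∀ X, 0 ≤ z X ∧ z X ≤ 1) ∧
      β * ((univ.filter fun X => z X < 1).card : ℝ) ≤ r ∧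
      ∀ (a : Fin r → ℝ) (X : Ω), z X * (a ⬝ᵥ u X) ^ 2 ≤ β * ∑ Y, z Y * (a ⬝ᵥ u Y) ^ 2 := by
  classical
  have hex : ∀ j : ℕ, ∃ z : Ω → ℝ, (∀ X, 1 / ((j : ℝ) + 2) ≤ z X ∧ z X ≤ 1) ∧
      β * ((univ.filter fun X => z X < 1).card : ℝ) ≤ r ∧
      ∀ (a : Fin r → ℝ) (X : Ω), 1 / ((j : ℝ) + 2) < z X →
        z X * (a ⬝ᵥ u X) ^ 2 ≤ β * ∑ Y, z Y * (a ⬝ᵥ u Y) ^ 2 := by
    intro j
    apply exists_box hu hβ
    · positivity
    · rw [div_lt_one (by positivity)]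
      have : (0 : ℝ) ≤ j := Nat.cast_nonneg j
      linarith
  choose z hz1 hz2 hz3 using hex
  have hcomp : IsCompact (Set.pi Set.univ fun _ : Ω => Set.Icc (0 : ℝ) 1) :=
    isCompact_univ_pi fun _ => isCompact_Icc
  have hmem : ∀ j, z j ∈ Set.pi Set.univ fun _ : Ω => Set.Icc (0 : ℝ) 1 := fun j X _ =>
    ⟨le_trans (by positivity) (hz1 j X).1, (hz1 j X).2⟩
  obtain ⟨w, hw, φ, hφ, hlim⟩ := hcomp.tendsto_subseq hmem
  have hlimX : ∀ X, Tendsto (fun j => z (φ j) X) atTop (𝓝 (w X)) := fun X =>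
    (tendsto_pi_nhds.1 hlim) X
  have hε : Tendsto (fun j : ℕ => 1 / (((φ j : ℕ) : ℝ) + 2)) atTop (𝓝 0) := by
    have h1 : Tendsto (fun j : ℕ => ((φ j : ℕ) : ℝ) + 2) atTop atTop :=
      tendsto_atTop_add_const_right _ _ (tendsto_natCast_atTop_atTop.comp hφ.tendsto_atTop)
    exact h1.inv_tendsto_atTop.congr fun j => by rw [Pi.inv_apply, one_div]
  refine ⟨w, fun X => hw X (Set.mem_univ X), ?_, ?_⟩
  · have h1 : ∀ᶠ j in atTop, ∀ X ∈ univ.filter fun X => w X < 1, z (φ j) X < 1 := by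
      rw [Filter.eventually_all_finset]
      intro X hX
      exact (hlimX X).eventually_lt_const (mem_filter.1 hX).2
    obtain ⟨j, hj⟩ := h1.exists
    have h2 : (univ.filter fun X => w X < 1).card ≤
        (univ.filter fun X => z (φ j) X < 1).card := by
      apply card_le_card
      intro X hX
      exact mem_filter.2 ⟨mem_univ _, hj X hX⟩
    calc β * ((univ.filter fun X => w X < 1).card : ℝ) ≤
          β * ((univ.filter fun X => z (φ j) X < 1).card : ℝ) := by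
          apply mul_le_mul_of_nonneg_left _ hβ.le
          exact_mod_cast h2
      _ ≤ r := hz2 _
  · intro a X
    rcases (hw X (Set.mem_univ X)).1.eq_or_lt with h0 | h0
    · rw [← h0, zero_mul]
      apply mul_nonneg hβ.le
      exact sum_nonneg fun Y _ => mul_nonneg (hw Y (Set.mem_univ Y)).1 (sq_nonneg _)
    · have h1 : Tendsto (fun j => z (φ j) X * (a ⬝ᵥ u X) ^ 2) atTop
          (𝓝 (w X * (a ⬝ᵥ u X) ^ 2)) := (hlimX X).mul_const _
      have h2 : Tendsto (fun j => β * ∑ Y, z (φ j) Y * (a ⬝ᵥ u Y) ^ 2) atTop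
          (𝓝 (β * ∑ Y, w Y * (a ⬝ᵥ u Y) ^ 2)) :=
        (tendsto_finsetSum _ fun Y _ => (hlimX Y).mul_const _).const_mul β
      apply le_of_tendsto_of_tendsto h1 h2
      filter_upwards [hε.eventually_lt (hlimX X) h0] with j hj
      exact hz3 (φ j) a X hj

end Box

/-- **The scaling lemma.** -/
theorem scaling {Ω : Type} [Fintype Ω] (V : Submodule ℝ (Ω → ℝ)) (N : ℕ)
    (hV : Module.finrank ℝ V ≤ N) (β : ℝ) (hβ : 0 < β) :
    ∃ z : Ω → ℝ, (∀ X, 0 ≤ z X ∧ z X ≤ 1) ∧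
      β * ((univ.filter fun X => z X < 1).card : ℝ) ≤ N ∧
      ∀ f ∈ V, ∀ X, z X * f X ^ 2 ≤ β * ∑ Y, z Y * f Y ^ 2 := by
  set b := Module.finBasis ℝ V with hb
  set u : Ω → Fin (Module.finrank ℝ V) → ℝ := fun X i => (b i : Ω → ℝ) X with hu
  have hval : ∀ (a : Fin (Module.finrank ℝ V) → ℝ) (X : Ω),
      a ⬝ᵥ u X = ((∑ i, a i • b i : V) : Ω → ℝ) X := by
    intro a X
    rw [Submodule.coe_sum, Finset.sum_apply]
    rfl
  have hind : Indep u := by
    intro a ha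
    have h1 : (∑ i, a i • b i : V) = 0 := by
      apply Subtype.ext
      funext X
      rw [← hval, ha X]
      rfl
    funext i
    exact (Fintype.linearIndependent_iff.1 b.linearIndependent) a h1 i
  obtain ⟨z, hz1, hz2, hz3⟩ := exists_lim hind hβ
  refine ⟨z, hz1, hz2.trans (by exact_mod_cast hV), fun f hf X => ?_⟩
  have h1 : ∀ Y, (fun i => b.repr ⟨f, hf⟩ i) ⬝ᵥ u Y = f Y := by
    intro Y
    rw [hval, b.sum_repr]
  have h2 := hz3 (fun i => b.repr ⟨f, hf⟩ i) X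
  rw [h1 X] at h2
  refine h2.trans (le_of_eq ?_)
  congr 1
  refine sum_congr rfl fun Y _ => ?_
  rw [h1 Y]

end Pool.Agent.THR72.FS
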