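import Pool.Agent.THR72.Gen

/-!
# The smooth version of `NoSep`
-/

namespace Pool.Agent.THR72

open Finset

open Classical in
/-- If `G` has degree at most `d`, `G ≥ -D` where no block is empty and `G ≤ D` where at most `B`
blocks are not empty, then the average of `G` over all contents without empty block is at most
`D * C`. -/
def Smooth (A : Type) [Fintype A] (s d B : ℕ) (C : ℝ) : Prop :=
  ∀ (G : (A → Finset (Fin s)) → ℝ) (D : ℝ), LowDeg d G → 0 ≤ D →
    (∀ x, (∀ a, (x a).Nonempty) → -D ≤ G x) →
    (∀ x, ((univ : Finset A).filter fun a => (x a).Nonempty).card ≤ B → G x ≤ D) →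
    ∑ x ∈ (univ : Finset (A → Finset (Fin s))).filter fun x => ∀ a, (x a).Nonempty, G x ≤
      D * C * ((univ : Finset (A → Finset (Fin s))).filter fun x => ∀ a, (x a).Nonempty).card

end Pool.Agent.THR72
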