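import Pool.Agent.THR72.FeatB
import Pool.Agent.THR72.FeatE
import Pool.Agent.THR72.FeatS

/-!
# A hidden code which no function of a space of small dimension can separate
-/

namespace Pool.Agent.THR72.FS

open Finset

section Represent

variable {Ω : Type} [Fintype Ω]

/-- Functions of a space of small dimension as inner products. -/
theorem represent (U : Submodule ℝ (EuclideanSpace ℝ Ω)) :
    ∃ φ : Ω → EuclideanSpace ℝ (Fin (Module.finrank ℝ U)),
      ∑ X, ‖φ X‖ ^ 2 = Module.finrank ℝ U ∧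
      ∀ g ∈ U, ∃ w : EuclideanSpace ℝ (Fin (Module.finrank ℝ U)), ‖w‖ = ‖g‖ ∧
        ∀ X, inner ℝ w (φ X) = g X := by
  classical
  set e := stdOrthonormalBasis ℝ U with he
  refine ⟨fun X => WithLp.toLp 2 fun i => (e i : EuclideanSpace ℝ Ω) X, ?_, ?_⟩
  · have h1 : ∀ X, ‖(WithLp.toLp 2 fun i => (e i : EuclideanSpace ℝ Ω) X :
        EuclideanSpace ℝ (Fin (Module.finrank ℝ U)))‖ ^ 2 =
        ∑ i, (e i : EuclideanSpace ℝ Ω) X ^ 2 := by
      intro X
      rw [EuclideanSpace.real_norm_sq_eq]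
    rw [sum_congr rfl fun X _ => h1 X, sum_comm]
    have h2 : ∀ i, ∑ X, (e i : EuclideanSpace ℝ Ω) X ^ 2 = 1 := by
      intro i
      rw [← EuclideanSpace.real_norm_sq_eq]
      have h3 : ‖(e i : EuclideanSpace ℝ Ω)‖ = 1 := e.orthonormal.1 i
      rw [h3, one_pow]
    rw [sum_congr rfl fun i _ => h2 i, sum_const, card_univ, Fintype.card_fin, nsmul_eq_mul,
      mul_one]
  · intro g hg
    refine ⟨e.repr ⟨g, hg⟩, ?_, ?_⟩
    · rw [e.repr.norm_map]
      rfl
    · intro X
      have h1 : (∑ i, (e.repr ⟨g, hg⟩) i • (e i : EuclideanSpace ℝ Ω)) = g := by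
        have h2 := e.sum_repr ⟨g, hg⟩
        have h3 := congrArg (fun v : U => (v : EuclideanSpace ℝ Ω)) h2
        simp only [Submodule.coe_sum, Submodule.coe_smul] at h3
        exact h3
      have h4 : g X = ∑ i, (e.repr ⟨g, hg⟩) i * (e i : EuclideanSpace ℝ Ω) X := by
        conv_lhs => rw [← h1]
        simp
      rw [h4, PiLp.inner_apply]
      refine sum_congr rfl fun i _ => ?_
      simp only [RCLike.inner_apply, conj_trivial]
      ring

end Represent

section Fibre

variable {A : Type} [Fintype A] [DecidableEq A] {s m : ℕ}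

omit [Fintype A] [DecidableEq A] in
lemma eqv_cont (τ : A × Fin s → Fin m) (ω : A × Fin s → Bool)
    (X : (A × Fin s) × Fin m → Bool) : eqv (alive τ X) (bits (cont τ ω X)) = ω := by
  funext v
  unfold eqv bits cont alive
  have h : ∀ a b : Bool, (a == decide (a = b)) = b := by
    intro a b
    cases a <;> cases b <;> rfl
  have h1 : decide (v.2 ∈ univ.filter fun j => X ((v.1, j), τ (v.1, j)) = ω (v.1, j)) =
      decide (X (v, τ v) = ω v) := by
    rw [decide_eq_decide, mem_filter]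
    exact ⟨fun h => h.2, fun h => ⟨mem_univ _, h⟩⟩
  rw [h1]
  exact h _ _

/-- Sums over the contents are sums over the signs. -/
lemma sum_fibre (τ : A × Fin s → Fin m) (X : (A × Fin s) × Fin m → Bool)
    (Q : (A → Finset (Fin s)) → Prop) [DecidablePred Q] (g : (A × Fin s → Bool) → ℝ) :
    ∑ x ∈ univ.filter Q, g (eqv (alive τ X) (bits x)) =
      ∑ ω ∈ univ.filter fun ω => Q (cont τ ω X), g ω := by
  apply sum_nbij' (fun x => eqv (alive τ X) (bits x)) (fun ω => cont τ ω X)
  · intro x hx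
    rw [mem_filter] at hx ⊢
    refine ⟨mem_univ _, ?_⟩
    rw [cont_eqv]
    exact hx.2
  · intro ω hω
    rw [mem_filter] at hω ⊢
    exact ⟨mem_univ _, hω.2⟩
  · intro x _
    exact cont_eqv τ X x
  · intro ω _
    exact eqv_cont τ ω X
  · intro x _
    rfl

/-- The inputs with an empty block are few. -/
lemma card_bad (τ : A × Fin s → Fin m) (ω : A × Fin s → Bool) :
    ((univ : Finset ((A × Fin s) × Fin m → Bool)).filter fun X =>
      ¬ ∀ a, (cont τ ω X a).Nonempty).card * 2 ^ s ≤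
      Fintype.card A * Fintype.card ((A × Fin s) × Fin m → Bool) := by
  have h1 : ∀ a : A, ((univ : Finset ((A × Fin s) × Fin m → Bool)).filter fun X =>
      ¬ (cont τ ω X a).Nonempty).card * 2 ^ s =
      Fintype.card ((A × Fin s) × Fin m → Bool) := by
    intro a
    set S : Finset ((A × Fin s) × Fin m) := univ.image fun j : Fin s => ((a, j), τ (a, j)) with hS
    have hSc : S.card = s := by
      rw [hS, card_image_of_injective, card_univ, Fintype.card_fin]
      intro i j h
      have h2 := congrArg (fun q : (A × Fin s) × Fin m => q.1.2) h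
      exact h2
    have h2 := card_agree' (fun q : (A × Fin s) × Fin m => !(ω q.1)) S
    rw [Fintype.card_bool, hSc] at h2
    rw [Fintype.card_fun, Fintype.card_bool, ← h2]
    congr 2
    ext X
    rw [mem_filter, mem_filter]
    refine and_congr_right fun _ => ?_
    rw [not_nonempty_iff_eq_empty]
    constructor
    · intro h3 v hv
      obtain ⟨j, _, rfl⟩ := mem_image.1 hv
      have h4 : j ∉ cont τ ω X a := by rw [h3]; exact notMem_empty j
      unfold cont at h4
      rw [mem_filter, not_and] at h4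
      have h5 := h4 (mem_univ j)
      exact Bool.eq_not.2 h5
    · intro h3
      rw [eq_empty_iff_forall_notMem]
      intro j hj
      unfold cont at hj
      rw [mem_filter] at hj
      have h4 := h3 ((a, j), τ (a, j)) (mem_image_of_mem _ (mem_univ j))
      rw [hj.2] at h4
      exact absurd h4 (by cases ω (a, j) <;> decide)
  have h2 : ((univ : Finset ((A × Fin s) × Fin m → Bool)).filter fun X =>
      ¬ ∀ a, (cont τ ω X a).Nonempty) ⊆ (univ : Finset A).biUnion fun a =>
      (univ : Finset ((A × Fin s) × Fin m → Bool)).filter fun X =>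
      ¬ (cont τ ω X a).Nonempty := by
    intro X hX
    rw [mem_filter] at hX
    obtain ⟨_, hX⟩ := hX
    push Not at hX
    obtain ⟨a, ha⟩ := hX
    rw [mem_biUnion]
    refine ⟨a, mem_univ a, mem_filter.2 ⟨mem_univ _, ?_⟩⟩
    rw [not_nonempty_iff_eq_empty]
    exact ha
  calc _ ≤ (∑ a : A, ((univ : Finset ((A × Fin s) × Fin m → Bool)).filter fun X =>
      ¬ (cont τ ω X a).Nonempty).card) * 2 ^ s :=
        Nat.mul_le_mul_right _ ((card_le_card h2).trans card_biUnion_le)
    _ = ∑ _a : A, Fintype.card ((A × Fin s) × Fin m → Bool) := by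
        rw [sum_mul]
        exact sum_congr rfl fun a _ => h1 a
    _ = _ := by rw [sum_const, card_univ, smul_eq_mul]

end Fibre

section Low

variable {A : Type} [Fintype A] [DecidableEq A] {s : ℕ}

/-- The part of low degree. -/
theorem low_part (d : ℕ) (G : (A × Fin s → Bool) → ℝ) :
    ∃ Gw : (A × Fin s → Bool) → ℝ,
      (∀ y, |G y - Gw y| ≤ (∑ S ∈ univ.filter fun S : Finset (A × Fin s) => d < S.card,
        |four G S|) / 2 ^ Fintype.card (A × Fin s)) ∧
      LowDeg d fun x : A → Finset (Fin s) => Gw (bits x) := by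
  set p := Fintype.card (A × Fin s) with hp
  set Lo : Finset (Finset (A × Fin s)) := univ.filter fun S : Finset (A × Fin s) => ¬ d < S.card
    with hLo
  refine ⟨fun y => ∑ S ∈ Lo, four G S / 2 ^ p * chi S y, ?_, ?_⟩
  · intro y
    have e1 : G y = ∑ S, four G S / 2 ^ p * chi S y := by
      have := four_inv G y
      have e2 : ∀ S : Finset (A × Fin s), four G S / 2 ^ p * chi S y =
          four G S * chi S y / 2 ^ p := fun S => by ring
      rw [sum_congr rfl fun S _ => e2 S, ← sum_div, this, mul_div_cancel_left₀]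
      positivity
    have e2 : G y - ∑ S ∈ Lo, four G S / 2 ^ p * chi S y =
        ∑ S ∈ univ.filter fun S : Finset (A × Fin s) => d < S.card,
        four G S / 2 ^ p * chi S y := by
      rw [e1, ← sum_filter_add_sum_filter_not univ (fun S : Finset (A × Fin s) => d < S.card)]
      exact add_sub_cancel_right _ _
    show |G y - ∑ S ∈ Lo, four G S / 2 ^ p * chi S y| ≤ _
    rw [e2, sum_div]
    refine (abs_sum_le_sum_abs _ _).trans (sum_le_sum fun S _ => ?_)
    rw [abs_mul, abs_chi, mul_one, abs_div, abs_of_pos (show (0 : ℝ) < 2 ^ p by positivity)]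
  · apply lowDeg_sum Lo (fun S => four G S / 2 ^ p)
      (fun S (x : A → Finset (Fin s)) => chi S (bits x))
    intro S hS
    have e2 : S.card ≤ d := not_lt.1 (mem_filter.1 hS).2
    apply lowDeg_of_depends S e2
    intro x y hxy
    unfold chi
    refine prod_congr rfl fun v hv => ?_
    unfold bits
    rw [decide_eq_decide.2 (hxy v hv)]

end Low

section Dim

variable {A : Type} [Fintype A] [DecidableEq A] {s m : ℕ}

/-- **The hidden code, for spaces of small dimension.** -/
theorem exists_code_dim {d B : ℕ} {C : ℝ} (hS : Smooth A s d B C) (hC : 0 ≤ C)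
    (V : Submodule ℝ (((A × Fin s) × Fin m → Bool) → ℝ)) (N : ℕ) (hN : 1 ≤ N)
    (hV : Module.finrank ℝ V ≤ N) (hm : 16 * (N : ℝ) ^ 2 * (C + 1) ^ 2 < (m : ℝ) ^ (d + 1))
    (hs : Fintype.card A * (8 * N) ≤ 2 ^ s) :
    ∃ (τ : A × Fin s → Fin m) (ω : A × Fin s → Bool), ∀ f ∈ V,
      (∃ X, (∀ a, (cont τ ω X a).Nonempty) ∧ f X ≤ 0) ∨
      ∃ X, ((univ : Finset A).filter fun a => (cont τ ω X a).Nonempty).card ≤ B ∧ 0 < f X := by
  by_contra hcon
  push Not at hcon
  choose f hfV hfp hfn using hcon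
  have hN0 : (0 : ℝ) < N := by exact_mod_cast hN
  have hm1 : 1 ≤ m := by
    by_contra h
    have h0 : m = 0 := by omega
    rw [h0, Nat.cast_zero, zero_pow (Nat.succ_ne_zero d)] at hm
    have : 0 ≤ 16 * (N : ℝ) ^ 2 * (C + 1) ^ 2 := by positivity
    linarith
  have hm0 : (0 : ℝ) < m := by exact_mod_cast hm1
  set p := Fintype.card (A × Fin s) with hp
  set n0 : ℝ := 2 ^ (p * m) with hn0
  have hn00 : 0 < n0 := by positivity
  have hcard : (Fintype.card ((A × Fin s) × Fin m → Bool) : ℝ) = n0 := by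
    rw [Fintype.card_fun, Fintype.card_bool, Fintype.card_prod, Fintype.card_fin]
    push_cast
    rfl
  have hcard2 : (Fintype.card (A × Fin s → Fin m) : ℝ) = (m : ℝ) ^ p := by
    rw [Fintype.card_fun, Fintype.card_fin]
    push_cast
    rfl
  have hcard3 : (Fintype.card (A × Fin s → Bool) : ℝ) = (2 : ℝ) ^ p := by
    rw [Fintype.card_fun, Fintype.card_bool]
    push_cast
    rfl
  obtain ⟨z, hz01, hzc, hzf⟩ := scaling V N hV (4 * N / n0) (by positivity)
  -- the inputs which are lost are few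
  have hzc' : 4 * ((univ.filter fun X => z X < 1).card : ℝ) ≤ n0 := by
    rw [div_mul_eq_mul_div, div_le_iff₀ hn00] at hzc
    have h1 : (N : ℝ) * (4 * ((univ.filter fun X => z X < 1).card : ℝ)) ≤ N * n0 := by
      calc _ = 4 * (N : ℝ) * ((univ.filter fun X => z X < 1).card : ℝ) := by ring
        _ ≤ _ := hzc
    exact le_of_mul_le_mul_left h1 hN0
  have hbad : ∀ (τ : A × Fin s → Fin m) (ω : A × Fin s → Bool),
      8 * (N : ℝ) * (((univ : Finset ((A × Fin s) × Fin m → Bool)).filter fun X =>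
        ¬ ∀ a, (cont τ ω X a).Nonempty).card : ℝ) ≤ n0 := by
    intro τ ω
    have h1 := card_bad τ ω
    set b := ((univ : Finset ((A × Fin s) × Fin m → Bool)).filter fun X =>
        ¬ ∀ a, (cont τ ω X a).Nonempty).card with hb
    by_cases hA : Fintype.card A = 0
    · rw [hA, Nat.zero_mul] at h1
      have h2 : b = 0 := by
        rcases Nat.mul_eq_zero.1 (Nat.le_zero.1 h1) with h3 | h3
        · exact h3
        · exact absurd h3 (by positivity)
      rw [h2, Nat.cast_zero, mul_zero]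
      exact hn00.le
    · have hA0 : (0 : ℝ) < Fintype.card A := by exact_mod_cast Nat.pos_of_ne_zero hA
      have h2 : (b : ℝ) * 2 ^ s ≤ Fintype.card A * n0 := by
        rw [← hcard]
        exact_mod_cast h1
      have h3 : (Fintype.card A : ℝ) * (8 * N) ≤ 2 ^ s := by exact_mod_cast hs
      have h4 : (Fintype.card A : ℝ) * (8 * N * b) ≤ Fintype.card A * n0 := by
        calc (Fintype.card A : ℝ) * (8 * N * b) = b * (Fintype.card A * (8 * N)) := by ring
          _ ≤ b * 2 ^ s := by gcongr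
          _ ≤ _ := h2
      exact le_of_mul_le_mul_left h4 hA0
  -- the sum of squares
  set Q : (A × Fin s → Fin m) → (A × Fin s → Bool) → ℝ := fun τ ω =>
    ∑ Y, z Y * f τ ω Y ^ 2 with hQ
  have hQ0 : ∀ τ ω, 0 < Q τ ω := by
    intro τ ω
    have h1 : ∃ X, z X = 1 ∧ ∀ a, (cont τ ω X a).Nonempty := by
      by_contra h
      push Not at h
      have h2 : (univ : Finset ((A × Fin s) × Fin m → Bool)) ⊆
          (univ.filter fun X => z X < 1) ∪
          (univ.filter fun X => ¬ ∀ a, (cont τ ω X a).Nonempty) := by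
        intro X _
        rw [mem_union, mem_filter, mem_filter]
        rcases (hz01 X).2.eq_or_lt with h3 | h3
        · right
          refine ⟨mem_univ _, ?_⟩
          intro h4
          obtain ⟨a, ha⟩ := h X h3
          exact absurd (h4 a) (not_nonempty_iff_eq_empty.2 ha)
        · left
          exact ⟨mem_univ _, h3⟩
      have h3 := (card_le_card h2).trans (card_union_le _ _)
      rw [card_univ] at h3
      have h4 : n0 ≤ ((univ.filter fun X => z X < 1).card : ℝ) +
          ((univ : Finset ((A × Fin s) × Fin m → Bool)).filter fun X =>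
          ¬ ∀ a, (cont τ ω X a).Nonempty).card := by
        rw [← hcard]
        exact_mod_cast h3
      have h5 := hbad τ ω
      have h6 : (1 : ℝ) ≤ N := by exact_mod_cast hN
      have h7 : (0 : ℝ) ≤ (((univ : Finset ((A × Fin s) × Fin m → Bool)).filter fun X =>
          ¬ ∀ a, (cont τ ω X a).Nonempty).card : ℝ) := Nat.cast_nonneg _
      nlinarith
    obtain ⟨X, hX1, hX2⟩ := h1
    have h2 : 0 < z X * f τ ω X ^ 2 := by
      rw [hX1, one_mul]
      have := hfp τ ω X hX2
      positivity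
    exact h2.trans_le (single_le_sum (f := fun Y => z Y * f τ ω Y ^ 2)
      (fun Y _ => mul_nonneg (hz01 Y).1 (sq_nonneg _)) (mem_univ X))
  -- the scaled functions
  set F : (A × Fin s → Fin m) → (A × Fin s → Bool) → ((A × Fin s) × Fin m → Bool) → ℝ :=
    fun τ ω X => √(n0 / Q τ ω) * (√(z X) * f τ ω X) with hF
  have hFsq : ∀ τ ω X, F τ ω X ^ 2 = n0 / Q τ ω * (z X * f τ ω X ^ 2) := by
    intro τ ω X
    rw [hF]
    show (√(n0 / Q τ ω) * (√(z X) * f τ ω X)) ^ 2 = _
    rw [mul_pow, mul_pow, Real.sq_sqrt (div_nonneg hn00.le (hQ0 τ ω).le), Real.sq_sqrt (hz01 X).1]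
  have hFsum : ∀ τ ω, ∑ X, F τ ω X ^ 2 = n0 := by
    intro τ ω
    rw [sum_congr rfl fun X _ => hFsq τ ω X, ← mul_sum]
    show n0 / Q τ ω * Q τ ω = n0
    exact div_mul_cancel₀ _ (hQ0 τ ω).ne'
  have hFle : ∀ τ ω X, F τ ω X ^ 2 ≤ 4 * N := by
    intro τ ω X
    rw [hFsq, div_mul_eq_mul_div, div_le_iff₀ (hQ0 τ ω)]
    have h1 := hzf (f τ ω) (hfV τ ω) X
    calc n0 * (z X * f τ ω X ^ 2) ≤ n0 * (4 * N / n0 * Q τ ω) := by gcongr
      _ = 4 * N * Q τ ω := by field_simp
  have hFpos : ∀ τ ω X, (∀ a, (cont τ ω X a).Nonempty) → 0 ≤ F τ ω X := by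
    intro τ ω X hX
    have := hfp τ ω X hX
    rw [hF]
    positivity
  have hFneg : ∀ τ ω X, ((univ : Finset A).filter fun a => (cont τ ω X a).Nonempty).card ≤ B →
      F τ ω X ≤ 0 := by
    intro τ ω X hX
    have := hfn τ ω X hX
    show √(n0 / Q τ ω) * (√(z X) * f τ ω X) ≤ 0
    exact mul_nonpos_of_nonneg_of_nonpos (Real.sqrt_nonneg _)
      (mul_nonpos_of_nonneg_of_nonpos (Real.sqrt_nonneg _) this)
  set q : ℝ := √N with hq
  have hq0 : 0 < q := Real.sqrt_pos.2 hN0
  have hqq : q * q = N := Real.mul_self_sqrt hN0.le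
  have hFabs : ∀ τ ω X, |F τ ω X| ≤ 2 * q := by
    intro τ ω X
    have h1 := hFle τ ω X
    have h2 : |F τ ω X| ^ 2 ≤ (2 * q) ^ 2 := by
      rw [sq_abs]
      nlinarith
    exact le_of_sq_le_sq h2 (by positivity)
  -- the positive mass
  have hmass : ∀ τ ω, n0 / (4 * q) ≤
      ∑ X ∈ univ.filter fun X => ∀ a, (cont τ ω X a).Nonempty, F τ ω X := by
    intro τ ω
    have h1 : n0 ≤ 2 * q * ∑ X, |F τ ω X| := by
      rw [← hFsum τ ω, mul_sum]
      refine sum_le_sum fun X _ => ?_
      rw [← sq_abs, sq]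
      exact mul_le_mul_of_nonneg_right (hFabs τ ω X) (abs_nonneg _)
    have h2 : ∑ X, |F τ ω X| =
        ∑ X ∈ univ.filter fun X => ∀ a, (cont τ ω X a).Nonempty, |F τ ω X| +
        ∑ X ∈ univ.filter fun X => ¬ ∀ a, (cont τ ω X a).Nonempty, |F τ ω X| :=
      (sum_filter_add_sum_filter_not _ _ _).symm
    have h3 : ∑ X ∈ univ.filter fun X => ∀ a, (cont τ ω X a).Nonempty, |F τ ω X| =
        ∑ X ∈ univ.filter fun X => ∀ a, (cont τ ω X a).Nonempty, F τ ω X :=
      sum_congr rfl fun X hX => abs_of_nonneg (hFpos τ ω X (mem_filter.1 hX).2)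
    have h4 : ∑ X ∈ univ.filter fun X => ¬ ∀ a, (cont τ ω X a).Nonempty, |F τ ω X| ≤
        2 * q * ((univ : Finset ((A × Fin s) × Fin m → Bool)).filter fun X =>
        ¬ ∀ a, (cont τ ω X a).Nonempty).card := by
      calc _ ≤ ∑ X ∈ univ.filter fun X => ¬ ∀ a, (cont τ ω X a).Nonempty, 2 * q :=
            sum_le_sum fun X _ => hFabs τ ω X
        _ = _ := by rw [sum_const, nsmul_eq_mul, mul_comm]
    have h5 := hbad τ ω
    set b : ℝ := (((univ : Finset ((A × Fin s) × Fin m → Bool)).filter fun X =>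
        ¬ ∀ a, (cont τ ω X a).Nonempty).card : ℝ) with hb
    rw [h2, h3] at h1
    set Sp := ∑ X ∈ univ.filter fun X => ∀ a, (cont τ ω X a).Nonempty, F τ ω X with hSp
    set Sn := ∑ X ∈ univ.filter fun X => ¬ ∀ a, (cont τ ω X a).Nonempty, |F τ ω X| with hSn
    rw [div_le_iff₀ (by positivity)]
    have h6 : 2 * q * Sn ≤ 2 * q * (2 * q * b) := by gcongr
    have h7 : 2 * q * (2 * q * b) = 4 * N * b := by rw [← hqq]; ring
    nlinarith
  -- the vectors
  set T : (((A × Fin s) × Fin m → Bool) → ℝ) →ₗ[ℝ]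
      EuclideanSpace ℝ ((A × Fin s) × Fin m → Bool) :=
    { toFun := fun g => WithLp.toLp 2 fun X => √(z X) * g X
      map_add' := fun g g' => by
        ext X
        show √(z X) * (g X + g' X) = √(z X) * g X + √(z X) * g' X
        ring
      map_smul' := fun c g => by
        ext X
        show √(z X) * (c * g X) = c * (√(z X) * g X)
        ring } with hT
  set U : Submodule ℝ (EuclideanSpace ℝ ((A × Fin s) × Fin m → Bool)) := V.map T with hU
  have hUr : Module.finrank ℝ U ≤ N := (Submodule.finrank_map_le T V).trans hV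
  obtain ⟨φ, hφ1, hφ2⟩ := represent U
  have hφ3 : ∑ X, ‖φ X‖ ^ 2 ≤ (N : ℝ) := by
    rw [hφ1]
    exact_mod_cast hUr
  have hex : ∀ τ ω, ∃ w : EuclideanSpace ℝ (Fin (Module.finrank ℝ U)), ‖w‖ ≤ √n0 ∧
      ∀ X, inner ℝ w (φ X) = F τ ω X := by
    intro τ ω
    obtain ⟨w, hw1, hw2⟩ := hφ2 (T (√(n0 / Q τ ω) • f τ ω))
      (Submodule.mem_map_of_mem (V.smul_mem _ (hfV τ ω)))
    have h1 : ∀ X, (T (√(n0 / Q τ ω) • f τ ω)) X = F τ ω X := by
      intro X
      show √(z X) * (√(n0 / Q τ ω) * f τ ω X) = √(n0 / Q τ ω) * (√(z X) * f τ ω X)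
      ring
    refine ⟨w, ?_, fun X => (hw2 X).trans (h1 X)⟩
    rw [hw1]
    apply Real.le_sqrt_of_sq_le
    rw [EuclideanSpace.real_norm_sq_eq]
    exact ((sum_congr rfl fun X _ => by rw [h1 X]).trans (hFsum τ ω)).le
  choose w hw1 hw2 using hex
  set G := avg φ w with hG
  have hH := highG d hm1 φ w (√n0) N hφ3 hw1
  rw [Real.sq_sqrt hn00.le] at hH
  obtain ⟨Gw, hGw, hlow⟩ := low_part d G
  set D0 := ∑ S ∈ univ.filter fun S : Finset (A × Fin s) => d < S.card, |four G S| with hD0
  have hD0n : 0 ≤ D0 := sum_nonneg fun S _ => abs_nonneg _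
  set D := D0 / 2 ^ p with hD
  have hDn : 0 ≤ D := by positivity
  set Z : ℝ := (m : ℝ) ^ p * n0 with hZ
  have hZ0 : 0 < Z := by positivity
  have hDZ : D ^ 2 * (m : ℝ) ^ (d + 1) ≤ N * Z ^ 2 := by
    rw [hD, div_pow, div_mul_eq_mul_div, div_le_iff₀ (by positivity)]
    calc D0 ^ 2 * (m : ℝ) ^ (d + 1) ≤ n0 * (2 ^ p * (m : ℝ) ^ p) ^ 2 * (2 ^ (p * m) * N) := hH
      _ = N * Z ^ 2 * (2 ^ p) ^ 2 := by rw [hZ, hn0]; ring
  -- the sign of the average
  have hGval : ∀ y, G y = ∑ τ : A × Fin s → Fin m, ∑ X : (A × Fin s) × Fin m → Bool,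
      F τ (eqv (alive τ X) y) X := by
    intro y
    rw [hG]
    unfold avg
    exact sum_congr rfl fun τ _ => sum_congr rfl fun X _ => hw2 _ _ _
  have hpos : ∀ x : A → Finset (Fin s), (∀ a, (x a).Nonempty) → 0 ≤ G (bits x) := by
    intro x hx
    rw [hGval]
    refine sum_nonneg fun τ _ => sum_nonneg fun X _ => ?_
    apply hFpos
    rw [cont_eqv]
    exact hx
  have hneg : ∀ x : A → Finset (Fin s),
      ((univ : Finset A).filter fun a => (x a).Nonempty).card ≤ B → G (bits x) ≤ 0 := by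
    intro x hx
    rw [hGval]
    refine sum_nonpos fun τ _ => sum_nonpos fun X _ => ?_
    apply hFneg
    rw [cont_eqv]
    exact hx
  -- the smooth bound
  have hsm := hS (fun x => Gw (bits x)) D hlow hDn (by
    intro x hx
    have e1 := hpos x hx
    have e2 := abs_le.1 (hGw (bits x))
    show -D ≤ Gw (bits x)
    linarith [e2.2]) (by
    intro x hx
    have e1 := hneg x hx
    have e2 := abs_le.1 (hGw (bits x))
    show Gw (bits x) ≤ D
    linarith [e2.1])
  set P : Finset (A → Finset (Fin s)) := univ.filter fun x => ∀ a, (x a).Nonempty with hP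
  have hsm' : ∑ x ∈ P, Gw (bits x) ≤ D * C * P.card := by
    have e : ∀ Q : Finset (A → Finset (Fin s)), (∀ x, x ∈ Q ↔ ∀ a, (x a).Nonempty) →
        ∑ x ∈ Q, Gw (bits x) ≤ D * C * Q.card → ∑ x ∈ P, Gw (bits x) ≤ D * C * P.card := by
      intro Q hQ h
      have hQP : Q = P := by
        ext x
        rw [hQ, hP, Finset.mem_filter]
        exact ⟨fun h1 => ⟨mem_univ _, h1⟩, fun h1 => h1.2⟩
      rw [← hQP]
      exact h
    exact e _ (fun x => by simp) hsm
  have hPc : (P.card : ℝ) ≤ 2 ^ p := by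
    have h1 : P.card ≤ 2 ^ p := by
      refine (card_le_univ P).trans (le_of_eq ?_)
      rw [Fintype.card_fun, Fintype.card_finset, Fintype.card_fin, ← pow_mul, hp,
        Fintype.card_prod, Fintype.card_fin, mul_comm]
    exact_mod_cast h1
  have hup : ∑ x ∈ P, G (bits x) ≤ D * (C + 1) * 2 ^ p := by
    calc ∑ x ∈ P, G (bits x) ≤ ∑ x ∈ P, (Gw (bits x) + D) := by
          refine sum_le_sum fun x _ => ?_
          have e2 := abs_le.1 (hGw (bits x))
          linarith [e2.2]
      _ = ∑ x ∈ P, Gw (bits x) + D * P.card := by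
          rw [sum_add_distrib, sum_const, nsmul_eq_mul, mul_comm (P.card : ℝ)]
      _ ≤ D * C * P.card + D * P.card := by gcongr
      _ = D * (C + 1) * P.card := by ring
      _ ≤ D * (C + 1) * 2 ^ p := by gcongr
  have hlo : 2 ^ p * (Z / (4 * q)) ≤ ∑ x ∈ P, G (bits x) := by
    have h1 : ∑ x ∈ P, G (bits x) = ∑ τ : A × Fin s → Fin m, ∑ ω : A × Fin s → Bool,
        ∑ X ∈ univ.filter fun X => ∀ a, (cont τ ω X a).Nonempty, F τ ω X := by
      rw [sum_congr rfl fun x _ => hGval (bits x), sum_comm]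
      refine sum_congr rfl fun τ _ => ?_
      rw [sum_comm]
      have h2 : ∀ X : (A × Fin s) × Fin m → Bool,
          ∑ x ∈ P, F τ (eqv (alive τ X) (bits x)) X =
          ∑ ω : A × Fin s → Bool, if ∀ a, (cont τ ω X a).Nonempty then F τ ω X else 0 := by
        intro X
        rw [← sum_filter]
        exact sum_fibre τ X (fun x => ∀ a, (x a).Nonempty) (fun ω => F τ ω X)
      rw [sum_congr rfl fun X _ => h2 X, sum_comm]
      refine sum_congr rfl fun ω _ => ?_
      rw [← sum_filter]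
    rw [h1]
    calc 2 ^ p * (Z / (4 * q)) = ∑ _τ : A × Fin s → Fin m, ∑ _ω : A × Fin s → Bool,
          n0 / (4 * q) := by
          rw [sum_const, sum_const, card_univ, card_univ, nsmul_eq_mul, nsmul_eq_mul, hcard2,
            hcard3, hZ]
          ring
      _ ≤ _ := sum_le_sum fun τ _ => sum_le_sum fun ω _ => hmass τ ω
  -- the contradiction
  have hZD : Z ≤ 4 * q * ((C + 1) * D) := by
    have h1 : (2 : ℝ) ^ p * (Z / (4 * q)) ≤ 2 ^ p * ((C + 1) * D) := by
      calc _ ≤ D * (C + 1) * 2 ^ p := hlo.trans hup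
        _ = _ := by ring
    have h2 : Z / (4 * q) ≤ (C + 1) * D := le_of_mul_le_mul_left h1 (by positivity)
    rw [div_le_iff₀ (by positivity)] at h2
    linarith
  have h1 : Z ^ 2 * (m : ℝ) ^ (d + 1) ≤ 16 * (N : ℝ) ^ 2 * (C + 1) ^ 2 * Z ^ 2 := by
    calc Z ^ 2 * (m : ℝ) ^ (d + 1) ≤ (4 * q * ((C + 1) * D)) ^ 2 * (m : ℝ) ^ (d + 1) := by
          gcongr
      _ = 16 * (q * q) * (C + 1) ^ 2 * (D ^ 2 * (m : ℝ) ^ (d + 1)) := by ring
      _ ≤ 16 * (q * q) * (C + 1) ^ 2 * (N * Z ^ 2) := by gcongr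
      _ = 16 * (N : ℝ) ^ 2 * (C + 1) ^ 2 * Z ^ 2 := by rw [hqq]; ring
  have h2 : 0 < Z ^ 2 := by positivity
  have h3 : (m : ℝ) ^ (d + 1) ≤ 16 * (N : ℝ) ^ 2 * (C + 1) ^ 2 := by
    apply le_of_mul_le_mul_right _ h2
    linarith
  linarith

end Dim

end Pool.Agent.THR72.FS
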