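import Pool.Agent.THR72.Binom2
import Pool.Agent.THR72.FeatS
import Pool.Agent.THR72.LowDeg

/-!
# The smooth bound for blocks of quadratic size
-/

namespace Pool.Agent.THR72.FS

open Finset Polynomial

/-- Extrapolation from the points `0, ..., d`. -/
theorem extrap (P : ℝ[X]) (d : ℕ) (hP : P.natDegree ≤ d) (D : ℝ)
    (h : ∀ i : ℕ, i ≤ d → |P.eval (i : ℝ)| ≤ D) (t : ℕ) :
    P.eval (t : ℝ) ≤ D * ∑ k ∈ range (d + 1), (t.choose k : ℝ) * 2 ^ k := by
  have hD : 0 ≤ D := (abs_nonneg _).trans (h 0 (Nat.zero_le _))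
  have h1 := shift_eq_sum_fwdDiff_iter (1 : ℝ) (fun x => P.eval x) t 0
  simp only [nsmul_eq_mul, mul_one, zero_add] at h1
  have h2 : ∀ k, d < k → (fwdDiff (1 : ℝ))^[k] (fun x => P.eval x) 0 = 0 := fun k hk =>
    congrFun (Polynomial.fwdDiff_iter_eq_zero_of_degree_lt (lt_of_le_of_lt hP hk)) 0
  have h3 : ∀ k, k ≤ d → |(fwdDiff (1 : ℝ))^[k] (fun x => P.eval x) 0| ≤ D * 2 ^ k := by
    intro k hk
    rw [fwdDiff_iter_eq_sum_shift]
    refine (abs_sum_le_sum_abs _ _).trans ?_
    calc ∑ i ∈ range (k + 1), |((-1 : ℤ) ^ (k - i) * (k.choose i : ℤ)) •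
            P.eval ((0 : ℝ) + i • (1 : ℝ))| ≤ ∑ i ∈ range (k + 1), (k.choose i : ℝ) * D := by
          refine sum_le_sum fun i hi => ?_
          have hi' : i ≤ k := by have := mem_range.1 hi; omega
          have e1 : (0 : ℝ) + i • (1 : ℝ) = i := by rw [nsmul_eq_mul, mul_one, zero_add]
          rw [e1, zsmul_eq_mul, abs_mul]
          have e2 : |(((-1 : ℤ) ^ (k - i) * (k.choose i : ℤ) : ℤ) : ℝ)| = (k.choose i : ℝ) := by
            push_cast
            rw [abs_mul, abs_pow, abs_neg, abs_one, one_pow, one_mul, Nat.abs_cast]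
          rw [e2]
          exact mul_le_mul_of_nonneg_left (h i (hi'.trans hk)) (Nat.cast_nonneg _)
      _ = D * 2 ^ k := by
          rw [← sum_mul, ← Nat.cast_sum, Nat.sum_range_choose]
          push_cast
          ring
  rw [h1, mul_sum]
  have h4 : ∀ k, (t.choose k : ℝ) * (fwdDiff (1 : ℝ))^[k] (fun x => P.eval x) 0 ≤
      if k ≤ d then D * ((t.choose k : ℝ) * 2 ^ k) else 0 := by
    intro k
    by_cases hk : k ≤ d
    · rw [if_pos hk]
      calc _ ≤ (t.choose k : ℝ) * (D * 2 ^ k) :=
            mul_le_mul_of_nonneg_left ((le_abs_self _).trans (h3 k hk)) (Nat.cast_nonneg _)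
        _ = _ := by ring
    · rw [if_neg hk, h2 k (not_le.1 hk), mul_zero]
  calc ∑ k ∈ range (t + 1), (t.choose k : ℝ) * (fwdDiff (1 : ℝ))^[k] (fun x => P.eval x) 0
      ≤ ∑ k ∈ range (t + 1), (if k ≤ d then D * ((t.choose k : ℝ) * 2 ^ k) else 0) :=
        sum_le_sum fun k _ => h4 k
    _ = ∑ k ∈ (range (t + 1)).filter fun k => k ≤ d, D * ((t.choose k : ℝ) * 2 ^ k) := by
        rw [sum_filter]
    _ ≤ ∑ k ∈ range (d + 1), D * ((t.choose k : ℝ) * 2 ^ k) := by
        apply sum_le_sum_of_subset_of_nonneg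
        · intro k hk
          rw [mem_filter] at hk
          rw [mem_range]
          omega
        · intro k _ _
          positivity

/-- The sum of the first binomial coefficients with weights. -/
lemma sum_choose (d q : ℕ) (hq : 1 ≤ q) :
    ∑ k ∈ range (d + 1), ((q * d).choose k : ℝ) * 2 ^ k ≤ (8 * (q : ℝ)) ^ d := by
  have hq0 : (0 : ℝ) < q := by exact_mod_cast hq
  have hq1 : (1 : ℝ) ≤ q := by exact_mod_cast hq
  have h1 : ∑ k ∈ range (d + 1), ((q * d).choose k : ℝ) * 2 ^ k ≤
      (q : ℝ) ^ d * ∑ k ∈ range (q * d + 1), ((q * d).choose k : ℝ) * (2 / q) ^ k := by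
    have hdq : d ≤ q * d := Nat.le_mul_of_pos_left d hq
    rw [mul_sum]
    calc ∑ k ∈ range (d + 1), ((q * d).choose k : ℝ) * 2 ^ k ≤
          ∑ k ∈ range (d + 1), (q : ℝ) ^ d * (((q * d).choose k : ℝ) * (2 / q) ^ k) := by
          refine sum_le_sum fun k hk => ?_
          have hk' : k ≤ d := by have := mem_range.1 hk; omega
          have e1 : (q : ℝ) ^ d * (((q * d).choose k : ℝ) * (2 / q) ^ k) =
              ((q * d).choose k : ℝ) * 2 ^ k * (q : ℝ) ^ (d - k) := by
            rw [div_pow]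
            obtain ⟨e, rfl⟩ := Nat.exists_eq_add_of_le hk'
            rw [Nat.add_sub_cancel_left, pow_add]
            field_simp
          rw [e1]
          exact le_mul_of_one_le_right (by positivity) (one_le_pow₀ hq1)
      _ ≤ _ := by
          apply sum_le_sum_of_subset_of_nonneg
          · exact range_subset_range.2 (by omega)
          · intro k _ _
            positivity
  have h2 : ∑ k ∈ range (q * d + 1), ((q * d).choose k : ℝ) * (2 / q) ^ k =
      (2 / q + 1 : ℝ) ^ (q * d) := by
    rw [add_pow]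
    exact sum_congr rfl fun k _ => by rw [one_pow]; ring
  have h3 : (2 / q + 1 : ℝ) ^ (q * d) ≤ 8 ^ d := by
    calc (2 / q + 1 : ℝ) ^ (q * d) ≤ Real.exp (2 / q) ^ (q * d) :=
          pow_le_pow_left₀ (by positivity) (Real.add_one_le_exp _) _
      _ = (Real.exp 1 * Real.exp 1) ^ d := by
          rw [← Real.exp_add, pow_mul, ← Real.exp_nat_mul]
          congr 2
          field_simp
          norm_num
      _ ≤ 8 ^ d := by
          apply pow_le_pow_left₀ (by positivity)
          have h4 := Real.exp_one_lt_d9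
          have h5 := Real.exp_pos 1
          nlinarith
  rw [h2] at h1
  calc _ ≤ (q : ℝ) ^ d * (2 / q + 1 : ℝ) ^ (q * d) := h1
    _ ≤ (q : ℝ) ^ d * 8 ^ d := by gcongr
    _ = (8 * (q : ℝ)) ^ d := by rw [mul_pow]; ring

section Law

variable {A : Type} [Fintype A] {d s : ℕ}

open Classical in
/-- The upper bound for the expectation under the product law. -/
theorem binom_law {j m : ℕ} (hm : 1 ≤ m) (hA : Fintype.card A ≤ j * m)
    (μ ν : Finset (Fin s) → ℝ) (hμ0 : ∀ X, 0 ≤ μ X) (hμ : ∑ X, μ X = 1) (hν : ∑ X, ν X = 1)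
    (hμν : ∀ I : Finset (Fin s), I.Nonempty → I.card ≤ d →
      ∑ X, μ X * (if I ⊆ X then 1 else 0) = ((m + 1 : ℕ) : ℝ) * ∑ X, ν X * (if I ⊆ X then 1 else 0))
    (G : (A → Finset (Fin s)) → ℝ) (hG : LowDeg d G)
    (hno : ∀ x : A → Finset (Fin s),
      ((univ : Finset A).filter fun a => (x a).Nonempty).card ≤ d + 6 * j → G x ≤ 0) :
    ∑ x : A → Finset (Fin s), (∏ a, ν (x a)) * G x ≤ 0 := by
  obtain ⟨J, I, coef, S, hS, hGx⟩ := hG
  have hm0 : (0 : ℝ) < m := by exact_mod_cast hm
  set ρ : ℝ := 1 / m with hρ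
  have hρ0 : 0 < ρ := by positivity
  have hmρ : ((m + 1 : ℕ) : ℝ) * ρ = 1 + ρ := by
    rw [hρ]
    push_cast
    field_simp
  -- expansions
  have e1 : ∀ w : (A → Finset (Fin s)) → ℝ, ∑ x, w x * G x =
      ∑ i ∈ I, coef i * ∑ x, w x * (if ∀ a, S i a ⊆ x a then 1 else 0) := by
    intro w
    simp only [mul_sum]
    rw [sum_comm]
    apply sum_congr rfl
    intro x _
    rw [hGx x, mul_sum]
    apply sum_congr rfl
    intro i _
    ring
  set W : J → ℝ := fun i => ∏ a ∈ sup (S i), ∑ X, μ X * (if S i a ⊆ X then 1 else 0) with hW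
  set F : Finset A → ℝ := fun Z => ∑ x : A → Finset (Fin s), (∏ a, kapA μ Z a (x a)) * G x with hF
  have hFZ : ∀ Z, F Z = ∑ i ∈ I, coef i * ((if sup (S i) ⊆ Z then 1 else 0) * W i) := by
    intro Z
    show ∑ x : A → Finset (Fin s), (∏ a, kapA μ Z a (x a)) * G x = _
    rw [e1]
    apply sum_congr rfl
    intro i _
    rw [cond_law hμ Z (S i)]
  have h1 := weighted (d := d) (j := j) hm hA F
    (fun T => ∑ i ∈ I, if sup (S i) = T then coef i * W i else 0) (by
      intro Z
      rw [hFZ Z, sum_comm]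
      apply sum_congr rfl
      intro i _
      rw [sum_ite_eq]
      by_cases h : sup (S i) ⊆ Z
      · rw [if_pos h, if_pos (mem_powerset.2 h), one_mul]
      · rw [if_neg h, if_neg (fun h2 => h (mem_powerset.1 h2)), zero_mul, mul_zero]) (by
      intro T hT
      apply sum_eq_zero
      intro i hi
      rw [if_neg]
      intro h
      have := sup_card (S i) (hS i hi)
      rw [h] at this
      omega) (by
      intro Z hZ
      apply sum_nonpos
      intro x _
      by_cases h : ∀ a, a ∉ Z → x a = ∅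
      · apply mul_nonpos_of_nonneg_of_nonpos
        · apply prod_nonneg
          intro a _
          unfold kapA
          split_ifs
          · exact hμ0 _
          · exact zero_le_one
          · exact le_refl _
        · apply hno x
          refine (card_le_card ?_).trans hZ
          intro a ha
          rw [mem_filter] at ha
          by_contra h2
          exact ha.2.ne_empty (h a h2)
      · push Not at h
        obtain ⟨a, ha, hne⟩ := h
        have : ∏ a, kapA μ Z a (x a) = 0 := by
          apply prod_eq_zero (mem_univ a)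
          unfold kapA
          rw [if_neg ha, if_neg hne.ne_empty]
        rw [this, zero_mul])
  -- the sum is the expectation under the product law
  have h2 : ∑ Z : Finset A, ρ ^ Z.card * F Z =
      (1 + ρ) ^ Fintype.card A * ∑ x : A → Finset (Fin s), (∏ a, ν (x a)) * G x := by
    rw [e1, mul_sum]
    have h9 : ∀ Z, ρ ^ Z.card * F Z =
        ∑ i ∈ I, ρ ^ Z.card * (coef i * ((if sup (S i) ⊆ Z then 1 else 0) * W i)) :=
      fun Z => by rw [hFZ Z, mul_sum]
    simp only [h9]
    rw [sum_comm]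
    apply sum_congr rfl
    intro i hi
    have h3 : ∑ Z : Finset A, ρ ^ Z.card * (coef i * ((if sup (S i) ⊆ Z then 1 else 0) * W i)) =
        coef i * W i * ∑ Z ∈ (univ : Finset (Finset A)).filter fun Z => sup (S i) ⊆ Z,
          ρ ^ Z.card := by
      rw [sum_filter, mul_sum]
      apply sum_congr rfl
      intro Z _
      split_ifs <;> ring
    have h4 : ∑ Z ∈ (univ : Finset (Finset A)).filter fun Z => sup (S i) ⊆ Z, ρ ^ Z.card =
        ρ ^ (sup (S i)).card * (1 + ρ) ^ (univ \ sup (S i)).card := by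
      rw [← sum_super ρ (sup (S i)), mul_sum]
      apply sum_congr rfl
      intro Z hZ
      rw [mem_filter] at hZ
      rw [← pow_add, Nat.add_sub_cancel' (card_le_card hZ.2)]
    have h5 : W i = ((m + 1 : ℕ) : ℝ) ^ (sup (S i)).card *
        ∏ a ∈ sup (S i), ∑ X, ν X * (if S i a ⊆ X then 1 else 0) := by
      show ∏ a ∈ sup (S i), ∑ X, μ X * (if S i a ⊆ X then 1 else 0) = _
      rw [← prod_const, ← prod_mul_distrib]
      apply prod_congr rfl
      intro a ha
      unfold sup at ha
      rw [mem_filter] at ha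
      apply hμν _ ha.2
      exact (single_le_sum (f := fun a => (S i a).card) (fun _ _ => Nat.zero_le _)
        (mem_univ a)).trans (hS i hi)
    have h6 : (1 + ρ) ^ Fintype.card A =
        (1 + ρ) ^ (sup (S i)).card * (1 + ρ) ^ (univ \ sup (S i)).card := by
      rw [← pow_add, card_sdiff_of_subset (subset_univ _), card_univ,
        Nat.add_sub_cancel' (card_le_univ _)]
    have h7 : ∀ e : ℕ, (1 + ρ) ^ e = ((m + 1 : ℕ) : ℝ) ^ e * ρ ^ e := by
      intro e
      rw [← mul_pow, hmρ]
    rw [h3, h4, h5, prod_law hν (S i), h6, h7 (sup (S i)).card]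
    ring
  rw [h2] at h1
  by_contra h
  rw [not_le] at h
  have h8 : 0 < (1 + ρ) ^ Fintype.card A * ∑ x : A → Finset (Fin s), (∏ a, ν (x a)) * G x := by
    positivity
  linarith

open Classical in
/-- The expectation under the mixed law is a polynomial. -/
theorem mix_poly (ν υ : Finset (Fin s) → ℝ) (hν : ∑ X, ν X = 1) (hυ : ∑ X, υ X = 1)
    (G : (A → Finset (Fin s)) → ℝ) (hG : LowDeg d G) (u : ℝ) : ∃ P : ℝ[X], P.natDegree ≤ d ∧
      ∀ t : ℝ, P.eval t = ∑ x : A → Finset (Fin s),
        (∏ a, ((1 - u * t) * ν (x a) + u * t * υ (x a))) * G x := by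
  obtain ⟨J, I, coef, S, hS, hGx⟩ := hG
  refine ⟨∑ i ∈ I, C (coef i) * ∏ a ∈ sup (S i), (C (∑ X, ν X * (if S i a ⊆ X then 1 else 0)) +
    C (u * (∑ X, υ X * (if S i a ⊆ X then 1 else 0) -
      ∑ X, ν X * (if S i a ⊆ X then 1 else 0))) * X), ?_, ?_⟩
  · apply natDegree_sum_le_of_forall_le
    intro i hi
    refine (natDegree_C_mul_le _ _).trans ?_
    refine (natDegree_prod_le _ _).trans ?_
    calc _ ≤ ∑ a ∈ sup (S i), 1 := by
          refine sum_le_sum fun a _ => ?_
          rw [add_comm]
          exact (natDegree_linear_le)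
      _ = (sup (S i)).card := by rw [card_eq_sum_ones]
      _ ≤ d := sup_card (S i) (hS i hi)
  · intro t
    have hmix : ∑ X : Finset (Fin s), ((1 - u * t) * ν X + u * t * υ X) = 1 := by
      rw [sum_add_distrib, ← mul_sum, ← mul_sum, hν, hυ]
      ring
    have e1 : ∑ x : A → Finset (Fin s),
        (∏ a, ((1 - u * t) * ν (x a) + u * t * υ (x a))) * G x =
        ∑ i ∈ I, coef i * ∑ x : A → Finset (Fin s),
        (∏ a, ((1 - u * t) * ν (x a) + u * t * υ (x a))) *
          (if ∀ a, S i a ⊆ x a then 1 else 0) := by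
      simp only [mul_sum]
      rw [sum_comm]
      apply sum_congr rfl
      intro x _
      rw [hGx x, mul_sum]
      apply sum_congr rfl
      intro i _
      ring
    rw [e1, eval_finsetSum]
    apply sum_congr rfl
    intro i _
    rw [eval_mul, eval_C, prod_law (ν := fun X => (1 - u * t) * ν X + u * t * υ X) hmix (S i),
      eval_prod]
    congr 1
    apply prod_congr rfl
    intro a _
    rw [eval_add, eval_mul, eval_C, eval_C, eval_X]
    have e2 : ∑ X : Finset (Fin s), ((1 - u * t) * ν X + u * t * υ X) *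
        (if S i a ⊆ X then 1 else 0) =
        (1 - u * t) * ∑ X, ν X * (if S i a ⊆ X then 1 else 0) +
        u * t * ∑ X, υ X * (if S i a ⊆ X then 1 else 0) := by
      rw [mul_sum, mul_sum, ← sum_add_distrib]
      exact sum_congr rfl fun X _ => by ring
    rw [e2]
    ring

end Law

section Smooth

open Classical in
lemma mass_one {A : Type} [Fintype A] {s : ℕ} (ν : Finset (Fin s) → ℝ) (hν : ∑ X, ν X = 1) :
    ∑ x : A → Finset (Fin s), ∏ a, ν (x a) = 1 := by
  have := sum_prodA (fun _ : A => ν) (fun _ => (∅ : Finset (Fin s)))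
  simpa [hν] using this

open Classical in
/-- **The smooth bound with binomial laws.** -/
theorem smooth_binom (A : Type) [Fintype A] (j d m : ℕ) (hd : 1 ≤ d) (hm : 1 ≤ m)
    (hA : Fintype.card A ≤ j * m) :
    Smooth A ((8 * (m + 1) + 1) * d ^ 2) d (d + 6 * j) ((16 * ((m : ℝ) + 1)) ^ d) := by
  have hq : (8 * (m + 1) + 1) * d ^ 2 = (4 * (2 * (m + 1)) + 1) * d ^ 2 := by ring
  rw [hq]
  have hs1 : 0 < (4 * (2 * (m + 1)) + 1) * d ^ 2 := by positivity
  obtain ⟨μ, ν, hμ0, hν0, hνe, hμ, hν, hμν⟩ := exists_contents d (2 * (m + 1)) hd (by omega)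
  generalize (4 * (2 * (m + 1)) + 1) * d ^ 2 = s at *
  intro G D hG hD hlow hup
  have hm0 : (0 : ℝ) < m := by exact_mod_cast hm
  have hd0 : (0 : ℝ) < d := by exact_mod_cast hd
  -- the uniform law
  set c : ℝ := (((univ : Finset (Finset (Fin s))).filter fun X => X.Nonempty).card : ℝ) with hc
  have hc0 : 0 < c := by
    rw [hc, Nat.cast_pos, card_pos]
    exact ⟨univ, mem_filter.2 ⟨mem_univ _, ⟨⟨0, hs1⟩, mem_univ _⟩⟩⟩
  set υ : Finset (Fin s) → ℝ := fun X => if X.Nonempty then 1 / c else 0 with hυd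
  have hυ0 : ∀ X, 0 ≤ υ X := by
    intro X
    rw [hυd]
    show 0 ≤ if X.Nonempty then 1 / c else 0
    split_ifs
    · positivity
    · exact le_refl _
  have hυe : υ ∅ = 0 := by
    show (if (∅ : Finset (Fin s)).Nonempty then 1 / c else 0) = 0
    rw [if_neg Finset.not_nonempty_empty]
  have hυ : ∑ X, υ X = 1 := by
    show ∑ X : Finset (Fin s), (if X.Nonempty then 1 / c else 0) = 1
    rw [← sum_filter, sum_const, nsmul_eq_mul, ← hc]
    field_simp
  set Q : ℝ := 2 * ((m : ℝ) + 1) with hQ
  have hQ0 : 0 < Q := by positivity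
  obtain ⟨P, hP1, hP2⟩ := mix_poly ν υ hν hυ G hG (1 / (Q * d))
  -- the values at the first points
  have hval : ∀ i : ℕ, i ≤ d → |P.eval (i : ℝ)| ≤ D := by
    intro i hi
    set l : ℝ := 1 / (Q * d) * i with hl
    have hl0 : 0 ≤ l := by positivity
    have hl1 : l * Q ≤ 1 := by
      have h1 : (i : ℝ) ≤ d := by exact_mod_cast hi
      rw [hl]
      calc 1 / (Q * d) * i * Q = i / d := by field_simp
        _ ≤ 1 := (div_le_one hd0).2 h1
    have hl2 : l ≤ 1 := by nlinarith
    have hl3 : ((m : ℝ) + 1) * l ≤ 1 / 2 := by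
      have : l * (2 * ((m : ℝ) + 1)) ≤ 1 := hl1
      linarith
    set ν' : Finset (Fin s) → ℝ := fun X => (1 - l) * ν X + l * υ X with hν'd
    have hν'0 : ∀ X, 0 ≤ ν' X := fun X =>
      add_nonneg (mul_nonneg (by linarith) (hν0 X)) (mul_nonneg hl0 (hυ0 X))
    have hν'e : ν' ∅ = 0 := by
      show (1 - l) * ν ∅ + l * υ ∅ = 0
      rw [hνe, hυe]
      ring
    have hν' : ∑ X, ν' X = 1 := by
      show ∑ X, ((1 - l) * ν X + l * υ X) = 1
      rw [sum_add_distrib, ← mul_sum, ← mul_sum, hν, hυ]
      ring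
    set μ' : Finset (Fin s) → ℝ := fun X => (1 - l) / 2 * μ X + ((m : ℝ) + 1) * l * υ X +
      (if X = ∅ then 1 - (1 - l) / 2 - ((m : ℝ) + 1) * l else 0) with hμ'd
    have hμ'0 : ∀ X, 0 ≤ μ' X := by
      intro X
      have h1 : 0 ≤ if X = ∅ then 1 - (1 - l) / 2 - ((m : ℝ) + 1) * l else 0 := by
        split_ifs
        · linarith
        · exact le_refl _
      have h2 : 0 ≤ (1 - l) / 2 * μ X := mul_nonneg (by linarith) (hμ0 X)
      have h3 : 0 ≤ ((m : ℝ) + 1) * l * υ X := mul_nonneg (by positivity) (hυ0 X)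
      show 0 ≤ (1 - l) / 2 * μ X + ((m : ℝ) + 1) * l * υ X + _
      linarith
    have hμ' : ∑ X, μ' X = 1 := by
      show ∑ X, ((1 - l) / 2 * μ X + ((m : ℝ) + 1) * l * υ X +
        (if X = ∅ then 1 - (1 - l) / 2 - ((m : ℝ) + 1) * l else 0)) = 1
      rw [sum_add_distrib, sum_add_distrib, ← mul_sum, ← mul_sum, hμ, hυ, sum_ite_eq',
        if_pos (mem_univ _)]
      ring
    have hμν' : ∀ I : Finset (Fin s), I.Nonempty → I.card ≤ d →
        ∑ X, μ' X * (if I ⊆ X then 1 else 0) =
          ((m + 1 : ℕ) : ℝ) * ∑ X, ν' X * (if I ⊆ X then 1 else 0) := by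
      intro I hI hId
      have h1 := hμν I hI hId
      have h2 : ∑ X, μ' X * (if I ⊆ X then 1 else 0) =
          (1 - l) / 2 * ∑ X, μ X * (if I ⊆ X then 1 else 0) +
          ((m : ℝ) + 1) * l * ∑ X, υ X * (if I ⊆ X then 1 else 0) := by
        rw [mul_sum, mul_sum, ← sum_add_distrib]
        refine sum_congr rfl fun X _ => ?_
        show ((1 - l) / 2 * μ X + ((m : ℝ) + 1) * l * υ X +
          (if X = ∅ then 1 - (1 - l) / 2 - ((m : ℝ) + 1) * l else 0)) * _ = _
        by_cases hX : X = ∅
        · have h3 : ¬ I ⊆ X := by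
            rw [hX, subset_empty]
            exact hI.ne_empty
          rw [if_neg h3]
          ring
        · rw [if_neg hX]
          ring
      have h3 : ∑ X, ν' X * (if I ⊆ X then 1 else 0) =
          (1 - l) * ∑ X, ν X * (if I ⊆ X then 1 else 0) +
          l * ∑ X, υ X * (if I ⊆ X then 1 else 0) := by
        rw [mul_sum, mul_sum, ← sum_add_distrib]
        refine sum_congr rfl fun X _ => ?_
        show ((1 - l) * ν X + l * υ X) * _ = _
        ring
      rw [h2, h3, h1]
      push_cast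
      ring
    have hev : P.eval (i : ℝ) = ∑ x : A → Finset (Fin s), (∏ a, ν' (x a)) * G x := hP2 i
    have hmass := mass_one (A := A) ν' hν'
    have hGD : LowDeg d fun x => G x - D := by
      have h1 := lowDeg_sum (d := d) (univ : Finset Bool) (fun b => if b = true then 1 else -D)
        (fun b x => if b = true then G x else 1) (by
          intro b _
          cases b
          · simp only [Bool.false_eq_true, if_false]
            exact lowDeg_of_depends ∅ (by rw [card_empty]; exact Nat.zero_le _) _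
              fun _ _ _ => rfl
          · simp only [if_true]
            exact hG)
      have h2 : (fun x => G x - D) = fun x => ∑ t ∈ (univ : Finset Bool),
          (fun b : Bool => if b = true then 1 else -D) t *
            (fun (b : Bool) x => if b = true then G x else 1) t x := by
        funext x
        rw [Fintype.sum_bool]
        simp only [Bool.false_eq_true, if_false, if_true]
        ring
      rw [h2]
      exact h1
    have hu := binom_law (A := A) (d := d) hm hA μ' ν' hμ'0 hμ' hν' hμν' _ hGD (by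
      intro x hx
      have := hup x (by convert hx)
      show G x - D ≤ 0
      linarith)
    have h1 : ∑ x : A → Finset (Fin s), (∏ a, ν' (x a)) * (G x - D) = P.eval (i : ℝ) - D := by
      rw [hev]
      have h2 : ∀ x : A → Finset (Fin s), (∏ a, ν' (x a)) * (G x - D) =
          (∏ a, ν' (x a)) * G x - D * ∏ a, ν' (x a) := fun x => by ring
      rw [sum_congr rfl fun x _ => h2 x, sum_sub_distrib, ← mul_sum, hmass, mul_one]
    rw [h1] at hu
    have h3 : 0 ≤ ∑ x : A → Finset (Fin s), (∏ a, ν' (x a)) * (G x + D) := by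
      refine sum_nonneg fun x _ => ?_
      by_cases h : ∀ a, (x a).Nonempty
      · refine mul_nonneg (prod_nonneg fun a _ => hν'0 _) ?_
        linarith [hlow x h]
      · push Not at h
        obtain ⟨a, ha⟩ := h
        have h4 : ∏ a, ν' (x a) = 0 := prod_eq_zero (mem_univ a) (by rw [ha]; exact hν'e)
        rw [h4, zero_mul]
    have h4 : ∑ x : A → Finset (Fin s), (∏ a, ν' (x a)) * (G x + D) = P.eval (i : ℝ) + D := by
      rw [hev]
      have h2 : ∀ x : A → Finset (Fin s), (∏ a, ν' (x a)) * (G x + D) =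
          (∏ a, ν' (x a)) * G x + D * ∏ a, ν' (x a) := fun x => by ring
      rw [sum_congr rfl fun x _ => h2 x, sum_add_distrib, ← mul_sum, hmass, mul_one]
    rw [h4] at h3
    exact abs_le.2 ⟨by linarith, by linarith⟩
  -- extrapolation
  have hex := extrap P d hP1 D hval (2 * (m + 1) * d)
  have hch := sum_choose d (2 * (m + 1)) (by omega)
  have hQd : ((2 * (m + 1) * d : ℕ) : ℝ) = Q * d := by
    rw [hQ]
    push_cast
    ring
  have hone : 1 / (Q * d) * ((2 * (m + 1) * d : ℕ) : ℝ) = 1 := by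
    rw [hQd]
    field_simp
  have hend : P.eval ((2 * (m + 1) * d : ℕ) : ℝ) =
      ∑ x : A → Finset (Fin s), (∏ a, υ (x a)) * G x := by
    rw [hP2, hone]
    refine sum_congr rfl fun x _ => ?_
    congr 1
    refine prod_congr rfl fun a _ => ?_
    ring
  have hle : ∑ x : A → Finset (Fin s), (∏ a, υ (x a)) * G x ≤
      D * (16 * ((m : ℝ) + 1)) ^ d := by
    rw [← hend]
    refine hex.trans (mul_le_mul_of_nonneg_left ?_ hD)
    refine hch.trans (le_of_eq ?_)
    congr 1
    push_cast
    ring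
  -- the average
  have hprod : ∀ x : A → Finset (Fin s), ∏ a, υ (x a) =
      if ∀ a, (x a).Nonempty then (1 / c) ^ Fintype.card A else 0 := by
    intro x
    by_cases h : ∀ a, (x a).Nonempty
    · rw [if_pos h, ← card_univ, ← prod_const]
      exact prod_congr rfl fun a _ => if_pos (h a)
    · rw [if_neg h]
      push Not at h
      obtain ⟨a, ha⟩ := h
      exact prod_eq_zero (mem_univ a) (by rw [ha]; exact hυe)
  set PS : Finset (A → Finset (Fin s)) := univ.filter fun x => ∀ a, (x a).Nonempty with hPS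
  have hm1 : (PS.card : ℝ) * (1 / c) ^ Fintype.card A = 1 := by
    have h1 := mass_one (A := A) υ hυ
    rw [sum_congr rfl fun x _ => hprod x, ← sum_filter, sum_const, nsmul_eq_mul] at h1
    exact h1
  have hm2 : ∑ x : A → Finset (Fin s), (∏ a, υ (x a)) * G x =
      (1 / c) ^ Fintype.card A * ∑ x ∈ PS, G x := by
    have h1 : ∀ x : A → Finset (Fin s), (∏ a, υ (x a)) * G x =
        if ∀ a, (x a).Nonempty then (1 / c) ^ Fintype.card A * G x else 0 := by
      intro x
      rw [hprod]
      by_cases h : ∀ a, (x a).Nonempty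
      · rw [if_pos h, if_pos h]
      · rw [if_neg h, if_neg h, zero_mul]
    rw [sum_congr rfl fun x _ => h1 x, ← sum_filter, mul_sum]
  calc ∑ x ∈ PS, G x = PS.card * ((1 / c) ^ Fintype.card A * ∑ x ∈ PS, G x) := by
        rw [← mul_assoc, hm1, one_mul]
    _ ≤ PS.card * (D * (16 * ((m : ℝ) + 1)) ^ d) := by
        rw [← hm2]
        exact mul_le_mul_of_nonneg_left hle (Nat.cast_nonneg _)
    _ = D * (16 * ((m : ℝ) + 1)) ^ d * PS.card := by ring

end Smooth

end Pool.Agent.THR72.FS
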