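import Pool.Agent.THR72.FeatD
import Pool.Agent.THR72.FeatG
import Pool.Agent.THR72.FeatT

/-!
# Online learners that predict with thresholds in a feature space of small dimension
-/

namespace Pool.Agent.THR72.FS

open Finset

/-- **The barrier for spaces of dimension `N`.** -/
theorem dim_core {E : Type*} [NormedAddCommGroup E] [InnerProductSpace ℝ E]
    [FiniteDimensional ℝ E] {n d m s B k N : ℕ} {A : Type} [Fintype A] [Nonempty A] {C : ℝ}
    (hS : Smooth A s d B C) (hC : 0 ≤ C) (hN : 1 ≤ N) (hNN : Module.finrank ℝ E ≤ N)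
    (hm : 16 * (N : ℝ) ^ 2 * (C + 1) ^ 2 < (m : ℝ) ^ (d + 1))
    (hs : Fintype.card A * (8 * N) ≤ 2 ^ s) (hk : s ≤ k) (hn : m * (Fintype.card A * k) ≤ n)
    (φ : (Fin n → Bool) → E) (w : List (Ex n) → E) (T : ℕ) :
    ∃ S : List (Ex n), T ≤ kErr φ w S ∧ rDisj S = k ∧ Fintype.card A * mDisj S ≤ B * T := by
  classical
  have hm1 : 1 ≤ m := by
    by_contra h
    have h0 : m = 0 := by omega
    rw [h0, Nat.cast_zero, zero_pow (Nat.succ_ne_zero d)] at hm
    have : 0 ≤ 16 * (N : ℝ) ^ 2 * (C + 1) ^ 2 := by positivity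
    linarith
  obtain ⟨L, hL, hLm⟩ := exists_L φ w
  obtain ⟨e⟩ : Nonempty (((A × Fin s) × Fin m) ⊕ Fin (k - s) ↪ Fin n) := by
    apply Function.Embedding.nonempty_of_card_le
    rw [Fintype.card_sum, Fintype.card_prod, Fintype.card_prod, Fintype.card_fin,
      Fintype.card_fin, Fintype.card_fin, Fintype.card_fin]
    obtain ⟨t, rfl⟩ := Nat.exists_eq_add_of_le hk
    have h1 : 1 ≤ m * Fintype.card A := Nat.mul_pos hm1 Fintype.card_pos
    calc Fintype.card A * s * m + (s + t - s) ≤ Fintype.card A * s * m + m * Fintype.card A * t := by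
          have : s + t - s = t := by omega
          rw [this]
          have := Nat.mul_le_mul_right t h1
          omega
      _ = m * (Fintype.card A * (s + t)) := by ring
      _ ≤ n := hn
  set ι : (A × Fin s) × Fin m ↪ Fin n := Function.Embedding.inl.trans e with hι
  set Pad : Finset (Fin n) := univ.image fun j : Fin (k - s) => e (Sum.inr j) with hPadDef
  have hPadc : Pad.card = k - s := by
    rw [hPadDef, card_image_of_injective, card_univ, Fintype.card_fin]
    intro i j h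
    exact Sum.inr_injective (e.injective h)
  have hPad : ∀ i ∈ Pad, ¬ ∃ w, ι w = i := by
    rintro i hi ⟨w', hw'⟩
    obtain ⟨j, _, hj⟩ := mem_image.1 hi
    have h1 : e (Sum.inl w') = e (Sum.inr j) := hw'.trans hj.symm
    exact Sum.inl_ne_inr (e.injective h1)
  -- the space of functions on the cells
  set W : E →ₗ[ℝ] (((A × Fin s) × Fin m → Bool) → ℝ) :=
    { toFun := fun v X => inner ℝ v (φ (ext ι X))
      map_add' := fun v v' => by
        funext X
        exact inner_add_left _ _ _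
      map_smul' := fun c v => by
        funext X
        exact real_inner_smul_left _ _ _ } with hW
  have hWr : Module.finrank ℝ (LinearMap.range W) ≤ N := by
    exact (LinearMap.finrank_range_le W).trans hNN
  obtain ⟨τ, ω, hcode⟩ := exists_code_dim hS hC (LinearMap.range W) N hN hWr hm hs
  obtain ⟨Pre, hPre⟩ := prefix_m (fun a : A => blkS ι τ Pad a)
    (fun a => blkS_card (k := k) ι τ Pad hPad (by rw [hPadc]; omega) a) (signs ι τ ω) T
  obtain ⟨S, hS1, hS2, hS3, hS4⟩ := adversaryS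
    (fun a : A => (blkS ι τ Pad a).image fun i => (i, signs ι τ ω i))
    (fun x => ∀ a, ∃ i ∈ blkS ι τ Pad a, x i = signs ι τ ω i) L (d := B) (by
      intro H
      rcases hcode (W (w H)) (LinearMap.mem_range_self W _) with ⟨X, h1, h2⟩ | ⟨X, h1, h2⟩
      · have h2' : inner ℝ (w H) (φ (ext ι X)) ≤ 0 := h2
        refine ⟨(ext ι X, true), ?_, fun _ a => (hitS ι τ ω Pad hPad X a).2 (h1 a), ?_⟩
        · intro h3
          exact absurd ((hL H _).1 h3) (not_lt.2 h2')
        · have : ((univ : Finset A).filter fun a =>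
              disj ((blkS ι τ Pad a).image fun i => (i, signs ι τ ω i)) (ext ι X, true).1 ≠
                (ext ι X, true).2) = ∅ := by
            rw [filter_eq_empty_iff]
            intro a _
            rw [not_not]
            exact (disj_signed _ _ _).2 ((hitS ι τ ω Pad hPad X a).2 (h1 a))
          rw [this, card_empty]
          exact Nat.zero_le _
      · have h2' : 0 < inner ℝ (w H) (φ (ext ι X)) := h2
        refine ⟨(ext ι X, false), ?_, fun h => Bool.noConfusion h, ?_⟩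
        · intro h3
          have h4 := (hL H (ext ι X)).2 h2'
          have h5 : thr (L H) (ext ι X) = false := h3
          rw [h5] at h4
          exact Bool.noConfusion h4
        · refine (card_le_card ?_).trans h1
          intro a ha
          rw [mem_filter] at ha ⊢
          refine ⟨mem_univ _, (hitS ι τ ω Pad hPad X a).1 ((disj_signed _ _ _).1 ?_)⟩
          exact Bool.eq_true_of_not_eq_false ha.2) T Pre
  obtain ⟨hr, hmD⟩ := hPre S hS1.le hS3
  refine ⟨Pre ++ S, ?_, hr, ?_⟩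
  · rw [← hLm]
    show T ≤ mistakesAfter L [] (Pre ++ S)
    rw [mistakesAfter_append, List.nil_append, hS2]
    exact Nat.le_add_left _ _
  · calc Fintype.card A * mDisj (Pre ++ S) = ∑ _a : A, mDisj (Pre ++ S) := by
          rw [sum_const, card_univ, smul_eq_mul]
      _ ≤ ∑ a : A, errors ((blkS ι τ Pad a).image fun i => (i, signs ι τ ω i)) S :=
          sum_le_sum fun a _ => hmD a
      _ ≤ B * T := hS4

/-- **The explicit bound.** -/
theorem dim_k {E : Type*} [NormedAddCommGroup E] [InnerProductSpace ℝ E]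
    [FiniteDimensional ℝ E] {n d q T N k : ℕ} (hd : 1 ≤ d) (hq : 1 ≤ q) (hN : 1 ≤ N)
    (hNN : Module.finrank ℝ E ≤ N)
    (hT : 64 * N ^ 2 * (16 * (q + 1)) ^ (2 * d) < T ^ (d + 1))
    (hs : d * q * (8 * N) ≤ 2 ^ ((8 * (q + 1) + 1) * d ^ 2)) (hk : (8 * (q + 1) + 1) * d ^ 2 ≤ k)
    (hn : T * (d * q * k) ≤ n) (φ : (Fin n → Bool) → E) (w : List (Ex n) → E) (M : ℕ) :
    ∃ S : List (Ex n), M ≤ kErr φ w S ∧ rDisj S = k ∧ q * mDisj S ≤ 12 * M := by
  set j := (d + 5) / 6 with hj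
  have hj1 : d ≤ 6 * j := by omega
  have hj2 : j ≤ d := by omega
  have hj0 : 1 ≤ j := by omega
  have hjq : 0 < j * q := Nat.mul_pos hj0 hq
  have : Nonempty (Fin (j * q)) := ⟨⟨0, hjq⟩⟩
  have h1 : Smooth (Fin (j * q)) ((8 * (q + 1) + 1) * d ^ 2) d (d + 6 * j)
      ((16 * ((q : ℝ) + 1)) ^ d) :=
    smooth_binom (Fin (j * q)) j d q hd hq (by rw [Fintype.card_fin])
  have hC1 : (1 : ℝ) ≤ (16 * ((q : ℝ) + 1)) ^ d := by
    apply one_le_pow₀
    have : (0 : ℝ) ≤ q := Nat.cast_nonneg q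
    linarith
  have h2 : 16 * (N : ℝ) ^ 2 * ((16 * ((q : ℝ) + 1)) ^ d + 1) ^ 2 < (T : ℝ) ^ (d + 1) := by
    have h3 : 64 * (N : ℝ) ^ 2 * (16 * ((q : ℝ) + 1)) ^ (2 * d) < (T : ℝ) ^ (d + 1) := by
      exact_mod_cast hT
    refine lt_of_le_of_lt ?_ h3
    calc 16 * (N : ℝ) ^ 2 * ((16 * ((q : ℝ) + 1)) ^ d + 1) ^ 2 ≤
          16 * (N : ℝ) ^ 2 * ((16 * ((q : ℝ) + 1)) ^ d + (16 * ((q : ℝ) + 1)) ^ d) ^ 2 := by gcongr
      _ = 64 * (N : ℝ) ^ 2 * (16 * ((q : ℝ) + 1)) ^ (2 * d) := by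
          rw [mul_comm 2 d, pow_mul]
          ring
  obtain ⟨S, hS1, hS2, hS3⟩ := dim_core (n := n) (k := k) h1 (by positivity) hN hNN h2 (by
      rw [Fintype.card_fin]
      refine le_trans ?_ hs
      gcongr) hk (by
      rw [Fintype.card_fin]
      refine le_trans ?_ hn
      gcongr) φ w M
  refine ⟨S, hS1, hS2, ?_⟩
  rw [Fintype.card_fin] at hS3
  have h4 : j * (q * mDisj S) ≤ j * (12 * M) := by
    calc j * (q * mDisj S) = j * q * mDisj S := by ring
      _ ≤ (d + 6 * j) * M := hS3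
      _ ≤ (12 * j) * M := by
          apply Nat.mul_le_mul_right
          omega
      _ = j * (12 * M) := by ring
  exact Nat.le_of_mul_le_mul_left h4 hj0

/-- **The trade-off between the ratio and the dimension.** -/
theorem dim_q : ∃ C : ℕ, ∀ n q d k N : ℕ, 1 ≤ q → 1 ≤ d → C * (q * d ^ 2) ≤ k →
    C * (q ^ 3 * d * k) ≤ n → N ≤ 2 ^ d →
    ∀ (φ : (Fin n → Bool) → EuclideanSpace ℝ (Fin N)) (w : List (Ex n) → EuclideanSpace ℝ (Fin N))
      (b : ℕ), ∃ S : List (Ex n), rDisj S = k ∧ q * mDisj S + b < kErr φ w S := by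
  refine ⟨15360000, fun n q d k N hq hd hk hn hN φ w b => ?_⟩
  have hQ : 1 ≤ 24 * q := by omega
  have hq25 : 16 * (24 * q + 1) ≤ 400 * q := by omega
  obtain ⟨S, hS1, hS2, hS3⟩ := dim_k (n := n) (q := 24 * q) (T := 4 * (400 * q) ^ 2) (k := k)
    (N := 2 ^ d) hd hQ Nat.one_le_two_pow
    (by rw [finrank_euclideanSpace, Fintype.card_fin]; exact hN) (by
      calc 64 * (2 ^ d) ^ 2 * (16 * (24 * q + 1)) ^ (2 * d) ≤
            64 * (2 ^ d) ^ 2 * (400 * q) ^ (2 * d) := by gcongr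
        _ = 64 * (4 ^ d * (400 * q) ^ (2 * d)) := by
            rw [← pow_mul, mul_comm d 2, pow_mul 2 2 d]
            norm_num
            ring
        _ < (4 * (400 * q) ^ 2) * (4 ^ d * (400 * q) ^ (2 * d)) := by
            apply Nat.mul_lt_mul_of_pos_right
            · nlinarith
            · positivity
        _ = (4 * (400 * q) ^ 2) ^ (d + 1) := by
            rw [pow_succ (4 * (400 * q) ^ 2) d, mul_pow 4 ((400 * q) ^ 2) d, ← pow_mul]
            ring) (by
      have e1 : d ≤ 2 ^ d := Nat.lt_two_pow_self.le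
      have e2 : 24 * q ≤ 2 ^ (24 * q) := Nat.lt_two_pow_self.le
      calc d * (24 * q) * (8 * 2 ^ d) ≤ 2 ^ d * 2 ^ (24 * q) * (8 * 2 ^ d) := by gcongr
        _ = 2 ^ (d + 24 * q + 3 + d) := by
            rw [pow_add, pow_add, pow_add]
            ring
        _ ≤ 2 ^ ((8 * (24 * q + 1) + 1) * d ^ 2) := by
            apply Nat.pow_le_pow_right (by norm_num)
            have e3 : d ≤ d ^ 2 := by nlinarith
            have e4 : 24 * q ≤ 24 * q * d ^ 2 := Nat.le_mul_of_pos_right _ (by positivity)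
            nlinarith) (by
      refine le_trans ?_ hk
      have e1 : (8 * (24 * q + 1) + 1) ≤ 15360000 * q := by omega
      calc (8 * (24 * q + 1) + 1) * d ^ 2 ≤ 15360000 * q * d ^ 2 := by gcongr
        _ = 15360000 * (q * d ^ 2) := by ring) (by
      refine le_trans (le_of_eq ?_) hn
      ring) φ w (2 * b + 1)
  refine ⟨S, hS2, ?_⟩
  have h1 : 2 * (q * mDisj S) ≤ 2 * b + 1 := by
    have : 12 * (2 * (q * mDisj S)) ≤ 12 * (2 * b + 1) := by
      calc 12 * (2 * (q * mDisj S)) = 24 * q * mDisj S := by ring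
        _ ≤ _ := hS3
    omega
  omega

/-- **The ratio in terms of `r`, for spaces of dimension polynomial in `n`.** -/
theorem dim_r (K : ℕ) (ε : ℝ) (hε : 0 < ε) : ∃ c : ℝ, 0 < c ∧ ∃ n₀ : ℕ, ∀ n : ℕ, n₀ ≤ n →
    ∀ k : ℕ, Real.log n ≤ c * k → (k : ℝ) ≤ (n : ℝ) ^ (1 / 4 - ε) → ∀ N : ℕ, N ≤ n ^ K →
    ∀ (φ : (Fin n → Bool) → EuclideanSpace ℝ (Fin N)) (w : List (Ex n) → EuclideanSpace ℝ (Fin N))
      (b : ℕ), ∃ S : List (Ex n), rDisj S = k ∧ c * k * mDisj S + b < kErr φ w S := by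
  set a : ℝ := (2 * (K : ℝ) + 1) / (4 * ε) with ha
  have ha0 : 0 < a := by positivity
  set d := ⌈a⌉₊ with hd
  have hd1 : 1 ≤ d := Nat.ceil_pos.2 ha0
  have hd1' : (1 : ℝ) ≤ d := by exact_mod_cast hd1
  set c : ℝ := 1 / (1632 * d ^ 2 * (K + 2)) with hc
  have hc0 : 0 < c := by positivity
  refine ⟨c, hc0, 64, fun n hn k hk1 hk2 N hN φ w b => ?_⟩
  have hn64 : (64 : ℝ) ≤ n := by exact_mod_cast hn
  have hn0 : (0 : ℝ) < n := by linarith
  have hn1 : (1 : ℝ) ≤ n := by linarith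
  have hK0 : (0 : ℝ) ≤ K := Nat.cast_nonneg K
  have hlog : 1 ≤ Real.log n := by
    rw [← Real.log_exp 1]
    apply Real.log_le_log (Real.exp_pos 1)
    have := Real.exp_one_lt_d9
    linarith
  -- the number of blocks
  set q := k / (34 * d ^ 2) with hq
  have hk34 : 34 * d ^ 2 ≤ k := by
    have h1 : 1 ≤ c * k := hlog.trans hk1
    have h2 : (34 : ℝ) * d ^ 2 ≤ k := by
      rw [hc, one_div, inv_mul_eq_div, le_div_iff₀ (by positivity), one_mul] at h1
      have h3 : (34 : ℝ) * d ^ 2 ≤ 1632 * d ^ 2 * (K + 2) := by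
        have : (0 : ℝ) ≤ (d : ℝ) ^ 2 := by positivity
        nlinarith
      linarith
    exact_mod_cast h2
  have hq1 : 1 ≤ q := (Nat.one_le_div_iff (by positivity)).2 hk34
  have hqk : 34 * d ^ 2 * q ≤ k := Nat.mul_div_le k _
  have hkq : k < 34 * d ^ 2 * (q + 1) := Nat.lt_mul_div_succ k (by positivity)
  have hk1' : 1 ≤ k := le_trans (by nlinarith) hk34
  have hdq : 34 * (d * q) ≤ k := by
    refine le_trans ?_ hqk
    have : d ≤ d ^ 2 := by nlinarith
    calc 34 * (d * q) = 34 * d * q := by ring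
      _ ≤ 34 * d ^ 2 * q := by gcongr
  have hq32 : 16 * (q + 1) ≤ k := by
    have : q ≤ d * q := Nat.le_mul_of_pos_left q hd1
    omega
  have hkn : (k : ℝ) ≤ n := by
    refine hk2.trans ?_
    calc (n : ℝ) ^ (1 / 4 - ε) ≤ (n : ℝ) ^ (1 : ℝ) :=
          Real.rpow_le_rpow_of_exponent_le hn1 (by linarith)
      _ = n := Real.rpow_one _
  -- the number of cells
  set T := ⌈(k : ℝ) ^ 2 * (n : ℝ) ^ (4 * ε)⌉₊ with hT
  have hne : 1 ≤ (n : ℝ) ^ (4 * ε) := Real.one_le_rpow hn1 (by linarith)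
  have hkr : (1 : ℝ) ≤ k := by exact_mod_cast hk1'
  have hT1 : (k : ℝ) ^ 2 * (n : ℝ) ^ (4 * ε) ≤ T := Nat.le_ceil _
  have hT2 : (T : ℝ) ≤ 2 * ((k : ℝ) ^ 2 * (n : ℝ) ^ (4 * ε)) := by
    have h1 := Nat.ceil_lt_add_one (show (0 : ℝ) ≤ (k : ℝ) ^ 2 * (n : ℝ) ^ (4 * ε) by positivity)
    rw [← hT] at h1
    have h2 : 1 ≤ (k : ℝ) ^ 2 * (n : ℝ) ^ (4 * ε) := by
      calc (1 : ℝ) = 1 * 1 := by ring
        _ ≤ (k : ℝ) ^ 2 * (n : ℝ) ^ (4 * ε) := by
          apply mul_le_mul (one_le_pow₀ hkr) hne zero_le_one (by positivity)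
    linarith
  have hcells : 64 * (n ^ K) ^ 2 * (16 * (q + 1)) ^ (2 * d) < T ^ (d + 1) := by
    have h1 : 64 * ((n : ℝ) ^ K) ^ 2 * (16 * ((q : ℝ) + 1)) ^ (2 * d) < (T : ℝ) ^ (d + 1) := by
      have e1 : 16 * ((q : ℝ) + 1) ≤ k := by exact_mod_cast hq32
      have e2 : (n : ℝ) ^ (2 * K + 1) < ((n : ℝ) ^ (4 * ε)) ^ (d + 1) := by
        rw [← Real.rpow_natCast, ← Real.rpow_natCast, ← Real.rpow_mul hn0.le]
        apply Real.rpow_lt_rpow_of_exponent_lt (by linarith)
        have h3 : a < d + 1 := lt_of_le_of_lt (Nat.le_ceil a) (by linarith)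
        rw [ha, div_lt_iff₀ (by positivity)] at h3
        push_cast
        linarith
      calc 64 * ((n : ℝ) ^ K) ^ 2 * (16 * ((q : ℝ) + 1)) ^ (2 * d)
          ≤ n * ((n : ℝ) ^ K) ^ 2 * (k : ℝ) ^ (2 * d) := by gcongr
        _ = (n : ℝ) ^ (2 * K + 1) * ((k : ℝ) ^ 2) ^ d := by
            rw [pow_mul (k : ℝ) 2 d]
            ring
        _ ≤ (n : ℝ) ^ (2 * K + 1) * ((k : ℝ) ^ 2) ^ (d + 1) := by
            have : (1 : ℝ) ≤ (k : ℝ) ^ 2 := one_le_pow₀ hkr
            gcongr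
            · exact Nat.le_succ d
        _ < ((n : ℝ) ^ (4 * ε)) ^ (d + 1) * ((k : ℝ) ^ 2) ^ (d + 1) := by
            apply mul_lt_mul_of_pos_right e2
            positivity
        _ = ((k : ℝ) ^ 2 * (n : ℝ) ^ (4 * ε)) ^ (d + 1) := by rw [mul_pow]; ring
        _ ≤ (T : ℝ) ^ (d + 1) := by gcongr
    exact_mod_cast h1
  -- the size of the blocks
  have hsize : d * q * (8 * n ^ K) ≤ 2 ^ ((8 * (q + 1) + 1) * d ^ 2) := by
    have h1 : ((d : ℝ) * q) * (8 * (n : ℝ) ^ K) ≤ 2 ^ ((8 * (q + 1) + 1) * d ^ 2) := by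
      have e1 : (d : ℝ) * q ≤ n := by
        refine le_trans ?_ hkn
        have : d * q ≤ k := by omega
        exact_mod_cast this
      have e2 : ((d : ℝ) * q) * (8 * (n : ℝ) ^ K) ≤ (n : ℝ) ^ (K + 2) := by
        calc ((d : ℝ) * q) * (8 * (n : ℝ) ^ K) ≤ n * (n * (n : ℝ) ^ K) := by
              gcongr
              linarith
          _ = (n : ℝ) ^ (K + 2) := by ring
      have e3 : (n : ℝ) ^ (K + 2) = Real.exp ((K + 2) * Real.log n) := by
        rw [mul_comm, Real.exp_mul, Real.exp_log hn0]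
        rw [← Real.rpow_natCast]
        push_cast
        rfl
      have e4 : ((K : ℝ) + 2) * Real.log n ≤ 2 / 17 * k := by
        calc ((K : ℝ) + 2) * Real.log n ≤ (K + 2) * (c * k) := by gcongr
          _ = 1 / (1632 * d ^ 2) * k := by
              rw [hc]
              field_simp
          _ ≤ 2 / 17 * k := by
              have : 1 / (1632 * (d : ℝ) ^ 2) ≤ 2 / 17 := by
                rw [div_le_div_iff₀ (by positivity) (by norm_num)]
                have : (1 : ℝ) ≤ (d : ℝ) ^ 2 := one_le_pow₀ hd1'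
                linarith
              gcongr
      have e5 : 2 / 17 * (k : ℝ) ≤ (1 / 2) * (((8 * (q + 1) + 1) * d ^ 2 : ℕ) : ℝ) := by
        have h3 : (k : ℝ) ≤ 34 * d ^ 2 * (q + 1) := by exact_mod_cast hkq.le
        push_cast
        have : (0 : ℝ) ≤ (d : ℝ) ^ 2 := by positivity
        nlinarith
      have e6 : Real.exp ((1 / 2) * (((8 * (q + 1) + 1) * d ^ 2 : ℕ) : ℝ)) ≤
          2 ^ ((8 * (q + 1) + 1) * d ^ 2) := by
        rw [Real.exp_mul, Real.rpow_natCast]
        apply pow_le_pow_left₀ (by positivity)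
        have h3 : Real.exp (1 / 2) * Real.exp (1 / 2) = Real.exp 1 := by
          rw [← Real.exp_add]
          norm_num
        have h4 := Real.exp_one_lt_d9
        nlinarith [Real.exp_pos (1 / 2 : ℝ)]
      calc ((d : ℝ) * q) * (8 * (n : ℝ) ^ K) ≤ (n : ℝ) ^ (K + 2) := e2
        _ = Real.exp ((K + 2) * Real.log n) := e3
        _ ≤ Real.exp ((1 / 2) * (((8 * (q + 1) + 1) * d ^ 2 : ℕ) : ℝ)) :=
            Real.exp_le_exp.2 (e4.trans e5)
        _ ≤ _ := e6
    exact_mod_cast h1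
  have hkk : (8 * (q + 1) + 1) * d ^ 2 ≤ k := by
    refine le_trans ?_ hqk
    calc (8 * (q + 1) + 1) * d ^ 2 ≤ 34 * q * d ^ 2 := by
          gcongr
          omega
      _ = 34 * d ^ 2 * q := by ring
  have hroom : T * (d * q * k) ≤ n := by
    have h1 : (T : ℝ) * (d * q * k) ≤ n := by
      have e1 : (34 : ℝ) * (d * q) ≤ k := by exact_mod_cast hdq
      have e2 : (k : ℝ) ^ 4 ≤ (n : ℝ) ^ (1 - 4 * ε) := by
        calc (k : ℝ) ^ 4 ≤ ((n : ℝ) ^ (1 / 4 - ε)) ^ 4 := by gcongr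
          _ = (n : ℝ) ^ (1 - 4 * ε) := by
            rw [← Real.rpow_natCast, ← Real.rpow_mul hn0.le]
            congr 1
            push_cast
            ring
      have e3 : 34 * ((T : ℝ) * (d * q * k)) ≤ 2 * n := by
        calc 34 * ((T : ℝ) * (d * q * k)) = T * ((34 * (d * q)) * k) := by ring
          _ ≤ (2 * ((k : ℝ) ^ 2 * (n : ℝ) ^ (4 * ε))) * (k * k) := by gcongr
          _ = 2 * ((k : ℝ) ^ 4 * (n : ℝ) ^ (4 * ε)) := by ring
          _ ≤ 2 * ((n : ℝ) ^ (1 - 4 * ε) * (n : ℝ) ^ (4 * ε)) := by gcongr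
          _ = 2 * n := by
            rw [← Real.rpow_add hn0]
            have : 1 - 4 * ε + 4 * ε = 1 := by ring
            rw [this, Real.rpow_one]
      linarith
    exact_mod_cast h1
  obtain ⟨S, hS1, hS2, hS3⟩ := dim_k (n := n) hd1 hq1 (N := n ^ K)
    (Nat.one_le_pow _ _ (by omega)) (by rw [finrank_euclideanSpace, Fintype.card_fin]; exact hN)
    hcells hsize hkk hroom φ w (2 * b + 1)
  refine ⟨S, hS2, ?_⟩
  have h1 : (q : ℝ) * mDisj S ≤ 12 * (2 * b + 1) := by exact_mod_cast hS3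
  have h2 : (2 * (b : ℝ) + 1) ≤ kErr φ w S := by exact_mod_cast hS1
  have h3 : (k : ℝ) ≤ 68 * d ^ 2 * q := by
    have e1 : (k : ℝ) ≤ 34 * d ^ 2 * (q + 1) := by exact_mod_cast hkq.le
    have e2 : (1 : ℝ) ≤ q := by exact_mod_cast hq1
    have e3 : (0 : ℝ) ≤ (d : ℝ) ^ 2 := by positivity
    nlinarith
  have h4 : c * k * mDisj S ≤ (2 * b + 1) / 4 := by
    calc c * k * mDisj S ≤ c * (68 * d ^ 2 * q) * mDisj S := by gcongr
      _ = c * (68 * d ^ 2) * (q * mDisj S) := by ring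
      _ ≤ c * (68 * d ^ 2) * (12 * (2 * b + 1)) := by gcongr
      _ = (2 * b + 1) / (2 * (K + 2)) := by
          rw [hc]
          field_simp
          ring
      _ ≤ (2 * b + 1) / 4 := by
          gcongr
          linarith
  have hb0 : (0 : ℝ) ≤ b := Nat.cast_nonneg b
  linarith

end Pool.Agent.THR72.FS
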