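import Pool.Agent.THR72.FeatZ
import Pool.Agent.THR72.FeatD

/-!
# Online learners that predict with thresholds in a feature space of small dimension, with symbols
-/

namespace Pool.Agent.THR72.FS

open Finset

section Input

variable {n s b T : ℕ}

open Classical in
/-- The input with given symbols, every symbol with one variable for each value. -/
noncomputable def xin (ι : (Fin s × Fin T) × (Fin b → Bool) ↪ Fin n)
    (X : (Fin s × Fin b) × Fin T → Bool) (v : Fin n) : Bool :=
  decide (∃ u, ι u = v ∧ ∀ e, X ((u.1.1, e), u.1.2) = u.2 e)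

lemma xin_apply (ι : (Fin s × Fin T) × (Fin b → Bool) ↪ Fin n)
    (X : (Fin s × Fin b) × Fin T → Bool) (u : (Fin s × Fin T) × (Fin b → Bool)) :
    xin ι X (ι u) = true ↔ ∀ e, X ((u.1.1, e), u.1.2) = u.2 e := by
  unfold xin
  rw [decide_eq_true_eq]
  constructor
  · rintro ⟨u', h1, h2⟩
    rw [ι.injective h1] at h2
    exact h2
  · intro h
    exact ⟨u, rfl, h⟩

lemma xin_out (ι : (Fin s × Fin T) × (Fin b → Bool) ↪ Fin n)
    (X : (Fin s × Fin b) × Fin T → Bool) (v : Fin n) (hv : ¬ ∃ u, ι u = v) :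
    xin ι X v = false := by
  unfold xin
  rw [decide_eq_false_iff_not]
  rintro ⟨u, h1, _⟩
  exact hv ⟨u, h1⟩

variable {A : Type}

open Classical in
/-- The variables of a block. -/
noncomputable def blkI (ι : (Fin s × Fin T) × (Fin b → Bool) ↪ Fin n) (τ : Fin s → Fin T)
    (ω : Fin s × Fin b → Bool) (code : A → Fin b → Bool) (Pad : Finset (Fin n)) (a : A) :
    Finset (Fin n) :=
  (univ.image fun i : Fin s => ι ((i, τ i), fun e => ω (i, e) == code a e)) ∪ Pad

theorem blkI_card {k : ℕ} (ι : (Fin s × Fin T) × (Fin b → Bool) ↪ Fin n) (τ : Fin s → Fin T)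
    (ω : Fin s × Fin b → Bool) (code : A → Fin b → Bool) (Pad : Finset (Fin n))
    (hPad : ∀ v ∈ Pad, ¬ ∃ u, ι u = v) (hk : s + Pad.card = k) (a : A) :
    (blkI ι τ ω code Pad a).card = k := by
  classical
  unfold blkI
  rw [card_union_of_disjoint, card_image_of_injective, card_univ, Fintype.card_fin, hk]
  · intro i j h
    have h1 := ι.injective h
    rw [Prod.mk.injEq, Prod.mk.injEq] at h1
    exact h1.1.1
  · rw [disjoint_left]
    intro i hi hi'
    obtain ⟨j, _, hj⟩ := mem_image.1 hi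
    exact hPad i hi' ⟨_, hj⟩

theorem hitI (ι : (Fin s × Fin T) × (Fin b → Bool) ↪ Fin n) (τ : Fin s → Fin T)
    (ω : Fin s × Fin b → Bool) (code : A → Fin b → Bool) (Pad : Finset (Fin n))
    (hPad : ∀ v ∈ Pad, ¬ ∃ u, ι u = v) (X : (Fin s × Fin b) × Fin T → Bool) (a : A) :
    (∃ v ∈ blkI ι τ ω code Pad a, xin ι X v = true) ↔ ∃ i, cnt τ ω X i = code a := by
  classical
  have hb : ∀ x w c : Bool, (x == w) = c ↔ x = (w == c) := by
    intro x w c
    cases x <;> cases w <;> cases c <;> decide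
  have hval : ∀ i : Fin s, xin ι X (ι ((i, τ i), fun e => ω (i, e) == code a e)) = true ↔
      cnt τ ω X i = code a := by
    intro i
    rw [xin_apply]
    constructor
    · intro h
      funext e
      exact (hb _ _ _).2 (h e)
    · intro h e
      exact (hb _ _ _).1 (congrFun h e)
  unfold blkI
  constructor
  · rintro ⟨v, hv, h⟩
    rcases mem_union.1 hv with h1 | h1
    · obtain ⟨i, _, rfl⟩ := mem_image.1 h1
      exact ⟨i, (hval i).1 h⟩
    · rw [xin_out ι X v (hPad v h1)] at h
      exact Bool.noConfusion h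
  · rintro ⟨i, hi⟩
    exact ⟨_, mem_union_left _ (mem_image_of_mem _ (mem_univ i)), (hval i).2 hi⟩

end Input

/-- The variables. -/
lemma exists_var {n s T b k : ℕ} (hk : s ≤ k) (hn : s * T * 2 ^ b + (k - s) ≤ n) :
    ∃ (ι : (Fin s × Fin T) × (Fin b → Bool) ↪ Fin n) (Pad : Finset (Fin n)),
      (∀ v ∈ Pad, ¬ ∃ u, ι u = v) ∧ s + Pad.card = k := by
  classical
  obtain ⟨e⟩ : Nonempty (((Fin s × Fin T) × (Fin b → Bool)) ⊕ Fin (k - s) ↪ Fin n) := by
    apply Function.Embedding.nonempty_of_card_le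
    rw [Fintype.card_sum, Fintype.card_prod, Fintype.card_prod, Fintype.card_fin,
      Fintype.card_fin, Fintype.card_fin, Fintype.card_fin, Fintype.card_fun, Fintype.card_bool,
      Fintype.card_fin]
    exact hn
  refine ⟨Function.Embedding.inl.trans e, univ.image fun j : Fin (k - s) => e (Sum.inr j), ?_, ?_⟩
  · rintro v hv ⟨u, hu⟩
    obtain ⟨j, _, hj⟩ := mem_image.1 hv
    have h1 : e (Sum.inl u) = e (Sum.inr j) := hu.trans hj.symm
    exact Sum.inl_ne_inr (e.injective h1)
  · rw [card_image_of_injective, card_univ, Fintype.card_fin]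
    · omega
    · intro i j h
      exact Sum.inr_injective (e.injective h)

/-- The adversary for a hidden code which the weights cannot separate. -/
theorem core_sym {E : Type*} [NormedAddCommGroup E] [InnerProductSpace ℝ E] {n s b T k B : ℕ}
    {A : Type} [Fintype A] [DecidableEq A] [Nonempty A]
    (ι : (Fin s × Fin T) × (Fin b → Bool) ↪ Fin n)
    (Pad : Finset (Fin n)) (hPad : ∀ v ∈ Pad, ¬ ∃ u, ι u = v) (hk : s + Pad.card = k)
    (code : A → Fin b → Bool) (τ : Fin s → Fin T) (ω : Fin s × Fin b → Bool)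
    (φ : (Fin n → Bool) → E) (w : List (Ex n) → E)
    (hcode : ∀ H, (∃ X, (∀ a, ∃ i, cnt τ ω X i = code a) ∧ inner ℝ (w H) (φ (xin ι X)) ≤ 0) ∨
      ∃ X, ((univ : Finset A).filter fun a => ∃ i, cnt τ ω X i = code a).card ≤ B ∧
        0 < inner ℝ (w H) (φ (xin ι X))) (M : ℕ) :
    ∃ S : List (Ex n), M ≤ kErr φ w S ∧ rDisj S = k ∧ Fintype.card A * mDisj S ≤ B * M := by
  classical
  obtain ⟨L, hL, hLm⟩ := exists_L φ w
  obtain ⟨Pre, hPre⟩ := prefix_r (fun a : A => blkI ι τ ω code Pad a)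
    (fun a => blkI_card (k := k) ι τ ω code Pad hPad hk a) M
  have hdisj : ∀ (C : Finset (Fin n)) (x : Fin n → Bool),
      disj (C.image fun i => (i, true)) x = true ↔ ∃ i ∈ C, x i = true := fun C x =>
    disj_signed (fun _ => true) C x
  obtain ⟨S, hS1, hS2, hS3, hS4⟩ := adversaryS
    (fun a : A => (blkI ι τ ω code Pad a).image fun i => (i, true))
    (fun x => ∀ a, ∃ i ∈ blkI ι τ ω code Pad a, x i = true) L (d := B) (by
      intro H
      rcases hcode H with ⟨X, h1, h2⟩ | ⟨X, h1, h2⟩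
      · refine ⟨(xin ι X, true), ?_, fun _ a => (hitI ι τ ω code Pad hPad X a).2 (h1 a), ?_⟩
        · intro h3
          exact absurd ((hL H _).1 h3) (not_lt.2 h2)
        · have : ((univ : Finset A).filter fun a =>
              disj ((blkI ι τ ω code Pad a).image fun i => (i, true)) (xin ι X, true).1 ≠
                (xin ι X, true).2) = ∅ := by
            rw [filter_eq_empty_iff]
            intro a _
            rw [not_not]
            exact (hdisj _ _).2 ((hitI ι τ ω code Pad hPad X a).2 (h1 a))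
          rw [this, card_empty]
          exact Nat.zero_le _
      · refine ⟨(xin ι X, false), ?_, fun h => Bool.noConfusion h, ?_⟩
        · intro h3
          have h4 := (hL H (xin ι X)).2 h2
          have h5 : thr (L H) (xin ι X) = false := h3
          rw [h5] at h4
          exact Bool.noConfusion h4
        · have h1' : ((univ : Finset A).filter fun a => ∃ i, cnt τ ω X i = code a).card ≤
              B := by convert h1
          refine (card_le_card ?_).trans h1'
          intro a ha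
          rw [mem_filter] at ha ⊢
          refine ⟨mem_univ _, (hitI ι τ ω code Pad hPad X a).1 ((hdisj _ _).1 ?_)⟩
          exact Bool.eq_true_of_not_eq_false ha.2) M Pre
  obtain ⟨hr, hmD⟩ := hPre S hS1.le hS3
  refine ⟨Pre ++ S, ?_, hr, ?_⟩
  · rw [← hLm]
    show M ≤ mistakesAfter L [] (Pre ++ S)
    rw [mistakesAfter_append, List.nil_append, hS2]
    exact Nat.le_add_left _ _
  · calc Fintype.card A * mDisj (Pre ++ S) = ∑ _a : A, mDisj (Pre ++ S) := by
          rw [sum_const, card_univ, smul_eq_mul]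
      _ ≤ ∑ a : A, errors ((blkI ι τ ω code Pad a).image fun i => (i, true)) S :=
          sum_le_sum fun a _ => hmD a
      _ ≤ B * M := hS4

/-- **The barrier for spaces of dimension `N`, with symbols.** -/
theorem dim_core_sym {E : Type*} [NormedAddCommGroup E] [InnerProductSpace ℝ E]
    [FiniteDimensional ℝ E] {n d j q s b T k N : ℕ} {A : Type} [Fintype A] [Nonempty A]
    (hd : 1 ≤ d) (hq : 1 ≤ q) (hA : Fintype.card A ≤ j * q)
    (code : A → Fin b → Bool) (hc : Function.Injective code) (hM1 : 2 * Fintype.card A ≤ 2 ^ b)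
    (hM2 : 2 * ((d + 6 * j + 1) * ((8 * (q + 1) + 1) * d ^ 2)) ≤ 2 ^ b) (hN : 1 ≤ N)
    (hNN : Module.finrank ℝ E ≤ N) (hT : 1600 * 9 ^ j * (N : ℝ) ^ 2 < (T : ℝ) ^ (d + 1))
    (hs : 32 * 3 ^ j * (N : ℝ) * (Fintype.card A * (1 - 1 / 2 ^ b) ^ s) ≤ 1) (hk : s ≤ k)
    (hn : s * T * 2 ^ b + (k - s) ≤ n) (φ : (Fin n → Bool) → E)
    (w : List (Ex n) → E) (M : ℕ) :
    ∃ S : List (Ex n), M ≤ kErr φ w S ∧ rDisj S = k ∧
      Fintype.card A * mDisj S ≤ (d + 6 * j + 1) * M := by
  classical
  obtain ⟨ι, Pad, hPad, hPk⟩ := exists_var (T := T) (b := b) hk hn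
  -- the space of functions on the symbols
  set W : E →ₗ[ℝ] (((Fin s × Fin b) × Fin T → Bool) → ℝ) :=
    { toFun := fun v X => inner ℝ v (φ (xin ι X))
      map_add' := fun v v' => by
        funext X
        exact inner_add_left _ _ _
      map_smul' := fun c v => by
        funext X
        exact real_inner_smul_left _ _ _ } with hW
  have hWr : Module.finrank ℝ (LinearMap.range W) ≤ N := (LinearMap.finrank_range_le W).trans hNN
  obtain ⟨τ, ω, hcode⟩ := exists_code_sym (T := T) hd hq hA code hc hM1 hM2 (LinearMap.range W) N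
    hN hWr hT (by rw [Fintype.card_fin]; exact hs)
  exact core_sym ι Pad hPad hPk code τ ω φ w
    (fun H => by
      rcases hcode (W (w H)) (LinearMap.mem_range_self W _) with ⟨X, h1, h2⟩ | ⟨X, h1, h2⟩
      · exact Or.inl ⟨X, h1, h2⟩
      · exact Or.inr ⟨X, by convert h1, h2⟩) M

/-- **The explicit bound, with symbols.** -/
theorem dim_k_sym {E : Type*} [NormedAddCommGroup E] [InnerProductSpace ℝ E]
    [FiniteDimensional ℝ E] {n d q b T l N k : ℕ} (hd : 1 ≤ d) (hq : 1 ≤ q) (hN : 1 ≤ N)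
    (hNN : Module.finrank ℝ E ≤ N)
    (hb : 272 * d ^ 3 * q ≤ 2 ^ b) (hT : 1600 * 9 ^ d * (N : ℝ) ^ 2 < (T : ℝ) ^ (d + 1))
    (hl : 32 * 3 ^ d * (N : ℝ) * (d * q) ≤ Real.exp l) (hk : 2 ^ b * l ≤ k)
    (hn : T * (2 ^ b * l) * 2 ^ b + k ≤ n) (φ : (Fin n → Bool) → E)
    (w : List (Ex n) → E) (M : ℕ) :
    ∃ S : List (Ex n), M ≤ kErr φ w S ∧ rDisj S = k ∧ q * mDisj S ≤ 8 * M := by
  have hdq : 0 < d * q := Nat.mul_pos hd hq
  have : Nonempty (Fin (d * q)) := ⟨⟨0, hdq⟩⟩
  have hd3 : d ≤ d ^ 3 := Nat.le_self_pow (by norm_num) d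
  have h1 : 2 * Fintype.card (Fin (d * q)) ≤ 2 ^ b := by
    rw [Fintype.card_fin]
    refine le_trans ?_ hb
    calc 2 * (d * q) = 2 * d * q := by ring
      _ ≤ 272 * d ^ 3 * q := by
        apply Nat.mul_le_mul_right
        linarith
  have h2 : 2 * ((d + 6 * d + 1) * ((8 * (q + 1) + 1) * d ^ 2)) ≤ 2 ^ b := by
    refine le_trans ?_ hb
    calc 2 * ((d + 6 * d + 1) * ((8 * (q + 1) + 1) * d ^ 2)) ≤
          2 * ((8 * d) * ((17 * q) * d ^ 2)) := by
          gcongr
          · omega
          · omega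
      _ = 272 * d ^ 3 * q := by ring
  obtain ⟨e⟩ : Nonempty (Fin (d * q) ↪ (Fin b → Bool)) := by
    apply Function.Embedding.nonempty_of_card_le
    rw [Fintype.card_fin] at h1
    rw [Fintype.card_fun, Fintype.card_bool, Fintype.card_fin, Fintype.card_fin]
    exact (Nat.le_mul_of_pos_left _ (by norm_num)).trans h1
  have h2b : (0 : ℝ) < 2 ^ b := by positivity
  have h3 : 32 * 3 ^ d * (N : ℝ) *
      (Fintype.card (Fin (d * q)) * (1 - 1 / 2 ^ b) ^ (2 ^ b * l)) ≤ 1 := by
    rw [Fintype.card_fin]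
    have e1 : (1 - 1 / (2 : ℝ) ^ b) ^ (2 ^ b * l) ≤ Real.exp (-l) := by
      calc (1 - 1 / (2 : ℝ) ^ b) ^ (2 ^ b * l) ≤ Real.exp (-(1 / 2 ^ b)) ^ (2 ^ b * l) := by
            apply pow_le_pow_left₀
            · rw [sub_nonneg, div_le_one h2b]
              exact one_le_pow₀ (by norm_num)
            · have := Real.add_one_le_exp (-(1 / (2 : ℝ) ^ b))
              linarith
        _ = Real.exp (-l) := by
            rw [← Real.exp_nat_mul]
            congr 1
            push_cast
            field_simp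
    have e2 : Real.exp (-l) = 1 / Real.exp l := by rw [Real.exp_neg, one_div]
    calc 32 * 3 ^ d * (N : ℝ) * (((d * q : ℕ) : ℝ) * (1 - 1 / 2 ^ b) ^ (2 ^ b * l))
        ≤ 32 * 3 ^ d * (N : ℝ) * (((d * q : ℕ) : ℝ) * Real.exp (-l)) := by gcongr
      _ = 32 * 3 ^ d * (N : ℝ) * (d * q) / Real.exp l := by
          rw [e2]
          push_cast
          ring
      _ ≤ 1 := by
          rw [div_le_one (Real.exp_pos _)]
          exact hl
  obtain ⟨S, hS1, hS2, hS3⟩ := dim_core_sym (A := Fin (d * q)) (n := n) (k := k) (T := T)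
    (s := 2 ^ b * l) (j := d) hd hq (by rw [Fintype.card_fin]) e e.injective h1 h2 hN hNN hT h3 hk
    (by
      refine le_trans ?_ hn
      have : T * (2 ^ b * l) * 2 ^ b = 2 ^ b * l * T * 2 ^ b := by ring
      omega) φ w M
  refine ⟨S, hS1, hS2, ?_⟩
  rw [Fintype.card_fin] at hS3
  have h4 : d * (q * mDisj S) ≤ d * (8 * M) := by
    calc d * (q * mDisj S) = d * q * mDisj S := by ring
      _ ≤ (d + 6 * d + 1) * M := hS3
      _ ≤ (8 * d) * M := by
          apply Nat.mul_le_mul_right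
          omega
      _ = d * (8 * M) := by ring
  exact Nat.le_of_mul_le_mul_left h4 hd

end Pool.Agent.THR72.FS
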