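import Pool.Agent.THR72.Block

/-!
# Two laws on a line with the same moments, the second one concentrated at one
-/

namespace Pool.Agent.THR72.FS

open Finset Polynomial

/-- **The two laws.** The second one is concentrated at one. -/
theorem exists_laws' (d q : ℕ) (hd : 1 ≤ d) (hq : 1 ≤ q) : ∃ pN pP : ℕ → ℝ,
    (∀ t, 0 ≤ pN t) ∧ (∀ t, 0 ≤ pP t) ∧ pP 0 = 0 ∧ 1 - 1 / (q : ℝ) ≤ pN 0 ∧
    1 - 2 / (q : ℝ) ≤ pP 1 ∧
    ∑ t ∈ range ((4 * q + 1) * d ^ 2 + 1), pN t = 1 ∧
    ∀ p : ℝ[X], p.natDegree ≤ d →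
      ∑ t ∈ range ((4 * q + 1) * d ^ 2 + 1), pN t * p.eval (t : ℝ) =
        ∑ t ∈ range ((4 * q + 1) * d ^ 2 + 1), pP t * p.eval (t : ℝ) := by
  set L := 4 * q + 1 with hLdef
  have hL : 2 ≤ L := by omega
  have hq0 : (0 : ℝ) < q := by exact_mod_cast hq
  set R := range (2 * d + 1) with hR
  have hdR : d ∈ R := by rw [hR, mem_range]; omega
  -- the sum of the absolute values
  have habs : ∑ j ∈ R.erase d, |bwt L d j| ≤ 1 / q := by
    calc ∑ j ∈ R.erase d, |bwt L d j| ≤ ∑ j ∈ R.erase d, 1 / (4 * q) * (1 / ((j : ℝ) - d) ^ 2) := by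
          apply sum_le_sum
          intro j hj
          refine (abs_bwt_le hL (ne_of_mem_erase hj)).trans (le_of_eq ?_)
          have : (L : ℝ) - 1 = 4 * q := by rw [hLdef]; push_cast; ring
          rw [this, one_div_mul_one_div]
      _ = 1 / (4 * q) * ∑ j ∈ R.erase d, (1 / ((j : ℝ) - d) ^ 2) := by rw [mul_sum]
      _ ≤ 1 / (4 * q) * 4 := by
          have := sum_sq_inv d
          gcongr
      _ = 1 / q := by field_simp
  set Z : ℝ := ∑ j ∈ R, max (bwt L d j) 0 with hZ
  have hZ1 : 1 ≤ Z := by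
    rw [hZ, ← add_sum_erase _ _ hdR, bwt_self]
    have : 0 ≤ ∑ j ∈ R.erase d, max (bwt L d j) 0 := sum_nonneg fun j _ => le_max_right _ _
    have h2 : max (1 : ℝ) 0 = 1 := by norm_num
    rw [h2]
    linarith
  have hZ2 : Z ≤ 1 + 1 / q := by
    rw [hZ, ← add_sum_erase _ _ hdR, bwt_self]
    have h1 : ∑ j ∈ R.erase d, max (bwt L d j) 0 ≤ ∑ j ∈ R.erase d, |bwt L d j| :=
      sum_le_sum fun j _ => max_le (le_abs_self _) (abs_nonneg _)
    have h2 : max (1 : ℝ) 0 = 1 := by norm_num
    rw [h2]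
    linarith
  have hZ0 : 0 < Z := by linarith
  set A : ℝ := ∑ j ∈ R, bwt L d j with hA
  have hA1 : 1 - 1 / (q : ℝ) ≤ A := by
    rw [hA, ← add_sum_erase _ _ hdR, bwt_self]
    have h1 : -∑ j ∈ R.erase d, |bwt L d j| ≤ ∑ j ∈ R.erase d, bwt L d j := by
      rw [← sum_neg_distrib]
      exact sum_le_sum fun j _ => neg_abs_le _
    linarith
  have hq1 : 1 / (q : ℝ) ≤ 1 := by
    rw [div_le_one hq0]
    exact_mod_cast hq
  have hA0 : 0 ≤ A := by linarith
  have hbound : ∀ j ∈ R, node L d j ∈ range (L * d ^ 2 + 1) := by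
    intro j hj
    rw [hR, mem_range] at hj
    rw [mem_range]
    unfold node
    have h1 : (j - d) ^ 2 + (d - j) ^ 2 ≤ d ^ 2 := by
      rcases le_total j d with h | h
      · rw [Nat.sub_eq_zero_of_le h]
        have := Nat.pow_le_pow_left (Nat.sub_le d j) 2
        simpa using this
      · rw [Nat.sub_eq_zero_of_le h]
        have h2 : j - d ≤ d := by omega
        have := Nat.pow_le_pow_left h2 2
        simpa using this
    exact Nat.lt_succ_of_le (Nat.mul_le_mul_left _ h1)
  have hone : (1 : ℕ) ∈ range (L * d ^ 2 + 1) := by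
    rw [mem_range]
    have h1 : 1 ≤ d ^ 2 := Nat.one_le_pow _ _ hd
    nlinarith
  -- the sums over the nodes
  have key : ∀ (c : ℕ → ℝ) (f : ℕ → ℝ), ∑ t ∈ range (L * d ^ 2 + 1),
      (∑ j ∈ R, if node L d j = t then c j else 0) * f t = ∑ j ∈ R, c j * f (node L d j) := by
    intro c f
    simp only [sum_mul]
    rw [sum_comm]
    apply sum_congr rfl
    intro j hj
    rw [sum_eq_single_of_mem _ (hbound j hj)]
    · rw [if_pos rfl]
    · intro t _ ht
      rw [if_neg (Ne.symm ht), zero_mul]
  refine ⟨fun t => ∑ j ∈ R, if node L d j = t then max (bwt L d j) 0 / Z else 0,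
    fun t => (if t = 1 then A / Z else 0) +
      ∑ j ∈ R, if node L d j = t then max (-bwt L d j) 0 / Z else 0, ?_, ?_, ?_, ?_, ?_, ?_, ?_⟩
  · intro t
    apply sum_nonneg
    intro j _
    split_ifs
    · exact div_nonneg (le_max_right _ _) hZ0.le
    · exact le_refl _
  · intro t
    apply add_nonneg
    · split_ifs
      · exact div_nonneg hA0 hZ0.le
      · exact le_refl _
    · apply sum_nonneg
      intro j _
      split_ifs
      · exact div_nonneg (le_max_right _ _) hZ0.le
      · exact le_refl _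
  · show (if (0 : ℕ) = 1 then A / Z else 0) +
      ∑ j ∈ R, (if node L d j = 0 then max (-bwt L d j) 0 / Z else 0) = 0
    rw [if_neg (by norm_num), zero_add]
    apply sum_eq_zero
    intro j _
    by_cases h : node L d j = 0
    · rw [if_pos h]
      have hj : j = d := by
        unfold node at h
        rcases Nat.mul_eq_zero.1 h with h1 | h1
        · omega
        · have h2 : (j - d) ^ 2 = 0 := by omega
          have h3 : (d - j) ^ 2 = 0 := by omega
          have h4 := pow_eq_zero_iff (two_ne_zero) |>.1 h2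
          have h5 := pow_eq_zero_iff (two_ne_zero) |>.1 h3
          omega
      rw [hj, bwt_self]
      norm_num
    · rw [if_neg h]
  · show 1 - 1 / (q : ℝ) ≤ ∑ j ∈ R, (if node L d j = 0 then max (bwt L d j) 0 / Z else 0)
    have h1 : (if node L d d = 0 then max (bwt L d d) 0 / Z else 0) ≤
        ∑ j ∈ R, (if node L d j = 0 then max (bwt L d j) 0 / Z else 0) := by
      apply single_le_sum (f := fun j => if node L d j = 0 then max (bwt L d j) 0 / Z else 0) _ hdR
      intro j _
      show 0 ≤ (if node L d j = 0 then max (bwt L d j) 0 / Z else 0)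
      split_ifs
      · exact div_nonneg (le_max_right _ _) hZ0.le
      · exact le_refl _
    refine le_trans ?_ h1
    have h2 : node L d d = 0 := by unfold node; simp
    rw [if_pos h2, bwt_self]
    have h3 : max (1 : ℝ) 0 = 1 := by norm_num
    rw [h3, le_div_iff₀ hZ0]
    have h4 : 0 ≤ 1 - 1 / (q : ℝ) := by
      rw [sub_nonneg, div_le_one hq0]
      exact_mod_cast hq
    calc (1 - 1 / (q : ℝ)) * Z ≤ (1 - 1 / q) * (1 + 1 / q) := by gcongr
      _ = 1 - (1 / q) ^ 2 := by ring
      _ ≤ 1 := by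
        have : 0 ≤ (1 / (q : ℝ)) ^ 2 := by positivity
        linarith
  · show 1 - 2 / (q : ℝ) ≤ (if (1 : ℕ) = 1 then A / Z else 0) +
      ∑ j ∈ R, (if node L d j = 1 then max (-bwt L d j) 0 / Z else 0)
    have h1 : 0 ≤ ∑ j ∈ R, (if node L d j = 1 then max (-bwt L d j) 0 / Z else 0) := by
      apply sum_nonneg
      intro j _
      split_ifs
      · exact div_nonneg (le_max_right _ _) hZ0.le
      · exact le_refl _
    have h2 : 1 - 2 / (q : ℝ) ≤ A / Z := by
      rw [le_div_iff₀ hZ0]
      have h4 : 0 < 1 / (q : ℝ) := by positivity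
      have h5 : 2 / (q : ℝ) = 2 * (1 / q) := by ring
      rw [h5]
      rcases le_total 0 (1 - 2 * (1 / (q : ℝ))) with h6 | h6
      · calc (1 - 2 * (1 / (q : ℝ))) * Z ≤ (1 - 2 * (1 / q)) * (1 + 1 / q) := by gcongr
          _ = 1 - 1 / q - 2 * (1 / q) ^ 2 := by ring
          _ ≤ 1 - 1 / q := by
            have : 0 ≤ (1 / (q : ℝ)) ^ 2 := by positivity
            linarith
          _ ≤ A := hA1
      · exact (mul_nonpos_of_nonpos_of_nonneg h6 hZ0.le).trans hA0
    rw [if_pos rfl]
    linarith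
  · have h1 := key (fun j => max (bwt L d j) 0 / Z) (fun _ => 1)
    simp only [mul_one] at h1
    rw [h1, ← sum_div, ← hZ, div_self hZ0.ne']
  · intro p hp
    have h1 := key (fun j => max (bwt L d j) 0 / Z) (fun t => p.eval (t : ℝ))
    have h2 := key (fun j => max (-bwt L d j) 0 / Z) (fun t => p.eval (t : ℝ))
    have h3 := bwt_sum hd hL p hp
    simp only [add_mul, sum_add_distrib]
    rw [h1, h2]
    have h4 : ∑ t ∈ range (L * d ^ 2 + 1), (if t = 1 then A / Z else 0) * p.eval (t : ℝ) =
        A / Z * p.eval 1 := by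
      rw [sum_eq_single_of_mem _ hone]
      · rw [if_pos rfl, Nat.cast_one]
      · intro t _ ht
        rw [if_neg ht, zero_mul]
    rw [h4]
    have h5 : ∑ j ∈ R, max (bwt L d j) 0 / Z * p.eval (node L d j : ℝ) -
        ∑ j ∈ R, max (-bwt L d j) 0 / Z * p.eval (node L d j : ℝ) =
        ∑ j ∈ R, bwt L d j * p.eval (node L d j : ℝ) / Z := by
      rw [← sum_sub_distrib]
      apply sum_congr rfl
      intro j _
      have h6 : max (bwt L d j) 0 - max (-bwt L d j) 0 = bwt L d j := by
        rcases le_total 0 (bwt L d j) with h | h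
        · rw [max_eq_left h, max_eq_right (by linarith)]
          ring
        · rw [max_eq_right h, max_eq_left (by linarith)]
          ring
      calc _ = (max (bwt L d j) 0 - max (-bwt L d j) 0) * p.eval (node L d j : ℝ) / Z := by ring
        _ = _ := by rw [h6]
    have h7 : ∑ j ∈ R, bwt L d j * p.eval (node L d j : ℝ) = A * p.eval 1 := by
      simp only [mul_sub, sum_sub_distrib] at h3
      rw [hA, sum_mul]
      linarith
    rw [← sum_div, h7] at h5
    have h8 : A * p.eval 1 / Z = A / Z * p.eval 1 := by ring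
    linarith

end Pool.Agent.THR72.FS
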