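import Pool.Agent.THR72.FeatK

/-!
# The ratio of learners with thresholds in a feature space of dimension polynomial in `n`
-/

namespace Pool.Agent.THR72.FS

open Finset

lemma exists_pow_two (x : ℕ) (hx : 1 ≤ x) : ∃ b : ℕ, x ≤ 2 ^ b ∧ 2 ^ b ≤ 2 * x := by
  refine ⟨Nat.log 2 x + 1, (Nat.lt_pow_succ_log_self (by norm_num) x).le, ?_⟩
  have := Nat.pow_log_le_self 2 (x := x) (by omega)
  rw [pow_succ]
  omega

/-- **The ratio in terms of `r`.** -/
theorem dim_r_sym (K : ℕ) (ε : ℝ) (hε : 0 < ε) : ∃ c : ℝ, 0 < c ∧ ∃ n₀ : ℕ, ∀ n : ℕ, n₀ ≤ n →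
    ∀ k : ℕ, Real.log n ≤ c * k → (k : ℝ) ≤ (n : ℝ) ^ (1 / 2 - ε) → ∀ N : ℕ, N ≤ n ^ K →
    ∀ (φ : (Fin n → Bool) → EuclideanSpace ℝ (Fin N)) (w : List (Ex n) → EuclideanSpace ℝ (Fin N))
      (b : ℕ), ∃ S : List (Ex n), rDisj S = k ∧ c * k / Real.log n * mDisj S + b < kErr φ w S := by
  set a : ℝ := (2 * (K : ℝ) + 2) / ε with ha
  have ha0 : 0 < a := by positivity
  set d := ⌈a⌉₊ with hd
  have hd1 : 1 ≤ d := Nat.ceil_pos.2 ha0
  have hd1' : (1 : ℝ) ≤ d := by exact_mod_cast hd1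
  set c : ℝ := 1 / (17408 * d ^ 3 * (K + 3)) with hc
  have hc0 : 0 < c := by positivity
  have hlim : ∀ᶠ n : ℕ in Filter.atTop, (3 : ℝ) ≤ (n : ℝ) ^ ε :=
    ((tendsto_rpow_atTop hε).comp tendsto_natCast_atTop_atTop).eventually_ge_atTop _
  obtain ⟨n₁, hn₁⟩ := Filter.eventually_atTop.1 hlim
  refine ⟨c, hc0, max n₁ (1600 * 9 ^ d), fun n hn k hk1 hk2 N hN φ w b => ?_⟩
  have hnn₁ : n₁ ≤ n := (le_max_left _ _).trans hn
  have hnn₂ : 1600 * 9 ^ d ≤ n := (le_max_right _ _).trans hn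
  have h9d : 1 ≤ 9 ^ d := Nat.one_le_pow _ _ (by norm_num)
  have hn9 : (1600 : ℝ) * 9 ^ d ≤ n := by exact_mod_cast hnn₂
  have hn1600 : 1600 ≤ n := by omega
  have hn1600' : (1600 : ℝ) ≤ n := by exact_mod_cast hn1600
  have hn0 : (0 : ℝ) < n := by linarith
  have hn1 : (1 : ℝ) ≤ n := by linarith
  have hK0 : (0 : ℝ) ≤ K := Nat.cast_nonneg K
  have hne3 := hn₁ n hnn₁
  have hlog : 1 ≤ Real.log n := by
    rw [← Real.log_exp 1]
    apply Real.log_le_log (Real.exp_pos 1)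
    have := Real.exp_one_lt_d9
    linarith
  have hlog0 : 0 < Real.log n := by linarith
  -- the number of expected hits
  set l := ⌈((K : ℝ) + 2) * Real.log n⌉₊ with hl
  have hl1 : ((K : ℝ) + 2) * Real.log n ≤ l := Nat.le_ceil _
  have hl2 : (l : ℝ) ≤ (K + 3) * Real.log n := by
    have := Nat.ceil_lt_add_one (show (0 : ℝ) ≤ ((K : ℝ) + 2) * Real.log n by positivity)
    rw [← hl] at this
    linarith
  have hl0 : 1 ≤ l := by
    rw [hl]
    exact Nat.ceil_pos.2 (by positivity)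
  -- the number of blocks
  set q := k / (544 * d ^ 3 * l) with hq
  have hkd : 544 * d ^ 3 * l ≤ k := by
    have h1 : (544 : ℝ) * d ^ 3 * l ≤ k := by
      rw [hc, one_div, inv_mul_eq_div, le_div_iff₀ (by positivity)] at hk1
      calc (544 : ℝ) * d ^ 3 * l ≤ 544 * d ^ 3 * ((K + 3) * Real.log n) := by gcongr
        _ ≤ 17408 * d ^ 3 * ((K + 3) * Real.log n) := by
          have : 0 ≤ (d : ℝ) ^ 3 * ((K + 3) * Real.log n) := by positivity
          nlinarith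
        _ = Real.log n * (17408 * d ^ 3 * (K + 3)) := by ring
        _ ≤ k := hk1
    exact_mod_cast h1
  have hdl : 0 < 544 * d ^ 3 * l := by positivity
  have hq1 : 1 ≤ q := (Nat.one_le_div_iff hdl).2 hkd
  have hqk : 544 * d ^ 3 * l * q ≤ k := Nat.mul_div_le k _
  have hkq : k < 544 * d ^ 3 * l * (q + 1) := Nat.lt_mul_div_succ k hdl
  obtain ⟨B, hB1, hB2⟩ := exists_pow_two (272 * d ^ 3 * q) (by
    have : 0 < 272 * d ^ 3 * q := by positivity
    omega)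
  have hBl : 2 ^ B * l ≤ k := by
    calc 2 ^ B * l ≤ 2 * (272 * d ^ 3 * q) * l := by gcongr
      _ = 544 * d ^ 3 * l * q := by ring
      _ ≤ k := hqk
  have hBk : 2 ^ B ≤ k := le_trans (Nat.le_mul_of_pos_right _ hl0) hBl
  have hdqk : d * q ≤ k := by
    refine le_trans ?_ hqk
    have h1 : d ≤ d ^ 3 := Nat.le_self_pow (by norm_num) d
    calc d * q ≤ d ^ 3 * q := by gcongr
      _ = 1 * d ^ 3 * 1 * q := by ring
      _ ≤ 544 * d ^ 3 * l * q := by gcongr; norm_num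
  have hkn : (k : ℝ) ≤ n := by
    refine hk2.trans ?_
    calc (n : ℝ) ^ (1 / 2 - ε) ≤ (n : ℝ) ^ (1 : ℝ) :=
          Real.rpow_le_rpow_of_exponent_le hn1 (by linarith)
      _ = n := Real.rpow_one _
  -- the number of cells
  set T := ⌈(n : ℝ) ^ ε⌉₊ with hT
  have hT1 : (n : ℝ) ^ ε ≤ T := Nat.le_ceil _
  have hT2 : (T : ℝ) ≤ 2 * (n : ℝ) ^ ε := by
    have h1 := Nat.ceil_lt_add_one (show (0 : ℝ) ≤ (n : ℝ) ^ ε by positivity)
    rw [← hT] at h1
    linarith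
  have hcells : 1600 * 9 ^ d * ((n ^ K : ℕ) : ℝ) ^ 2 < (T : ℝ) ^ (d + 1) := by
    push_cast
    have e2 : (n : ℝ) ^ (2 * K + 2) < ((n : ℝ) ^ ε) ^ (d + 1) := by
      rw [← Real.rpow_natCast, ← Real.rpow_natCast, ← Real.rpow_mul hn0.le]
      apply Real.rpow_lt_rpow_of_exponent_lt (by linarith)
      have h3 : a < d + 1 := lt_of_le_of_lt (Nat.le_ceil a) (by linarith)
      rw [ha, div_lt_iff₀ hε] at h3
      push_cast
      linarith
    calc 1600 * 9 ^ d * ((n : ℝ) ^ K) ^ 2 ≤ n * ((n : ℝ) ^ K) ^ 2 := by gcongr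
      _ ≤ (n * n) * ((n : ℝ) ^ K) ^ 2 := by
          gcongr
          exact le_mul_of_one_le_left hn0.le hn1
      _ = (n : ℝ) ^ (2 * K + 2) := by ring
      _ < ((n : ℝ) ^ ε) ^ (d + 1) := e2
      _ ≤ (T : ℝ) ^ (d + 1) := by gcongr
  have hexp : 32 * 3 ^ d * ((n ^ K : ℕ) : ℝ) * (d * q) ≤ Real.exp l := by
    push_cast
    have e1 : (32 : ℝ) * 3 ^ d ≤ n := by
      refine le_trans ?_ hn9
      have : (3 : ℝ) ^ d ≤ 9 ^ d := pow_le_pow_left₀ (by norm_num) (by norm_num) d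
      have h0 : (0 : ℝ) ≤ 9 ^ d := by positivity
      linarith
    have e2 : (d : ℝ) * q ≤ n := by
      refine le_trans ?_ hkn
      exact_mod_cast hdqk
    have e3 : (n : ℝ) ^ (K + 2) = Real.exp ((K + 2) * Real.log n) := by
      rw [mul_comm, Real.exp_mul, Real.exp_log hn0]
      rw [← Real.rpow_natCast]
      push_cast
      rfl
    calc 32 * 3 ^ d * (n : ℝ) ^ K * (d * q) ≤ n * (n : ℝ) ^ K * n := by gcongr
      _ = (n : ℝ) ^ (K + 2) := by ring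
      _ = Real.exp ((K + 2) * Real.log n) := e3
      _ ≤ Real.exp l := Real.exp_le_exp.2 hl1
  have hroom : T * (2 ^ B * l) * 2 ^ B + k ≤ n := by
    have h1 : (T : ℝ) * ((2 ^ B : ℕ) * l) * (2 ^ B : ℕ) + k ≤ n := by
      have e1 : ((2 ^ B : ℕ) : ℝ) * l ≤ k := by exact_mod_cast hBl
      have e2 : ((2 ^ B : ℕ) : ℝ) ≤ k := by exact_mod_cast hBk
      have e3 : (k : ℝ) ^ 2 ≤ (n : ℝ) ^ (1 - 2 * ε) := by
        calc (k : ℝ) ^ 2 ≤ ((n : ℝ) ^ (1 / 2 - ε)) ^ 2 := by gcongr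
          _ = (n : ℝ) ^ (1 - 2 * ε) := by
            rw [← Real.rpow_natCast, ← Real.rpow_mul hn0.le]
            congr 1
            push_cast
            ring
      have e4 : (n : ℝ) ^ ε * (n : ℝ) ^ (1 - 2 * ε) = (n : ℝ) ^ (1 - ε) := by
        rw [← Real.rpow_add hn0]
        congr 1
        ring
      have e5 : (k : ℝ) ≤ (n : ℝ) ^ (1 - ε) :=
        hk2.trans (Real.rpow_le_rpow_of_exponent_le hn1 (by linarith))
      have e6 : (n : ℝ) ^ (1 - ε) * (n : ℝ) ^ ε = n := by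
        rw [← Real.rpow_add hn0]
        have : 1 - ε + ε = 1 := by ring
        rw [this, Real.rpow_one]
      have e7 : (n : ℝ) ^ (1 - ε) * 3 ≤ n := by
        calc (n : ℝ) ^ (1 - ε) * 3 ≤ (n : ℝ) ^ (1 - ε) * (n : ℝ) ^ ε := by gcongr
          _ = n := e6
      calc (T : ℝ) * ((2 ^ B : ℕ) * l) * (2 ^ B : ℕ) + k ≤ (2 * (n : ℝ) ^ ε) * k * k + k := by
            gcongr
        _ = 2 * ((n : ℝ) ^ ε * (k : ℝ) ^ 2) + k := by ring
        _ ≤ 2 * ((n : ℝ) ^ ε * (n : ℝ) ^ (1 - 2 * ε)) + k := by gcongr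
        _ ≤ 2 * (n : ℝ) ^ (1 - ε) + (n : ℝ) ^ (1 - ε) := by rw [e4]; linarith
        _ ≤ n := by linarith
    exact_mod_cast h1
  obtain ⟨S, hS1, hS2, hS3⟩ := dim_k_sym (n := n) (b := B) (T := T) (l := l) (k := k) hd1 hq1
    (N := n ^ K) (Nat.one_le_pow _ _ (by omega))
    (by rw [finrank_euclideanSpace, Fintype.card_fin]; exact hN) hB1 hcells hexp hBl hroom φ w
    (2 * b + 1)
  refine ⟨S, hS2, ?_⟩
  have h1 : (q : ℝ) * mDisj S ≤ 8 * (2 * b + 1) := by exact_mod_cast hS3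
  have h2 : (2 * (b : ℝ) + 1) ≤ kErr φ w S := by exact_mod_cast hS1
  have h3 : (k : ℝ) ≤ 1088 * d ^ 3 * l * q := by
    have e1 : (k : ℝ) ≤ 544 * d ^ 3 * l * (q + 1) := by exact_mod_cast hkq.le
    have e2 : (1 : ℝ) ≤ q := by exact_mod_cast hq1
    have e3 : (0 : ℝ) ≤ (d : ℝ) ^ 3 * l := by positivity
    nlinarith
  have h4 : c * k / Real.log n * mDisj S ≤ (2 * b + 1) / 2 := by
    calc c * k / Real.log n * mDisj S ≤ c * (1088 * d ^ 3 * l * q) / Real.log n * mDisj S := by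
          gcongr
      _ = c * (1088 * d ^ 3) * (l / Real.log n) * (q * mDisj S) := by ring
      _ ≤ c * (1088 * d ^ 3) * (K + 3) * (8 * (2 * b + 1)) := by
          have : (l : ℝ) / Real.log n ≤ K + 3 := by
            rw [div_le_iff₀ hlog0]
            exact hl2
          gcongr
      _ = (2 * b + 1) / 2 := by
          rw [hc]
          field_simp
          ring
  have hb0 : (0 : ℝ) ≤ b := Nat.cast_nonneg b
  linarith

/-- **The ratio in terms of `n`.** -/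
theorem dim_n_sym (K : ℕ) (a : ℝ) (ha0 : 0 ≤ a) (ha : a < 1 / 2) : ∃ n₀ : ℕ, ∀ n : ℕ, n₀ ≤ n →
    ∀ N : ℕ, N ≤ n ^ K → ∀ (φ : (Fin n → Bool) → EuclideanSpace ℝ (Fin N))
      (w : List (Ex n) → EuclideanSpace ℝ (Fin N)) (b : ℕ),
      ∃ S : List (Ex n), (n : ℝ) ^ a * mDisj S + b < kErr φ w S := by
  set ε : ℝ := (1 / 2 - a) / 2 with hε
  have hε0 : 0 < ε := by linarith
  obtain ⟨c, hc, n₀, h⟩ := dim_r_sym K ε hε0
  have hlim : ∀ᶠ n : ℕ in Filter.atTop, (1 + 1 / c) * Real.log n ≤ (n : ℝ) ^ ε := by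
    have h1 := (isLittleO_log_rpow_atTop hε0).def (c := 1 / (1 + 1 / c)) (by positivity)
    have h2 := tendsto_natCast_atTop_atTop.eventually h1
    filter_upwards [h2, Filter.eventually_ge_atTop 1] with n hn hn1
    have hn1' : (1 : ℝ) ≤ n := by exact_mod_cast hn1
    rw [Real.norm_eq_abs, Real.norm_eq_abs, abs_of_nonneg (Real.log_nonneg hn1'),
      abs_of_nonneg (by positivity), div_mul_eq_mul_div, one_mul, le_div_iff₀ (by positivity)] at hn
    linarith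
  obtain ⟨n₁, hn₁⟩ := Filter.eventually_atTop.1 hlim
  refine ⟨max (max n₀ n₁) 3, fun n hn N hN φ w b => ?_⟩
  have hnn₀ : n₀ ≤ n := (le_max_left _ _).trans ((le_max_left _ _).trans hn)
  have hnn₁ : n₁ ≤ n := (le_max_right _ _).trans ((le_max_left _ _).trans hn)
  have hn3 : (3 : ℝ) ≤ n := by exact_mod_cast (le_max_right _ _).trans hn
  have hn1 : (1 : ℝ) ≤ n := by linarith
  have hn0 : (0 : ℝ) < n := by linarith
  have hlog : 1 ≤ Real.log n := by
    rw [← Real.log_exp 1]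
    apply Real.log_le_log (Real.exp_pos 1)
    have := Real.exp_one_lt_d9
    linarith
  have hlog0 : 0 < Real.log n := by linarith
  have h1 := hn₁ n hnn₁
  set k := ⌊(n : ℝ) ^ (1 / 2 - ε)⌋₊ with hk
  have hk1 : (k : ℝ) ≤ (n : ℝ) ^ (1 / 2 - ε) := Nat.floor_le (by positivity)
  have hk2 : (n : ℝ) ^ (1 / 2 - ε) < k + 1 := Nat.lt_floor_add_one _
  have hna : 1 ≤ (n : ℝ) ^ a := Real.one_le_rpow hn1 ha0
  have hexp : (n : ℝ) ^ (1 / 2 - ε) = (n : ℝ) ^ a * (n : ℝ) ^ ε := by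
    rw [← Real.rpow_add hn0]
    congr 1
    rw [hε]
    ring
  have hck : (n : ℝ) ^ a * Real.log n ≤ c * k := by
    have h2 : (n : ℝ) ^ a * ((1 + 1 / c) * Real.log n) ≤ k + 1 := by
      refine le_trans ?_ hk2.le
      rw [hexp]
      gcongr
    have h3 : c * ((n : ℝ) ^ a * ((1 + 1 / c) * Real.log n)) ≤ c * (k + 1) := by gcongr
    have h4 : c * ((n : ℝ) ^ a * ((1 + 1 / c) * Real.log n)) =
        c * ((n : ℝ) ^ a * Real.log n) + (n : ℝ) ^ a * Real.log n := by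
      field_simp
    have h5 : 1 ≤ (n : ℝ) ^ a * Real.log n := by
      calc (1 : ℝ) = 1 * 1 := by ring
        _ ≤ (n : ℝ) ^ a * Real.log n := by gcongr
    have h6 : c * 1 ≤ c * ((n : ℝ) ^ a * Real.log n) := by gcongr
    linarith
  have hck2 : Real.log n ≤ c * k := by
    refine le_trans ?_ hck
    exact le_mul_of_one_le_left hlog0.le hna
  obtain ⟨S, _, hS⟩ := h n hnn₀ k hck2 hk1 N hN φ w b
  refine ⟨S, lt_of_le_of_lt ?_ hS⟩
  have h2 : (n : ℝ) ^ a ≤ c * k / Real.log n := (le_div_iff₀ hlog0).2 hck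
  have h3 : (n : ℝ) ^ a * mDisj S ≤ c * k / Real.log n * mDisj S := by gcongr
  linarith

end Pool.Agent.THR72.FS
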