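import Pool.Agent.THR72.FeatM
import Pool.Agent.THR72.FeatH

/-!
# The dimension that a given ratio needs
-/

namespace Pool.Agent.THR72.FS

open Finset

/-- **The trade-off between the ratio and the dimension, with symbols.** -/
theorem trade_sym : ∃ C : ℕ, 1 ≤ C ∧ ∀ n q d N : ℕ, 1 ≤ q → 1 ≤ d → q ≤ 2 ^ d →
    C * (q ^ 2 * d ^ 7) ≤ n → N ≤ 2 ^ d →
    ∀ (φ : (Fin n → Bool) → EuclideanSpace ℝ (Fin N)) (w : List (Ex n) → EuclideanSpace ℝ (Fin N))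
      (b : ℕ), ∃ S : List (Ex n), q * mDisj S + b < kErr φ w S := by
  refine ⟨57600 * 8704 ^ 2 * 14 + 8704 * 14, by norm_num, fun n q d N hq hd hqd hn hN φ w b => ?_⟩
  obtain ⟨B, hB1, hB2⟩ := exists_pow_two (272 * d ^ 3 * (16 * q)) (by
    have : 0 < 272 * d ^ 3 * (16 * q) := by positivity
    omega)
  have hB3 : 2 ^ B ≤ 8704 * d ^ 3 * q := by
    calc 2 ^ B ≤ 2 * (272 * d ^ 3 * (16 * q)) := hB2
      _ = 8704 * d ^ 3 * q := by ring
  have hq16 : 1 ≤ 16 * q := by omega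
  obtain ⟨S, hS1, _, hS3⟩ := dim_k_sym (n := n) (b := B) (T := 57600) (l := 14 * d)
    (k := 2 ^ B * (14 * d)) (q := 16 * q) (N := 2 ^ d) hd hq16 Nat.one_le_two_pow
    (by rw [finrank_euclideanSpace, Fintype.card_fin]; exact hN) hB1 (by
      push_cast
      have h1 : (9 : ℝ) ^ d * ((2 : ℝ) ^ d) ^ 2 = 36 ^ d := by
        rw [← pow_mul, mul_comm d 2, pow_mul, ← mul_pow]
        norm_num
      have h2 : (36 : ℝ) ^ d ≤ 57600 ^ d := pow_le_pow_left₀ (by norm_num) (by norm_num) d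
      have h3 : (0 : ℝ) < 57600 ^ d := by positivity
      calc 1600 * 9 ^ d * ((2 : ℝ) ^ d) ^ 2 = 1600 * 36 ^ d := by rw [mul_assoc, h1]
        _ ≤ 1600 * 57600 ^ d := by gcongr
        _ < 57600 * 57600 ^ d := by linarith
        _ = 57600 ^ (d + 1) := by ring) (by
      have h0 : (d : ℝ) ≤ 2 ^ d := by exact_mod_cast Nat.lt_two_pow_self.le
      have h1 : ((16 * q : ℕ) : ℝ) ≤ 16 * 2 ^ d := by
        push_cast
        have : (q : ℝ) ≤ 2 ^ d := by exact_mod_cast hqd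
        linarith
      have h2 : (3 : ℝ) ^ d ≤ 4 ^ d := pow_le_pow_left₀ (by norm_num) (by norm_num) d
      have h3 : (4 : ℝ) ^ d = 2 ^ d * 2 ^ d := by
        rw [← mul_pow]
        norm_num
      have h4 : (2 : ℝ) ≤ Real.exp 1 := by
        have := Real.add_one_le_exp (1 : ℝ)
        linarith
      have h5 : (512 : ℝ) ≤ (2 ^ d) ^ 9 := by
        have : (2 : ℝ) ≤ 2 ^ d := by
          calc (2 : ℝ) = 2 ^ 1 := (pow_one _).symm
            _ ≤ 2 ^ d := pow_le_pow_right₀ (by norm_num) hd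
        calc (512 : ℝ) = 2 ^ 9 := by norm_num
          _ ≤ (2 ^ d) ^ 9 := by gcongr
      push_cast at h1 ⊢
      calc 32 * 3 ^ d * (2 : ℝ) ^ d * (d * (16 * q)) ≤
            32 * (2 ^ d * 2 ^ d) * (2 : ℝ) ^ d * (2 ^ d * (16 * 2 ^ d)) := by
            rw [← h3]
            gcongr
        _ = 512 * (2 ^ d) ^ 5 := by ring
        _ ≤ (2 ^ d) ^ 9 * (2 ^ d) ^ 5 := by gcongr
        _ = 2 ^ (14 * d) := by
            rw [← pow_add, ← pow_mul]
            congr 1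
            ring
        _ ≤ Real.exp 1 ^ (14 * d) := pow_le_pow_left₀ (by norm_num) h4 _
        _ = Real.exp (14 * d) := by
            rw [← Real.exp_nat_mul]
            congr 1
            push_cast
            ring) le_rfl (by
      have h1 : d ^ 4 * q ≤ q ^ 2 * d ^ 7 := by
        calc d ^ 4 * q = q * d ^ 4 := by ring
          _ ≤ q ^ 2 * d ^ 7 := by
            apply Nat.mul_le_mul
            · exact Nat.le_self_pow (by norm_num) q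
            · exact Nat.pow_le_pow_right hd (by norm_num)
      calc 57600 * (2 ^ B * (14 * d)) * 2 ^ B + 2 ^ B * (14 * d)
          ≤ 57600 * (8704 * d ^ 3 * q * (14 * d)) * (8704 * d ^ 3 * q) +
            8704 * d ^ 3 * q * (14 * d) := by gcongr
        _ = 57600 * 8704 ^ 2 * 14 * (q ^ 2 * d ^ 7) + 8704 * 14 * (d ^ 4 * q) := by ring
        _ ≤ 57600 * 8704 ^ 2 * 14 * (q ^ 2 * d ^ 7) + 8704 * 14 * (q ^ 2 * d ^ 7) := by gcongr
        _ = (57600 * 8704 ^ 2 * 14 + 8704 * 14) * (q ^ 2 * d ^ 7) := by ring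
        _ ≤ n := hn) φ w (2 * b + 1)
  refine ⟨S, ?_⟩
  have h1 : 2 * (q * mDisj S) ≤ 2 * b + 1 := by
    have : 8 * (2 * (q * mDisj S)) ≤ 8 * (2 * b + 1) := by
      calc 8 * (2 * (q * mDisj S)) = 16 * q * mDisj S := by ring
        _ ≤ _ := hS3
    omega
  omega

/-- **Ratios which are powers of `n` need the dimension `2 ^ (n ^ δ)`.** -/
theorem dim_exp (a : ℝ) (ha0 : 0 ≤ a) (ha : a < 1 / 2) : ∃ δ : ℝ, 0 < δ ∧ ∃ n₀ : ℕ, ∀ n : ℕ,
    n₀ ≤ n → ∀ N : ℕ, (N : ℝ) ≤ 2 ^ (n : ℝ) ^ δ →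
    ∀ (φ : (Fin n → Bool) → EuclideanSpace ℝ (Fin N)) (w : List (Ex n) → EuclideanSpace ℝ (Fin N))
      (b : ℕ), ∃ S : List (Ex n), (n : ℝ) ^ a * mDisj S + b < kErr φ w S := by
  obtain ⟨C, hC, htr⟩ := trade_sym
  set δ : ℝ := (1 - 2 * a) / 16 with hδ
  have hδ0 : 0 < δ := by
    rw [hδ]
    linarith
  have hlim1 : ∀ᶠ n : ℕ in Filter.atTop, (512 * C : ℝ) ≤ (n : ℝ) ^ (9 * δ) :=
    ((tendsto_rpow_atTop (by linarith)).comp tendsto_natCast_atTop_atTop).eventually_ge_atTop _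
  have hlim2 : ∀ᶠ n : ℕ in Filter.atTop, 4 * Real.log n ≤ (n : ℝ) ^ δ := by
    have h1 := (isLittleO_log_rpow_atTop hδ0).def (c := 1 / 4) (by positivity)
    have h2 := tendsto_natCast_atTop_atTop.eventually h1
    filter_upwards [h2, Filter.eventually_ge_atTop 1] with n hn hn1
    have hn1' : (1 : ℝ) ≤ n := by exact_mod_cast hn1
    rw [Real.norm_eq_abs, Real.norm_eq_abs, abs_of_nonneg (Real.log_nonneg hn1'),
      abs_of_nonneg (by positivity)] at hn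
    linarith
  obtain ⟨n₁, hn₁⟩ := Filter.eventually_atTop.1 (hlim1.and hlim2)
  refine ⟨δ, hδ0, max n₁ 3, fun n hn N hN φ w b => ?_⟩
  obtain ⟨h1, h2⟩ := hn₁ n ((le_max_left _ _).trans hn)
  have hn3 : (3 : ℝ) ≤ n := by exact_mod_cast (le_max_right _ _).trans hn
  have hn1 : (1 : ℝ) ≤ n := by linarith
  have hn0 : (0 : ℝ) < n := by linarith
  have hlog : 1 ≤ Real.log n := by
    rw [← Real.log_exp 1]
    apply Real.log_le_log (Real.exp_pos 1)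
    have := Real.exp_one_lt_d9
    linarith
  have hnδ : 1 ≤ (n : ℝ) ^ δ := Real.one_le_rpow hn1 hδ0.le
  have hna : 1 ≤ (n : ℝ) ^ a := Real.one_le_rpow hn1 ha0
  set d := ⌈(n : ℝ) ^ δ⌉₊ with hd
  set q := ⌈(n : ℝ) ^ a⌉₊ with hq
  have hd1 : (n : ℝ) ^ δ ≤ d := Nat.le_ceil _
  have hq1 : (n : ℝ) ^ a ≤ q := Nat.le_ceil _
  have hd2 : (d : ℝ) ≤ 2 * (n : ℝ) ^ δ := by
    have := Nat.ceil_lt_add_one (show (0 : ℝ) ≤ (n : ℝ) ^ δ by positivity)
    rw [← hd] at this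
    linarith
  have hq2 : (q : ℝ) ≤ 2 * (n : ℝ) ^ a := by
    have := Nat.ceil_lt_add_one (show (0 : ℝ) ≤ (n : ℝ) ^ a by positivity)
    rw [← hq] at this
    linarith
  have hd0 : 1 ≤ d := Nat.ceil_pos.2 (by linarith)
  have hq0 : 1 ≤ q := Nat.ceil_pos.2 (by linarith)
  have hqd : q ≤ 2 ^ d := by
    have e1 : (q : ℝ) ≤ 2 ^ (d : ℝ) := by
      have e2 : (q : ℝ) ≤ n ^ 2 := by
        calc (q : ℝ) ≤ 2 * (n : ℝ) ^ a := hq2
          _ ≤ 2 * (n : ℝ) ^ (1 : ℝ) := by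
              gcongr
              linarith
          _ = 2 * n := by rw [Real.rpow_one]
          _ ≤ n ^ 2 := by nlinarith
      have e3 : (n : ℝ) ^ 2 = Real.exp (2 * Real.log n) := by
        rw [mul_comm, Real.exp_mul, Real.exp_log hn0]
        norm_num
      have e4 : Real.exp (1 / 2) ≤ 2 := by
        have h3 : Real.exp (1 / 2) * Real.exp (1 / 2) = Real.exp 1 := by
          rw [← Real.exp_add]
          norm_num
        have h4 := Real.exp_one_lt_d9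
        nlinarith [Real.exp_pos (1 / 2 : ℝ)]
      calc (q : ℝ) ≤ n ^ 2 := e2
        _ = Real.exp (2 * Real.log n) := e3
        _ ≤ Real.exp (1 / 2 * d) := by
            apply Real.exp_le_exp.2
            linarith
        _ = Real.exp (1 / 2) ^ (d : ℝ) := by rw [Real.exp_mul]
        _ ≤ 2 ^ (d : ℝ) := Real.rpow_le_rpow (Real.exp_pos _).le e4 (Nat.cast_nonneg _)
    rw [Real.rpow_natCast] at e1
    exact_mod_cast e1
  have hNd : N ≤ 2 ^ d := by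
    have e1 : (N : ℝ) ≤ 2 ^ (d : ℝ) :=
      hN.trans (Real.rpow_le_rpow_of_exponent_le (by norm_num) hd1)
    rw [Real.rpow_natCast] at e1
    exact_mod_cast e1
  have hroom : C * (q ^ 2 * d ^ 7) ≤ n := by
    have e1 : (C : ℝ) * ((q : ℝ) ^ 2 * (d : ℝ) ^ 7) ≤ n := by
      have e2 : ((n : ℝ) ^ a) ^ 2 * ((n : ℝ) ^ δ) ^ 7 * (n : ℝ) ^ (9 * δ) = n := by
        rw [← Real.rpow_natCast, ← Real.rpow_natCast, ← Real.rpow_mul hn0.le,
          ← Real.rpow_mul hn0.le, ← Real.rpow_add hn0, ← Real.rpow_add hn0]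
        have : a * ((2 : ℕ) : ℝ) + δ * ((7 : ℕ) : ℝ) + 9 * δ = 1 := by
          rw [hδ]
          push_cast
          ring
        rw [this, Real.rpow_one]
      calc (C : ℝ) * ((q : ℝ) ^ 2 * (d : ℝ) ^ 7) ≤
            C * ((2 * (n : ℝ) ^ a) ^ 2 * (2 * (n : ℝ) ^ δ) ^ 7) := by gcongr
        _ = ((n : ℝ) ^ a) ^ 2 * ((n : ℝ) ^ δ) ^ 7 * (512 * C) := by ring
        _ ≤ ((n : ℝ) ^ a) ^ 2 * ((n : ℝ) ^ δ) ^ 7 * (n : ℝ) ^ (9 * δ) := by gcongr
        _ = n := e2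
    exact_mod_cast e1
  obtain ⟨S, hS⟩ := htr n q d N hq0 hd0 hqd hroom hNd φ w b
  refine ⟨S, ?_⟩
  have h3 : (q : ℝ) * mDisj S + b < kErr φ w S := by exact_mod_cast hS
  have h4 : (n : ℝ) ^ a * mDisj S ≤ q * mDisj S := by gcongr
  linarith

/-- **Constant ratios need the dimension `2 ^ (c n ^ (1 / 3))`.** -/
theorem dim_const (q : ℕ) : ∃ c : ℝ, 0 < c ∧ ∃ n₀ : ℕ, ∀ n : ℕ, n₀ ≤ n → ∀ N : ℕ,
    (N : ℝ) ≤ 2 ^ (c * (n : ℝ) ^ (1 / 3 : ℝ)) →
    ∀ (φ : (Fin n → Bool) → EuclideanSpace ℝ (Fin N)) (w : List (Ex n) → EuclideanSpace ℝ (Fin N))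
      (b : ℕ), ∃ S : List (Ex n), q * mDisj S + b < kErr φ w S := by
  obtain ⟨C₀, hC₀⟩ := dim_q
  set Q := q + 1 with hQ
  set C : ℕ := (C₀ ^ 2 + 1) * Q ^ 4 with hC
  have hC1 : 1 ≤ C := by
    have : 0 < (C₀ ^ 2 + 1) * Q ^ 4 := by positivity
    omega
  have hCr : (1 : ℝ) ≤ C := by exact_mod_cast hC1
  set c : ℝ := 1 / (2 * C) with hc
  have hc0 : 0 < c := by positivity
  have hlim : ∀ᶠ n : ℕ in Filter.atTop, 1 / c ≤ (n : ℝ) ^ (1 / 3 : ℝ) :=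
    ((tendsto_rpow_atTop (by norm_num)).comp tendsto_natCast_atTop_atTop).eventually_ge_atTop _
  obtain ⟨n₁, hn₁⟩ := Filter.eventually_atTop.1 hlim
  refine ⟨c, hc0, n₁, fun n hn N hN φ w b => ?_⟩
  have h1 := hn₁ n hn
  have hn0 : (0 : ℝ) ≤ n := Nat.cast_nonneg n
  have hx : 1 ≤ c * (n : ℝ) ^ (1 / 3 : ℝ) := by
    rw [div_le_iff₀ hc0] at h1
    linarith
  set d := ⌈c * (n : ℝ) ^ (1 / 3 : ℝ)⌉₊ with hd
  have hd1 : c * (n : ℝ) ^ (1 / 3 : ℝ) ≤ d := Nat.le_ceil _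
  have hd2 : (d : ℝ) ≤ 2 * (c * (n : ℝ) ^ (1 / 3 : ℝ)) := by
    have := Nat.ceil_lt_add_one (show (0 : ℝ) ≤ c * (n : ℝ) ^ (1 / 3 : ℝ) by positivity)
    rw [← hd] at this
    linarith
  have hd0 : 1 ≤ d := Nat.ceil_pos.2 (by linarith)
  have hNd : N ≤ 2 ^ d := by
    have e1 : (N : ℝ) ≤ 2 ^ (d : ℝ) :=
      hN.trans (Real.rpow_le_rpow_of_exponent_le (by norm_num) hd1)
    rw [Real.rpow_natCast] at e1
    exact_mod_cast e1
  have hroom : C₀ * (Q ^ 3 * d * (C₀ * (Q * d ^ 2))) ≤ n := by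
    have e1 : (C : ℝ) * (d : ℝ) ^ 3 ≤ n := by
      have e2 : ((n : ℝ) ^ (1 / 3 : ℝ)) ^ 3 = n := by
        rw [← Real.rpow_natCast, ← Real.rpow_mul hn0]
        norm_num
      calc (C : ℝ) * (d : ℝ) ^ 3 ≤ C * (2 * (c * (n : ℝ) ^ (1 / 3 : ℝ))) ^ 3 := by gcongr
        _ = 1 / C ^ 2 * ((n : ℝ) ^ (1 / 3 : ℝ)) ^ 3 := by
            rw [hc]
            field_simp
        _ = 1 / C ^ 2 * n := by rw [e2]
        _ ≤ 1 * n := by
            have : 1 / (C : ℝ) ^ 2 ≤ 1 := by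
              rw [div_le_one (by positivity)]
              exact one_le_pow₀ hCr
            gcongr
        _ = n := one_mul _
    have e2 : C * d ^ 3 ≤ n := by exact_mod_cast e1
    refine le_trans ?_ e2
    calc C₀ * (Q ^ 3 * d * (C₀ * (Q * d ^ 2))) = C₀ ^ 2 * Q ^ 4 * d ^ 3 := by ring
      _ ≤ (C₀ ^ 2 + 1) * Q ^ 4 * d ^ 3 := by
          gcongr
          omega
  obtain ⟨S, _, hS⟩ := hC₀ n Q d (C₀ * (Q * d ^ 2)) N (by omega) hd0 le_rfl hroom hNd φ w b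
  refine ⟨S, lt_of_le_of_lt ?_ hS⟩
  gcongr
  omega

end Pool.Agent.THR72.FS
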