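import Pool.Agent.THR72.FeatK

/-!
# A hidden code with symbols which no vector of bounded norm with margin one can separate
-/

namespace Pool.Agent.THR72.FS

open Finset

section Sym

variable {I : Type} [Fintype I] [DecidableEq I] {b T : ℕ} {A : Type} [Fintype A] [DecidableEq A]
variable {E : Type*} [NormedAddCommGroup E] [InnerProductSpace ℝ E]

/-- **The hidden code with symbols, for vectors with margin one.** -/
theorem exists_code_sym_margin {d j q : ℕ} (hd : 1 ≤ d) (hq : 1 ≤ q)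
    (hA : Fintype.card A ≤ j * q) (code : A → Fin b → Bool) (hc : Function.Injective code)
    (hM1 : 2 * Fintype.card A ≤ 2 ^ b)
    (hM2 : 2 * ((d + 6 * j + 1) * ((8 * (q + 1) + 1) * d ^ 2)) ≤ 2 ^ b)
    (φ : ((I × Fin b) × Fin T → Bool) → E) (hφ : ∀ X, ‖φ X‖ ≤ 1) (R : ℝ) (hR : 1 ≤ R)
    (hT : 400 * 9 ^ j * R ^ 2 < (T : ℝ) ^ (d + 1))
    (hs : 8 * 3 ^ j * R * (Fintype.card A * (1 - 1 / 2 ^ b) ^ Fintype.card I) ≤ 1) :
    ∃ (τ : I → Fin T) (ω : I × Fin b → Bool), ∀ v : E, ‖v‖ ≤ R →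
      (∀ X, 0 < inner ℝ v (φ X) → 1 ≤ inner ℝ v (φ X)) →
      (∃ X, (∀ a, ∃ i, cnt τ ω X i = code a) ∧ inner ℝ v (φ X) ≤ 0) ∨
      ∃ X, ((univ : Finset A).filter fun a => ∃ i, cnt τ ω X i = code a).card ≤ d + 6 * j + 1 ∧
        0 < inner ℝ v (φ X) := by
  by_contra hcon
  push Not at hcon
  choose w hw1 hw2 hw3 hw4 using hcon
  have hR0 : 0 < R := by linarith
  have hT1 : 1 ≤ T := by
    by_contra h
    have h0 : T = 0 := by omega
    rw [h0, Nat.cast_zero, zero_pow (Nat.succ_ne_zero d)] at hT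
    have : 0 ≤ 400 * 9 ^ j * R ^ 2 := by positivity
    linarith
  have hT0 : (0 : ℝ) < T := by exact_mod_cast hT1
  have hnb : 0 < (nonb code).card := by
    have := nonb_card code hc
    have : 0 < 2 ^ b := by positivity
    omega
  set p := Fintype.card (I × Fin b) with hp
  set n0 : ℝ := 2 ^ (p * T) with hn0
  have hn00 : 0 < n0 := by positivity
  set β : ℝ := Fintype.card A * (1 - 1 / 2 ^ b) ^ Fintype.card I with hβ
  have h2b : (1 : ℝ) ≤ 2 ^ b := one_le_pow₀ (by norm_num)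
  have hβ0 : 0 ≤ β := by
    apply mul_nonneg (Nat.cast_nonneg _)
    apply pow_nonneg
    rw [sub_nonneg, div_le_one (by positivity)]
    exact h2b
  have h3j : (1 : ℝ) ≤ 3 ^ j := one_le_pow₀ (by norm_num)
  have hβR : β * (8 * R) ≤ 1 := by
    have h1 : β * (8 * R) ≤ 8 * 3 ^ j * R * β := by
      calc β * (8 * R) = 8 * 1 * R * β := by ring
        _ ≤ 8 * 3 ^ j * R * β := by gcongr
    linarith
  have hcard : (Fintype.card ((I × Fin b) × Fin T → Bool) : ℝ) = n0 := by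
    rw [Fintype.card_fun, Fintype.card_bool, Fintype.card_prod, Fintype.card_fin]
    push_cast
    rfl
  have hcard2 : (Fintype.card (I → Fin T) : ℝ) = (T : ℝ) ^ Fintype.card I := by
    rw [Fintype.card_fun, Fintype.card_fin]
    push_cast
    rfl
  have hcard3 : (Fintype.card (I × Fin b → Bool) : ℝ) = (2 : ℝ) ^ p := by
    rw [Fintype.card_fun, Fintype.card_bool]
    push_cast
    rfl
  have hbad : ∀ (τ : I → Fin T) (ω : I × Fin b → Bool),
      (((univ : Finset ((I × Fin b) × Fin T → Bool)).filter fun X =>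
        ¬ ∀ a, ∃ i, cnt τ ω X i = code a).card : ℝ) ≤ β * n0 :=
    fun τ ω => card_miss code hc hnb τ ω
  have hval : ∀ τ ω X, |inner ℝ (w τ ω) (φ X)| ≤ R := by
    intro τ ω X
    calc |inner ℝ (w τ ω) (φ X)| ≤ ‖w τ ω‖ * ‖φ X‖ := abs_real_inner_le_norm _ _
      _ ≤ R * 1 := mul_le_mul (hw1 τ ω) (hφ X) (norm_nonneg _) hR0.le
      _ = R := mul_one R
  -- the mass
  have hmass : ∀ τ ω, n0 / 2 ≤ ∑ X, inner ℝ (w τ ω) (φ X) := by
    intro τ ω
    have h2 : n0 - (1 + R) * (((univ : Finset ((I × Fin b) × Fin T → Bool)).filter fun X =>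
        ¬ ∀ a, ∃ i, cnt τ ω X i = code a).card : ℝ) ≤ ∑ X, inner ℝ (w τ ω) (φ X) := by
      rw [← sum_boole, mul_sum, ← hcard, ← card_univ, ← nsmul_one, ← sum_const,
        ← sum_sub_distrib]
      refine sum_le_sum fun X _ => ?_
      by_cases h : ∀ a, ∃ i, cnt τ ω X i = code a
      · rw [if_neg (not_not.2 h), mul_zero, sub_zero]
        exact hw2 τ ω X (hw3 τ ω X h)
      · rw [if_pos h]
        have := (abs_le.1 (hval τ ω X)).1
        linarith
    have h3 := hbad τ ω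
    have h4 : (1 + R) * (((univ : Finset ((I × Fin b) × Fin T → Bool)).filter fun X =>
        ¬ ∀ a, ∃ i, cnt τ ω X i = code a).card : ℝ) ≤ (2 * R) * (β * n0) := by
      gcongr
      linarith
    have h5 : (2 * R) * (β * n0) ≤ 1 / 4 * n0 := by
      calc (2 * R) * (β * n0) = 1 / 4 * (β * (8 * R)) * n0 := by ring
        _ ≤ 1 / 4 * 1 * n0 := by gcongr
        _ = 1 / 4 * n0 := by ring
    linarith
  have hφ3 : ∑ X, ‖φ X‖ ^ 2 ≤ n0 := by
    calc ∑ X, ‖φ X‖ ^ 2 ≤ ∑ _X : (I × Fin b) × Fin T → Bool, (1 : ℝ) :=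
          sum_le_sum fun X _ => by
            have := hφ X
            have h0 := norm_nonneg (φ X)
            nlinarith
      _ = n0 := by rw [sum_const, card_univ, nsmul_eq_mul, mul_one, hcard]
  set G := avgI Prod.fst φ w with hG
  have hH := highI Prod.fst d hT1 φ w R n0 hφ3 hw1
  set D1 := ∑ S ∈ univ.filter fun S : Finset (I × Fin b) => d < (S.image Prod.fst).card,
    |four G S| with hD1
  have hD1n : 0 ≤ D1 := sum_nonneg fun S _ => abs_nonneg _
  set D := D1 / 2 ^ p with hD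
  have hDn : 0 ≤ D := by positivity
  set Z : ℝ := (T : ℝ) ^ Fintype.card I * n0 with hZ
  have hZ0 : 0 < Z := by positivity
  have hDZ : D ^ 2 * (T : ℝ) ^ (d + 1) ≤ R ^ 2 * Z ^ 2 := by
    rw [hD, div_pow, div_mul_eq_mul_div, div_le_iff₀ (by positivity)]
    calc D1 ^ 2 * (T : ℝ) ^ (d + 1) ≤
          R ^ 2 * (2 ^ p * (T : ℝ) ^ Fintype.card I) ^ 2 * (2 ^ (p * T) * n0) := hH
      _ = R ^ 2 * Z ^ 2 * (2 ^ p) ^ 2 := by rw [hZ, hn0]; ring
  -- the sign of the average
  have hGval : ∀ Y, G Y = ∑ τ : I → Fin T, ∑ X : (I × Fin b) × Fin T → Bool,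
      inner ℝ (w τ (eqv (alive (τ ∘ Prod.fst) X) Y)) (φ X) := fun Y => rfl
  have hpos : ∀ y : I → Fin b → Bool, (∀ a, ∃ i, y i = code a) → 0 ≤ G (un y) := by
    intro y hy
    rw [hGval]
    refine sum_nonneg fun τ _ => sum_nonneg fun X _ => ?_
    apply le_of_lt
    apply hw3
    rw [cnt_eqv]
    exact hy
  have hneg : ∀ y : I → Fin b → Bool,
      ((univ : Finset A).filter fun a => ∃ i, y i = code a).card ≤ d + 6 * j + 1 →
      G (un y) ≤ 0 := by
    intro y hy
    rw [hGval]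
    refine sum_nonpos fun τ _ => sum_nonpos fun X _ => ?_
    apply hw4
    rw [cnt_eqv]
    exact hy
  have hUG : ∀ Y, -(R * Z) ≤ G Y := by
    intro Y
    rw [hGval]
    calc -(R * Z) = ∑ _τ : I → Fin T, ∑ _X : (I × Fin b) × Fin T → Bool, -R := by
          rw [sum_const, sum_const, card_univ, card_univ, nsmul_eq_mul, nsmul_eq_mul, hcard,
            hcard2, hZ]
          ring
      _ ≤ _ := by
          refine sum_le_sum fun τ _ => sum_le_sum fun X _ => ?_
          exact (abs_le.1 (hval τ (eqv (alive (τ ∘ Prod.fst) X) Y) X)).1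
  -- the bound for the average
  have hav := sym_bound hd hq hA code hc hM1 hM2 G (R * Z) (by positivity) hUG hneg hpos D
    (by rw [hD, hD1])
  have hexp : (1 + 1 / (q : ℝ)) ^ Fintype.card A ≤ 3 ^ j := by
    have hq0 : (0 : ℝ) < q := by exact_mod_cast hq
    calc (1 + 1 / (q : ℝ)) ^ Fintype.card A ≤ (1 + 1 / (q : ℝ)) ^ (j * q) := by
          apply pow_le_pow_right₀ _ hA
          have : 0 ≤ 1 / (q : ℝ) := by positivity
          linarith
      _ ≤ (Real.exp (1 / q)) ^ (j * q) := by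
          apply pow_le_pow_left₀ (by positivity)
          rw [add_comm]
          exact Real.add_one_le_exp _
      _ = Real.exp 1 ^ j := by
          rw [← Real.exp_nat_mul, ← Real.exp_nat_mul]
          congr 1
          push_cast
          field_simp
      _ ≤ 3 ^ j := by
          apply pow_le_pow_left₀ (Real.exp_nonneg _)
          have := Real.exp_one_lt_d9
          linarith
  have hlo : Z / 2 ≤ (∑ Y, G Y) / 2 ^ p := by
    have h1 : ∑ Y, G Y = ∑ τ : I → Fin T, ∑ ω : I × Fin b → Bool,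
        ∑ X, inner ℝ (w τ ω) (φ X) := by
      rw [sum_congr rfl fun Y _ => hGval Y, sum_comm]
      refine sum_congr rfl fun τ _ => ?_
      rw [sum_comm]
      have h2 : ∀ X : (I × Fin b) × Fin T → Bool,
          ∑ Y, inner ℝ (w τ (eqv (alive (τ ∘ Prod.fst) X) Y)) (φ X) =
          ∑ ω, inner ℝ (w τ ω) (φ X) := by
        intro X
        exact Equiv.sum_comp (eqvPerm (alive (τ ∘ Prod.fst) X))
          (fun ω => inner ℝ (w τ ω) (φ X))
      rw [sum_congr rfl fun X _ => h2 X, sum_comm]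
    rw [h1, le_div_iff₀ (by positivity)]
    calc Z / 2 * 2 ^ p = ∑ _τ : I → Fin T, ∑ _ω : I × Fin b → Bool, n0 / 2 := by
          rw [sum_const, sum_const, card_univ, card_univ, nsmul_eq_mul, nsmul_eq_mul, hcard2,
            hcard3, hZ]
          ring
      _ ≤ _ := sum_le_sum fun τ _ => sum_le_sum fun ω _ => hmass τ ω
  -- the contradiction
  have hUβ : 2 * 3 ^ j * (R * Z * β) ≤ Z / 4 := by
    calc 2 * 3 ^ j * (R * Z * β) = (8 * 3 ^ j * R * β) * (Z / 4) := by ring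
      _ ≤ 1 * (Z / 4) := by gcongr
      _ = Z / 4 := one_mul _
  have hmain : Z / 4 ≤ 5 * 3 ^ j * D := by
    have h1 : 2 * (1 + 1 / (q : ℝ)) ^ Fintype.card A * (2 * D + R * Z * β) + D ≤
        2 * 3 ^ j * (2 * D + R * Z * β) + D := by
      have : 0 ≤ 2 * D + R * Z * β := by positivity
      gcongr
    have h3 : D ≤ 3 ^ j * D := le_mul_of_one_le_left hDn h3j
    have h4 := hlo.trans (hav.trans h1)
    linarith
  have hZD : Z ≤ 20 * 3 ^ j * D := by linarith
  have h1 : Z ^ 2 * (T : ℝ) ^ (d + 1) ≤ 400 * 9 ^ j * R ^ 2 * Z ^ 2 := by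
    have h9 : (9 : ℝ) ^ j = 3 ^ j * 3 ^ j := by
      rw [← mul_pow]
      norm_num
    calc Z ^ 2 * (T : ℝ) ^ (d + 1) ≤ (20 * 3 ^ j * D) ^ 2 * (T : ℝ) ^ (d + 1) := by
          gcongr
      _ = 400 * (3 ^ j * 3 ^ j) * (D ^ 2 * (T : ℝ) ^ (d + 1)) := by ring
      _ ≤ 400 * (3 ^ j * 3 ^ j) * (R ^ 2 * Z ^ 2) := by gcongr
      _ = 400 * 9 ^ j * R ^ 2 * Z ^ 2 := by rw [h9]; ring
  have h2 : 0 < Z ^ 2 := by positivity
  have h3 : (T : ℝ) ^ (d + 1) ≤ 400 * 9 ^ j * R ^ 2 := by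
    apply le_of_mul_le_mul_right _ h2
    linarith
  linarith

end Sym

end Pool.Agent.THR72.FS
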