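import Pool.Agent.THR72.FeatO
import Pool.Agent.THR72.FeatH
import Pool.Agent.THR72.FeatM

/-!
# Online learners that predict with thresholds in a feature space of small dimension or norm
-/

namespace Pool.Agent.THR72

open Finset

/-- The features `φ` lie in a space of dimension at most `s`, or they have norm at most one, the
positive values of the threshold functions are at least one, and the weights have norm at most `s`
as long as the learner has made at most `2 * b` mistakes. -/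
def Small {E : Type*} [NormedAddCommGroup E] [InnerProductSpace ℝ E] {n : ℕ} (s b : ℝ)
    (φ : (Fin n → Bool) → E) (w : List (Ex n) → E) : Prop :=
  (FiniteDimensional ℝ E ∧ (Module.finrank ℝ E : ℝ) ≤ s) ∨
    ((∀ x, ‖φ x‖ ≤ 1) ∧ Margin φ w ∧ ∀ H, (kErr φ w H : ℝ) ≤ 2 * b → ‖w H‖ ≤ s)

namespace FS

section

variable {E : Type*} [NormedAddCommGroup E] [InnerProductSpace ℝ E] {n : ℕ}

lemma Small.mono {s s' b : ℝ} {φ : (Fin n → Bool) → E} {w : List (Ex n) → E}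
    (h : Small s b φ w) (hs : s ≤ s') : Small s' b φ w := by
  rcases h with ⟨h1, h2⟩ | ⟨h1, h2, h3⟩
  · exact Or.inl ⟨h1, h2.trans hs⟩
  · exact Or.inr ⟨h1, h2, fun H hH => (h3 H hH).trans hs⟩

/-- **The explicit bound for vectors with margin one, with symbols.** -/
theorem margin_k_sym {d q b T l k M : ℕ} (hd : 1 ≤ d) (hq : 1 ≤ q) (R : ℝ) (hR : 1 ≤ R)
    (hb : 272 * d ^ 3 * q ≤ 2 ^ b) (hT : 400 * 9 ^ d * R ^ 2 < (T : ℝ) ^ (d + 1))
    (hl : 8 * 3 ^ d * R * (d * q) ≤ Real.exp l) (hk : 2 ^ b * l ≤ k)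
    (hn : T * (2 ^ b * l) * 2 ^ b + k ≤ n) (φ : (Fin n → Bool) → E) (hφ : ∀ x, ‖φ x‖ ≤ 1)
    (w : List (Ex n) → E) (hmar : Margin φ w) (hw : ∀ H, kErr φ w H < M → ‖w H‖ ≤ R) :
    ∃ S : List (Ex n), M ≤ kErr φ w S ∧ rDisj S = k ∧ q * mDisj S ≤ 8 * M := by
  classical
  have hdq : 0 < d * q := Nat.mul_pos hd hq
  have : Nonempty (Fin (d * q)) := ⟨⟨0, hdq⟩⟩
  have hd3 : d ≤ d ^ 3 := Nat.le_self_pow (by norm_num) d
  have h1 : 2 * Fintype.card (Fin (d * q)) ≤ 2 ^ b := by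
    rw [Fintype.card_fin]
    refine le_trans ?_ hb
    calc 2 * (d * q) = 2 * d * q := by ring
      _ ≤ 272 * d ^ 3 * q := by
        apply Nat.mul_le_mul_right
        linarith
  have h2 : 2 * ((d + 6 * d + 1) * ((8 * (q + 1) + 1) * d ^ 2)) ≤ 2 ^ b := by
    refine le_trans ?_ hb
    calc 2 * ((d + 6 * d + 1) * ((8 * (q + 1) + 1) * d ^ 2)) ≤
          2 * ((8 * d) * ((17 * q) * d ^ 2)) := by
          gcongr
          · omega
          · omega
      _ = 272 * d ^ 3 * q := by ring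
  obtain ⟨e⟩ : Nonempty (Fin (d * q) ↪ (Fin b → Bool)) := by
    apply Function.Embedding.nonempty_of_card_le
    rw [Fintype.card_fin] at h1
    rw [Fintype.card_fun, Fintype.card_bool, Fintype.card_fin, Fintype.card_fin]
    exact (Nat.le_mul_of_pos_left _ (by norm_num)).trans h1
  have h2b : (0 : ℝ) < 2 ^ b := by positivity
  have h3 : 8 * 3 ^ d * R *
      (Fintype.card (Fin (d * q)) * (1 - 1 / 2 ^ b) ^ (2 ^ b * l)) ≤ 1 := by
    rw [Fintype.card_fin]
    have e1 : (1 - 1 / (2 : ℝ) ^ b) ^ (2 ^ b * l) ≤ Real.exp (-l) := by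
      calc (1 - 1 / (2 : ℝ) ^ b) ^ (2 ^ b * l) ≤ Real.exp (-(1 / 2 ^ b)) ^ (2 ^ b * l) := by
            apply pow_le_pow_left₀
            · rw [sub_nonneg, div_le_one h2b]
              exact one_le_pow₀ (by norm_num)
            · have := Real.add_one_le_exp (-(1 / (2 : ℝ) ^ b))
              linarith
        _ = Real.exp (-l) := by
            rw [← Real.exp_nat_mul]
            congr 1
            push_cast
            field_simp
    have e2 : Real.exp (-l) = 1 / Real.exp l := by rw [Real.exp_neg, one_div]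
    calc 8 * 3 ^ d * R * (((d * q : ℕ) : ℝ) * (1 - 1 / 2 ^ b) ^ (2 ^ b * l))
        ≤ 8 * 3 ^ d * R * (((d * q : ℕ) : ℝ) * Real.exp (-l)) := by gcongr
      _ = 8 * 3 ^ d * R * (d * q) / Real.exp l := by
          rw [e2]
          push_cast
          ring
      _ ≤ 1 := by
          rw [div_le_one (Real.exp_pos _)]
          exact hl
  obtain ⟨ι, Pad, hPad, hPk⟩ := exists_var (n := n) (s := 2 ^ b * l) (T := T) (b := b) hk (by
      refine le_trans ?_ hn
      have : T * (2 ^ b * l) * 2 ^ b = 2 ^ b * l * T * 2 ^ b := by ring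
      omega)
  obtain ⟨τ, ω, hcode⟩ := exists_code_sym_margin (I := Fin (2 ^ b * l)) (T := T)
    (A := Fin (d * q)) (j := d) hd hq (by rw [Fintype.card_fin]) e e.injective h1 h2
    (fun X => φ (xin ι X)) (fun X => hφ _) R hR hT
    (by rw [Fintype.card_fin (2 ^ b * l)]; exact h3)
  set w' : List (Ex n) → E := fun H => if kErr φ w H < M then w H else 0 with hw'
  obtain ⟨S, hS1, hS2, hS3⟩ := core_sym (A := Fin (d * q)) ι Pad hPad hPk e τ ω φ w'
    (B := d + 6 * d + 1) (fun H => by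
      have h4 : ‖w' H‖ ≤ R := by
        rw [hw']
        by_cases h : kErr φ w H < M
        · simp only [if_pos h]
          exact hw H h
        · simp only [if_neg h, norm_zero]
          linarith
      have h5 : ∀ X, 0 < inner ℝ (w' H) (φ (xin ι X)) → 1 ≤ inner ℝ (w' H) (φ (xin ι X)) := by
        intro X hX
        by_cases h : kErr φ w H < M
        · have h6 : w' H = w H := if_pos h
          rw [h6] at hX ⊢
          exact hmar H _ hX
        · have h6 : w' H = 0 := if_neg h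
          rw [h6, inner_zero_left] at hX
          exact absurd hX (lt_irrefl _)
      rcases hcode (w' H) h4 h5 with ⟨X, h6, h7⟩ | ⟨X, h6, h7⟩
      · exact Or.inl ⟨X, h6, h7⟩
      · exact Or.inr ⟨X, by convert h6, h7⟩) M
  refine ⟨S, ?_, hS2, ?_⟩
  · by_contra h4
    rw [not_le] at h4
    have h5 := trunc φ w w' M (fun H hH => if_pos hH) S h4
    omega
  · rw [Fintype.card_fin] at hS3
    have h4 : d * (q * mDisj S) ≤ d * (8 * M) := by
      calc d * (q * mDisj S) = d * q * mDisj S := by ring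
        _ ≤ (d + 6 * d + 1) * M := hS3
        _ ≤ (8 * d) * M := by
            apply Nat.mul_le_mul_right
            omega
        _ = d * (8 * M) := by ring
    exact Nat.le_of_mul_le_mul_left h4 hd

lemma fin_of {q m M e : ℕ} {b : ℝ} (h1 : 4 * (q * m) ≤ M) (h2 : M ≤ e) (h3 : 2 * b < M) :
    (q : ℝ) * m + b < e := by
  have h4 : 4 * ((q : ℝ) * m) ≤ M := by exact_mod_cast h1
  have h5 : (M : ℝ) ≤ e := by exact_mod_cast h2
  have h6 : (0 : ℝ) ≤ M := Nat.cast_nonneg M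
  rcases h6.eq_or_lt with h7 | h7
  · rw [← h7] at h3 h4
    linarith
  · linarith

end

/-- **The trade-off in terms of `r`.** -/
theorem trade_r : ∃ C : ℕ, 1 ≤ C ∧ ∀ n k q d : ℕ, 1 ≤ q → 1 ≤ d → q ≤ 2 ^ d →
    C * (q * d ^ 4) ≤ k → C * (q ^ 2 * d ^ 7 + k) ≤ n →
    ∀ (E : Type) [NormedAddCommGroup E] [InnerProductSpace ℝ E] (φ : (Fin n → Bool) → E)
      (w : List (Ex n) → E) (b : ℝ), 0 ≤ b → Small (2 ^ d) b φ w →
      ∃ S : List (Ex n), rDisj S = k ∧ q * mDisj S + b < kErr φ w S := by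
  refine ⟨57600 * 17408 ^ 2 * 15, by norm_num,
    fun n k q d hq hd hqd hk hn E _ _ φ w b hb hsm => ?_⟩
  set M := ⌊2 * b⌋₊ + 1 with hM
  have hMb : 2 * b < M := by
    rw [hM]
    push_cast
    exact Nat.lt_floor_add_one _
  obtain ⟨B, hB1, hB2⟩ := exists_pow_two (272 * d ^ 3 * (32 * q)) (by
    have : 0 < 272 * d ^ 3 * (32 * q) := by positivity
    omega)
  have hB3 : 2 ^ B ≤ 17408 * d ^ 3 * q := by
    calc 2 ^ B ≤ 2 * (272 * d ^ 3 * (32 * q)) := hB2
      _ = 17408 * d ^ 3 * q := by ring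
  have hq32 : 1 ≤ 32 * q := by omega
  have hT : 1600 * 9 ^ d * ((2 : ℝ) ^ d) ^ 2 < (57600 : ℝ) ^ (d + 1) := by
    have h1 : (9 : ℝ) ^ d * ((2 : ℝ) ^ d) ^ 2 = 36 ^ d := by
      rw [← pow_mul, mul_comm d 2, pow_mul, ← mul_pow]
      norm_num
    have h2 : (36 : ℝ) ^ d ≤ 57600 ^ d := pow_le_pow_left₀ (by norm_num) (by norm_num) d
    have h3 : (0 : ℝ) < 57600 ^ d := by positivity
    calc 1600 * 9 ^ d * ((2 : ℝ) ^ d) ^ 2 = 1600 * 36 ^ d := by rw [mul_assoc, h1]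
      _ ≤ 1600 * 57600 ^ d := by gcongr
      _ < 57600 * 57600 ^ d := by linarith
      _ = 57600 ^ (d + 1) := by ring
  have hl : 32 * 3 ^ d * (2 : ℝ) ^ d * (d * (32 * q)) ≤ Real.exp (15 * d) := by
    have h0 : (d : ℝ) ≤ 2 ^ d := by exact_mod_cast Nat.lt_two_pow_self.le
    have h1 : (32 : ℝ) * q ≤ 32 * 2 ^ d := by
      have : (q : ℝ) ≤ 2 ^ d := by exact_mod_cast hqd
      linarith
    have h2 : (3 : ℝ) ^ d ≤ 4 ^ d := pow_le_pow_left₀ (by norm_num) (by norm_num) d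
    have h3 : (4 : ℝ) ^ d = 2 ^ d * 2 ^ d := by
      rw [← mul_pow]
      norm_num
    have h4 : (2 : ℝ) ≤ Real.exp 1 := by
      have := Real.add_one_le_exp (1 : ℝ)
      linarith
    have h5 : (1024 : ℝ) ≤ (2 ^ d) ^ 10 := by
      have : (2 : ℝ) ≤ 2 ^ d := by
        calc (2 : ℝ) = 2 ^ 1 := (pow_one _).symm
          _ ≤ 2 ^ d := pow_le_pow_right₀ (by norm_num) hd
      calc (1024 : ℝ) = 2 ^ 10 := by norm_num
        _ ≤ (2 ^ d) ^ 10 := by gcongr
    calc 32 * 3 ^ d * (2 : ℝ) ^ d * (d * (32 * q)) ≤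
          32 * (2 ^ d * 2 ^ d) * (2 : ℝ) ^ d * (2 ^ d * (32 * 2 ^ d)) := by
          rw [← h3]
          gcongr
      _ = 1024 * (2 ^ d) ^ 5 := by ring
      _ ≤ (2 ^ d) ^ 10 * (2 ^ d) ^ 5 := by gcongr
      _ = 2 ^ (15 * d) := by
          rw [← pow_add, ← pow_mul]
          congr 1
          ring
      _ ≤ Real.exp 1 ^ (15 * d) := pow_le_pow_left₀ (by norm_num) h4 _
      _ = Real.exp (15 * d) := by
          rw [← Real.exp_nat_mul]
          congr 1
          push_cast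
          ring
  have hkk : 2 ^ B * (15 * d) ≤ k := by
    refine le_trans ?_ hk
    calc 2 ^ B * (15 * d) ≤ 17408 * d ^ 3 * q * (15 * d) := by gcongr
      _ = 261120 * (q * d ^ 4) := by ring
      _ ≤ 57600 * 17408 ^ 2 * 15 * (q * d ^ 4) := by
          apply Nat.mul_le_mul_right
          norm_num
  have hroom : 57600 * (2 ^ B * (15 * d)) * 2 ^ B + k ≤ n := by
    refine le_trans ?_ hn
    calc 57600 * (2 ^ B * (15 * d)) * 2 ^ B + k
        ≤ 57600 * (17408 * d ^ 3 * q * (15 * d)) * (17408 * d ^ 3 * q) + k := by gcongr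
      _ = 57600 * 17408 ^ 2 * 15 * (q ^ 2 * d ^ 7) + 1 * k := by ring
      _ ≤ 57600 * 17408 ^ 2 * 15 * (q ^ 2 * d ^ 7) + 57600 * 17408 ^ 2 * 15 * k := by
          gcongr
          norm_num
      _ = 57600 * 17408 ^ 2 * 15 * (q ^ 2 * d ^ 7 + k) := by ring
  have key : ∃ S : List (Ex n), M ≤ kErr φ w S ∧ rDisj S = k ∧ 32 * q * mDisj S ≤ 8 * M := by
    rcases hsm with ⟨h1, h2⟩ | ⟨h1, h2, h3⟩
    · exact dim_k_sym (n := n) (b := B) (T := 57600) (l := 15 * d) (k := k) (q := 32 * q)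
        (N := 2 ^ d) hd hq32 Nat.one_le_two_pow (by exact_mod_cast h2) hB1
        (by push_cast; exact hT) (by push_cast; exact hl) hkk hroom φ w M
    · apply margin_k_sym (n := n) (b := B) (T := 57600) (l := 15 * d) (k := k) (q := 32 * q)
        hd hq32 (2 ^ d) (one_le_pow₀ (by norm_num)) hB1 _ _ hkk hroom φ h1 w h2
      · intro H hH
        apply h3
        exact (Nat.le_floor_iff (by positivity)).1 (show kErr φ w H ≤ ⌊2 * b⌋₊ by omega)
      · push_cast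
        refine lt_of_le_of_lt ?_ hT
        have : (0 : ℝ) ≤ 9 ^ d * ((2 : ℝ) ^ d) ^ 2 := by positivity
        linarith
      · push_cast
        refine le_trans ?_ hl
        have : (0 : ℝ) ≤ 3 ^ d * (2 : ℝ) ^ d * (d * (32 * q)) := by positivity
        linarith
  obtain ⟨S, hS1, hS2, hS3⟩ := key
  refine ⟨S, hS2, fin_of ?_ hS1 hMb⟩
  have : 8 * (4 * (q * mDisj S)) ≤ 8 * M := by
    calc 8 * (4 * (q * mDisj S)) = 32 * q * mDisj S := by ring
      _ ≤ _ := hS3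
  omega

/-- **The trade-off for small ratios.** -/
theorem trade_n : ∃ C : ℕ, 1 ≤ C ∧ ∀ n q d : ℕ, 1 ≤ q → 1 ≤ d → C * (q ^ 4 * d ^ 3) ≤ n →
    ∀ (E : Type) [NormedAddCommGroup E] [InnerProductSpace ℝ E] (φ : (Fin n → Bool) → E)
      (w : List (Ex n) → E) (b : ℝ), 0 ≤ b → Small (2 ^ d) b φ w →
      ∃ S : List (Ex n), q * mDisj S + b < kErr φ w S := by
  refine ⟨46379483136, by norm_num, fun n q d hq hd hn E _ _ φ w b hb hsm => ?_⟩
  set M := ⌊2 * b⌋₊ + 1 with hM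
  have hMb : 2 * b < M := by
    rw [hM]
    push_cast
    exact Nat.lt_floor_add_one _
  rcases hsm with ⟨h1, h2⟩ | ⟨h1, h2, h3⟩
  · -- small dimension
    have hQ : 1 ≤ 48 * q := by omega
    have hq49 : 16 * (48 * q + 1) ≤ 784 * q := by omega
    obtain ⟨S, hS1, _, hS3⟩ := dim_k (n := n) (q := 48 * q) (T := 4 * (784 * q) ^ 2)
      (k := (8 * (48 * q + 1) + 1) * d ^ 2) (N := 2 ^ d) hd hQ Nat.one_le_two_pow
      (by exact_mod_cast h2) (by
        calc 64 * (2 ^ d) ^ 2 * (16 * (48 * q + 1)) ^ (2 * d) ≤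
              64 * (2 ^ d) ^ 2 * (784 * q) ^ (2 * d) := by gcongr
          _ = 64 * (4 ^ d * (784 * q) ^ (2 * d)) := by
              rw [← pow_mul, mul_comm d 2, pow_mul 2 2 d]
              norm_num
              ring
          _ < (4 * (784 * q) ^ 2) * (4 ^ d * (784 * q) ^ (2 * d)) := by
              apply Nat.mul_lt_mul_of_pos_right
              · nlinarith
              · positivity
          _ = (4 * (784 * q) ^ 2) ^ (d + 1) := by
              rw [pow_succ (4 * (784 * q) ^ 2) d, mul_pow 4 ((784 * q) ^ 2) d, ← pow_mul]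
              ring) (by
        have e1 : d ≤ 2 ^ d := Nat.lt_two_pow_self.le
        have e2 : 48 * q ≤ 2 ^ (48 * q) := Nat.lt_two_pow_self.le
        calc d * (48 * q) * (8 * 2 ^ d) ≤ 2 ^ d * 2 ^ (48 * q) * (8 * 2 ^ d) := by gcongr
          _ = 2 ^ (d + 48 * q + 3 + d) := by
              rw [pow_add, pow_add, pow_add]
              ring
          _ ≤ 2 ^ ((8 * (48 * q + 1) + 1) * d ^ 2) := by
              apply Nat.pow_le_pow_right (by norm_num)
              have e3 : d ≤ d ^ 2 := by nlinarith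
              have e4 : 48 * q ≤ 48 * q * d ^ 2 := Nat.le_mul_of_pos_right _ (by positivity)
              nlinarith) le_rfl (by
        refine le_trans ?_ hn
        calc 4 * (784 * q) ^ 2 * (d * (48 * q) * ((8 * (48 * q + 1) + 1) * d ^ 2))
            ≤ 4 * (784 * q) ^ 2 * (d * (48 * q) * ((393 * q) * d ^ 2)) := by
              gcongr
              omega
          _ = 46379483136 * (q ^ 4 * d ^ 3) := by ring) φ w M
    refine ⟨S, fin_of ?_ hS1 hMb⟩
    have : 12 * (4 * (q * mDisj S)) ≤ 12 * M := by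
      calc 12 * (4 * (q * mDisj S)) = 48 * q * mDisj S := by ring
        _ ≤ _ := hS3
    omega
  · -- small norm
    obtain ⟨S, hS1, _, hS3⟩ := margin_k (n := n) (d := d) (k := 228 * q * d ^ 2) (m := 5) (M := M)
      hd (by
        calc 60 * d ^ 2 ≤ 228 * q * d ^ 2 := by
              gcongr
              omega) (by
        have e1 : 259920 * (q ^ 2 * d ^ 3) ≤ 4 * n := by
          have e2 : q ^ 2 * d ^ 3 ≤ q ^ 4 * d ^ 3 :=
            Nat.mul_le_mul_right _ (Nat.pow_le_pow_right hq (by norm_num))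
          omega
        calc 5 * (228 * q * d ^ 2) ^ 2 = 259920 * (q ^ 2 * d ^ 3) * d := by ring
          _ ≤ 4 * n * d := by gcongr
          _ = 4 * d * n := by ring) (2 ^ d) (by
        have e1 : ((2 : ℝ) ^ d) ^ 2 = 4 ^ d := by
          rw [← pow_mul, mul_comm, pow_mul]
          norm_num
        have e2 : (4 : ℝ) ^ d ≤ 5 ^ d := pow_le_pow_left₀ (by norm_num) (by norm_num) d
        have e3 : (0 : ℝ) < 5 ^ d := by positivity
        push_cast
        rw [e1, pow_succ]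
        linarith) φ h1 w h2 (by
        intro H hH
        apply h3
        exact (Nat.le_floor_iff (by positivity)).1 (show kErr φ w H ≤ ⌊2 * b⌋₊ by omega))
    refine ⟨S, fin_of ?_ hS1 hMb⟩
    have hd2 : 0 < 57 * d ^ 2 := by positivity
    apply Nat.le_of_mul_le_mul_left _ hd2
    calc 57 * d ^ 2 * (4 * (q * mDisj S)) = 228 * q * d ^ 2 * mDisj S := by ring
      _ ≤ 57 * d ^ 2 * M := hS3

/-- **Ratios which are powers of `n`.** -/
theorem small_exp (a : ℝ) (ha0 : 0 ≤ a) (ha : a < 1 / 2) : ∃ δ : ℝ, 0 < δ ∧ ∃ n₀ : ℕ, ∀ n : ℕ,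
    n₀ ≤ n → ∀ (E : Type) [NormedAddCommGroup E] [InnerProductSpace ℝ E]
      (φ : (Fin n → Bool) → E) (w : List (Ex n) → E) (b : ℝ), 0 ≤ b →
      Small (2 ^ (n : ℝ) ^ δ) b φ w →
      ∃ S : List (Ex n), (n : ℝ) ^ a * mDisj S + b < kErr φ w S := by
  obtain ⟨C, hC, htr⟩ := trade_r
  have hCr : (1 : ℝ) ≤ C := by exact_mod_cast hC
  set δ : ℝ := (1 - 2 * a) / 16 with hδ
  have hδ0 : 0 < δ := by
    rw [hδ]
    linarith
  have hlim1 : ∀ᶠ n : ℕ in Filter.atTop, (1024 * (C : ℝ) ^ 2 : ℝ) ≤ (n : ℝ) ^ (9 * δ) :=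
    ((tendsto_rpow_atTop (by linarith)).comp tendsto_natCast_atTop_atTop).eventually_ge_atTop _
  have hlim2 : ∀ᶠ n : ℕ in Filter.atTop, 4 * Real.log n ≤ (n : ℝ) ^ δ := by
    have h1 := (isLittleO_log_rpow_atTop hδ0).def (c := 1 / 4) (by positivity)
    have h2 := tendsto_natCast_atTop_atTop.eventually h1
    filter_upwards [h2, Filter.eventually_ge_atTop 1] with n hn hn1
    have hn1' : (1 : ℝ) ≤ n := by exact_mod_cast hn1
    rw [Real.norm_eq_abs, Real.norm_eq_abs, abs_of_nonneg (Real.log_nonneg hn1'),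
      abs_of_nonneg (by positivity)] at hn
    linarith
  obtain ⟨n₁, hn₁⟩ := Filter.eventually_atTop.1 (hlim1.and hlim2)
  refine ⟨δ, hδ0, max n₁ 3, fun n hn E _ _ φ w b hb hsm => ?_⟩
  obtain ⟨h1, h2⟩ := hn₁ n ((le_max_left _ _).trans hn)
  have hn3 : (3 : ℝ) ≤ n := by exact_mod_cast (le_max_right _ _).trans hn
  have hn1 : (1 : ℝ) ≤ n := by linarith
  have hn0 : (0 : ℝ) < n := by linarith
  have hlog : 1 ≤ Real.log n := by
    rw [← Real.log_exp 1]
    apply Real.log_le_log (Real.exp_pos 1)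
    have := Real.exp_one_lt_d9
    linarith
  have hnδ : 1 ≤ (n : ℝ) ^ δ := Real.one_le_rpow hn1 hδ0.le
  have hna : 1 ≤ (n : ℝ) ^ a := Real.one_le_rpow hn1 ha0
  set d := ⌈(n : ℝ) ^ δ⌉₊ with hd
  set q := ⌈(n : ℝ) ^ a⌉₊ with hq
  have hd1 : (n : ℝ) ^ δ ≤ d := Nat.le_ceil _
  have hq1 : (n : ℝ) ^ a ≤ q := Nat.le_ceil _
  have hd2 : (d : ℝ) ≤ 2 * (n : ℝ) ^ δ := by
    have := Nat.ceil_lt_add_one (show (0 : ℝ) ≤ (n : ℝ) ^ δ by positivity)
    rw [← hd] at this
    linarith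
  have hq2 : (q : ℝ) ≤ 2 * (n : ℝ) ^ a := by
    have := Nat.ceil_lt_add_one (show (0 : ℝ) ≤ (n : ℝ) ^ a by positivity)
    rw [← hq] at this
    linarith
  have hd0 : 1 ≤ d := Nat.ceil_pos.2 (by linarith)
  have hq0 : 1 ≤ q := Nat.ceil_pos.2 (by linarith)
  have hqd : q ≤ 2 ^ d := by
    have e1 : (q : ℝ) ≤ 2 ^ (d : ℝ) := by
      have e2 : (q : ℝ) ≤ n ^ 2 := by
        calc (q : ℝ) ≤ 2 * (n : ℝ) ^ a := hq2
          _ ≤ 2 * (n : ℝ) ^ (1 : ℝ) := by
              gcongr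
              linarith
          _ = 2 * n := by rw [Real.rpow_one]
          _ ≤ n ^ 2 := by nlinarith
      have e3 : (n : ℝ) ^ 2 = Real.exp (2 * Real.log n) := by
        rw [mul_comm, Real.exp_mul, Real.exp_log hn0]
        norm_num
      have e4 : Real.exp (1 / 2) ≤ 2 := by
        have h3 : Real.exp (1 / 2) * Real.exp (1 / 2) = Real.exp 1 := by
          rw [← Real.exp_add]
          norm_num
        have h4 := Real.exp_one_lt_d9
        nlinarith [Real.exp_pos (1 / 2 : ℝ)]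
      calc (q : ℝ) ≤ n ^ 2 := e2
        _ = Real.exp (2 * Real.log n) := e3
        _ ≤ Real.exp (1 / 2 * d) := by
            apply Real.exp_le_exp.2
            linarith
        _ = Real.exp (1 / 2) ^ (d : ℝ) := by rw [Real.exp_mul]
        _ ≤ 2 ^ (d : ℝ) := Real.rpow_le_rpow (Real.exp_pos _).le e4 (Nat.cast_nonneg _)
    rw [Real.rpow_natCast] at e1
    exact_mod_cast e1
  have hsm' : Small (2 ^ d) b φ w := by
    apply Small.mono hsm
    rw [← Real.rpow_natCast]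
    exact Real.rpow_le_rpow_of_exponent_le (by norm_num) hd1
  have hroom : C * (q ^ 2 * d ^ 7 + C * (q * d ^ 4)) ≤ n := by
    have e0 : C * (q * d ^ 4) ≤ C * (q ^ 2 * d ^ 7) := by
      apply Nat.mul_le_mul_left
      apply Nat.mul_le_mul
      · exact Nat.le_self_pow (by norm_num) q
      · exact Nat.pow_le_pow_right hd0 (by norm_num)
    have e1 : 2 * (C : ℝ) ^ 2 * ((q : ℝ) ^ 2 * (d : ℝ) ^ 7) ≤ n := by
      have e2 : ((n : ℝ) ^ a) ^ 2 * ((n : ℝ) ^ δ) ^ 7 * (n : ℝ) ^ (9 * δ) = n := by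
        rw [← Real.rpow_natCast, ← Real.rpow_natCast, ← Real.rpow_mul hn0.le,
          ← Real.rpow_mul hn0.le, ← Real.rpow_add hn0, ← Real.rpow_add hn0]
        have : a * ((2 : ℕ) : ℝ) + δ * ((7 : ℕ) : ℝ) + 9 * δ = 1 := by
          rw [hδ]
          push_cast
          ring
        rw [this, Real.rpow_one]
      calc 2 * (C : ℝ) ^ 2 * ((q : ℝ) ^ 2 * (d : ℝ) ^ 7) ≤
            2 * (C : ℝ) ^ 2 * ((2 * (n : ℝ) ^ a) ^ 2 * (2 * (n : ℝ) ^ δ) ^ 7) := by gcongr
        _ = ((n : ℝ) ^ a) ^ 2 * ((n : ℝ) ^ δ) ^ 7 * (1024 * (C : ℝ) ^ 2) := by ring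
        _ ≤ ((n : ℝ) ^ a) ^ 2 * ((n : ℝ) ^ δ) ^ 7 * (n : ℝ) ^ (9 * δ) := by gcongr
        _ = n := e2
    have e3 : 2 * C ^ 2 * (q ^ 2 * d ^ 7) ≤ n := by exact_mod_cast e1
    refine le_trans ?_ e3
    calc C * (q ^ 2 * d ^ 7 + C * (q * d ^ 4)) ≤
          C * (C * (q ^ 2 * d ^ 7) + C * (q ^ 2 * d ^ 7)) :=
          Nat.mul_le_mul_left _ (Nat.add_le_add (Nat.le_mul_of_pos_left _ hC) e0)
      _ = 2 * C ^ 2 * (q ^ 2 * d ^ 7) := by ring
  obtain ⟨S, _, hS⟩ := htr n (C * (q * d ^ 4)) q d hq0 hd0 hqd le_rfl hroom E φ w b hb hsm'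
  refine ⟨S, ?_⟩
  have h4 : (n : ℝ) ^ a * mDisj S ≤ q * mDisj S := by gcongr
  linarith

/-- **Constant ratios.** -/
theorem small_const (q : ℕ) : ∃ c : ℝ, 0 < c ∧ ∃ n₀ : ℕ, ∀ n : ℕ, n₀ ≤ n →
    ∀ (E : Type) [NormedAddCommGroup E] [InnerProductSpace ℝ E] (φ : (Fin n → Bool) → E)
      (w : List (Ex n) → E) (b : ℝ), 0 ≤ b → Small (2 ^ (c * (n : ℝ) ^ (1 / 3 : ℝ))) b φ w →
      ∃ S : List (Ex n), q * mDisj S + b < kErr φ w S := by
  obtain ⟨C₀, hC₀1, hC₀⟩ := trade_n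
  set Q := q + 1 with hQ
  set C : ℕ := C₀ * Q ^ 4 with hC
  have hC1 : 1 ≤ C := Nat.mul_pos hC₀1 (by positivity)
  have hCr : (1 : ℝ) ≤ C := by exact_mod_cast hC1
  set c : ℝ := 1 / (2 * C) with hc
  have hc0 : 0 < c := by positivity
  have hlim : ∀ᶠ n : ℕ in Filter.atTop, 1 / c ≤ (n : ℝ) ^ (1 / 3 : ℝ) :=
    ((tendsto_rpow_atTop (by norm_num)).comp tendsto_natCast_atTop_atTop).eventually_ge_atTop _
  obtain ⟨n₁, hn₁⟩ := Filter.eventually_atTop.1 hlim
  refine ⟨c, hc0, n₁, fun n hn E _ _ φ w b hb hsm => ?_⟩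
  have h1 := hn₁ n hn
  have hn0 : (0 : ℝ) ≤ n := Nat.cast_nonneg n
  have hx : 1 ≤ c * (n : ℝ) ^ (1 / 3 : ℝ) := by
    rw [div_le_iff₀ hc0] at h1
    linarith
  set d := ⌈c * (n : ℝ) ^ (1 / 3 : ℝ)⌉₊ with hd
  have hd1 : c * (n : ℝ) ^ (1 / 3 : ℝ) ≤ d := Nat.le_ceil _
  have hd2 : (d : ℝ) ≤ 2 * (c * (n : ℝ) ^ (1 / 3 : ℝ)) := by
    have := Nat.ceil_lt_add_one (show (0 : ℝ) ≤ c * (n : ℝ) ^ (1 / 3 : ℝ) by positivity)
    rw [← hd] at this
    linarith
  have hd0 : 1 ≤ d := Nat.ceil_pos.2 (by linarith)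
  have hsm' : Small (2 ^ d) b φ w := by
    apply Small.mono hsm
    rw [← Real.rpow_natCast]
    exact Real.rpow_le_rpow_of_exponent_le (by norm_num) hd1
  have hroom : C₀ * (Q ^ 4 * d ^ 3) ≤ n := by
    have e1 : (C : ℝ) * (d : ℝ) ^ 3 ≤ n := by
      have e2 : ((n : ℝ) ^ (1 / 3 : ℝ)) ^ 3 = n := by
        rw [← Real.rpow_natCast, ← Real.rpow_mul hn0]
        norm_num
      calc (C : ℝ) * (d : ℝ) ^ 3 ≤ C * (2 * (c * (n : ℝ) ^ (1 / 3 : ℝ))) ^ 3 := by gcongr
        _ = 1 / C ^ 2 * ((n : ℝ) ^ (1 / 3 : ℝ)) ^ 3 := by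
            rw [hc]
            field_simp
        _ = 1 / C ^ 2 * n := by rw [e2]
        _ ≤ 1 * n := by
            have : 1 / (C : ℝ) ^ 2 ≤ 1 := by
              rw [div_le_one (by positivity)]
              exact one_le_pow₀ hCr
            gcongr
        _ = n := one_mul _
    have e2 : C * d ^ 3 ≤ n := by exact_mod_cast e1
    refine le_trans (le_of_eq ?_) e2
    rw [hC]
    ring
  obtain ⟨S, hS⟩ := hC₀ n Q d (by omega) hd0 hroom E φ w b hb hsm'
  refine ⟨S, lt_of_le_of_lt ?_ hS⟩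
  have : (q : ℝ) * mDisj S ≤ (Q : ℝ) * mDisj S := by
    gcongr
    omega
  linarith

end FS

end Pool.Agent.THR72
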