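import Pool.Agent.THR72.FeatB

/-!
# The high part of an average over hidden codes, for positions with several bits
-/

namespace Pool.Agent.THR72.FS

open Finset

variable {P I : Type} [Fintype P] [DecidableEq P] [Fintype I] [DecidableEq I] {m : ℕ}

/-- The number of hidden places with given cells. -/
lemma card_fibI (π : P → I) (d : ℕ) (hm : 1 ≤ m) (R : Finset (P × Fin m)) :
    m ^ (d + 1) * ((univ : Finset ((I → Fin m) × Finset P)).filter fun z =>
      d < (z.2.image π).card ∧ cells (z.1 ∘ π) z.2 = R).card ≤ m ^ Fintype.card I := by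
  by_cases hne : ((univ : Finset ((I → Fin m) × Finset P)).filter fun z =>
      d < (z.2.image π).card ∧ cells (z.1 ∘ π) z.2 = R).Nonempty
  · obtain ⟨z₀, hz₀⟩ := hne
    rw [mem_filter] at hz₀
    have hsub : ((univ : Finset ((I → Fin m) × Finset P)).filter fun z =>
        d < (z.2.image π).card ∧ cells (z.1 ∘ π) z.2 = R) ⊆
        (univ.filter fun τ : I → Fin m => ∀ i ∈ z₀.2.image π, τ i = z₀.1 i) ×ˢ {z₀.2} := by
      intro z hz
      rw [mem_filter] at hz
      have h2 : z.2 = z₀.2 := by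
        rw [← cells_fst (z.1 ∘ π) z.2, ← cells_fst (z₀.1 ∘ π) z₀.2, hz.2.2, hz₀.2.2]
      rw [mem_product, mem_filter, mem_singleton]
      refine ⟨⟨mem_univ _, fun i hi => ?_⟩, h2⟩
      obtain ⟨v, hv, rfl⟩ := mem_image.1 hi
      have h3 : (v, (z₀.1 ∘ π) v) ∈ cells (z.1 ∘ π) z.2 := by
        rw [hz.2.2, ← hz₀.2.2, mem_cells]
        exact ⟨hv, rfl⟩
      exact ((mem_cells _ _ _).1 h3).2
    have h1 := card_le_card hsub
    rw [card_product, card_singleton, mul_one] at h1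
    calc m ^ (d + 1) * _ ≤ m ^ (d + 1) *
          (univ.filter fun τ : I → Fin m => ∀ i ∈ z₀.2.image π, τ i = z₀.1 i).card :=
          Nat.mul_le_mul_left _ h1
      _ ≤ m ^ (z₀.2.image π).card *
          (univ.filter fun τ : I → Fin m => ∀ i ∈ z₀.2.image π, τ i = z₀.1 i).card :=
          Nat.mul_le_mul_right _ (Nat.pow_le_pow_right hm hz₀.2.1)
      _ = m ^ Fintype.card I := by
          rw [mul_comm]
          exact card_agree _ _
  · rw [not_nonempty_iff_eq_empty] at hne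
    rw [hne, card_empty, mul_zero]
    exact Nat.zero_le _

lemma sum_cellsI (π : P → I) (d : ℕ) (hm : 1 ≤ m) (c : Finset (P × Fin m) → ℝ)
    (hc : ∀ R, 0 ≤ c R) :
    (m : ℝ) ^ (d + 1) * ∑ τ : I → Fin m, ∑ S ∈ univ.filter fun S : Finset P => d < (S.image π).card,
      c (cells (τ ∘ π) S) ≤ (m : ℝ) ^ Fintype.card I * ∑ R, c R := by
  have h1 : ∑ τ : I → Fin m, ∑ S ∈ univ.filter fun S : Finset P => d < (S.image π).card,
      c (cells (τ ∘ π) S) = ∑ z ∈ (univ : Finset ((I → Fin m) × Finset P)).filter fun z =>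
        d < (z.2.image π).card, c (cells (z.1 ∘ π) z.2) := by
    rw [sum_filter, ← univ_product_univ, sum_product]
    refine sum_congr rfl fun τ _ => ?_
    rw [sum_filter]
  have h2 : ∑ z ∈ (univ : Finset ((I → Fin m) × Finset P)).filter fun z =>
        d < (z.2.image π).card, c (cells (z.1 ∘ π) z.2) =
      ∑ R, (((univ : Finset ((I → Fin m) × Finset P)).filter fun z =>
        d < (z.2.image π).card ∧ cells (z.1 ∘ π) z.2 = R).card : ℝ) * c R := by
    rw [← sum_fiberwise (g := fun z : (I → Fin m) × Finset P => cells (z.1 ∘ π) z.2)]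
    refine sum_congr rfl fun R _ => ?_
    rw [filter_filter, ← nsmul_eq_mul, ← sum_const]
    refine sum_congr rfl fun z hz => ?_
    rw [(mem_filter.1 hz).2.2]
  rw [h1, h2, mul_sum, mul_sum]
  refine sum_le_sum fun R _ => ?_
  rw [← mul_assoc]
  refine mul_le_mul_of_nonneg_right ?_ (hc R)
  exact_mod_cast card_fibI π d hm R

variable {E : Type*} [NormedAddCommGroup E] [InnerProductSpace ℝ E]

/-- The sum over the hidden codes and the inputs with the content `y`. -/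
noncomputable def avgI (π : P → I) (φ : (P × Fin m → Bool) → E)
    (w : (I → Fin m) → (P → Bool) → E) (y : P → Bool) : ℝ :=
  ∑ τ : I → Fin m, ∑ X : P × Fin m → Bool, inner ℝ (w τ (eqv (alive (τ ∘ π) X) y)) (φ X)

/-- The high part of the average is small. -/
theorem highI (π : P → I) (d : ℕ) (hm : 1 ≤ m) (φ : (P × Fin m → Bool) → E)
    (w : (I → Fin m) → (P → Bool) → E) (R Φ : ℝ) (hφ : ∑ X, ‖φ X‖ ^ 2 ≤ Φ)
    (hw : ∀ τ ω, ‖w τ ω‖ ≤ R) :
    (∑ S ∈ univ.filter fun S : Finset P => d < (S.image π).card, |four (avgI π φ w) S|) ^ 2 *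
      (m : ℝ) ^ (d + 1) ≤
      R ^ 2 * (2 ^ Fintype.card P * (m : ℝ) ^ Fintype.card I) ^ 2 *
        (2 ^ (Fintype.card P * m) * Φ) := by
  set p := Fintype.card P with hp
  set F : Finset (Finset P) := univ.filter fun S : Finset P => d < (S.image π).card with hF
  set G := avgI π φ w with hG
  obtain ⟨eps, he1, he2⟩ : ∃ eps : Finset P → ℝ, (∀ S, |four G S| = eps S * four G S) ∧
      ∀ S, |eps S| = 1 := by
    refine ⟨fun S => if 0 ≤ four G S then 1 else -1, fun S => ?_, fun S => ?_⟩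
    · by_cases h : 0 ≤ four G S
      · simp only [if_pos h, one_mul]
        exact abs_of_nonneg h
      · simp only [if_neg h, neg_one_mul]
        exact abs_of_neg (not_le.1 h)
    · by_cases h : 0 ≤ four G S
      · simp only [if_pos h, abs_one]
      · simp only [if_neg h, abs_neg, abs_one]
  let En : (P → Bool) → ℝ := fun y => ∑ S ∈ F, eps S * chi S y
  let a : (I → Fin m) → (P → Bool) → E := fun τ ω =>
    ∑ X : P × Fin m → Bool, En (eqv (alive (τ ∘ π) X) ω) • φ X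
  -- the sum as a sum of inner products
  have h1 : ∑ S ∈ F, |four G S| = ∑ z : (I → Fin m) × (P → Bool), inner ℝ (w z.1 z.2) (a z.1 z.2) := by
    have e1 : ∑ S ∈ F, |four G S| = ∑ y, G y * En y := by
      have : ∀ S, |four G S| = ∑ y, G y * (eps S * chi S y) := by
        intro S
        rw [he1]
        unfold four
        rw [mul_sum]
        refine sum_congr rfl fun y _ => ?_
        ring
      rw [sum_congr rfl fun S _ => this S, sum_comm]
      refine sum_congr rfl fun y _ => ?_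
      rw [← mul_sum]
    rw [e1, Fintype.sum_prod_type]
    have e2 : ∀ y, G y * En y = ∑ τ : I → Fin m, ∑ X : P × Fin m → Bool,
        inner ℝ (w τ (eqv (alive (τ ∘ π) X) y)) (φ X) * En y := by
      intro y
      rw [hG]
      unfold avgI
      rw [sum_mul]
      refine sum_congr rfl fun τ _ => ?_
      rw [sum_mul]
    rw [sum_congr rfl fun y _ => e2 y, sum_comm]
    refine sum_congr rfl fun τ _ => ?_
    rw [sum_comm]
    have e3 : ∀ X : P × Fin m → Bool,
        ∑ y, inner ℝ (w τ (eqv (alive (τ ∘ π) X) y)) (φ X) * En y =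
        ∑ ω, inner ℝ (w τ ω) (φ X) * En (eqv (alive (τ ∘ π) X) ω) := by
      intro X
      rw [← Equiv.sum_comp (eqvPerm (alive (τ ∘ π) X))]
      refine sum_congr rfl fun ω _ => ?_
      have : eqvPerm (alive (τ ∘ π) X) ω = eqv (alive (τ ∘ π) X) ω := rfl
      rw [this, eqv_eqv]
    rw [sum_congr rfl fun X _ => e3 X, sum_comm]
    refine sum_congr rfl fun ω _ => ?_
    show _ = inner ℝ (w τ ω) (∑ X : P × Fin m → Bool, En (eqv (alive (τ ∘ π) X) ω) • φ X)
    rw [inner_sum]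
    refine sum_congr rfl fun X _ => ?_
    rw [real_inner_smul_right]
    ring
  -- the Fourier expansion of `a`
  have h2 : ∀ τ ω, a τ ω = ∑ S ∈ F, chi S ω •
      (eps S • ∑ X : P × Fin m → Bool, chi (cells (τ ∘ π) S) X • φ X) := by
    intro τ ω
    have e1 : ∀ X : P × Fin m → Bool, En (eqv (alive (τ ∘ π) X) ω) • φ X =
        ∑ S ∈ F, chi S ω • (eps S • (chi (cells (τ ∘ π) S) X • φ X)) := by
      intro X
      show (∑ S ∈ F, eps S * chi S (eqv (alive (τ ∘ π) X) ω)) • φ X = _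
      rw [sum_smul]
      refine sum_congr rfl fun S _ => ?_
      have e2 : chi S (eqv (alive (τ ∘ π) X) ω) = chi (cells (τ ∘ π) S) X * chi S ω := by
        rw [← chi_cells]
        exact chi_beq S _ _
      rw [e2, smul_smul, smul_smul]
      congr 1
      ring
    show ∑ X : P × Fin m → Bool, En (eqv (alive (τ ∘ π) X) ω) • φ X = _
    rw [sum_congr rfl fun X _ => e1 X, sum_comm]
    refine sum_congr rfl fun S _ => ?_
    rw [smul_sum, smul_sum]
  -- the sum of squares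
  have h3 : (m : ℝ) ^ (d + 1) * ∑ z : (I → Fin m) × (P → Bool), ‖a z.1 z.2‖ ^ 2 ≤
      2 ^ p * ((m : ℝ) ^ Fintype.card I * (2 ^ (p * m) * Φ)) := by
    have e1 : ∑ z : (I → Fin m) × (P → Bool), ‖a z.1 z.2‖ ^ 2 =
        2 ^ p * ∑ τ : I → Fin m, ∑ S ∈ F,
          ‖∑ X : P × Fin m → Bool, chi (cells (τ ∘ π) S) X • φ X‖ ^ 2 := by
      rw [Fintype.sum_prod_type, mul_sum]
      refine sum_congr rfl fun τ _ => ?_
      have e2 : ∀ ω, ‖a τ ω‖ ^ 2 = ‖∑ S ∈ F, chi S ω •
          (eps S • ∑ X : P × Fin m → Bool, chi (cells (τ ∘ π) S) X • φ X)‖ ^ 2 := fun ω => by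
        rw [h2]
      show ∑ ω, ‖a τ ω‖ ^ 2 = _
      rw [sum_congr rfl fun ω _ => e2 ω, parseval]
      congr 1
      refine sum_congr rfl fun S _ => ?_
      rw [norm_smul, Real.norm_eq_abs, he2, one_mul]
    have e3 := sum_cellsI π d hm (fun R => ‖∑ X : P × Fin m → Bool, chi R X • φ X‖ ^ 2)
      (fun R => by positivity)
    rw [bessel] at e3
    have e5 : (Fintype.card (P × Fin m)) = p * m := by
      rw [Fintype.card_prod, Fintype.card_fin]
    rw [e5] at e3
    rw [e1]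
    calc (m : ℝ) ^ (d + 1) * (2 ^ p * ∑ τ : I → Fin m, ∑ S ∈ F,
          ‖∑ X : P × Fin m → Bool, chi (cells (τ ∘ π) S) X • φ X‖ ^ 2)
        = 2 ^ p * ((m : ℝ) ^ (d + 1) * ∑ τ : I → Fin m, ∑ S ∈ F,
          ‖∑ X : P × Fin m → Bool, chi (cells (τ ∘ π) S) X • φ X‖ ^ 2) := by ring
      _ ≤ 2 ^ p * ((m : ℝ) ^ Fintype.card I *
          (2 ^ (p * m) * ∑ X : P × Fin m → Bool, ‖φ X‖ ^ 2)) := by
          gcongr
      _ ≤ 2 ^ p * ((m : ℝ) ^ Fintype.card I * (2 ^ (p * m) * Φ)) := by gcongr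
  have h4 : ∑ z : (I → Fin m) × (P → Bool), ‖w z.1 z.2‖ ^ 2 ≤
      R ^ 2 * ((m : ℝ) ^ Fintype.card I * 2 ^ p) := by
    calc ∑ z : (I → Fin m) × (P → Bool), ‖w z.1 z.2‖ ^ 2 ≤
          ∑ _z : (I → Fin m) × (P → Bool), R ^ 2 :=
          sum_le_sum fun z _ => pow_le_pow_left₀ (norm_nonneg _) (hw _ _) 2
      _ = R ^ 2 * ((m : ℝ) ^ Fintype.card I * 2 ^ p) := by
          rw [sum_const, card_univ, Fintype.card_prod, Fintype.card_fun, Fintype.card_fun,
            Fintype.card_bool, Fintype.card_fin, nsmul_eq_mul]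
          push_cast
          ring
  have h5 : (∑ S ∈ F, |four G S|) ^ 2 ≤
      (∑ z : (I → Fin m) × (P → Bool), ‖w z.1 z.2‖ ^ 2) *
        ∑ z : (I → Fin m) × (P → Bool), ‖a z.1 z.2‖ ^ 2 := by
    have e1 : ∑ S ∈ F, |four G S| ≤
        ∑ z : (I → Fin m) × (P → Bool), ‖w z.1 z.2‖ * ‖a z.1 z.2‖ := by
      rw [h1]
      exact sum_le_sum fun z _ => real_inner_le_norm _ _
    have e2 : 0 ≤ ∑ S ∈ F, |four G S| := sum_nonneg fun S _ => abs_nonneg _
    exact (pow_le_pow_left₀ e2 e1 2).trans (sum_mul_sq_le_sq_mul_sq _ _ _)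
  have h6 : 0 ≤ ∑ z : (I → Fin m) × (P → Bool), ‖a z.1 z.2‖ ^ 2 :=
    sum_nonneg fun z _ => by positivity
  calc (∑ S ∈ F, |four G S|) ^ 2 * (m : ℝ) ^ (d + 1)
      ≤ ((∑ z : (I → Fin m) × (P → Bool), ‖w z.1 z.2‖ ^ 2) *
        ∑ z : (I → Fin m) × (P → Bool), ‖a z.1 z.2‖ ^ 2) * (m : ℝ) ^ (d + 1) := by gcongr
    _ ≤ ((R ^ 2 * ((m : ℝ) ^ Fintype.card I * 2 ^ p)) *
        ∑ z : (I → Fin m) × (P → Bool), ‖a z.1 z.2‖ ^ 2) * (m : ℝ) ^ (d + 1) := by gcongr
    _ = (R ^ 2 * ((m : ℝ) ^ Fintype.card I * 2 ^ p)) * ((m : ℝ) ^ (d + 1) *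
        ∑ z : (I → Fin m) × (P → Bool), ‖a z.1 z.2‖ ^ 2) := by ring
    _ ≤ (R ^ 2 * ((m : ℝ) ^ Fintype.card I * 2 ^ p)) *
        (2 ^ p * ((m : ℝ) ^ Fintype.card I * (2 ^ (p * m) * Φ))) := by gcongr
    _ = R ^ 2 * (2 ^ p * (m : ℝ) ^ Fintype.card I) ^ 2 * (2 ^ (p * m) * Φ) := by ring

end Pool.Agent.THR72.FS
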