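import Pool.Agent.THR72.Binom2

/-!
# Polynomials in the weights of the blocks
-/

namespace Pool.Agent.THR72.FS

open Finset

section Tail

variable {A : Type} [Fintype A] [DecidableEq A]

lemma tail' {d j m : ℕ} (hm : 1 ≤ m) (hA : Fintype.card A ≤ j * m) (Y : Finset A)
    (hY : Y.card ≤ d) :
    ∑ Z ∈ (univ : Finset (Finset A)).filter fun Z => Y ⊆ Z ∧ d + 6 * j + 1 < Z.card,
      (1 / (m : ℝ)) ^ Z.card * 2 ^ (Z.card - Y.card) ≤ 1 / 3 * (1 / (m : ℝ)) ^ Y.card := by
  set ρ : ℝ := 1 / m with hρ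
  have hm0 : (0 : ℝ) < m := by exact_mod_cast hm
  have hρ0 : 0 ≤ ρ := by positivity
  have h3 : (0 : ℝ) < 3 ^ (6 * j + 1) := by positivity
  calc ∑ Z ∈ (univ : Finset (Finset A)).filter fun Z => Y ⊆ Z ∧ d + 6 * j + 1 < Z.card,
        ρ ^ Z.card * 2 ^ (Z.card - Y.card)
      ≤ ∑ Z ∈ (univ : Finset (Finset A)).filter fun Z => Y ⊆ Z ∧ d + 6 * j + 1 < Z.card,
        ρ ^ Y.card / 3 ^ (6 * j + 1) * (6 * ρ) ^ (Z.card - Y.card) := by
        apply sum_le_sum
        intro Z hZ
        rw [mem_filter] at hZ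
        obtain ⟨_, h1, h2⟩ := hZ
        have h4 : Z.card = Y.card + (Z.card - Y.card) := by
          have := card_le_card h1
          omega
        have h5 : 6 * j + 1 ≤ Z.card - Y.card := by omega
        set e := Z.card - Y.card with he
        have h6 : (3 : ℝ) ^ (6 * j + 1) ≤ 3 ^ e := pow_le_pow_right₀ (by norm_num) h5
        rw [h4, pow_add]
        have h7 : (6 * ρ) ^ e = 2 ^ e * 3 ^ e * ρ ^ e := by
          rw [← mul_pow, ← mul_pow]
          norm_num
        rw [h7, div_mul_eq_mul_div, le_div_iff₀ h3]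
        have h8 : 0 ≤ ρ ^ Y.card * ρ ^ e * 2 ^ e := by positivity
        calc ρ ^ Y.card * ρ ^ e * 2 ^ e * 3 ^ (6 * j + 1) ≤ ρ ^ Y.card * ρ ^ e * 2 ^ e * 3 ^ e :=
              mul_le_mul_of_nonneg_left h6 h8
          _ = ρ ^ Y.card * (2 ^ e * 3 ^ e * ρ ^ e) := by ring
    _ ≤ ∑ Z ∈ (univ : Finset (Finset A)).filter fun Z => Y ⊆ Z,
        ρ ^ Y.card / 3 ^ (6 * j + 1) * (6 * ρ) ^ (Z.card - Y.card) := by
        apply sum_le_sum_of_subset_of_nonneg
        · intro Z hZ
          rw [mem_filter] at hZ ⊢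
          exact ⟨hZ.1, hZ.2.1⟩
        · intro Z _ _
          positivity
    _ = ρ ^ Y.card / 3 ^ (6 * j + 1) * (1 + 6 * ρ) ^ (univ \ Y).card := by
        rw [← mul_sum, sum_super]
    _ ≤ ρ ^ Y.card / 3 ^ (6 * j + 1) * 3 ^ (6 * j) := by
        apply mul_le_mul_of_nonneg_left _ (by positivity)
        have h1 : (univ \ Y).card ≤ j * m := by
          refine (card_le_card (subset_univ _)).trans ?_
          rw [card_univ]
          exact hA
        calc (1 + 6 * ρ) ^ (univ \ Y).card ≤ (1 + 6 * ρ) ^ (j * m) :=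
              pow_le_pow_right₀ (by linarith [mul_nonneg (by norm_num : (0 : ℝ) ≤ 6) hρ0]) h1
          _ ≤ (Real.exp (6 * ρ)) ^ (j * m) := by
              apply pow_le_pow_left₀ (by positivity)
              rw [add_comm]
              exact Real.add_one_le_exp _
          _ = Real.exp 1 ^ (6 * j) := by
              rw [← Real.exp_nat_mul, ← Real.exp_nat_mul]
              congr 1
              rw [hρ]
              push_cast
              field_simp
          _ ≤ 3 ^ (6 * j) := by
              apply pow_le_pow_left₀ (Real.exp_nonneg _)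
              have := Real.exp_one_lt_d9
              linarith
    _ = 1 / 3 * ρ ^ Y.card := by
        rw [pow_succ]
        field_simp

/-- The sum with binomial weights, with a gain. -/
lemma weighted' {d j m : ℕ} (hm : 1 ≤ m) (hA : Fintype.card A ≤ j * m) (F c : Finset A → ℝ)
    (h : ∀ Z, F Z = ∑ T ∈ Z.powerset, c T) (hc : ∀ T, d < T.card → c T = 0)
    (hF : ∀ Z : Finset A, Z.card ≤ d + 6 * j + 1 → F Z ≤ 0) :
    ∑ Z : Finset A, (1 / (m : ℝ)) ^ Z.card * F Z ≤ 1 / 2 * F ∅ := by
  set ρ : ℝ := 1 / m with hρ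
  have hρ0 : 0 ≤ ρ := by positivity
  have h1 : ∑ Z ∈ (univ : Finset (Finset A)).filter fun Z => Z.card ≤ d + 6 * j + 1,
      ρ ^ Z.card * F Z ≤
      ∑ Y ∈ (univ : Finset (Finset A)).filter fun Y => Y.card ≤ d, ρ ^ Y.card * F Y := by
    have hsub : ((univ : Finset (Finset A)).filter fun Y => Y.card ≤ d) ⊆
        (univ : Finset (Finset A)).filter fun Z => Z.card ≤ d + 6 * j + 1 := by
      intro Y hY
      rw [mem_filter] at hY ⊢
      exact ⟨hY.1, by omega⟩
    rw [← sum_sdiff hsub]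
    have h2 : ∑ Z ∈ ((univ : Finset (Finset A)).filter fun Z => Z.card ≤ d + 6 * j + 1) \
        ((univ : Finset (Finset A)).filter fun Y => Y.card ≤ d), ρ ^ Z.card * F Z ≤ 0 := by
      apply sum_nonpos
      intro Z hZ
      rw [mem_sdiff, mem_filter] at hZ
      exact mul_nonpos_of_nonneg_of_nonpos (by positivity) (hF Z hZ.1.2)
    linarith
  have h2 : ∑ Z ∈ (univ : Finset (Finset A)).filter fun Z => ¬ Z.card ≤ d + 6 * j + 1,
      ρ ^ Z.card * F Z ≤
      1 / 3 * ∑ Y ∈ (univ : Finset (Finset A)).filter fun Y => Y.card ≤ d, ρ ^ Y.card * |F Y| := by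
    calc ∑ Z ∈ (univ : Finset (Finset A)).filter fun Z => ¬ Z.card ≤ d + 6 * j + 1,
          ρ ^ Z.card * F Z
        ≤ ∑ Z ∈ (univ : Finset (Finset A)).filter fun Z => ¬ Z.card ≤ d + 6 * j + 1, ρ ^ Z.card *
            ∑ Y ∈ Z.powerset.filter fun Y => Y.card ≤ d, 2 ^ (Z.card - Y.card) * |F Y| :=
          sum_le_sum fun Z _ => mul_le_mul_of_nonneg_left (value_bound F c h hc Z) (by positivity)
      _ = ∑ Z ∈ (univ : Finset (Finset A)).filter fun Z => ¬ Z.card ≤ d + 6 * j + 1,
            ∑ Y ∈ (univ : Finset (Finset A)).filter fun Y => Y.card ≤ d,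
              if Y ⊆ Z then ρ ^ Z.card * 2 ^ (Z.card - Y.card) * |F Y| else 0 := by
          apply sum_congr rfl
          intro Z _
          rw [← sum_filter, mul_sum]
          apply sum_congr
          · ext Y
            rw [mem_filter, mem_filter, mem_filter, mem_powerset]
            constructor
            · exact fun h3 => ⟨⟨mem_univ _, h3.2⟩, h3.1⟩
            · exact fun h3 => ⟨h3.2, h3.1.2⟩
          · intro Y _
            ring
      _ = ∑ Y ∈ (univ : Finset (Finset A)).filter fun Y => Y.card ≤ d,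
            ∑ Z ∈ (univ : Finset (Finset A)).filter fun Z => ¬ Z.card ≤ d + 6 * j + 1,
              if Y ⊆ Z then ρ ^ Z.card * 2 ^ (Z.card - Y.card) * |F Y| else 0 := sum_comm
      _ ≤ ∑ Y ∈ (univ : Finset (Finset A)).filter fun Y => Y.card ≤ d,
            1 / 3 * (ρ ^ Y.card * |F Y|) := by
          apply sum_le_sum
          intro Y hY
          rw [mem_filter] at hY
          rw [← sum_filter, filter_filter, ← sum_mul, ← mul_assoc]
          apply mul_le_mul_of_nonneg_right _ (abs_nonneg _)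
          refine le_trans (le_of_eq ?_) (tail' hm hA Y hY.2)
          apply sum_congr _ fun _ _ => rfl
          ext Z
          rw [mem_filter, mem_filter, not_le]
          exact and_congr_right fun _ => and_comm
      _ = _ := by rw [mul_sum]
  rw [← sum_filter_add_sum_filter_not univ fun Z : Finset A => Z.card ≤ d + 6 * j + 1]
  have h3 : ∑ Y ∈ (univ : Finset (Finset A)).filter fun Y => Y.card ≤ d, ρ ^ Y.card * |F Y| =
      -∑ Y ∈ (univ : Finset (Finset A)).filter fun Y => Y.card ≤ d, ρ ^ Y.card * F Y := by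
    rw [← sum_neg_distrib]
    apply sum_congr rfl
    intro Y hY
    rw [mem_filter] at hY
    rw [abs_of_nonpos (hF Y (by omega))]
    ring
  have h4 : |F ∅| ≤ ∑ Y ∈ (univ : Finset (Finset A)).filter fun Y => Y.card ≤ d,
      ρ ^ Y.card * |F Y| := by
    have h5 := single_le_sum (f := fun Y => ρ ^ Y.card * |F Y|)
      (s := (univ : Finset (Finset A)).filter fun Y => Y.card ≤ d)
      (fun Y _ => by positivity) (a := ∅)
      (by rw [mem_filter]; exact ⟨mem_univ _, by rw [card_empty]; exact Nat.zero_le _⟩)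
    simpa using h5
  rw [abs_of_nonpos (hF ∅ (by rw [card_empty]; exact Nat.zero_le _))] at h4
  have h6 := hF ∅ (by rw [card_empty]; exact Nat.zero_le _)
  linarith

/-- Products over a set and its complement, as a function of the set. -/
lemma prod_ite_powerset (x y : A → ℝ) (Z : Finset A) :
    ∏ a, (if a ∈ Z then x a else y a) =
      ∑ T ∈ Z.powerset, (∏ a ∈ T, (x a - y a)) * ∏ a ∈ univ \ T, y a := by
  have h1 : ∏ a, (if a ∈ Z then x a else y a) =
      (∏ a ∈ Z, ((x a - y a) + y a)) * ∏ a ∈ univ \ Z, y a := by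
    rw [mul_comm, ← prod_sdiff (subset_univ Z)]
    congr 1
    · refine prod_congr rfl fun a ha => ?_
      rw [if_neg (mem_sdiff.1 ha).2]
    · refine prod_congr rfl fun a ha => ?_
      rw [if_pos ha]
      ring
  rw [h1, prod_add, sum_mul]
  refine sum_congr rfl fun T hT => ?_
  rw [mem_powerset] at hT
  rw [mul_assoc]
  congr 1
  have h2 : univ \ T = (Z \ T) ∪ (univ \ Z) := by
    ext a
    rw [mem_union, mem_sdiff, mem_sdiff, mem_sdiff]
    constructor
    · rintro ⟨_, h⟩
      by_cases h3 : a ∈ Z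
      · exact Or.inl ⟨h3, h⟩
      · exact Or.inr ⟨mem_univ _, h3⟩
    · rintro (⟨_, h⟩ | ⟨_, h⟩)
      · exact ⟨mem_univ _, h⟩
      · exact ⟨mem_univ _, fun h4 => h (hT h4)⟩
  rw [h2, prod_union]
  rw [disjoint_left]
  intro a ha hb
  exact (mem_sdiff.1 hb).2 (mem_sdiff.1 ha).1

lemma sum_prod_ite (x y : A → ℝ) (ρ : ℝ) :
    ∑ Z : Finset A, ρ ^ Z.card * ∏ a, (if a ∈ Z then x a else y a) = ∏ a, (ρ * x a + y a) := by
  rw [prod_add, powerset_univ]
  refine sum_congr rfl fun Z _ => ?_
  rw [← prod_sdiff (subset_univ Z)]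
  have h1 : ∏ a ∈ univ \ Z, (if a ∈ Z then x a else y a) = ∏ a ∈ univ \ Z, y a :=
    prod_congr rfl fun a ha => if_neg (mem_sdiff.1 ha).2
  have h2 : ∏ a ∈ Z, (if a ∈ Z then x a else y a) = ∏ a ∈ Z, x a :=
    prod_congr rfl fun a ha => if_pos ha
  rw [h1, h2, prod_mul_distrib, prod_const]
  ring

end Tail

end Pool.Agent.THR72.FS
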