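import Pool.Agent.THR72.FeatV
import Pool.Agent.THR72.FeatL

/-!
# The bound for polynomials in the weights of the blocks
-/

namespace Pool.Agent.THR72.FS

open Finset

section EP

variable {A : Type} [Fintype A] [DecidableEq A] {K : ℕ}

/-- The expectation of a polynomial if the weights are independent. -/
noncomputable def EP (K : ℕ) (x0 : ℝ) (κ : A → ℕ → ℝ) (P : MvPolynomial A ℝ) : ℝ :=
  ∑ t : A → Fin (K + 1), (∏ a, κ a (t a)) * MvPolynomial.eval (fun a => x0 * ((t a : ℕ) : ℝ)) P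

/-- The moments. -/
noncomputable def mom (K : ℕ) (x0 : ℝ) (κ : ℕ → ℝ) (i : ℕ) : ℝ :=
  ∑ t ∈ range (K + 1), κ t * (x0 * (t : ℝ)) ^ i

lemma EP_eq (x0 : ℝ) (κ : A → ℕ → ℝ) (P : MvPolynomial A ℝ) :
    EP K x0 κ P = ∑ e ∈ P.support, P.coeff e * ∏ a, mom K x0 (κ a) (e a) := by
  unfold EP mom
  have h1 : ∀ t : A → Fin (K + 1), (∏ a, κ a (t a)) *
      MvPolynomial.eval (fun a => x0 * ((t a : ℕ) : ℝ)) P =
      ∑ e ∈ P.support, P.coeff e * ∏ a, (κ a (t a) * (x0 * ((t a : ℕ) : ℝ)) ^ (e a)) := by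
    intro t
    rw [MvPolynomial.eval_eq', mul_sum]
    refine sum_congr rfl fun e _ => ?_
    rw [prod_mul_distrib]
    ring
  rw [sum_congr rfl fun t _ => h1 t, sum_comm]
  refine sum_congr rfl fun e _ => ?_
  rw [← mul_sum]
  congr 1
  have h2 : ∀ a, ∑ t ∈ range (K + 1), κ a t * (x0 * (t : ℝ)) ^ (e a) =
      ∑ t : Fin (K + 1), κ a t * (x0 * ((t : ℕ) : ℝ)) ^ (e a) := fun a =>
    (Fin.sum_univ_eq_sum_range (fun t => κ a t * (x0 * (t : ℝ)) ^ (e a)) (K + 1)).symm
  rw [prod_congr rfl fun a _ => h2 a, prod_univ_sum, Fintype.piFinset_univ]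

lemma mass_eq (κ : A → ℕ → ℝ) (hm : ∀ a, ∑ t ∈ range (K + 1), κ a t = 1) :
    ∑ t : A → Fin (K + 1), ∏ a, κ a (t a) = 1 := by
  have h2 : ∀ a, ∑ t : Fin (K + 1), κ a t = 1 := fun a => by
    rw [← hm a]
    exact Fin.sum_univ_eq_sum_range (fun t => κ a t) (K + 1)
  have h3 := (prod_univ_sum (fun _ : A => (univ : Finset (Fin (K + 1))))
    (fun a (t : Fin (K + 1)) => κ a t)).symm
  rw [Fintype.piFinset_univ] at h3
  rw [h3]
  exact prod_eq_one fun a _ => h2 a

lemma EP_le (x0 : ℝ) (κ : A → ℕ → ℝ) (P : MvPolynomial A ℝ) (hκ : ∀ a t, 0 ≤ κ a t)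
    (hm : ∀ a, ∑ t ∈ range (K + 1), κ a t = 1) (D : ℝ)
    (h : ∀ t : A → Fin (K + 1), (∀ a, κ a (t a) ≠ 0) →
      MvPolynomial.eval (fun a => x0 * ((t a : ℕ) : ℝ)) P ≤ D) : EP K x0 κ P ≤ D := by
  unfold EP
  calc ∑ t : A → Fin (K + 1), (∏ a, κ a (t a)) *
        MvPolynomial.eval (fun a => x0 * ((t a : ℕ) : ℝ)) P
      ≤ ∑ t : A → Fin (K + 1), (∏ a, κ a (t a)) * D := by
        refine sum_le_sum fun t _ => ?_
        by_cases h1 : ∀ a, κ a (t a) ≠ 0
        · exact mul_le_mul_of_nonneg_left (h t h1) (prod_nonneg fun a _ => hκ _ _)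
        · push Not at h1
          obtain ⟨a, ha⟩ := h1
          have : ∏ a, κ a (t a) = 0 := prod_eq_zero (mem_univ a) ha
          rw [this, zero_mul, zero_mul]
    _ = D := by rw [← sum_mul, mass_eq κ hm, one_mul]

lemma EP_ge (x0 : ℝ) (κ : A → ℕ → ℝ) (P : MvPolynomial A ℝ) (hκ : ∀ a t, 0 ≤ κ a t)
    (hm : ∀ a, ∑ t ∈ range (K + 1), κ a t = 1) (D : ℝ)
    (h : ∀ t : A → Fin (K + 1), (∀ a, κ a (t a) ≠ 0) →
      D ≤ MvPolynomial.eval (fun a => x0 * ((t a : ℕ) : ℝ)) P) : D ≤ EP K x0 κ P := by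
  unfold EP
  calc D = ∑ t : A → Fin (K + 1), (∏ a, κ a (t a)) * D := by
        rw [← sum_mul, mass_eq κ hm, one_mul]
    _ ≤ ∑ t : A → Fin (K + 1), (∏ a, κ a (t a)) *
        MvPolynomial.eval (fun a => x0 * ((t a : ℕ) : ℝ)) P := by
        refine sum_le_sum fun t _ => ?_
        by_cases h1 : ∀ a, κ a (t a) ≠ 0
        · exact mul_le_mul_of_nonneg_left (h t h1) (prod_nonneg fun a _ => hκ _ _)
        · push Not at h1
          obtain ⟨a, ha⟩ := h1
          have : ∏ a, κ a (t a) = 0 := prod_eq_zero (mem_univ a) ha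
          rw [this, zero_mul, zero_mul]

/-- The expectation as a function of the set of the blocks with the law `κ₁`. -/
lemma EP_set (d : ℕ) (x0 : ℝ) (κ₁ κ₀ : ℕ → ℝ) (h0 : mom K x0 κ₁ 0 = mom K x0 κ₀ 0)
    (P : MvPolynomial A ℝ) (hP : P.totalDegree ≤ d) : ∃ c : Finset A → ℝ,
      (∀ Z : Finset A, EP K x0 (fun a => if a ∈ Z then κ₁ else κ₀) P = ∑ T ∈ Z.powerset, c T) ∧
      ∀ T, d < T.card → c T = 0 := by
  refine ⟨fun T => ∑ e ∈ P.support, P.coeff e *
    ((∏ a ∈ T, (mom K x0 κ₁ (e a) - mom K x0 κ₀ (e a))) * ∏ a ∈ univ \ T, mom K x0 κ₀ (e a)),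
    fun Z => ?_, fun T hT => ?_⟩
  · rw [EP_eq, sum_comm]
    refine sum_congr rfl fun e _ => ?_
    rw [← mul_sum, ← prod_ite_powerset]
    congr 1
    refine prod_congr rfl fun a _ => ?_
    by_cases h : a ∈ Z
    · rw [if_pos h, if_pos h]
    · rw [if_neg h, if_neg h]
  · apply sum_eq_zero
    intro e he
    have h1 : (e.sum fun _ i => i) ≤ d := (MvPolynomial.le_totalDegree he).trans hP
    have h2 : ∃ a ∈ T, e a = 0 := by
      by_contra h
      push Not at h
      have h3 : T.card ≤ ∑ a, e a := by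
        calc T.card = ∑ a ∈ T, 1 := by rw [card_eq_sum_ones]
          _ ≤ ∑ a ∈ T, e a := sum_le_sum fun a ha => Nat.one_le_iff_ne_zero.2 (h a ha)
          _ ≤ ∑ a, e a := sum_le_sum_of_subset (subset_univ _)
      rw [Finsupp.sum_fintype _ _ (fun _ => rfl)] at h1
      omega
    obtain ⟨a, ha, h3⟩ := h2
    rw [prod_eq_zero ha (by rw [h3, h0, sub_self]), zero_mul, mul_zero]

lemma sum_EP (x0 ρ : ℝ) (κ₁ κ₀ : ℕ → ℝ) (P : MvPolynomial A ℝ) :
    ∑ Z : Finset A, ρ ^ Z.card * EP K x0 (fun a => if a ∈ Z then κ₁ else κ₀) P =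
      ∑ e ∈ P.support, P.coeff e * ∏ a, (ρ * mom K x0 κ₁ (e a) + mom K x0 κ₀ (e a)) := by
  have h1 : ∀ Z : Finset A, ρ ^ Z.card * EP K x0 (fun a => if a ∈ Z then κ₁ else κ₀) P =
      ∑ e ∈ P.support, P.coeff e * (ρ ^ Z.card *
        ∏ a, (if a ∈ Z then mom K x0 κ₁ (e a) else mom K x0 κ₀ (e a))) := by
    intro Z
    rw [EP_eq, mul_sum]
    refine sum_congr rfl fun e _ => ?_
    have h2 : ∀ a, mom K x0 (if a ∈ Z then κ₁ else κ₀) (e a) =
        if a ∈ Z then mom K x0 κ₁ (e a) else mom K x0 κ₀ (e a) := by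
      intro a
      by_cases h : a ∈ Z
      · rw [if_pos h, if_pos h]
      · rw [if_neg h, if_neg h]
    rw [prod_congr rfl fun a _ => h2 a]
    ring
  rw [sum_congr rfl fun Z _ => h1 Z, sum_comm]
  refine sum_congr rfl fun e _ => ?_
  rw [← mul_sum, sum_prod_ite]

lemma sum_pow_card (ρ : ℝ) : ∑ Z : Finset A, ρ ^ Z.card = (1 + ρ) ^ Fintype.card A := by
  have h1 := sum_prod_ite (fun _ : A => (1 : ℝ)) (fun _ => 1) ρ
  simp only [ite_self, prod_const_one, mul_one] at h1
  rw [h1, prod_const, card_univ, add_comm]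

/-- **The bound for polynomials.** -/
theorem poly_bound {d j m : ℕ} (hd : 1 ≤ d) (hm : 1 ≤ m) (hA : Fintype.card A ≤ j * m)
    (P : MvPolynomial A ℝ) (hP : P.totalDegree ≤ d) (x0 : ℝ) (hx0 : 0 ≤ x0) (D D' : ℝ)
    (hD' : 0 ≤ D')
    (h1 : ∀ p : A → ℝ, (∀ a, 0 ≤ p a ∧ p a ≤ x0 * (((8 * (m + 1) + 1) * d ^ 2 : ℕ) : ℝ)) →
      (univ.filter fun a => p a ≠ 0).card ≤ d + 6 * j + 1 → MvPolynomial.eval p P ≤ D)
    (h2 : ∀ p : A → ℝ, (∀ a, x0 ≤ p a ∧ p a ≤ x0 * (((8 * (m + 1) + 1) * d ^ 2 : ℕ) : ℝ)) →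
      (univ.filter fun a => p a ≠ x0).card ≤ d + 6 * j + 1 → -D' ≤ MvPolynomial.eval p P) :
    MvPolynomial.eval (fun _ => x0) P ≤ 2 * (1 + 1 / (m : ℝ)) ^ Fintype.card A * (D + D') := by
  obtain ⟨pN, pP, hN0, hP0, hP00, hN00, hP1, hNs, hNP⟩ := exists_laws' d (2 * (m + 1)) hd (by omega)
  have hK : (4 * (2 * (m + 1)) + 1) * d ^ 2 = (8 * (m + 1) + 1) * d ^ 2 := by ring
  rw [hK] at hNs hNP
  set K := (8 * (m + 1) + 1) * d ^ 2 with hKdef
  have hK1 : 1 ≤ K := by
    have : 0 < (8 * (m + 1) + 1) * d ^ 2 := by positivity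
    omega
  have hm0 : (0 : ℝ) < m := by exact_mod_cast hm
  set ρ : ℝ := 1 / m with hρ
  have hρ0 : 0 < ρ := by positivity
  have hmρ : ((m : ℝ) + 1) * ρ = 1 + ρ := by
    rw [hρ]
    field_simp
  -- the laws
  set κN : ℕ → ℝ := fun t => if t = 0 then 1 - ((m : ℝ) + 1) * (1 - pN 0) else ((m : ℝ) + 1) * pN t
    with hκN
  set κP : ℕ → ℝ := fun t => ((1 + ρ) * pP t - (if t = 1 then 1 else 0)) / ρ with hκP
  set δ0 : ℕ → ℝ := fun t => if t = 0 then 1 else 0 with hδ0
  set δ1 : ℕ → ℝ := fun t => if t = 1 then 1 else 0 with hδ1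
  have hκN0 : ∀ t, 0 ≤ κN t := by
    intro t
    show 0 ≤ if t = 0 then 1 - ((m : ℝ) + 1) * (1 - pN 0) else ((m : ℝ) + 1) * pN t
    split_ifs
    · push_cast at hN00
      have h3 : 1 - pN 0 ≤ 1 / (2 * ((m : ℝ) + 1)) := by linarith
      have h4 : ((m : ℝ) + 1) * (1 - pN 0) ≤ ((m : ℝ) + 1) * (1 / (2 * ((m : ℝ) + 1))) := by gcongr
      have h5 : ((m : ℝ) + 1) * (1 / (2 * ((m : ℝ) + 1))) = 1 / 2 := by field_simp
      linarith
    · exact mul_nonneg (by positivity) (hN0 t)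
  have hκP0 : ∀ t, 0 ≤ κP t := by
    intro t
    apply div_nonneg _ hρ0.le
    by_cases h : t = 1
    · rw [if_pos h, h]
      push_cast at hP1
      have h3 : 2 / (2 * ((m : ℝ) + 1)) = 1 / ((m : ℝ) + 1) := by field_simp
      rw [h3] at hP1
      have h4 : (1 + ρ) * (1 - 1 / ((m : ℝ) + 1)) = 1 := by
        rw [hρ]
        field_simp
        ring
      have h5 : (1 + ρ) * (1 - 1 / ((m : ℝ) + 1)) ≤ (1 + ρ) * pP 1 := by gcongr
      linarith
    · rw [if_neg h, sub_zero]
      exact mul_nonneg (by positivity) (hP0 t)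
  have hδ00 : ∀ t, 0 ≤ δ0 t := by
    intro t
    show (0 : ℝ) ≤ if t = 0 then 1 else 0
    split_ifs <;> norm_num
  have hδ10 : ∀ t, 0 ≤ δ1 t := by
    intro t
    show (0 : ℝ) ≤ if t = 1 then 1 else 0
    split_ifs <;> norm_num
  -- the masses
  have hPs : ∑ t ∈ range (K + 1), pP t = 1 := by
    have := hNP (Polynomial.C 1) (by simp)
    simp only [Polynomial.eval_C, mul_one] at this
    rw [← this, hNs]
  have hδ0s : ∑ t ∈ range (K + 1), δ0 t = 1 := by
    show ∑ t ∈ range (K + 1), (if t = 0 then (1 : ℝ) else 0) = 1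
    rw [sum_ite_eq', if_pos (mem_range.2 (by omega))]
  have hδ1s : ∑ t ∈ range (K + 1), δ1 t = 1 := by
    show ∑ t ∈ range (K + 1), (if t = 1 then (1 : ℝ) else 0) = 1
    rw [sum_ite_eq', if_pos (mem_range.2 (by omega))]
  have hκPs : ∑ t ∈ range (K + 1), κP t = 1 := by
    show ∑ t ∈ range (K + 1), ((1 + ρ) * pP t - (if t = 1 then 1 else 0)) / ρ = 1
    rw [← sum_div, sum_sub_distrib, ← mul_sum, hPs, sum_ite_eq', if_pos (mem_range.2 (by omega))]
    field_simp
    ring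
  have hκNs : ∑ t ∈ range (K + 1), κN t = 1 := by
    rw [sum_range_succ'] at hNs ⊢
    have e1 : ∑ t ∈ range K, κN (t + 1) = ((m : ℝ) + 1) * ∑ t ∈ range K, pN (t + 1) := by
      rw [mul_sum]
      refine sum_congr rfl fun t _ => ?_
      show (if t + 1 = 0 then _ else _) = _
      rw [if_neg (Nat.succ_ne_zero t)]
    have e2 : κN 0 = 1 - ((m : ℝ) + 1) * (1 - pN 0) := rfl
    rw [e1, e2]
    have e3 : ∑ t ∈ range K, pN (t + 1) = 1 - pN 0 := by linarith
    rw [e3]
    ring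
  have hmom0 : ∀ κ : ℕ → ℝ, mom K x0 κ 0 = ∑ t ∈ range (K + 1), κ t := by
    intro κ
    unfold mom
    exact sum_congr rfl fun t _ => by rw [pow_zero, mul_one]
  -- the moments agree
  have hmomNP : ∀ i, i ≤ d → mom K x0 pN i = mom K x0 pP i := by
    intro i hi
    have := hNP ((Polynomial.C x0 * Polynomial.X) ^ i) (by
      refine (Polynomial.natDegree_pow_le).trans ?_
      have h3 : (Polynomial.C x0 * Polynomial.X).natDegree ≤ 1 :=
        (Polynomial.natDegree_C_mul_le _ _).trans (by rw [Polynomial.natDegree_X])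
      calc i * (Polynomial.C x0 * Polynomial.X).natDegree ≤ i * 1 := by gcongr
        _ ≤ d := by omega)
    simp only [Polynomial.eval_pow, Polynomial.eval_mul, Polynomial.eval_C,
      Polynomial.eval_X] at this
    exact this
  have hmomP : ∀ i, ρ * mom K x0 κP i + mom K x0 δ1 i = (1 + ρ) * mom K x0 pP i := by
    intro i
    unfold mom
    rw [mul_sum, mul_sum, ← sum_add_distrib]
    refine sum_congr rfl fun t _ => ?_
    show ρ * (((1 + ρ) * pP t - (if t = 1 then 1 else 0)) / ρ * (x0 * (t : ℝ)) ^ i) +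
      (if t = 1 then 1 else 0) * (x0 * (t : ℝ)) ^ i = _
    field_simp
    ring
  have hmomN : ∀ i, i ≤ d → ρ * mom K x0 κN i + mom K x0 δ0 i = (1 + ρ) * mom K x0 pP i := by
    intro i hi
    rcases Nat.eq_zero_or_pos i with h | h
    · rw [h, hmom0, hmom0, hmom0, hκNs, hδ0s, hPs]
      ring
    · have e1 : mom K x0 κN i = ((m : ℝ) + 1) * mom K x0 pN i := by
        unfold mom
        rw [mul_sum]
        refine sum_congr rfl fun t _ => ?_
        by_cases ht : t = 0
        · rw [ht, Nat.cast_zero, mul_zero, zero_pow h.ne', mul_zero, mul_zero, mul_zero]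
        · have : κN t = ((m : ℝ) + 1) * pN t := if_neg ht
          rw [this]
          ring
      have e2 : mom K x0 δ0 i = 0 := by
        unfold mom
        apply sum_eq_zero
        intro t _
        by_cases ht : t = 0
        · rw [ht, Nat.cast_zero, mul_zero, zero_pow h.ne', mul_zero]
        · have : δ0 t = 0 := if_neg ht
          rw [this, zero_mul]
      rw [e1, e2, hmomNP i hi, add_zero, ← mul_assoc, mul_comm ρ, hmρ]
  -- the two set functions
  obtain ⟨cN, hcN1, hcN2⟩ := EP_set (K := K) d x0 κN δ0 (by rw [hmom0, hmom0, hκNs, hδ0s]) P hP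
  obtain ⟨cP, hcP1, hcP2⟩ := EP_set (K := K) d x0 κP δ1 (by rw [hmom0, hmom0, hκPs, hδ1s]) P hP
  set F : Finset A → ℝ := fun Z => EP K x0 (fun a => if a ∈ Z then κN else δ0) P with hF
  set H : Finset A → ℝ := fun Z => EP K x0 (fun a => if a ∈ Z then κP else δ1) P with hH
  have hFH : ∑ Z : Finset A, ρ ^ Z.card * F Z = ∑ Z : Finset A, ρ ^ Z.card * H Z := by
    show ∑ Z : Finset A, ρ ^ Z.card * EP K x0 (fun a => if a ∈ Z then κN else δ0) P =
      ∑ Z : Finset A, ρ ^ Z.card * EP K x0 (fun a => if a ∈ Z then κP else δ1) P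
    rw [sum_EP, sum_EP]
    refine sum_congr rfl fun e he => ?_
    congr 1
    refine prod_congr rfl fun a _ => ?_
    have h3 : e a ≤ d := by
      have h4 : (e.sum fun _ i => i) ≤ d := (MvPolynomial.le_totalDegree he).trans hP
      rw [Finsupp.sum_fintype _ _ (fun _ => rfl)] at h4
      exact (single_le_sum (f := fun a => e a) (fun _ _ => Nat.zero_le _) (mem_univ a)).trans h4
    rw [hmomN _ h3, hmomP]
  have hx0K : ∀ t : Fin (K + 1), x0 * ((t : ℕ) : ℝ) ≤ x0 * (K : ℝ) := by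
    intro t
    apply mul_le_mul_of_nonneg_left _ hx0
    exact_mod_cast Nat.lt_succ_iff.1 t.2
  have hFle : ∀ Z : Finset A, Z.card ≤ d + 6 * j + 1 → F Z ≤ D := by
    intro Z hZ
    apply EP_le
    · intro a t
      by_cases h : a ∈ Z
      · rw [if_pos h]; exact hκN0 t
      · rw [if_neg h]; exact hδ00 t
    · intro a
      by_cases h : a ∈ Z
      · rw [if_pos h]; exact hκNs
      · rw [if_neg h]; exact hδ0s
    · intro t ht
      apply h1
      · exact fun a => ⟨mul_nonneg hx0 (Nat.cast_nonneg _), hx0K _⟩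
      · refine (card_le_card ?_).trans hZ
        intro a ha
        rw [mem_filter] at ha
        by_contra h
        have h3 := ht a
        rw [if_neg h] at h3
        have h4 : ((t a : ℕ)) = 0 := by
          by_contra h5
          exact h3 (if_neg h5)
        apply ha.2
        rw [h4, Nat.cast_zero, mul_zero]
  have hHge : ∀ Z : Finset A, Z.card ≤ d + 6 * j + 1 → -D' ≤ H Z := by
    intro Z hZ
    apply EP_ge
    · intro a t
      by_cases h : a ∈ Z
      · rw [if_pos h]; exact hκP0 t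
      · rw [if_neg h]; exact hδ10 t
    · intro a
      by_cases h : a ∈ Z
      · rw [if_pos h]; exact hκPs
      · rw [if_neg h]; exact hδ1s
    · intro t ht
      have h3 : ∀ a, 1 ≤ (t a : ℕ) := by
        intro a
        have h4 := ht a
        by_contra h5
        have h6 : ((t a : ℕ)) = 0 := by omega
        rw [h6] at h4
        by_cases h : a ∈ Z
        · rw [if_pos h] at h4
          apply h4
          show ((1 + ρ) * pP 0 - (if (0 : ℕ) = 1 then 1 else 0)) / ρ = 0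
          rw [hP00, if_neg (by norm_num)]
          ring
        · rw [if_neg h] at h4
          apply h4
          show (if (0 : ℕ) = 1 then (1 : ℝ) else 0) = 0
          rw [if_neg (by norm_num)]
      apply h2
      · refine fun a => ⟨?_, hx0K _⟩
        calc x0 = x0 * 1 := (mul_one _).symm
          _ ≤ x0 * ((t a : ℕ) : ℝ) := by
            apply mul_le_mul_of_nonneg_left _ hx0
            exact_mod_cast h3 a
      · refine (card_le_card ?_).trans hZ
        intro a ha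
        rw [mem_filter] at ha
        by_contra h
        have h4 := ht a
        rw [if_neg h] at h4
        have h5 : ((t a : ℕ)) = 1 := by
          by_contra h6
          exact h4 (if_neg h6)
        apply ha.2
        rw [h5, Nat.cast_one, mul_one]
  -- the empty set
  have hH0 : MvPolynomial.eval (fun _ => x0) P ≤ H ∅ := by
    apply EP_ge
    · intro a t
      rw [if_neg (notMem_empty a)]
      exact hδ10 t
    · intro a
      rw [if_neg (notMem_empty a)]
      exact hδ1s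
    · intro t ht
      have h3 : (fun a => x0 * ((t a : ℕ) : ℝ)) = fun _ => x0 := by
        funext a
        have h4 := ht a
        rw [if_neg (notMem_empty a)] at h4
        have h5 : ((t a : ℕ)) = 1 := by
          by_contra h6
          exact h4 (if_neg h6)
        rw [h5, Nat.cast_one, mul_one]
      rw [h3]
  -- constants
  have hshift : ∀ (g : Finset A → ℝ) (c : Finset A → ℝ) (r : ℝ),
      (∀ Z, g Z = ∑ T ∈ Z.powerset, c T) → (∀ T, d < T.card → c T = 0) →
      (∀ Z, g Z - r = ∑ T ∈ Z.powerset, (c T - if T = ∅ then r else 0)) ∧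
      ∀ T, d < T.card → (c T - if T = ∅ then r else 0) = 0 := by
    intro g c r hg hc
    refine ⟨fun Z => ?_, fun T hT => ?_⟩
    · rw [sum_sub_distrib, ← hg Z, sum_ite_eq', if_pos (empty_mem_powerset Z)]
    · rw [hc T hT, if_neg, sub_zero]
      intro h
      rw [h, card_empty] at hT
      omega
  have hF2 : ∑ Z : Finset A, ρ ^ Z.card * (F Z - D) ≤ 0 := by
    obtain ⟨e1, e2⟩ := hshift F cN D hcN1 hcN2
    exact weighted (d := d) (j := j) hm hA (fun Z => F Z - D) _ e1 e2 fun Z hZ => by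
      have := hFle Z (by omega)
      show F Z - D ≤ 0
      linarith
  have hH2 : ∑ Z : Finset A, ρ ^ Z.card * (-H Z - D') ≤ 1 / 2 * (-H ∅ - D') := by
    obtain ⟨e1, e2⟩ := hshift (fun Z => -H Z) (fun T => -cP T) D' (fun Z => by
      show -H Z = _
      rw [sum_neg_distrib]
      exact congrArg Neg.neg (hcP1 Z)) (fun T hT => by rw [hcP2 T hT, neg_zero])
    exact weighted' (d := d) (j := j) hm hA (fun Z => -H Z - D') _ e1 e2 fun Z hZ => by
      have := hHge Z hZ
      show -H Z - D' ≤ 0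
      linarith
  have hF3 : ∑ Z : Finset A, ρ ^ Z.card * (F Z - D) =
      ∑ Z : Finset A, ρ ^ Z.card * F Z - (1 + ρ) ^ Fintype.card A * D := by
    rw [← sum_pow_card, sum_mul, ← sum_sub_distrib]
    exact sum_congr rfl fun Z _ => by ring
  have hH3 : ∑ Z : Finset A, ρ ^ Z.card * (-H Z - D') =
      -(∑ Z : Finset A, ρ ^ Z.card * H Z) - (1 + ρ) ^ Fintype.card A * D' := by
    rw [← sum_pow_card, sum_mul, ← sum_neg_distrib, ← sum_sub_distrib]
    exact sum_congr rfl fun Z _ => by ring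
  rw [hF3] at hF2
  rw [hH3, ← hFH] at hH2
  have h3 : H ∅ ≤ 2 * (1 + ρ) ^ Fintype.card A * (D + D') - D' := by linarith
  linarith

end EP

end Pool.Agent.THR72.FS
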