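import Pool.Agent.THR72.FeatW
import Pool.Agent.THR72.FeatU

/-!
# Contents with symbols: the bound for the average of a function
-/

namespace Pool.Agent.THR72.FS

open Finset

section Sym

variable {I : Type} [Fintype I] [DecidableEq I] {b : ℕ}

/-- The bits of the symbols. -/
def un (y : I → Fin b → Bool) : I × Fin b → Bool := fun v => y v.1 v.2

omit [DecidableEq I] in
lemma sum_un [DecidableEq I] (g : (I × Fin b → Bool) → ℝ) :
    ∑ Y, g Y = ∑ y : I → Fin b → Bool, g (un y) :=
  (Equiv.sum_comp (Equiv.curry I (Fin b) Bool).symm g).symm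

/-- The bits of `S` at the position `i`. -/
def fib (S : Finset (I × Fin b)) (i : I) : Finset (Fin b) := univ.filter fun e => (i, e) ∈ S

lemma chi_un (S : Finset (I × Fin b)) (y : I → Fin b → Bool) :
    chi S (un y) = ∏ i, chi (fib S i) (y i) := by
  unfold chi un fib
  have h1 : ∏ q ∈ S, sg (y q.1 q.2) = ∏ q : I × Fin b, if q ∈ S then sg (y q.1 q.2) else 1 := by
    rw [prod_ite_mem, univ_inter]
  rw [h1, Fintype.prod_prod_type]
  refine prod_congr rfl fun i _ => ?_
  rw [prod_filter]

lemma fib_empty (S : Finset (I × Fin b)) (i : I) (hi : i ∉ S.image Prod.fst) : fib S i = ∅ := by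
  unfold fib
  rw [filter_eq_empty_iff]
  intro e _ h
  exact hi (mem_image.2 ⟨(i, e), h, rfl⟩)

/-- The expectation if the symbols are independent and have the law `θ`. -/
noncomputable def Et (θ : (Fin b → Bool) → ℝ) (G : (I × Fin b → Bool) → ℝ) : ℝ :=
  ∑ y : I → Fin b → Bool, (∏ i, θ (y i)) * G (un y)

lemma Et_chi (θ : (Fin b → Bool) → ℝ) (hθ : ∑ σ, θ σ = 1) (S : Finset (I × Fin b)) :
    Et θ (chi S) = ∏ i ∈ S.image Prod.fst, ∑ σ, θ σ * chi (fib S i) σ := by
  unfold Et
  have h1 : ∀ y : I → Fin b → Bool, (∏ i, θ (y i)) * chi S (un y) =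
      ∏ i, (θ (y i) * chi (fib S i) (y i)) := by
    intro y
    rw [chi_un, prod_mul_distrib]
  have h2 := (prod_univ_sum (fun _ : I => (univ : Finset (Fin b → Bool)))
    (fun i σ => θ σ * chi (fib S i) σ)).symm
  rw [Fintype.piFinset_univ] at h2
  rw [sum_congr rfl fun y _ => h1 y, h2]
  symm
  apply prod_subset (subset_univ _)
  intro i _ hi
  rw [fib_empty S i hi]
  unfold chi
  simpa using hθ

variable {A : Type} [Fintype A] [DecidableEq A]

/-- The symbols which are not the code of a block. -/
def nonb (code : A → Fin b → Bool) : Finset (Fin b → Bool) := univ.filter fun σ => ∀ a, σ ≠ code a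

/-- The uniform law of these symbols. -/
noncomputable def uni (code : A → Fin b → Bool) (σ : Fin b → Bool) : ℝ :=
  if σ ∈ nonb code then 1 / (nonb code).card else 0

/-- The law of the symbols with the weights `p`. -/
noncomputable def thp (code : A → Fin b → Bool) (p : A → ℝ) (σ : Fin b → Bool) : ℝ :=
  (1 - ∑ a, p a) * uni code σ + ∑ a, p a * (if σ = code a then 1 else 0)

lemma nonb_card (code : A → Fin b → Bool) (hc : Function.Injective code) :
    (nonb code).card + Fintype.card A = 2 ^ b := by
  have h1 : (univ.image code).card = Fintype.card A := by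
    rw [card_image_of_injective _ hc, card_univ]
  have h2 : nonb code = univ \ univ.image code := by
    ext σ
    unfold nonb
    rw [mem_filter, mem_sdiff, mem_image]
    constructor
    · rintro ⟨_, h⟩
      refine ⟨mem_univ _, ?_⟩
      rintro ⟨a, _, ha⟩
      exact h a ha.symm
    · rintro ⟨_, h⟩
      exact ⟨mem_univ _, fun a ha => h ⟨a, mem_univ _, ha.symm⟩⟩
  rw [h2, card_sdiff_of_subset (subset_univ _), h1, card_univ, Fintype.card_fun,
    Fintype.card_bool, Fintype.card_fin]
  apply Nat.sub_add_cancel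
  rw [← h1]
  calc (univ.image code).card ≤ (univ : Finset (Fin b → Bool)).card := card_le_card (subset_univ _)
    _ = 2 ^ b := by rw [card_univ, Fintype.card_fun, Fintype.card_bool, Fintype.card_fin]

lemma uni_sum (code : A → Fin b → Bool) (h : 0 < (nonb code).card) : ∑ σ, uni code σ = 1 := by
  unfold uni
  rw [← sum_filter, filter_mem_eq_inter, univ_inter, sum_const, nsmul_eq_mul]
  have : (0 : ℝ) < (nonb code).card := by exact_mod_cast h
  field_simp

lemma uni_code (code : A → Fin b → Bool) (a : A) : uni code (code a) = 0 := by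
  unfold uni nonb
  rw [if_neg]
  intro h
  exact (mem_filter.1 h).2 a rfl

lemma sum_thp (code : A → Fin b → Bool) (h : 0 < (nonb code).card) (p : A → ℝ)
    (g : (Fin b → Bool) → ℝ) :
    ∑ σ, thp code p σ * g σ = (1 - ∑ a, p a) * ∑ σ, uni code σ * g σ +
      ∑ a, p a * g (code a) := by
  unfold thp
  have h1 : ∀ σ, ((1 - ∑ a, p a) * uni code σ + ∑ a, p a * (if σ = code a then 1 else 0)) * g σ =
      (1 - ∑ a, p a) * (uni code σ * g σ) +
        ∑ a, p a * (if σ = code a then g σ else 0) := by
    intro σ
    rw [add_mul, sum_mul]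
    congr 1
    · ring
    · refine sum_congr rfl fun a _ => ?_
      by_cases h : σ = code a
      · rw [if_pos h, if_pos h]; ring
      · rw [if_neg h, if_neg h]; ring
  rw [sum_congr rfl fun σ _ => h1 σ, sum_add_distrib, ← mul_sum, sum_comm]
  congr 1
  refine sum_congr rfl fun a _ => ?_
  rw [← mul_sum, sum_ite_eq', if_pos (mem_univ _)]

lemma thp_sum (code : A → Fin b → Bool) (h : 0 < (nonb code).card) (p : A → ℝ) :
    ∑ σ, thp code p σ = 1 := by
  have h1 := sum_thp code h p (fun _ => 1)
  simp only [mul_one] at h1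
  rw [h1, uni_sum code h]
  ring

lemma thp_code (code : A → Fin b → Bool) (hc : Function.Injective code) (p : A → ℝ) (a : A) :
    thp code p (code a) = p a := by
  unfold thp
  rw [uni_code, mul_zero, zero_add]
  rw [sum_eq_single_of_mem a (mem_univ _)]
  · rw [if_pos rfl, mul_one]
  · intro a' _ ha'
    rw [if_neg fun h => ha' (hc h).symm, mul_zero]

lemma thp_nonneg (code : A → Fin b → Bool) (p : A → ℝ) (hp : ∀ a, 0 ≤ p a)
    (hs : ∑ a, p a ≤ 1) (σ : Fin b → Bool) : 0 ≤ thp code p σ := by
  unfold thp uni
  apply add_nonneg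
  · apply mul_nonneg (by linarith)
    split_ifs
    · positivity
    · exact le_refl _
  · apply sum_nonneg
    intro a _
    apply mul_nonneg (hp a)
    split_ifs <;> norm_num

/-- The affine polynomial of a character. -/
noncomputable def lin (code : A → Fin b → Bool) (R : Finset (Fin b)) : MvPolynomial A ℝ :=
  MvPolynomial.C (∑ σ, uni code σ * chi R σ) +
    ∑ a, MvPolynomial.C (chi R (code a) - ∑ σ, uni code σ * chi R σ) * MvPolynomial.X a

lemma lin_eval (code : A → Fin b → Bool) (h : 0 < (nonb code).card) (R : Finset (Fin b))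
    (p : A → ℝ) : MvPolynomial.eval p (lin code R) = ∑ σ, thp code p σ * chi R σ := by
  rw [sum_thp code h]
  unfold lin
  rw [map_add, MvPolynomial.eval_C, map_sum]
  have h1 : ∀ a, MvPolynomial.eval p (MvPolynomial.C (chi R (code a) -
      ∑ σ, uni code σ * chi R σ) * MvPolynomial.X a) =
      p a * chi R (code a) - p a * ∑ σ, uni code σ * chi R σ := by
    intro a
    rw [map_mul, MvPolynomial.eval_C, MvPolynomial.eval_X]
    ring
  rw [sum_congr rfl fun a _ => h1 a, sum_sub_distrib, ← sum_mul]
  ring

lemma lin_deg (code : A → Fin b → Bool) (R : Finset (Fin b)) : (lin code R).totalDegree ≤ 1 := by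
  unfold lin
  refine (MvPolynomial.totalDegree_add _ _).trans (max_le ?_ ?_)
  · rw [MvPolynomial.totalDegree_C]
    exact Nat.zero_le _
  · apply MvPolynomial.totalDegree_finsetSum_le
    intro a _
    refine (MvPolynomial.totalDegree_mul _ _).trans ?_
    rw [MvPolynomial.totalDegree_C, MvPolynomial.totalDegree_X]

/-- The expectations of the functions of low degree are polynomials in the weights. -/
theorem exists_pol (d : ℕ) (code : A → Fin b → Bool) (h : 0 < (nonb code).card)
    (Lo : Finset (Finset (I × Fin b))) (hLo : ∀ S ∈ Lo, (S.image Prod.fst).card ≤ d)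
    (c : Finset (I × Fin b) → ℝ) : ∃ P : MvPolynomial A ℝ, P.totalDegree ≤ d ∧
      ∀ p : A → ℝ, MvPolynomial.eval p P = Et (thp code p) fun Y => ∑ S ∈ Lo, c S * chi S Y := by
  refine ⟨∑ S ∈ Lo, MvPolynomial.C (c S) * ∏ i ∈ S.image Prod.fst, lin code (fib S i), ?_, ?_⟩
  · apply MvPolynomial.totalDegree_finsetSum_le
    intro S hS
    refine (MvPolynomial.totalDegree_mul _ _).trans ?_
    rw [MvPolynomial.totalDegree_C, Nat.zero_add]
    refine (MvPolynomial.totalDegree_finsetProd _ _).trans ?_
    calc ∑ i ∈ S.image Prod.fst, (lin code (fib S i)).totalDegree ≤ ∑ i ∈ S.image Prod.fst, 1 :=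
          sum_le_sum fun i _ => lin_deg code _
      _ ≤ d := by
          rw [← card_eq_sum_ones]
          exact hLo S hS
  · intro p
    rw [map_sum]
    have h1 : Et (thp code p) (fun Y => ∑ S ∈ Lo, c S * chi S Y) =
        ∑ S ∈ Lo, c S * Et (thp code p) (chi S) := by
      unfold Et
      simp only [mul_sum]
      rw [sum_comm]
      refine sum_congr rfl fun S _ => sum_congr rfl fun y _ => ?_
      ring
    rw [h1]
    refine sum_congr rfl fun S _ => ?_
    rw [map_mul, MvPolynomial.eval_C, map_prod, Et_chi _ (thp_sum code h p)]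
    congr 1
    exact prod_congr rfl fun i _ => lin_eval code h _ p

end Sym

end Pool.Agent.THR72.FS
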