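import Pool.Agent.THR72.FeatX

/-!
# Contents with symbols: the bound for the average of a function, continued
-/

namespace Pool.Agent.THR72.FS

open Finset

section Bound

variable {I : Type} [Fintype I] [DecidableEq I] {b : ℕ} {A : Type} [Fintype A] [DecidableEq A]

/-- The probability that a block is not hit. -/
lemma miss (code : A → Fin b → Bool) (hc : Function.Injective code) (h : 0 < (nonb code).card)
    (p : A → ℝ) (a : A) :
    ∑ y : I → Fin b → Bool, (if ∀ i, y i ≠ code a then ∏ i, thp code p (y i) else 0) =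
      (1 - p a) ^ Fintype.card I := by
  have h1 : ∀ y : I → Fin b → Bool, (if ∀ i, y i ≠ code a then ∏ i, thp code p (y i) else 0) =
      ∏ i, (if y i ≠ code a then thp code p (y i) else 0) := by
    intro y
    by_cases hy : ∀ i, y i ≠ code a
    · rw [if_pos hy]
      exact prod_congr rfl fun i _ => (if_pos (hy i)).symm
    · rw [if_neg hy]
      push Not at hy
      obtain ⟨i, hi⟩ := hy
      exact (prod_eq_zero (mem_univ i) (if_neg (not_not.2 hi))).symm
  have h2 := (prod_univ_sum (fun _ : I => (univ : Finset (Fin b → Bool)))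
    (fun _ σ => if σ ≠ code a then thp code p σ else 0)).symm
  rw [Fintype.piFinset_univ] at h2
  rw [sum_congr rfl fun y _ => h1 y, h2]
  have h3 : ∑ σ : Fin b → Bool, (if σ ≠ code a then thp code p σ else 0) = 1 - p a := by
    have h4 : ∀ σ : Fin b → Bool, (if σ ≠ code a then thp code p σ else 0) =
        thp code p σ - if σ = code a then thp code p σ else 0 := by
      intro σ
      by_cases hσ : σ = code a
      · rw [if_pos hσ, if_neg (not_not.2 hσ), sub_self]
      · rw [if_neg hσ, if_pos hσ, sub_zero]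
    rw [sum_congr rfl fun σ _ => h4 σ, sum_sub_distrib, thp_sum code h, sum_ite_eq',
      if_pos (mem_univ _), thp_code code hc]
  rw [prod_congr rfl fun i _ => h3, prod_const, card_univ]

/-- The lower bound for the expectation. -/
lemma Et_ge (code : A → Fin b → Bool) (hc : Function.Injective code) (h : 0 < (nonb code).card)
    (p : A → ℝ) (hp : ∀ a, 0 ≤ p a) (hs : ∑ a, p a ≤ 1) (G : (I × Fin b → Bool) → ℝ) (U : ℝ)
    (hU : 0 ≤ U) (hG : ∀ Y, -U ≤ G Y)
    (hpos : ∀ y : I → Fin b → Bool, (∀ a, ∃ i, y i = code a) → 0 ≤ G (un y)) :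
    -(U * ∑ a, (1 - p a) ^ Fintype.card I) ≤ Et (thp code p) G := by
  have h0 : ∀ y : I → Fin b → Bool, 0 ≤ ∏ i, thp code p (y i) := fun y =>
    prod_nonneg fun i _ => thp_nonneg code p hp hs _
  have h1 : U * ∑ a, (1 - p a) ^ Fintype.card I = ∑ y : I → Fin b → Bool,
      U * ∑ a, (if ∀ i, y i ≠ code a then ∏ i, thp code p (y i) else 0) := by
    rw [← mul_sum, sum_comm]
    congr 1
    exact sum_congr rfl fun a _ => (miss code hc h p a).symm
  unfold Et
  rw [h1, ← sum_neg_distrib]
  refine sum_le_sum fun y _ => ?_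
  have h2 : ∀ a, 0 ≤ (if ∀ i, y i ≠ code a then ∏ i, thp code p (y i) else 0) := by
    intro a
    split_ifs
    · exact h0 y
    · exact le_refl _
  by_cases hy : ∀ a, ∃ i, y i = code a
  · have h3 : 0 ≤ (∏ i, thp code p (y i)) * G (un y) := mul_nonneg (h0 y) (hpos y hy)
    have h4 : 0 ≤ U * ∑ a, (if ∀ i, y i ≠ code a then ∏ i, thp code p (y i) else 0) :=
      mul_nonneg hU (sum_nonneg fun a _ => h2 a)
    linarith
  · push Not at hy
    obtain ⟨a, ha⟩ := hy
    have h3 : ∏ i, thp code p (y i) ≤
        ∑ a, (if ∀ i, y i ≠ code a then ∏ i, thp code p (y i) else 0) := by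
      have h4 := single_le_sum (f := fun a => if ∀ i, y i ≠ code a then ∏ i, thp code p (y i)
        else 0) (fun a _ => h2 a) (mem_univ a)
      simp only [if_pos ha] at h4
      exact h4
    have h4 : U * ∏ i, thp code p (y i) ≤
        U * ∑ a, (if ∀ i, y i ≠ code a then ∏ i, thp code p (y i) else 0) :=
      mul_le_mul_of_nonneg_left h3 hU
    have h5 : -U * ∏ i, thp code p (y i) ≤ (∏ i, thp code p (y i)) * G (un y) := by
      rw [mul_comm]
      exact mul_le_mul_of_nonneg_left (hG _) (h0 y)
    linarith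

/-- The upper bound for the expectation. -/
lemma Et_le (code : A → Fin b → Bool) (hc : Function.Injective code) (h : 0 < (nonb code).card)
    (p : A → ℝ) (hp : ∀ a, 0 ≤ p a) (hs : ∑ a, p a ≤ 1) (B : ℕ)
    (hB : (univ.filter fun a => p a ≠ 0).card ≤ B) (G : (I × Fin b → Bool) → ℝ) (D : ℝ)
    (hneg : ∀ y : I → Fin b → Bool,
      ((univ : Finset A).filter fun a => ∃ i, y i = code a).card ≤ B → G (un y) ≤ D) :
    Et (thp code p) G ≤ D := by
  have h0 : ∀ y : I → Fin b → Bool, 0 ≤ ∏ i, thp code p (y i) := fun y =>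
    prod_nonneg fun i _ => thp_nonneg code p hp hs _
  have hmass : ∑ y : I → Fin b → Bool, ∏ i, thp code p (y i) = 1 := by
    have h2 := (prod_univ_sum (fun _ : I => (univ : Finset (Fin b → Bool)))
      (fun _ σ => thp code p σ)).symm
    rw [Fintype.piFinset_univ] at h2
    rw [h2]
    exact prod_eq_one fun i _ => thp_sum code h p
  unfold Et
  calc ∑ y : I → Fin b → Bool, (∏ i, thp code p (y i)) * G (un y)
      ≤ ∑ y : I → Fin b → Bool, (∏ i, thp code p (y i)) * D := by
        refine sum_le_sum fun y _ => ?_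
        by_cases hy : ∏ i, thp code p (y i) = 0
        · rw [hy, zero_mul, zero_mul]
        · apply mul_le_mul_of_nonneg_left _ (h0 y)
          apply hneg
          refine (card_le_card ?_).trans hB
          intro a ha
          rw [mem_filter] at ha ⊢
          obtain ⟨_, i, hi⟩ := ha
          refine ⟨mem_univ _, fun h3 => hy ?_⟩
          apply prod_eq_zero (mem_univ i)
          rw [hi, thp_code code hc, h3]
    _ = D := by rw [← sum_mul, hmass, one_mul]

/-- The uniform law. -/
lemma thp_unif (code : A → Fin b → Bool) (hc : Function.Injective code)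
    (h : 0 < (nonb code).card) (σ : Fin b → Bool) :
    thp code (fun _ => 1 / 2 ^ b) σ = 1 / 2 ^ b := by
  by_cases hσ : ∃ a, σ = code a
  · obtain ⟨a, rfl⟩ := hσ
    exact thp_code code hc _ a
  · push Not at hσ
    unfold thp
    have h1 : ∑ a : A, (1 / 2 ^ b : ℝ) * (if σ = code a then 1 else 0) = 0 :=
      sum_eq_zero fun a _ => by rw [if_neg (hσ a), mul_zero]
    have h2 : σ ∈ nonb code := mem_filter.2 ⟨mem_univ _, hσ⟩
    have h3 := nonb_card code hc
    have h4 : ((nonb code).card : ℝ) + Fintype.card A = 2 ^ b := by exact_mod_cast h3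
    have h5 : (0 : ℝ) < (nonb code).card := by exact_mod_cast h
    rw [h1, add_zero, sum_const, card_univ, nsmul_eq_mul]
    unfold uni
    rw [if_pos h2]
    have h6 : (0 : ℝ) < 2 ^ b := by positivity
    field_simp
    linarith

/-- **The bound for the average.** -/
theorem sym_bound {d j m : ℕ} (hd : 1 ≤ d) (hm : 1 ≤ m) (hA : Fintype.card A ≤ j * m)
    (code : A → Fin b → Bool) (hc : Function.Injective code) (hM1 : 2 * Fintype.card A ≤ 2 ^ b)
    (hM2 : 2 * ((d + 6 * j + 1) * ((8 * (m + 1) + 1) * d ^ 2)) ≤ 2 ^ b)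
    (G : (I × Fin b → Bool) → ℝ) (U : ℝ) (hU : 0 ≤ U) (hG : ∀ Y, -U ≤ G Y)
    (hneg : ∀ y : I → Fin b → Bool,
      ((univ : Finset A).filter fun a => ∃ i, y i = code a).card ≤ d + 6 * j + 1 → G (un y) ≤ 0)
    (hpos : ∀ y : I → Fin b → Bool, (∀ a, ∃ i, y i = code a) → 0 ≤ G (un y)) (D0 : ℝ)
    (hD0 : D0 = (∑ S ∈ univ.filter fun S : Finset (I × Fin b) => d < (S.image Prod.fst).card,
      |four G S|) / 2 ^ Fintype.card (I × Fin b)) :
    (∑ Y, G Y) / 2 ^ Fintype.card (I × Fin b) ≤ 2 * (1 + 1 / (m : ℝ)) ^ Fintype.card A *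
      (2 * D0 + U * (Fintype.card A * (1 - 1 / 2 ^ b) ^ Fintype.card I)) + D0 := by
  have hD0n : 0 ≤ D0 := by
    rw [hD0]
    exact div_nonneg (sum_nonneg fun S _ => abs_nonneg _) (by positivity)
  set p := Fintype.card (I × Fin b) with hp
  have h2b : (0 : ℝ) < 2 ^ b := by positivity
  have hnb : 0 < (nonb code).card := by
    have := nonb_card code hc
    have : 0 < 2 ^ b := by positivity
    omega
  set x0 : ℝ := 1 / 2 ^ b with hx0
  have hx00 : 0 < x0 := by positivity
  have hx01 : x0 ≤ 1 := by
    rw [hx0, div_le_one h2b]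
    exact one_le_pow₀ (by norm_num)
  set Lo : Finset (Finset (I × Fin b)) := univ.filter fun S : Finset (I × Fin b) =>
    ¬ d < (S.image Prod.fst).card with hLo
  obtain ⟨P, hP1, hP2⟩ := exists_pol d code hnb Lo (fun S hS => not_lt.1 (mem_filter.1 hS).2)
    (fun S => four G S / 2 ^ p)
  set Gw : (I × Fin b → Bool) → ℝ := fun Y => ∑ S ∈ Lo, four G S / 2 ^ p * chi S Y with hGwd
  have hGw : ∀ Y, |G Y - Gw Y| ≤ D0 := by
    intro Y
    have e1 : G Y = ∑ S, four G S / 2 ^ p * chi S Y := by
      have := four_inv G Y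
      have e2 : ∀ S : Finset (I × Fin b), four G S / 2 ^ p * chi S Y =
          four G S * chi S Y / 2 ^ p := fun S => by ring
      rw [sum_congr rfl fun S _ => e2 S, ← sum_div, this, mul_div_cancel_left₀]
      positivity
    have e2 : G Y - Gw Y =
        ∑ S ∈ univ.filter fun S : Finset (I × Fin b) => d < (S.image Prod.fst).card,
        four G S / 2 ^ p * chi S Y := by
      show G Y - ∑ S ∈ Lo, four G S / 2 ^ p * chi S Y = _
      rw [e1, ← sum_filter_add_sum_filter_not univ
        (fun S : Finset (I × Fin b) => d < (S.image Prod.fst).card)]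
      exact add_sub_cancel_right _ _
    rw [e2, hD0, sum_div]
    refine (abs_sum_le_sum_abs _ _).trans (sum_le_sum fun S _ => ?_)
    rw [abs_mul, abs_chi, mul_one, abs_div, abs_of_pos (show (0 : ℝ) < 2 ^ p by positivity)]
  set K : ℕ := (8 * (m + 1) + 1) * d ^ 2 with hK
  set B : ℕ := d + 6 * j + 1 with hB
  set β : ℝ := Fintype.card A * (1 - x0) ^ Fintype.card I with hβ
  have hβ0 : 0 ≤ β := mul_nonneg (Nat.cast_nonneg _) (pow_nonneg (by linarith) _)
  have hBK : (B : ℝ) * (x0 * K) ≤ 1 / 2 := by
    have h1 : 2 * ((B : ℝ) * K) ≤ 2 ^ b := by exact_mod_cast hM2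
    rw [hx0]
    calc (B : ℝ) * (1 / 2 ^ b * K) = 2 * (B * K) / 2 ^ b / 2 := by ring
      _ ≤ 1 / 2 := by
        have : 2 * ((B : ℝ) * K) / 2 ^ b ≤ 1 := (div_le_one h2b).2 h1
        linarith
  have hAx : (Fintype.card A : ℝ) * x0 ≤ 1 / 2 := by
    have h1 : 2 * (Fintype.card A : ℝ) ≤ 2 ^ b := by exact_mod_cast hM1
    rw [hx0]
    calc (Fintype.card A : ℝ) * (1 / 2 ^ b) = 2 * Fintype.card A / 2 ^ b / 2 := by ring
      _ ≤ 1 / 2 := by
        have : 2 * (Fintype.card A : ℝ) / 2 ^ b ≤ 1 := (div_le_one h2b).2 h1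
        linarith
  -- the bound for the polynomial
  have hpoly := poly_bound (j := j) hd hm hA P hP1 x0 hx00.le D0 (D0 + U * β)
    (by positivity) (by
      intro q hq1 hq2
      rw [hP2]
      have hs : ∑ a, q a ≤ 1 := by
        have h1 : ∑ a, q a = ∑ a ∈ univ.filter fun a => q a ≠ 0, q a := by
          rw [sum_filter_ne_zero]
        rw [h1]
        calc ∑ a ∈ univ.filter fun a => q a ≠ 0, q a ≤
              ∑ a ∈ univ.filter fun a => q a ≠ 0, x0 * (K : ℝ) := sum_le_sum fun a _ => (hq1 a).2
          _ = ((univ.filter fun a => q a ≠ 0).card : ℝ) * (x0 * K) := by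
              rw [sum_const, nsmul_eq_mul]
          _ ≤ (B : ℝ) * (x0 * K) := by
              have : ((univ.filter fun a => q a ≠ 0).card : ℝ) ≤ B := by exact_mod_cast hq2
              gcongr
          _ ≤ 1 := by linarith
      apply Et_le code hc hnb q (fun a => (hq1 a).1) hs B hq2
      intro y hy
      have e1 := hneg y hy
      have e2 := abs_le.1 (hGw (un y))
      show Gw (un y) ≤ D0
      linarith [e2.1]) (by
      intro q hq1 hq2
      rw [hP2]
      have hq0 : ∀ a, 0 ≤ q a := fun a => hx00.le.trans (hq1 a).1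
      have hs : ∑ a, q a ≤ 1 := by
        have h1 : ∀ a, q a ≤ x0 + if q a ≠ x0 then x0 * (K : ℝ) else 0 := by
          intro a
          by_cases h : q a = x0
          · rw [if_neg (not_not.2 h), h, add_zero]
          · rw [if_pos h]
            linarith [(hq1 a).2]
        calc ∑ a, q a ≤ ∑ a, (x0 + if q a ≠ x0 then x0 * (K : ℝ) else 0) :=
              sum_le_sum fun a _ => h1 a
          _ = Fintype.card A * x0 + ((univ.filter fun a => q a ≠ x0).card : ℝ) * (x0 * K) := by
              rw [sum_add_distrib, sum_const, card_univ, nsmul_eq_mul, ← sum_filter, sum_const,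
                nsmul_eq_mul]
          _ ≤ Fintype.card A * x0 + (B : ℝ) * (x0 * K) := by
              have : ((univ.filter fun a => q a ≠ x0).card : ℝ) ≤ B := by exact_mod_cast hq2
              gcongr
          _ ≤ 1 := by linarith
      have h1 := Et_ge code hc hnb q hq0 hs G U hU hG hpos
      have h2 : ∑ a, (1 - q a) ^ Fintype.card I ≤ β := by
        rw [hβ]
        calc ∑ a, (1 - q a) ^ Fintype.card I ≤ ∑ _a : A, (1 - x0) ^ Fintype.card I := by
              refine sum_le_sum fun a _ => ?_
              apply pow_le_pow_left₀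
              · have : q a ≤ ∑ a, q a := single_le_sum (fun a _ => hq0 a) (mem_univ a)
                linarith
              · linarith [(hq1 a).1]
          _ = _ := by rw [sum_const, card_univ, nsmul_eq_mul]
      have h3 : Et (thp code q) G - D0 ≤ Et (thp code q) Gw := by
        have hmass : ∑ y : I → Fin b → Bool, ∏ i, thp code q (y i) = 1 := by
          have h2 := (prod_univ_sum (fun _ : I => (univ : Finset (Fin b → Bool)))
            (fun _ σ => thp code q σ)).symm
          rw [Fintype.piFinset_univ] at h2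
          rw [h2]
          exact prod_eq_one fun i _ => thp_sum code hnb q
        have h4 : Et (thp code q) G - D0 = ∑ y : I → Fin b → Bool,
            (∏ i, thp code q (y i)) * (G (un y) - D0) := by
          unfold Et
          have h5 : ∀ y : I → Fin b → Bool, (∏ i, thp code q (y i)) * (G (un y) - D0) =
              (∏ i, thp code q (y i)) * G (un y) - (∏ i, thp code q (y i)) * D0 := fun y => by ring
          rw [sum_congr rfl fun y _ => h5 y, sum_sub_distrib, ← sum_mul, hmass, one_mul]
        rw [h4]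
        unfold Et
        refine sum_le_sum fun y _ => ?_
        apply mul_le_mul_of_nonneg_left
        · have e2 := abs_le.1 (hGw (un y))
          linarith [e2.2]
        · exact prod_nonneg fun i _ => thp_nonneg code q hq0 hs _
      have h4 : U * ∑ a, (1 - q a) ^ Fintype.card I ≤ U * β := mul_le_mul_of_nonneg_left h2 hU
      show -(D0 + U * β) ≤ Et (thp code q) Gw
      linarith)
  -- the average
  have hpow : (2 : ℝ) ^ p = (2 ^ b) ^ Fintype.card I := by
    rw [hp, Fintype.card_prod, Fintype.card_fin, mul_comm, pow_mul]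
  have hbase : Et (thp code fun _ => x0) Gw = (∑ Y, Gw Y) / 2 ^ p := by
    unfold Et
    have h1 : ∀ y : I → Fin b → Bool, (∏ i, thp code (fun _ => x0) (y i)) * Gw (un y) =
        Gw (un y) * (1 / 2 ^ p) := by
      intro y
      have h2 : ∏ i, thp code (fun _ => x0) (y i) = 1 / 2 ^ p := by
        rw [prod_congr rfl fun i _ => thp_unif code hc hnb (y i), prod_const, card_univ, hpow,
          one_div_pow]
      rw [h2, mul_comm]
    rw [sum_congr rfl fun y _ => h1 y, ← sum_mul, sum_un]
    ring
  have h1 : (∑ Y, G Y) / 2 ^ p ≤ (∑ Y, Gw Y) / 2 ^ p + D0 := by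
    rw [div_add' _ _ _ (by positivity)]
    apply div_le_div_of_nonneg_right _ (by positivity)
    calc ∑ Y, G Y ≤ ∑ Y, (Gw Y + D0) := by
          refine sum_le_sum fun Y _ => ?_
          have e2 := abs_le.1 (hGw Y)
          linarith [e2.2]
      _ = ∑ Y, Gw Y + D0 * 2 ^ p := by
          rw [sum_add_distrib, sum_const, card_univ, Fintype.card_fun, Fintype.card_bool,
            nsmul_eq_mul]
          push_cast
          ring
  have h2 : MvPolynomial.eval (fun _ => x0) P = (∑ Y, Gw Y) / 2 ^ p := by
    rw [hP2]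
    exact hbase
  rw [h2] at hpoly
  calc (∑ Y, G Y) / 2 ^ p ≤ (∑ Y, Gw Y) / 2 ^ p + D0 := h1
    _ ≤ 2 * (1 + 1 / (m : ℝ)) ^ Fintype.card A * (D0 + (D0 + U * β)) + D0 := by linarith
    _ = _ := by rw [hβ]; ring

end Bound

end Pool.Agent.THR72.FS
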