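import Pool.Agent.THR72.FeatY
import Pool.Agent.THR72.FeatG

/-!
# A hidden code with symbols which no function of a space of small dimension can separate
-/

namespace Pool.Agent.THR72.FS

open Finset

section Alive

variable {P : Type} [Fintype P] [DecidableEq P] {T : ℕ}

lemma card_alive (τ : P → Fin T) (Y : P → Bool) :
    ((univ : Finset (P × Fin T → Bool)).filter fun X => alive τ X = Y).card * 2 ^ Fintype.card P =
      2 ^ (Fintype.card P * T) := by
  set S : Finset (P × Fin T) := univ.image fun v : P => (v, τ v) with hS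
  have hSc : S.card = Fintype.card P := by
    rw [hS, card_image_of_injective, card_univ]
    intro i j h
    exact congrArg Prod.fst h
  have h2 := card_agree' (fun q : P × Fin T => Y q.1) S
  rw [Fintype.card_bool, hSc, Fintype.card_prod, Fintype.card_fin] at h2
  rw [← h2]
  congr 2
  ext X
  rw [mem_filter, mem_filter]
  refine and_congr_right fun _ => ?_
  constructor
  · intro h3 v hv
    obtain ⟨w, _, rfl⟩ := mem_image.1 hv
    exact congrFun h3 w
  · intro h3
    funext v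
    exact h3 (v, τ v) (mem_image_of_mem _ (mem_univ v))

lemma sum_alive (τ : P → Fin T) (g : (P → Bool) → ℝ) :
    2 ^ Fintype.card P * ∑ X : P × Fin T → Bool, g (alive τ X) =
      2 ^ (Fintype.card P * T) * ∑ Y, g Y := by
  have h1 : ∑ X : P × Fin T → Bool, g (alive τ X) =
      ∑ Y, (((univ : Finset (P × Fin T → Bool)).filter fun X => alive τ X = Y).card : ℝ) * g Y := by
    rw [← sum_fiberwise (g := fun X : P × Fin T → Bool => alive τ X)]
    refine sum_congr rfl fun Y _ => ?_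
    rw [← nsmul_eq_mul, ← sum_const]
    exact sum_congr rfl fun X hX => by rw [(mem_filter.1 hX).2]
  rw [h1, mul_sum, mul_sum]
  refine sum_congr rfl fun Y _ => ?_
  have h2 : (((univ : Finset (P × Fin T → Bool)).filter fun X => alive τ X = Y).card : ℝ) *
      2 ^ Fintype.card P = 2 ^ (Fintype.card P * T) := by
    exact_mod_cast card_alive τ Y
  rw [← h2]
  ring

end Alive

section Sym

variable {I : Type} [Fintype I] [DecidableEq I] {b T : ℕ} {A : Type} [Fintype A] [DecidableEq A]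

/-- The content of the code `(τ, ω)`. -/
def cnt (τ : I → Fin T) (ω : I × Fin b → Bool) (X : (I × Fin b) × Fin T → Bool) (i : I) :
    Fin b → Bool := fun e => eqv (alive (τ ∘ Prod.fst) X) ω (i, e)

omit [Fintype I] [DecidableEq I] in
lemma un_cnt (τ : I → Fin T) (ω : I × Fin b → Bool) (X : (I × Fin b) × Fin T → Bool) :
    un (cnt τ ω X) = eqv (alive (τ ∘ Prod.fst) X) ω := rfl

omit [Fintype I] [DecidableEq I] in
lemma cnt_eqv (τ : I → Fin T) (X : (I × Fin b) × Fin T → Bool) (y : I → Fin b → Bool) :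
    cnt τ (eqv (alive (τ ∘ Prod.fst) X) (un y)) X = y := by
  funext i e
  unfold cnt
  rw [eqv_eqv]
  rfl

/-- The inputs which miss a block are few. -/
lemma card_miss (code : A → Fin b → Bool) (hc : Function.Injective code)
    (h : 0 < (nonb code).card) (τ : I → Fin T) (ω : I × Fin b → Bool) :
    (((univ : Finset ((I × Fin b) × Fin T → Bool)).filter fun X =>
      ¬ ∀ a, ∃ i, cnt τ ω X i = code a).card : ℝ) ≤
      Fintype.card A * (1 - 1 / 2 ^ b) ^ Fintype.card I *
        2 ^ (Fintype.card (I × Fin b) * T) := by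
  set p := Fintype.card (I × Fin b) with hp
  have hpow : (2 : ℝ) ^ p = (2 ^ b) ^ Fintype.card I := by
    rw [hp, Fintype.card_prod, Fintype.card_fin, mul_comm, pow_mul]
  have h2p : (0 : ℝ) < 2 ^ p := by positivity
  -- one block
  have h1 : ∀ a : A, (((univ : Finset ((I × Fin b) × Fin T → Bool)).filter fun X =>
      ∀ i, cnt τ ω X i ≠ code a).card : ℝ) = (1 - 1 / 2 ^ b) ^ Fintype.card I * 2 ^ (p * T) := by
    intro a
    have e1 : (((univ : Finset ((I × Fin b) × Fin T → Bool)).filter fun X =>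
        ∀ i, cnt τ ω X i ≠ code a).card : ℝ) = ∑ X : (I × Fin b) × Fin T → Bool,
        (fun Y : I × Fin b → Bool => if ∀ i, (fun e => eqv Y ω (i, e)) ≠ code a then (1 : ℝ) else 0)
          (alive (τ ∘ Prod.fst) X) := by
      rw [← sum_boole]
      rfl
    have e2 := sum_alive (τ ∘ Prod.fst : I × Fin b → Fin T) (fun Y : I × Fin b → Bool =>
      if ∀ i, (fun e => eqv Y ω (i, e)) ≠ code a then (1 : ℝ) else 0)
    rw [← e1] at e2
    have e3 : ∑ Y : I × Fin b → Bool,
        (if ∀ i, (fun e => eqv Y ω (i, e)) ≠ code a then (1 : ℝ) else 0) =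
        ∑ Y : I × Fin b → Bool, (if ∀ i, (fun e => Y (i, e)) ≠ code a then (1 : ℝ) else 0) := by
      rw [← Equiv.sum_comp (eqvPerm ω)]
      refine sum_congr rfl fun Y _ => ?_
      have e4 : eqv (eqvPerm ω Y) ω = Y := by
        funext v
        have : eqvPerm ω Y = eqv ω Y := rfl
        rw [this]
        unfold eqv
        generalize ω v = x
        generalize Y v = z
        cases x <;> cases z <;> rfl
      rw [e4]
    have e4 : ∑ Y : I × Fin b → Bool, (if ∀ i, (fun e => Y (i, e)) ≠ code a then (1 : ℝ) else 0) =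
        2 ^ p * (1 - 1 / 2 ^ b) ^ Fintype.card I := by
      rw [sum_un, ← miss code hc h (fun _ => 1 / 2 ^ b) a, mul_sum]
      refine sum_congr rfl fun y _ => ?_
      have e5 : ∏ i, thp code (fun _ => 1 / 2 ^ b) (y i) = 1 / 2 ^ p := by
        rw [prod_congr rfl fun i _ => thp_unif code hc h (y i), prod_const, card_univ, hpow,
          one_div_pow]
      rw [e5]
      by_cases h3 : ∀ i, y i ≠ code a
      · have h4 : ∀ i, (fun e => un y (i, e)) ≠ code a := h3
        rw [if_pos h3, if_pos h4]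
        field_simp
      · have h4 : ¬ ∀ i, (fun e => un y (i, e)) ≠ code a := h3
        rw [if_neg h3, if_neg h4, mul_zero]
    rw [e3, e4] at e2
    have e5 : (2 : ℝ) ^ p * (((univ : Finset ((I × Fin b) × Fin T → Bool)).filter fun X =>
        ∀ i, cnt τ ω X i ≠ code a).card : ℝ) =
        2 ^ p * ((1 - 1 / 2 ^ b) ^ Fintype.card I * 2 ^ (p * T)) := by
      rw [e2]
      ring
    exact mul_left_cancel₀ h2p.ne' e5
  have h2 : ((univ : Finset ((I × Fin b) × Fin T → Bool)).filter fun X =>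
      ¬ ∀ a, ∃ i, cnt τ ω X i = code a) ⊆ (univ : Finset A).biUnion fun a =>
      (univ : Finset ((I × Fin b) × Fin T → Bool)).filter fun X =>
      ∀ i, cnt τ ω X i ≠ code a := by
    intro X hX
    rw [mem_filter] at hX
    obtain ⟨_, hX⟩ := hX
    push Not at hX
    obtain ⟨a, ha⟩ := hX
    rw [mem_biUnion]
    exact ⟨a, mem_univ a, mem_filter.2 ⟨mem_univ _, ha⟩⟩
  have h3 := (card_le_card h2).trans card_biUnion_le
  calc (((univ : Finset ((I × Fin b) × Fin T → Bool)).filter fun X =>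
      ¬ ∀ a, ∃ i, cnt τ ω X i = code a).card : ℝ) ≤
        ∑ a : A, (((univ : Finset ((I × Fin b) × Fin T → Bool)).filter fun X =>
      ∀ i, cnt τ ω X i ≠ code a).card : ℝ) := by exact_mod_cast h3
    _ = _ := by
        rw [sum_congr rfl fun a _ => h1 a, sum_const, card_univ, nsmul_eq_mul]
        ring

/-- **The hidden code with symbols.** -/
theorem exists_code_sym {d j q : ℕ} (hd : 1 ≤ d) (hq : 1 ≤ q) (hA : Fintype.card A ≤ j * q)
    (code : A → Fin b → Bool) (hc : Function.Injective code) (hM1 : 2 * Fintype.card A ≤ 2 ^ b)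
    (hM2 : 2 * ((d + 6 * j + 1) * ((8 * (q + 1) + 1) * d ^ 2)) ≤ 2 ^ b)
    (V : Submodule ℝ (((I × Fin b) × Fin T → Bool) → ℝ)) (N : ℕ) (hN : 1 ≤ N)
    (hV : Module.finrank ℝ V ≤ N) (hT : 1600 * 9 ^ j * (N : ℝ) ^ 2 < (T : ℝ) ^ (d + 1))
    (hs : 32 * 3 ^ j * (N : ℝ) * (Fintype.card A * (1 - 1 / 2 ^ b) ^ Fintype.card I) ≤ 1) :
    ∃ (τ : I → Fin T) (ω : I × Fin b → Bool), ∀ f ∈ V,
      (∃ X, (∀ a, ∃ i, cnt τ ω X i = code a) ∧ f X ≤ 0) ∨
      ∃ X, ((univ : Finset A).filter fun a => ∃ i, cnt τ ω X i = code a).card ≤ d + 6 * j + 1 ∧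
        0 < f X := by
  by_contra hcon
  push Not at hcon
  choose f hfV hfp hfn using hcon
  have hN0 : (0 : ℝ) < N := by exact_mod_cast hN
  have hN1 : (1 : ℝ) ≤ N := by exact_mod_cast hN
  have hT1 : 1 ≤ T := by
    by_contra h
    have h0 : T = 0 := by omega
    rw [h0, Nat.cast_zero, zero_pow (Nat.succ_ne_zero d)] at hT
    have : 0 ≤ 1600 * 9 ^ j * (N : ℝ) ^ 2 := by positivity
    linarith
  have hT0 : (0 : ℝ) < T := by exact_mod_cast hT1
  have hnb : 0 < (nonb code).card := by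
    have := nonb_card code hc
    have : 0 < 2 ^ b := by positivity
    omega
  set p := Fintype.card (I × Fin b) with hp
  set n0 : ℝ := 2 ^ (p * T) with hn0
  have hn00 : 0 < n0 := by positivity
  set β : ℝ := Fintype.card A * (1 - 1 / 2 ^ b) ^ Fintype.card I with hβ
  have h2b : (1 : ℝ) ≤ 2 ^ b := one_le_pow₀ (by norm_num)
  have hβ0 : 0 ≤ β := by
    apply mul_nonneg (Nat.cast_nonneg _)
    apply pow_nonneg
    rw [sub_nonneg, div_le_one (by positivity)]
    exact h2b
  have h3j : (1 : ℝ) ≤ 3 ^ j := one_le_pow₀ (by norm_num)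
  have hβN : β * (32 * N) ≤ 1 := by
    have h1 : β * (32 * N) ≤ 32 * 3 ^ j * (N : ℝ) * β := by
      calc β * (32 * N) = 32 * 1 * N * β := by ring
        _ ≤ 32 * 3 ^ j * (N : ℝ) * β := by gcongr
    linarith
  have hcard : (Fintype.card ((I × Fin b) × Fin T → Bool) : ℝ) = n0 := by
    rw [Fintype.card_fun, Fintype.card_bool, Fintype.card_prod, Fintype.card_fin]
    push_cast
    rfl
  have hcard2 : (Fintype.card (I → Fin T) : ℝ) = (T : ℝ) ^ Fintype.card I := by
    rw [Fintype.card_fun, Fintype.card_fin]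
    push_cast
    rfl
  have hcard3 : (Fintype.card (I × Fin b → Bool) : ℝ) = (2 : ℝ) ^ p := by
    rw [Fintype.card_fun, Fintype.card_bool]
    push_cast
    rfl
  obtain ⟨z, hz01, hzc, hzf⟩ := scaling V N hV (4 * N / n0) (by positivity)
  -- the inputs which are lost are few
  have hzc' : 4 * ((univ.filter fun X => z X < 1).card : ℝ) ≤ n0 := by
    rw [div_mul_eq_mul_div, div_le_iff₀ hn00] at hzc
    have h1 : (N : ℝ) * (4 * ((univ.filter fun X => z X < 1).card : ℝ)) ≤ N * n0 := by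
      calc _ = 4 * (N : ℝ) * ((univ.filter fun X => z X < 1).card : ℝ) := by ring
        _ ≤ _ := hzc
    exact le_of_mul_le_mul_left h1 hN0
  have hbad : ∀ (τ : I → Fin T) (ω : I × Fin b → Bool),
      32 * (N : ℝ) * (((univ : Finset ((I × Fin b) × Fin T → Bool)).filter fun X =>
        ¬ ∀ a, ∃ i, cnt τ ω X i = code a).card : ℝ) ≤ n0 := by
    intro τ ω
    have h1 := card_miss code hc hnb τ ω
    calc 32 * (N : ℝ) * (((univ : Finset ((I × Fin b) × Fin T → Bool)).filter fun X =>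
        ¬ ∀ a, ∃ i, cnt τ ω X i = code a).card : ℝ) ≤ 32 * N * (β * n0) := by gcongr
      _ = β * (32 * N) * n0 := by ring
      _ ≤ 1 * n0 := by gcongr
      _ = n0 := one_mul _
  -- the sum of squares
  set Q : (I → Fin T) → (I × Fin b → Bool) → ℝ := fun τ ω =>
    ∑ Y, z Y * f τ ω Y ^ 2 with hQ
  have hQ0 : ∀ τ ω, 0 < Q τ ω := by
    intro τ ω
    have h1 : ∃ X, z X = 1 ∧ ∀ a, ∃ i, cnt τ ω X i = code a := by
      by_contra h
      push Not at h
      have h2 : (univ : Finset ((I × Fin b) × Fin T → Bool)) ⊆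
          (univ.filter fun X => z X < 1) ∪
          (univ.filter fun X => ¬ ∀ a, ∃ i, cnt τ ω X i = code a) := by
        intro X _
        rw [mem_union, mem_filter, mem_filter]
        rcases (hz01 X).2.eq_or_lt with h3 | h3
        · right
          refine ⟨mem_univ _, ?_⟩
          intro h4
          obtain ⟨a, ha⟩ := h X h3
          obtain ⟨i, hi⟩ := h4 a
          exact ha i hi
        · left
          exact ⟨mem_univ _, h3⟩
      have h3 := (card_le_card h2).trans (card_union_le _ _)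
      rw [card_univ] at h3
      have h4 : n0 ≤ ((univ.filter fun X => z X < 1).card : ℝ) +
          ((univ : Finset ((I × Fin b) × Fin T → Bool)).filter fun X =>
          ¬ ∀ a, ∃ i, cnt τ ω X i = code a).card := by
        rw [← hcard]
        exact_mod_cast h3
      have h5 := hbad τ ω
      have h7 : (0 : ℝ) ≤ (((univ : Finset ((I × Fin b) × Fin T → Bool)).filter fun X =>
          ¬ ∀ a, ∃ i, cnt τ ω X i = code a).card : ℝ) := Nat.cast_nonneg _
      nlinarith
    obtain ⟨X, hX1, hX2⟩ := h1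
    have h2 : 0 < z X * f τ ω X ^ 2 := by
      rw [hX1, one_mul]
      have := hfp τ ω X hX2
      positivity
    exact h2.trans_le (single_le_sum (f := fun Y => z Y * f τ ω Y ^ 2)
      (fun Y _ => mul_nonneg (hz01 Y).1 (sq_nonneg _)) (mem_univ X))
  -- the scaled functions
  set F : (I → Fin T) → (I × Fin b → Bool) → ((I × Fin b) × Fin T → Bool) → ℝ :=
    fun τ ω X => √(n0 / Q τ ω) * (√(z X) * f τ ω X) with hF
  have hFsq : ∀ τ ω X, F τ ω X ^ 2 = n0 / Q τ ω * (z X * f τ ω X ^ 2) := by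
    intro τ ω X
    rw [hF]
    show (√(n0 / Q τ ω) * (√(z X) * f τ ω X)) ^ 2 = _
    rw [mul_pow, mul_pow, Real.sq_sqrt (div_nonneg hn00.le (hQ0 τ ω).le), Real.sq_sqrt (hz01 X).1]
  have hFsum : ∀ τ ω, ∑ X, F τ ω X ^ 2 = n0 := by
    intro τ ω
    rw [sum_congr rfl fun X _ => hFsq τ ω X, ← mul_sum]
    show n0 / Q τ ω * Q τ ω = n0
    exact div_mul_cancel₀ _ (hQ0 τ ω).ne'
  have hFle : ∀ τ ω X, F τ ω X ^ 2 ≤ 4 * N := by
    intro τ ω X
    rw [hFsq, div_mul_eq_mul_div, div_le_iff₀ (hQ0 τ ω)]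
    have h1 := hzf (f τ ω) (hfV τ ω) X
    calc n0 * (z X * f τ ω X ^ 2) ≤ n0 * (4 * N / n0 * Q τ ω) := by gcongr
      _ = 4 * N * Q τ ω := by field_simp
  have hFpos : ∀ τ ω X, (∀ a, ∃ i, cnt τ ω X i = code a) → 0 ≤ F τ ω X := by
    intro τ ω X hX
    have := hfp τ ω X hX
    rw [hF]
    positivity
  have hFneg : ∀ τ ω X, ((univ : Finset A).filter fun a => ∃ i, cnt τ ω X i = code a).card ≤
      d + 6 * j + 1 → F τ ω X ≤ 0 := by
    intro τ ω X hX
    have := hfn τ ω X hX
    show √(n0 / Q τ ω) * (√(z X) * f τ ω X) ≤ 0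
    exact mul_nonpos_of_nonneg_of_nonpos (Real.sqrt_nonneg _)
      (mul_nonpos_of_nonneg_of_nonpos (Real.sqrt_nonneg _) this)
  set r : ℝ := √N with hr
  have hr0 : 0 < r := Real.sqrt_pos.2 hN0
  have hrr : r * r = N := Real.mul_self_sqrt hN0.le
  have hFabs : ∀ τ ω X, |F τ ω X| ≤ 2 * r := by
    intro τ ω X
    have h1 := hFle τ ω X
    have h2 : |F τ ω X| ^ 2 ≤ (2 * r) ^ 2 := by
      rw [sq_abs]
      nlinarith
    exact le_of_sq_le_sq h2 (by positivity)
  -- the mass
  have hmass : ∀ τ ω, n0 / (4 * r) ≤ ∑ X, F τ ω X := by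
    intro τ ω
    have h1 : n0 ≤ 2 * r * ∑ X, |F τ ω X| := by
      rw [← hFsum τ ω, mul_sum]
      refine sum_le_sum fun X _ => ?_
      rw [← sq_abs, sq]
      exact mul_le_mul_of_nonneg_right (hFabs τ ω X) (abs_nonneg _)
    have h2 : ∑ X, |F τ ω X| - 2 * ∑ X ∈ univ.filter fun X =>
        ¬ ∀ a, ∃ i, cnt τ ω X i = code a, |F τ ω X| ≤ ∑ X, F τ ω X := by
      rw [sum_filter, mul_sum, ← sum_sub_distrib]
      refine sum_le_sum fun X _ => ?_
      by_cases h : ∀ a, ∃ i, cnt τ ω X i = code a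
      · rw [if_neg (not_not.2 h), mul_zero, sub_zero, abs_of_nonneg (hFpos τ ω X h)]
      · rw [if_pos h]
        linarith [neg_abs_le (F τ ω X)]
    have h4 : ∑ X ∈ univ.filter fun X => ¬ ∀ a, ∃ i, cnt τ ω X i = code a, |F τ ω X| ≤
        2 * r * ((univ : Finset ((I × Fin b) × Fin T → Bool)).filter fun X =>
        ¬ ∀ a, ∃ i, cnt τ ω X i = code a).card := by
      calc _ ≤ ∑ X ∈ univ.filter fun X => ¬ ∀ a, ∃ i, cnt τ ω X i = code a, 2 * r :=
            sum_le_sum fun X _ => hFabs τ ω X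
        _ = _ := by rw [sum_const, nsmul_eq_mul, mul_comm]
    have h5 := hbad τ ω
    set c : ℝ := (((univ : Finset ((I × Fin b) × Fin T → Bool)).filter fun X =>
        ¬ ∀ a, ∃ i, cnt τ ω X i = code a).card : ℝ) with hcd
    set S1 := ∑ X, |F τ ω X| with hS1
    set S2 := ∑ X ∈ univ.filter fun X => ¬ ∀ a, ∃ i, cnt τ ω X i = code a, |F τ ω X| with hS2
    rw [div_le_iff₀ (by positivity)]
    have h6 : 4 * r * (S1 - 2 * S2) ≤ (∑ X, F τ ω X) * (4 * r) := by
      rw [mul_comm (∑ X, F τ ω X)]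
      gcongr
    have h7 : 8 * r * S2 ≤ 8 * r * (2 * r * c) := by gcongr
    have h8 : 8 * r * (2 * r * c) = 16 * N * c := by rw [← hrr]; ring
    nlinarith
  -- the vectors
  set Tm : (((I × Fin b) × Fin T → Bool) → ℝ) →ₗ[ℝ]
      EuclideanSpace ℝ ((I × Fin b) × Fin T → Bool) :=
    { toFun := fun g => WithLp.toLp 2 fun X => √(z X) * g X
      map_add' := fun g g' => by
        ext X
        show √(z X) * (g X + g' X) = √(z X) * g X + √(z X) * g' X
        ring
      map_smul' := fun c g => by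
        ext X
        show √(z X) * (c * g X) = c * (√(z X) * g X)
        ring } with hTm
  set W : Submodule ℝ (EuclideanSpace ℝ ((I × Fin b) × Fin T → Bool)) := V.map Tm with hW
  have hWr : Module.finrank ℝ W ≤ N := (Submodule.finrank_map_le Tm V).trans hV
  obtain ⟨φ, hφ1, hφ2⟩ := represent W
  have hφ3 : ∑ X, ‖φ X‖ ^ 2 ≤ (N : ℝ) := by
    rw [hφ1]
    exact_mod_cast hWr
  have hex : ∀ τ ω, ∃ w : EuclideanSpace ℝ (Fin (Module.finrank ℝ W)), ‖w‖ ≤ √n0 ∧
      ∀ X, inner ℝ w (φ X) = F τ ω X := by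
    intro τ ω
    obtain ⟨w, hw1, hw2⟩ := hφ2 (Tm (√(n0 / Q τ ω) • f τ ω))
      (Submodule.mem_map_of_mem (V.smul_mem _ (hfV τ ω)))
    have h1 : ∀ X, (Tm (√(n0 / Q τ ω) • f τ ω)) X = F τ ω X := by
      intro X
      show √(z X) * (√(n0 / Q τ ω) * f τ ω X) = √(n0 / Q τ ω) * (√(z X) * f τ ω X)
      ring
    refine ⟨w, ?_, fun X => (hw2 X).trans (h1 X)⟩
    rw [hw1]
    apply Real.le_sqrt_of_sq_le
    rw [EuclideanSpace.real_norm_sq_eq]
    exact ((sum_congr rfl fun X _ => by rw [h1 X]).trans (hFsum τ ω)).le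
  choose w hw1 hw2 using hex
  set G := avgI Prod.fst φ w with hG
  have hH := highI Prod.fst d hT1 φ w (√n0) N hφ3 hw1
  rw [Real.sq_sqrt hn00.le] at hH
  set D1 := ∑ S ∈ univ.filter fun S : Finset (I × Fin b) => d < (S.image Prod.fst).card,
    |four G S| with hD1
  have hD1n : 0 ≤ D1 := sum_nonneg fun S _ => abs_nonneg _
  set D := D1 / 2 ^ p with hD
  have hDn : 0 ≤ D := by positivity
  set Z : ℝ := (T : ℝ) ^ Fintype.card I * n0 with hZ
  have hZ0 : 0 < Z := by positivity
  have hDZ : D ^ 2 * (T : ℝ) ^ (d + 1) ≤ N * Z ^ 2 := by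
    rw [hD, div_pow, div_mul_eq_mul_div, div_le_iff₀ (by positivity)]
    calc D1 ^ 2 * (T : ℝ) ^ (d + 1) ≤
          n0 * (2 ^ p * (T : ℝ) ^ Fintype.card I) ^ 2 * (2 ^ (p * T) * N) := hH
      _ = N * Z ^ 2 * (2 ^ p) ^ 2 := by rw [hZ, hn0]; ring
  -- the sign of the average
  have hGval : ∀ Y, G Y = ∑ τ : I → Fin T, ∑ X : (I × Fin b) × Fin T → Bool,
      F τ (eqv (alive (τ ∘ Prod.fst) X) Y) X := by
    intro Y
    rw [hG]
    unfold avgI
    exact sum_congr rfl fun τ _ => sum_congr rfl fun X _ => hw2 _ _ _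
  have hpos : ∀ y : I → Fin b → Bool, (∀ a, ∃ i, y i = code a) → 0 ≤ G (un y) := by
    intro y hy
    rw [hGval]
    refine sum_nonneg fun τ _ => sum_nonneg fun X _ => ?_
    apply hFpos
    rw [cnt_eqv]
    exact hy
  have hneg : ∀ y : I → Fin b → Bool,
      ((univ : Finset A).filter fun a => ∃ i, y i = code a).card ≤ d + 6 * j + 1 →
      G (un y) ≤ 0 := by
    intro y hy
    rw [hGval]
    refine sum_nonpos fun τ _ => sum_nonpos fun X _ => ?_
    apply hFneg
    rw [cnt_eqv]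
    exact hy
  have hUG : ∀ Y, -(2 * r * Z) ≤ G Y := by
    intro Y
    rw [hGval]
    calc -(2 * r * Z) = ∑ _τ : I → Fin T, ∑ _X : (I × Fin b) × Fin T → Bool, -(2 * r) := by
          rw [sum_const, sum_const, card_univ, card_univ, nsmul_eq_mul, nsmul_eq_mul, hcard,
            hcard2, hZ]
          ring
      _ ≤ _ := by
          refine sum_le_sum fun τ _ => sum_le_sum fun X _ => ?_
          have := abs_le.1 (hFabs τ (eqv (alive (τ ∘ Prod.fst) X) Y) X)
          exact this.1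
  -- the bound for the average
  have hav := sym_bound hd hq hA code hc hM1 hM2 G (2 * r * Z) (by positivity) hUG hneg hpos D
    (by rw [hD, hD1])
  have hexp : (1 + 1 / (q : ℝ)) ^ Fintype.card A ≤ 3 ^ j := by
    have hq0 : (0 : ℝ) < q := by exact_mod_cast hq
    calc (1 + 1 / (q : ℝ)) ^ Fintype.card A ≤ (1 + 1 / (q : ℝ)) ^ (j * q) := by
          apply pow_le_pow_right₀ _ hA
          have : 0 ≤ 1 / (q : ℝ) := by positivity
          linarith
      _ ≤ (Real.exp (1 / q)) ^ (j * q) := by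
          apply pow_le_pow_left₀ (by positivity)
          rw [add_comm]
          exact Real.add_one_le_exp _
      _ = Real.exp 1 ^ j := by
          rw [← Real.exp_nat_mul, ← Real.exp_nat_mul]
          congr 1
          push_cast
          field_simp
      _ ≤ 3 ^ j := by
          apply pow_le_pow_left₀ (Real.exp_nonneg _)
          have := Real.exp_one_lt_d9
          linarith
  have hlo : Z / (4 * r) ≤ (∑ Y, G Y) / 2 ^ p := by
    have h1 : ∑ Y, G Y = ∑ τ : I → Fin T, ∑ ω : I × Fin b → Bool, ∑ X, F τ ω X := by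
      rw [sum_congr rfl fun Y _ => hGval Y, sum_comm]
      refine sum_congr rfl fun τ _ => ?_
      rw [sum_comm]
      have h2 : ∀ X : (I × Fin b) × Fin T → Bool,
          ∑ Y, F τ (eqv (alive (τ ∘ Prod.fst) X) Y) X = ∑ ω, F τ ω X := by
        intro X
        exact Equiv.sum_comp (eqvPerm (alive (τ ∘ Prod.fst) X)) (fun ω => F τ ω X)
      rw [sum_congr rfl fun X _ => h2 X, sum_comm]
    rw [h1, le_div_iff₀ (by positivity)]
    calc Z / (4 * r) * 2 ^ p = ∑ _τ : I → Fin T, ∑ _ω : I × Fin b → Bool, n0 / (4 * r) := by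
          rw [sum_const, sum_const, card_univ, card_univ, nsmul_eq_mul, nsmul_eq_mul, hcard2,
            hcard3, hZ]
          ring
      _ ≤ _ := sum_le_sum fun τ _ => sum_le_sum fun ω _ => hmass τ ω
  -- the contradiction
  have hUβ : 2 * 3 ^ j * (2 * r * Z * β) ≤ Z / (8 * r) := by
    rw [le_div_iff₀ (by positivity)]
    calc 2 * 3 ^ j * (2 * r * Z * β) * (8 * r) = (32 * 3 ^ j * (r * r) * β) * Z := by ring
      _ = (32 * 3 ^ j * N * β) * Z := by rw [hrr]
      _ ≤ 1 * Z := by gcongr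
      _ = Z := one_mul _
  have hmain : Z / (8 * r) ≤ 5 * 3 ^ j * D := by
    have h1 : 2 * (1 + 1 / (q : ℝ)) ^ Fintype.card A * (2 * D + 2 * r * Z * β) + D ≤
        2 * 3 ^ j * (2 * D + 2 * r * Z * β) + D := by
      have : 0 ≤ 2 * D + 2 * r * Z * β := by positivity
      gcongr
    have h2 : Z / (4 * r) = Z / (8 * r) + Z / (8 * r) := by
      field_simp
      ring
    have h3 : D ≤ 3 ^ j * D := le_mul_of_one_le_left hDn h3j
    have h4 := hlo.trans (hav.trans h1)
    linarith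
  have hZD : Z ≤ 40 * r * 3 ^ j * D := by
    rw [div_le_iff₀ (by positivity)] at hmain
    linarith
  have h1 : Z ^ 2 * (T : ℝ) ^ (d + 1) ≤ 1600 * 9 ^ j * (N : ℝ) ^ 2 * Z ^ 2 := by
    have h9 : (9 : ℝ) ^ j = 3 ^ j * 3 ^ j := by
      rw [← mul_pow]
      norm_num
    calc Z ^ 2 * (T : ℝ) ^ (d + 1) ≤ (40 * r * 3 ^ j * D) ^ 2 * (T : ℝ) ^ (d + 1) := by
          gcongr
      _ = 1600 * (r * r) * (3 ^ j * 3 ^ j) * (D ^ 2 * (T : ℝ) ^ (d + 1)) := by ring
      _ ≤ 1600 * (r * r) * (3 ^ j * 3 ^ j) * (N * Z ^ 2) := by gcongr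
      _ = 1600 * 9 ^ j * (N : ℝ) ^ 2 * Z ^ 2 := by rw [hrr, h9]; ring
  have h2 : 0 < Z ^ 2 := by positivity
  have h3 : (T : ℝ) ^ (d + 1) ≤ 1600 * 9 ^ j * (N : ℝ) ^ 2 := by
    apply le_of_mul_le_mul_right _ h2
    linarith
  linarith

end Sym

end Pool.Agent.THR72.FS
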