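import Pool.Agent.THR72.LowDeg
import Pool.Agent.THR72.Prefix

/-!
# Features fixed in advance: products of a conjunction of literals and a parity
-/

namespace Pool.Agent.THR72

open Finset

/-- The product of the conjunction of the literals in `g.1` (value `0` or `1`) and the parity of the
variables in `g.2` (value `1` or `-1`). -/
def feat {n : ℕ} (g : Finset (Fin n × Bool) × Finset (Fin n)) (x : Fin n → Bool) : ℝ :=
  (if ∀ l ∈ g.1, x l.1 = l.2 then 1 else 0) * ∏ i ∈ g.2, if x i = true then -1 else 1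

section

variable {A : Type} [Fintype A] [DecidableEq A] {n s : ℕ} (ι : (A × Fin s) × Fin 3 ↪ Fin n)
  (ρ : A × Fin s → Equiv.Perm (Fin 3) × Bool)

/-- The value of the copy `w.2` of the variable `w.1`: the copy with the role `0` has the value of
the variable, the copy with the role `1` has the fixed value, the copy with the role `2` has the
value given by `y`. -/
def cpy (x : A → Finset (Fin s)) (y : A × Fin s → Bool)
    (w : (A × Fin s) × Fin 3) : Bool :=
  if (ρ w.1).1.symm w.2 = 0 then decide (w.1.2 ∈ x w.1.1)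
  else if (ρ w.1).1.symm w.2 = 1 then (ρ w.1).2 else y w.1

/-- The input. -/
noncomputable def ptF (x : A → Finset (Fin s)) (y : A × Fin s → Bool) : Fin n → Bool :=
  Function.extend ι (cpy ρ x y) fun _ => false

omit [Fintype A] [DecidableEq A] in
theorem ptF_apply (x : A → Finset (Fin s)) (y : A × Fin s → Bool)
    (w : (A × Fin s) × Fin 3) : ptF ι ρ x y (ι w) = cpy ρ x y w :=
  ι.injective.extend_apply _ _ _

omit [Fintype A] [DecidableEq A] in
theorem ptF_out (x : A → Finset (Fin s)) (y : A × Fin s → Bool) (i : Fin n)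
    (hi : ¬ ∃ w, ι w = i) : ptF ι ρ x y i = false :=
  Function.extend_apply' _ _ _ hi

open Classical in
/-- The variables with a copy in the feature. -/
noncomputable def spt (g : Finset (Fin n × Bool) × Finset (Fin n)) : Finset (A × Fin s) :=
  univ.filter fun v => ∃ b, (∃ z, (ι (v, b), z) ∈ g.1) ∨ ι (v, b) ∈ g.2

omit [Fintype A] [DecidableEq A] in
theorem cpy_congr {x x' : A → Finset (Fin s)} (y : A × Fin s → Bool)
    (w : (A × Fin s) × Fin 3) (h : w.1.2 ∈ x w.1.1 ↔ w.1.2 ∈ x' w.1.1) :
    cpy ρ x y w = cpy ρ x' y w := by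
  unfold cpy
  rw [decide_eq_decide.2 h]

theorem feat_congr (g : Finset (Fin n × Bool) × Finset (Fin n))
    {x x' : A → Finset (Fin s)} (y : A × Fin s → Bool)
    (h : ∀ v ∈ spt ι g, v.2 ∈ x v.1 ↔ v.2 ∈ x' v.1) :
    feat g (ptF ι ρ x y) = feat g (ptF ι ρ x' y) := by
  classical
  have h1 : ∀ l ∈ g.1, ptF ι ρ x y l.1 = ptF ι ρ x' y l.1 := by
    intro l hl
    by_cases hi : ∃ w, ι w = l.1
    · obtain ⟨w, hw⟩ := hi
      rw [← hw, ptF_apply, ptF_apply]
      apply cpy_congr
      apply h
      unfold spt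
      rw [mem_filter]
      refine ⟨mem_univ _, w.2, Or.inl ⟨l.2, ?_⟩⟩
      have : ((ι (w.1, w.2), l.2) : Fin n × Bool) = l := Prod.ext hw rfl
      rw [this]
      exact hl
    · rw [ptF_out ι ρ x y _ hi, ptF_out ι ρ x' y _ hi]
  have h2 : ∀ i ∈ g.2, ptF ι ρ x y i = ptF ι ρ x' y i := by
    intro i hi'
    by_cases hi : ∃ w, ι w = i
    · obtain ⟨w, rfl⟩ := hi
      rw [ptF_apply, ptF_apply]
      apply cpy_congr
      apply h
      unfold spt
      rw [mem_filter]
      exact ⟨mem_univ _, w.2, Or.inr hi'⟩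
    · rw [ptF_out ι ρ x y _ hi, ptF_out ι ρ x' y _ hi]
  unfold feat
  congr 1
  · have h3 : (∀ l ∈ g.1, ptF ι ρ x y l.1 = l.2) ↔ ∀ l ∈ g.1, ptF ι ρ x' y l.1 = l.2 := by
      constructor
      · intro h4 l hl
        rw [← h1 l hl]
        exact h4 l hl
      · intro h4 l hl
        rw [h1 l hl]
        exact h4 l hl
    by_cases h4 : ∀ l ∈ g.1, ptF ι ρ x' y l.1 = l.2
    · rw [if_pos h4, if_pos (h3.2 h4)]
    · rw [if_neg h4, if_neg fun h5 => h4 (h3.1 h5)]
  · exact prod_congr rfl fun i hi => by rw [h2 i hi]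

/-- The feature with averaged noise. -/
noncomputable def av (g : Finset (Fin n × Bool) × Finset (Fin n)) (x : A → Finset (Fin s)) :
    ℝ := ∑ y : A × Fin s → Bool, feat g (ptF ι ρ x y)

/-- A feature with few variables has low degree. -/
theorem av_lowDeg {d : ℕ} (g : Finset (Fin n × Bool) × Finset (Fin n))
    (hg : (spt ι g).card ≤ d) : LowDeg d (av ι ρ g) := by
  apply lowDeg_of_depends (spt ι g) hg
  intro x x' h
  unfold av
  exact sum_congr rfl fun y _ => feat_congr ι ρ g y h

/-- A literal which is false at the fixed copy kills the feature. -/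
theorem av_zero_of_lit (g : Finset (Fin n × Bool) × Finset (Fin n)) (v : A × Fin s)
    (b : Fin 3) (z : Bool) (hg : (ι (v, b), z) ∈ g.1) (h1 : (ρ v).1 1 = b) (h2 : (ρ v).2 = !z)
    (x : A → Finset (Fin s)) : av ι ρ g x = 0 := by
  unfold av
  apply sum_eq_zero
  intro y _
  unfold feat
  rw [if_neg, zero_mul]
  intro h
  have h3 := h _ hg
  dsimp only at h3
  rw [ptF_apply] at h3
  have h4 : (ρ v).1.symm b = 1 := by rw [← h1, Equiv.symm_apply_apply]
  have h5 : cpy ρ x y (v, b) = (ρ v).2 := by
    unfold cpy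
    rw [if_neg (by rw [h4]; decide), if_pos h4]
  rw [h5, h2] at h3
  cases z <;> simp at h3

/-- A fresh copy in the parity kills the average. -/
theorem av_zero_of_par (g : Finset (Fin n × Bool) × Finset (Fin n)) (v : A × Fin s)
    (b : Fin 3) (hg : ι (v, b) ∈ g.2) (hno : ∀ z, (ι (v, b), z) ∉ g.1) (h1 : (ρ v).1 2 = b)
    (x : A → Finset (Fin s)) : av ι ρ g x = 0 := by
  classical
  have hr : (ρ v).1.symm b = 2 := by rw [← h1, Equiv.symm_apply_apply]
  have hc : ∀ y : A × Fin s → Bool, cpy ρ x y (v, b) = y v := by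
    intro y
    unfold cpy
    rw [if_neg (by rw [hr]; decide), if_neg (by rw [hr]; decide)]
  -- the values at the other points
  have hoth : ∀ (y : A × Fin s → Bool) (i : Fin n), i ≠ ι (v, b) →
      ptF ι ρ x (Function.update y v (!(y v))) i = ptF ι ρ x y i := by
    intro y i hi
    by_cases hw : ∃ w, ι w = i
    · obtain ⟨w, rfl⟩ := hw
      rw [ptF_apply, ptF_apply]
      unfold cpy
      by_cases h2 : w.1 = v
      · by_cases h3 : (ρ w.1).1.symm w.2 = 0
        · rw [if_pos h3, if_pos h3]
        · by_cases h4 : (ρ w.1).1.symm w.2 = 1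
          · rw [if_neg h3, if_neg h3, if_pos h4, if_pos h4]
          · exfalso
            apply hi
            have h5 : (ρ w.1).1.symm w.2 = 2 := by
              revert h3 h4
              generalize (ρ w.1).1.symm w.2 = t
              revert t
              decide
            have h6 : w.2 = b := by
              rw [h2] at h5
              rw [← h5, Equiv.apply_symm_apply] at h1
              exact h1
            rw [← h2, ← h6]
      · rw [Function.update_of_ne h2]
    · rw [ptF_out ι ρ _ _ _ hw, ptF_out ι ρ _ _ _ hw]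
  have hflip : ∀ y : A × Fin s → Bool,
      feat g (ptF ι ρ x (Function.update y v (!(y v)))) = - feat g (ptF ι ρ x y) := by
    intro y
    unfold feat
    have e1 : (∀ l ∈ g.1, ptF ι ρ x (Function.update y v (!(y v))) l.1 = l.2) ↔
        ∀ l ∈ g.1, ptF ι ρ x y l.1 = l.2 := by
      have e2 : ∀ l ∈ g.1, ptF ι ρ x (Function.update y v (!(y v))) l.1 = ptF ι ρ x y l.1 := by
        intro l hl
        apply hoth
        intro h
        apply hno l.2
        rw [← h]
        exact hl
      constructor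
      · intro h l hl
        rw [← e2 l hl]
        exact h l hl
      · intro h l hl
        rw [e2 l hl]
        exact h l hl
    have e3 : (∏ i ∈ g.2, if ptF ι ρ x (Function.update y v (!(y v))) i = true then (-1 : ℝ)
        else 1) = -∏ i ∈ g.2, if ptF ι ρ x y i = true then (-1 : ℝ) else 1 := by
      rw [← mul_prod_erase g.2 _ hg, ← mul_prod_erase g.2 (fun i => if ptF ι ρ x y i = true
        then (-1 : ℝ) else 1) hg, ptF_apply, ptF_apply, hc, hc, Function.update_self]
      have e4 : ∏ i ∈ g.2.erase (ι (v, b)),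
          (if ptF ι ρ x (Function.update y v (!(y v))) i = true then (-1 : ℝ) else 1) =
          ∏ i ∈ g.2.erase (ι (v, b)), if ptF ι ρ x y i = true then (-1 : ℝ) else 1 := by
        apply prod_congr rfl
        intro i hi
        rw [hoth y i (mem_erase.1 hi).1]
      rw [e4]
      cases y v
      · simp
      · simp
    rw [e3]
    by_cases h : ∀ l ∈ g.1, ptF ι ρ x y l.1 = l.2
    · rw [if_pos h, if_pos (e1.2 h)]
      ring
    · rw [if_neg h, if_neg fun h' => h (e1.1 h')]
      ring
  have hinv : Function.Involutive fun y : A × Fin s → Bool =>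
      Function.update y v (!(y v)) := by
    intro y
    show Function.update (Function.update y v (!(y v))) v
      (!(Function.update y v (!(y v)) v)) = y
    rw [Function.update_self, Bool.not_not, Function.update_idem, Function.update_eq_self]
  have h2 : av ι ρ g x = - av ι ρ g x := by
    unfold av
    rw [← sum_neg_distrib]
    rw [← Equiv.sum_comp hinv.toPerm]
    exact sum_congr rfl fun y _ => hflip y
  linarith

end

open Classical in
/-- The choices for one variable which kill the feature. -/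
theorem exists_kap {A : Type} [Fintype A] [DecidableEq A] {n s : ℕ} (ι : (A × Fin s) × Fin 3 ↪ Fin n)
    (g : Finset (Fin n × Bool) × Finset (Fin n)) (v : A × Fin s) (hv : v ∈ spt ι g) :
    ∃ κ : Finset (Equiv.Perm (Fin 3) × Bool), 2 ≤ κ.card ∧
      ∀ ρ : A × Fin s → Equiv.Perm (Fin 3) × Bool, ρ v ∈ κ → ∀ x, av ι ρ g x = 0 := by
  by_cases h : ∃ b z, (ι (v, b), z) ∈ g.1
  · obtain ⟨b, z, h⟩ := h
    refine ⟨univ.filter fun w => w.1 1 = b ∧ w.2 = !z, ?_, ?_⟩
    · have : ∀ (b : Fin 3) (z : Bool), 2 ≤ ((univ : Finset (Equiv.Perm (Fin 3) × Bool)).filter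
          fun w => w.1 1 = b ∧ w.2 = !z).card := by decide
      refine (this b z).trans (le_of_eq ?_)
      congr
    · intro ρ hρ x
      have h1 := (mem_filter.1 hρ).2
      exact av_zero_of_lit ι ρ g v b z h h1.1 h1.2 x
  · unfold spt at hv
    obtain ⟨b, hb | hb⟩ := (mem_filter.1 hv).2
    · obtain ⟨z, hz⟩ := hb
      exact absurd ⟨b, z, hz⟩ h
    · refine ⟨univ.filter fun w => w.1 2 = b, ?_, ?_⟩
      · have : ∀ (b : Fin 3), 2 ≤ ((univ : Finset (Equiv.Perm (Fin 3) × Bool)).filter
            fun w => w.1 2 = b).card := by decide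
        refine (this b).trans (le_of_eq ?_)
        congr
      · intro ρ hρ x
        exact av_zero_of_par ι ρ g v b hb (fun z hz => h ⟨b, z, hz⟩) (mem_filter.1 hρ).2 x

/-- Some choice kills all the features with more than `d` variables. -/
theorem exists_rho {A : Type} [Fintype A] [DecidableEq A] {n s d : ℕ} (ι : (A × Fin s) × Fin 3 ↪ Fin n)
    (F : Finset (Finset (Fin n × Bool) × Finset (Fin n)))
    (hF : F.card * 10 ^ (d + 1) < 12 ^ (d + 1)) :
    ∃ ρ : A × Fin s → Equiv.Perm (Fin 3) × Bool, ∀ g ∈ F, LowDeg d (av ι ρ g) := by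
  classical
  have hcardΩ : Fintype.card (Equiv.Perm (Fin 3) × Bool) = 12 := by decide
  have hW : ∀ g : Finset (Fin n × Bool) × Finset (Fin n), ∃ W : Finset (A × Fin s),
      d < (spt ι g).card → W ⊆ spt ι g ∧ W.card = d + 1 := by
    intro g
    by_cases h : d < (spt ι g).card
    · obtain ⟨W, h1, h2⟩ := exists_subset_card_eq (show d + 1 ≤ (spt ι g).card from h)
      exact ⟨W, fun _ => ⟨h1, h2⟩⟩
    · exact ⟨∅, fun h' => absurd h' h⟩
  choose W hW using hW
  have hκ : ∀ (g : Finset (Fin n × Bool) × Finset (Fin n)) (v : A × Fin s),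
      ∃ κ : Finset (Equiv.Perm (Fin 3) × Bool), v ∈ spt ι g → 2 ≤ κ.card ∧
        ∀ ρ : A × Fin s → Equiv.Perm (Fin 3) × Bool, ρ v ∈ κ → ∀ x, av ι ρ g x = 0 := by
    intro g v
    by_cases h : v ∈ spt ι g
    · obtain ⟨κ, h1⟩ := exists_kap ι g v h
      exact ⟨κ, fun _ => h1⟩
    · exact ⟨∅, fun h' => absurd h' h⟩
  choose κ hκ using hκ
  obtain ⟨ρ, hρ⟩ := exists_kill (V := A × Fin s) (Ω := Equiv.Perm (Fin 3) × Bool)
    (F.filter fun g => d < (spt ι g).card) (d + 1) 2 W κ
    (fun g hg => (hW g (mem_filter.1 hg).2).2)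
    (fun g hg v hv => (hκ g v ((hW g (mem_filter.1 hg).2).1 hv)).1) (by
      rw [hcardΩ]
      refine lt_of_le_of_lt ?_ hF
      exact Nat.mul_le_mul_right _ (card_filter_le _ _))
  refine ⟨ρ, fun g hg => ?_⟩
  by_cases h : d < (spt ι g).card
  · obtain ⟨v, hv, h1⟩ := hρ g (mem_filter.2 ⟨hg, h⟩)
    have h2 : av ι ρ g = fun _ => 0 := funext fun x =>
      (hκ g v ((hW g h).1 hv)).2 ρ h1 x
    rw [h2]
    exact lowDeg_zero
  · exact av_lowDeg ι ρ g (not_lt.1 h)

end Pool.Agent.THR72
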