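import Pool.Agent.THR72.Fixed

/-!
# Fixed features together with adaptively chosen sparse polynomials
-/

namespace Pool.Agent.THR72

open Finset

/-- The values of `P` on the cube are those of a linear combination of the features of `F` plus
those of a polynomial `p` which has fewer than `Q ^ (d + 1)` monomials with more than `d`
variables. -/
def Mixed {n : ℕ} (F : Finset (Finset (Fin n × Bool) × Finset (Fin n))) (Q d : ℕ)
    (P : MvPolynomial (Fin n) ℝ) : Prop :=
  ∃ (w : Finset (Fin n × Bool) × Finset (Fin n) → ℝ) (p : MvPolynomial (Fin n) ℝ),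
    Sparse Q d p ∧ ∀ x : Fin n → Bool,
      MvPolynomial.eval (fun i => if x i = true then (1 : ℝ) else 0) P =
        ∑ g ∈ F, w g * feat g x +
          MvPolynomial.eval (fun i => if x i = true then (1 : ℝ) else 0) p

section Pull

variable {A : Type} {s Q : ℕ}

/-- The base variable of a copy. -/
def bas (v : A × Fin (s * Q)) : A × Fin s := (v.1, (finProdFinEquiv.symm v.2).1)

/-- The number of a copy. -/
def num (v : A × Fin (s * Q)) : Fin Q := (finProdFinEquiv.symm v.2).2

theorem bas_num_ext {v v' : A × Fin (s * Q)} (h1 : bas v = bas v') (h2 : num v = num v') :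
    v = v' := by
  unfold bas at h1
  unfold num at h2
  rw [Prod.mk.injEq] at h1
  refine Prod.ext h1.1 ?_
  apply finProdFinEquiv.symm.injective
  exact Prod.ext h1.2 h2

/-- The contents on the chosen copies. -/
def pull (α : A × Fin s → Fin Q) (x : A → Finset (Fin s)) :
    A → Finset (Fin (s * Q)) :=
  fun a => (x a).image fun i => finProdFinEquiv (i, α (a, i))

theorem mem_pull (α : A × Fin s → Fin Q) (x : A → Finset (Fin s))
    (v : A × Fin (s * Q)) :
    v.2 ∈ pull α x v.1 ↔ num v = α (bas v) ∧ (bas v).2 ∈ x (bas v).1 := by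
  unfold pull bas num
  rw [mem_image]
  constructor
  · rintro ⟨i, hi, h⟩
    have h1 : finProdFinEquiv.symm v.2 = (i, α (v.1, i)) := by
      rw [← h, Equiv.symm_apply_apply]
    rw [h1]
    exact ⟨rfl, hi⟩
  · rintro ⟨h1, h2⟩
    refine ⟨(finProdFinEquiv.symm v.2).1, h2, ?_⟩
    rw [← h1]
    exact finProdFinEquiv.apply_symm_apply v.2

theorem nonempty_pull (α : A × Fin s → Fin Q) (x : A → Finset (Fin s)) (a : A) :
    (pull α x a).Nonempty ↔ (x a).Nonempty := by
  unfold pull
  exact image_nonempty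

variable [Fintype A] {d : ℕ}

theorem lowDeg_pull (α : A × Fin s → Fin Q) (G : (A → Finset (Fin (s * Q))) → ℝ)
    (hG : LowDeg d G) : LowDeg d fun x => G (pull α x) := by
  classical
  obtain ⟨J, I, coef, S, hS, h⟩ := hG
  refine ⟨J, I, fun j => if ∀ v : A × Fin (s * Q), v.2 ∈ S j v.1 → num v = α (bas v)
    then coef j else 0, fun j a => (S j a).image fun l => (bas (a, l)).2, ?_, ?_⟩
  · intro j hj
    exact (sum_le_sum fun a _ => card_image_le).trans (hS j hj)
  · intro x
    show G (pull α x) = _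
    rw [h]
    apply sum_congr rfl
    intro j _
    show coef j * (if ∀ a, S j a ⊆ pull α x a then (1 : ℝ) else 0) =
      (if ∀ v : A × Fin (s * Q), v.2 ∈ S j v.1 → num v = α (bas v) then coef j else 0) *
        (if ∀ a, ((S j a).image fun l => (bas (a, l)).2) ⊆ x a then (1 : ℝ) else 0)
    have h1 : (∀ a, S j a ⊆ pull α x a) ↔
        (∀ v : A × Fin (s * Q), v.2 ∈ S j v.1 → num v = α (bas v)) ∧
          ∀ a, ((S j a).image fun l => (bas (a, l)).2) ⊆ x a := by
      constructor
      · intro h2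
        refine ⟨fun v hv => ((mem_pull α x v).1 (h2 v.1 hv)).1, fun a i hi => ?_⟩
        obtain ⟨l, hl, rfl⟩ := mem_image.1 hi
        exact ((mem_pull α x (a, l)).1 (h2 a hl)).2
      · rintro ⟨h2, h3⟩ a l hl
        exact (mem_pull α x (a, l)).2 ⟨h2 (a, l) hl, h3 a (mem_image_of_mem _ hl)⟩
    by_cases h2 : ∀ v : A × Fin (s * Q), v.2 ∈ S j v.1 → num v = α (bas v)
    · rw [if_pos h2]
      congr 1
      by_cases h3 : ∀ a, ((S j a).image fun l => (bas (a, l)).2) ⊆ x a
      · rw [if_pos h3, if_pos (h1.2 ⟨h2, h3⟩)]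
      · rw [if_neg h3, if_neg fun h4 => h3 (h1.1 h4).2]
    · rw [if_neg h2, if_neg fun h4 => h2 (h1.1 h4).1]
      ring

theorem lowDeg_add {G G' : (A → Finset (Fin s)) → ℝ} (h : LowDeg d G) (h' : LowDeg d G') :
    LowDeg d fun x => G x + G' x := by
  have h1 := lowDeg_sum (d := d) (univ : Finset Bool) (fun _ => 1)
    (fun b => if b = true then G else G') (by
      intro b _
      cases b
      · exact h'
      · exact h)
  have h2 : (fun x => G x + G' x) = fun x => ∑ b : Bool, (1 : ℝ) *
      (if b = true then G else G') x := by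
    funext x
    rw [Fintype.sum_bool]
    simp
  rw [h2]
  exact h1

end Pull

section Poly

variable {A : Type} [Fintype A] [DecidableEq A] {n s Q d : ℕ} (ι : (A × Fin (s * Q)) × Fin 3 ↪ Fin n)
  (ρ : A × Fin (s * Q) → Equiv.Perm (Fin 3) × Bool)

open Classical in
/-- The variables whose alive copy is in the monomial. -/
noncomputable def alv (U : Finset (Fin n)) : Finset (A × Fin (s * Q)) :=
  univ.filter fun v => ι (v, (ρ v).1 0) ∈ U

theorem card_alv_le (U : Finset (Fin n)) : (alv ι ρ U).card ≤ U.card := by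
  classical
  apply card_le_card_of_injOn fun v => ι (v, (ρ v).1 0)
  · intro v hv
    rw [mem_coe] at hv
    exact (mem_filter.1 hv).2
  · intro v _ v' _ h
    exact congrArg Prod.fst (ι.injective h)

/-- The value of the monomial. -/
noncomputable def mval (U : Finset (Fin n)) (x : Fin n → Bool) : ℝ :=
  if ∀ i ∈ U, x i = true then 1 else 0

theorem mval_congr (U : Finset (Fin n)) {x x' : A → Finset (Fin (s * Q))}
    (y : A × Fin (s * Q) → Bool)
    (h : ∀ v ∈ alv ι ρ U, v.2 ∈ x v.1 ↔ v.2 ∈ x' v.1) :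
    mval U (ptF ι ρ x y) = mval U (ptF ι ρ x' y) := by
  classical
  have h1 : ∀ i ∈ U, ptF ι ρ x y i = ptF ι ρ x' y i := by
    intro i hi'
    by_cases hi : ∃ w, ι w = i
    · obtain ⟨w, rfl⟩ := hi
      rw [ptF_apply, ptF_apply]
      by_cases h2 : (ρ w.1).1.symm w.2 = 0
      · apply cpy_congr
        apply h
        unfold alv
        rw [mem_filter]
        refine ⟨mem_univ _, ?_⟩
        have h3 : (ρ w.1).1 0 = w.2 := by rw [← h2, Equiv.apply_symm_apply]
        rw [h3]
        exact hi'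
      · unfold cpy
        rw [if_neg h2, if_neg h2]
    · rw [ptF_out ι ρ x y _ hi, ptF_out ι ρ x' y _ hi]
  unfold mval
  by_cases h4 : ∀ i ∈ U, ptF ι ρ x' y i = true
  · rw [if_pos h4, if_pos fun i hi => (h1 i hi).trans (h4 i hi)]
  · rw [if_neg h4, if_neg fun h5 => h4 fun i hi => (h1 i hi).symm.trans (h5 i hi)]

theorem mval_lowDeg (U : Finset (Fin n)) (hU : (alv ι ρ U).card ≤ d) :
    LowDeg d fun x : A → Finset (Fin (s * Q)) =>
      ∑ y : A × Fin (s * Q) → Bool, mval U (ptF ι ρ x y) := by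
  apply lowDeg_of_depends (alv ι ρ U) hU
  intro x x' h
  exact sum_congr rfl fun y _ => mval_congr ι ρ U y h

theorem mval_killed (U : Finset (Fin n)) (α : A × Fin s → Fin Q)
    (h : ∃ v ∈ alv ι ρ U, num v ≠ α (bas v)) (x : A → Finset (Fin s))
    (y : A × Fin (s * Q) → Bool) : mval U (ptF ι ρ (pull α x) y) = 0 := by
  classical
  obtain ⟨v, hv, hne⟩ := h
  unfold mval
  rw [if_neg]
  intro h1
  have h2 := h1 _ (mem_filter.1 hv).2
  rw [ptF_apply] at h2
  unfold cpy at h2
  dsimp only at h2
  rw [Equiv.symm_apply_apply, if_pos rfl, decide_eq_true_eq, mem_pull] at h2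
  exact hne h2.1

theorem eval_eq_mval (p : MvPolynomial (Fin n) ℝ) (x : Fin n → Bool) :
    MvPolynomial.eval (fun i => if x i = true then (1 : ℝ) else 0) p =
      ∑ m ∈ p.support, p.coeff m * mval m.support x := by
  rw [MvPolynomial.eval_eq]
  apply sum_congr rfl
  intro m _
  congr 1
  unfold mval
  by_cases h : ∀ v ∈ m.support, x v = true
  · rw [if_pos h]
    apply prod_eq_one
    intro v hv
    rw [if_pos (h v hv), one_pow]
  · rw [if_neg h]
    push Not at h
    obtain ⟨v, hv, hne⟩ := h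
    apply prod_eq_zero hv
    rw [if_neg hne]
    exact zero_pow (Finsupp.mem_support_iff.1 hv)

/-- The choice of the copies which kills the monomials with many alive variables. -/
theorem exists_alpha (hQ : 1 ≤ Q) (p : MvPolynomial (Fin n) ℝ) (hp : Sparse Q d p) :
    ∃ α : A × Fin s → Fin Q, ∀ m ∈ p.support, d < (alv ι ρ m.support).card →
      ∃ v ∈ alv ι ρ m.support, num v ≠ α (bas v) := by
  classical
  have : NeZero Q := ⟨by omega⟩
  set F := p.support.filter fun m => d < (alv ι ρ m.support).card ∧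
    Set.InjOn bas (alv ι ρ m.support : Set (A × Fin (s * Q))) with hF
  have hW : ∀ m : Fin n →₀ ℕ, ∃ W : Finset (A × Fin s), m ∈ F →
      W ⊆ (alv ι ρ m.support).image bas ∧ W.card = d + 1 := by
    intro m
    by_cases h : m ∈ F
    · have h1 := (mem_filter.1 h).2
      have h2 : d + 1 ≤ ((alv ι ρ m.support).image bas).card := by
        rw [card_image_of_injOn h1.2]
        exact h1.1
      obtain ⟨W, h3, h4⟩ := exists_subset_card_eq h2
      exact ⟨W, fun _ => ⟨h3, h4⟩⟩
    · exact ⟨∅, fun h' => absurd h' h⟩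
  choose W hW using hW
  have hr : ∀ (m : Fin n →₀ ℕ) (v : A × Fin s), ∃ v' : A × Fin (s * Q),
      v ∈ (alv ι ρ m.support).image bas → v' ∈ alv ι ρ m.support ∧ bas v' = v := by
    intro m v
    by_cases h : v ∈ (alv ι ρ m.support).image bas
    · obtain ⟨v', h1, h2⟩ := mem_image.1 h
      exact ⟨v', fun _ => ⟨h1, h2⟩⟩
    · have hs : Nonempty (A × Fin (s * Q)) := by
        have hs0 : 0 < s := lt_of_le_of_lt (Nat.zero_le _) v.2.2
        exact ⟨(v.1, ⟨0, Nat.mul_pos hs0 (by omega)⟩)⟩
      obtain ⟨v'⟩ := hs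
      exact ⟨v', fun h' => absurd h' h⟩
  choose r hr using hr
  obtain ⟨α, hα⟩ := exists_kill (V := A × Fin s) (Ω := Fin Q) F (d + 1) (Q - 1) W
    (fun m v => univ.erase (num (r m v)))
    (fun m hm => (hW m hm).2)
    (fun m hm v hv => by
      rw [card_erase_of_mem (mem_univ _), card_univ, Fintype.card_fin]) (by
      rw [Fintype.card_fin, Nat.sub_sub_self hQ, one_pow, mul_one]
      refine lt_of_le_of_lt ?_ hp
      apply card_le_card
      intro m hm
      rw [hF, mem_filter] at hm
      exact mem_filter.2 ⟨hm.1, hm.2.1.trans_le (card_alv_le ι ρ _)⟩)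
  refine ⟨α, fun m hm hd => ?_⟩
  by_cases hinj : Set.InjOn bas (alv ι ρ m.support : Set (A × Fin (s * Q)))
  · have hmF : m ∈ F := mem_filter.2 ⟨hm, hd, hinj⟩
    obtain ⟨v, hv, h1⟩ := hα m hmF
    have h2 := hr m v ((hW m hmF).1 hv)
    refine ⟨r m v, h2.1, ?_⟩
    rw [h2.2]
    exact (mem_erase.1 h1).1.symm
  · unfold Set.InjOn at hinj
    push Not at hinj
    obtain ⟨v1, hv1, v2, hv2, h1, h2⟩ := hinj
    by_cases h3 : num v1 = α (bas v1)
    · refine ⟨v2, hv2, fun h4 => h2 (bas_num_ext h1 ?_)⟩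
      rw [h3, h4, h1]
    · exact ⟨v1, hv1, h3⟩

/-- The averaged values of a mixed polynomial on the chosen copies have low degree. -/
theorem mixed_lowDeg (F : Finset (Finset (Fin n × Bool) × Finset (Fin n)))
    (hρ : ∀ g ∈ F, LowDeg d (av ι ρ g)) (hQ : 1 ≤ Q) (P : MvPolynomial (Fin n) ℝ)
    (hP : Mixed F Q d P) : ∃ α : A × Fin s → Fin Q,
      LowDeg d fun x => ∑ y : A × Fin (s * Q) → Bool,
        MvPolynomial.eval (fun i => if ptF ι ρ (pull α x) y i = true then (1 : ℝ) else 0) P := by
  classical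
  obtain ⟨w, p, hp, hval⟩ := hP
  obtain ⟨α, hα⟩ := exists_alpha ι ρ hQ p hp
  refine ⟨α, ?_⟩
  have h1 : (fun x : A → Finset (Fin s) => ∑ y : A × Fin (s * Q) → Bool,
      MvPolynomial.eval (fun i => if ptF ι ρ (pull α x) y i = true then (1 : ℝ) else 0) P) =
      fun x => (∑ g ∈ F, w g * av ι ρ g (pull α x)) + ∑ m ∈ p.support, p.coeff m *
        ∑ y : A × Fin (s * Q) → Bool, mval m.support (ptF ι ρ (pull α x) y) := by
    funext x
    have e1 : ∑ g ∈ F, w g * av ι ρ g (pull α x) =
        ∑ y : A × Fin (s * Q) → Bool, ∑ g ∈ F, w g * feat g (ptF ι ρ (pull α x) y) := by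
      rw [sum_comm]
      apply sum_congr rfl
      intro g _
      unfold av
      rw [mul_sum]
    have e2 : ∑ m ∈ p.support, p.coeff m *
        ∑ y : A × Fin (s * Q) → Bool, mval m.support (ptF ι ρ (pull α x) y) =
        ∑ y : A × Fin (s * Q) → Bool, ∑ m ∈ p.support,
          p.coeff m * mval m.support (ptF ι ρ (pull α x) y) := by
      rw [sum_comm]
      apply sum_congr rfl
      intro m _
      rw [mul_sum]
    rw [e1, e2, ← sum_add_distrib]
    apply sum_congr rfl
    intro y _
    rw [hval, eval_eq_mval]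
  rw [h1]
  apply lowDeg_add
  · exact lowDeg_sum F w (fun g x => av ι ρ g (pull α x)) fun g hg =>
      lowDeg_pull α _ (hρ g hg)
  · refine lowDeg_sum p.support (fun m => p.coeff m) (fun m x =>
      ∑ y : A × Fin (s * Q) → Bool, mval m.support (ptF ι ρ (pull α x) y)) fun m hm => ?_
    by_cases h2 : d < (alv ι ρ m.support).card
    · have h3 : (fun x : A → Finset (Fin s) =>
          ∑ y : A × Fin (s * Q) → Bool, mval m.support (ptF ι ρ (pull α x) y)) =
          fun _ => 0 := by
        funext x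
        exact sum_eq_zero fun y _ => mval_killed ι ρ _ α (hα m hm h2) x y
      rw [h3]
      exact lowDeg_zero
    · exact lowDeg_pull α _ (mval_lowDeg ι ρ m.support (not_lt.1 h2))

end Poly

end Pool.Agent.THR72
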