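import Pool.Agent.THR72.Mixed
import Pool.Agent.THR72.Core

/-!
# The theorems for fixed features together with sparse polynomials
-/

namespace Pool.Agent.THR72

open Finset

/-- A block: the alive copies and the padding. -/
def blkF {A : Type} {n s : ℕ} (ι : (A × Fin s) × Fin 3 ↪ Fin n)
    (ρ : A × Fin s → Equiv.Perm (Fin 3) × Bool) (Pad : Finset (Fin n)) (a : A) :
    Finset (Fin n) :=
  (univ.image fun j : Fin s => ι ((a, j), (ρ (a, j)).1 0)) ∪ Pad

theorem blkF_card {A : Type} {n s k : ℕ} (ι : (A × Fin s) × Fin 3 ↪ Fin n)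
    (ρ : A × Fin s → Equiv.Perm (Fin 3) × Bool) (Pad : Finset (Fin n))
    (hPad : ∀ i ∈ Pad, ¬ ∃ w, ι w = i) (hk : s + Pad.card = k) (a : A) :
    (blkF ι ρ Pad a).card = k := by
  classical
  unfold blkF
  rw [card_union_of_disjoint, card_image_of_injective, card_univ, Fintype.card_fin, hk]
  · intro i j h
    have h1 := ι.injective h
    rw [Prod.mk.injEq, Prod.mk.injEq] at h1
    exact h1.1.2
  · rw [disjoint_left]
    intro i hi hi'
    obtain ⟨j, _, hj⟩ := mem_image.1 hi
    exact hPad i hi' ⟨_, hj⟩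

theorem hitF {A : Type} {n s : ℕ} (ι : (A × Fin s) × Fin 3 ↪ Fin n)
    (ρ : A × Fin s → Equiv.Perm (Fin 3) × Bool) (Pad : Finset (Fin n))
    (hPad : ∀ i ∈ Pad, ¬ ∃ w, ι w = i) (x : A → Finset (Fin s))
    (y : A × Fin s → Bool) (a : A) :
    (∃ i ∈ blkF ι ρ Pad a, ptF ι ρ x y i = true) ↔ (x a).Nonempty := by
  classical
  have hval : ∀ j : Fin s, ptF ι ρ x y (ι ((a, j), (ρ (a, j)).1 0)) = true ↔ j ∈ x a := by
    intro j
    rw [ptF_apply]
    unfold cpy
    dsimp only
    rw [Equiv.symm_apply_apply, if_pos rfl, decide_eq_true_eq]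
  unfold blkF
  constructor
  · rintro ⟨i, hi, h⟩
    rcases mem_union.1 hi with h1 | h1
    · obtain ⟨j, _, rfl⟩ := mem_image.1 h1
      exact ⟨j, (hval j).1 h⟩
    · rw [ptF_out ι ρ x y i (hPad i h1)] at h
      exact Bool.noConfusion h
  · rintro ⟨j, hj⟩
    exact ⟨_, mem_union_left _ (mem_image_of_mem _ (mem_univ j)), (hval j).2 hj⟩

open Classical in
/-- One trial. -/
theorem trialF {A : Type} [Fintype A] [DecidableEq A] {n s0 d B Q : ℕ} (hNS : NoSep A s0 d B) (hQ : 1 ≤ Q)
    (ι : (A × Fin (s0 * Q)) × Fin 3 ↪ Fin n)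
    (ρ : A × Fin (s0 * Q) → Equiv.Perm (Fin 3) × Bool)
    (Pad : Finset (Fin n)) (hPad : ∀ i ∈ Pad, ¬ ∃ w, ι w = i)
    (F : Finset (Finset (Fin n × Bool) × Finset (Fin n)))
    (hρ : ∀ g ∈ F, LowDeg d (av ι ρ g)) (P : MvPolynomial (Fin n) ℝ) (hP : Mixed F Q d P) :
    ∃ E : Ex n, thr P E.1 ≠ E.2 ∧
      (E.2 = true → ∀ a : A, ∃ i ∈ blkF ι ρ Pad a, E.1 i = true) ∧
      ((univ : Finset A).filter fun a =>
        disj ((blkF ι ρ Pad a).image fun i => (i, true)) E.1 ≠ E.2).card ≤ B := by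
  obtain ⟨α, hα⟩ := mixed_lowDeg (s := s0) ι ρ F hρ hQ P hP
  by_cases hpos : ∀ x : A → Finset (Fin s0), (∀ a, (x a).Nonempty) →
      0 < ∑ y : A × Fin (s0 * Q) → Bool,
        MvPolynomial.eval (fun i => if ptF ι ρ (pull α x) y i = true then (1 : ℝ) else 0) P
  · obtain ⟨x, hx1, hx2⟩ := hNS _ hα hpos
    obtain ⟨y, _, hy⟩ := exists_lt_of_sum_lt (s := univ) (f := fun _ => (0 : ℝ))
      (g := fun y : A × Fin (s0 * Q) → Bool =>
        MvPolynomial.eval (fun i => if ptF ι ρ (pull α x) y i = true then (1 : ℝ) else 0) P)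
      (by rw [sum_const_zero]; exact hx2)
    refine ⟨(ptF ι ρ (pull α x) y, false), ?_, fun h => Bool.noConfusion h, ?_⟩
    · show thr P (ptF ι ρ (pull α x) y) ≠ false
      unfold thr
      rw [decide_eq_true hy]
      exact Bool.noConfusion
    · refine (card_le_card ?_).trans hx1
      intro a ha
      rw [mem_filter] at ha ⊢
      refine ⟨mem_univ _, (nonempty_pull α x a).1
        ((hitF ι ρ Pad hPad (pull α x) y a).1 ((disj_pos _ _).1 ?_))⟩
      exact Bool.eq_true_of_not_eq_false ha.2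
  · push Not at hpos
    obtain ⟨x, hx1, hx2⟩ := hpos
    obtain ⟨y, _, hy⟩ := exists_le_of_sum_le (s := univ) univ_nonempty
      (f := fun y : A × Fin (s0 * Q) → Bool =>
        MvPolynomial.eval (fun i => if ptF ι ρ (pull α x) y i = true then (1 : ℝ) else 0) P)
      (g := fun _ => (0 : ℝ)) (by rw [sum_const_zero]; exact hx2)
    have hhit : ∀ a, ∃ i ∈ blkF ι ρ Pad a, ptF ι ρ (pull α x) y i = true := fun a =>
      (hitF ι ρ Pad hPad (pull α x) y a).2 ((nonempty_pull α x a).2 (hx1 a))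
    refine ⟨(ptF ι ρ (pull α x) y, true), ?_, fun _ a => hhit a, ?_⟩
    · show thr P (ptF ι ρ (pull α x) y) ≠ true
      unfold thr
      rw [decide_eq_false (not_lt.2 hy)]
      exact Bool.noConfusion
    · have : ((univ : Finset (A)).filter fun a =>
          disj ((blkF ι ρ Pad a).image fun i => (i, true)) (ptF ι ρ (pull α x) y, true).1 ≠
            (ptF ι ρ (pull α x) y, true).2) = ∅ := by
        rw [filter_eq_empty_iff]
        intro a _
        rw [not_not]
        exact (disj_pos _ _).2 (hhit a)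
      rw [this, card_empty]
      exact Nat.zero_le _

open Classical in
/-- The adversary, from the trials. -/
theorem adversaryG {n d : ℕ} {A : Type} [Fintype A] (D : A → Finset (Fin n))
    (L : List (Ex n) → MvPolynomial (Fin n) ℝ)
    (hL : ∀ H, ∃ E : Ex n, thr (L H) E.1 ≠ E.2 ∧
      (E.2 = true → ∀ a, ∃ i ∈ D a, E.1 i = true) ∧
      ((univ : Finset A).filter fun a =>
        disj ((D a).image fun i => (i, true)) E.1 ≠ E.2).card ≤ d) :
    ∀ (T : ℕ) (H : List (Ex n)), ∃ S : List (Ex n),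
      S.length = T ∧ mistakesAfter L H S = T ∧
      (∀ E ∈ S, E.2 = true → ∀ a, ∃ i ∈ D a, E.1 i = true) ∧
      ∑ a, errors ((D a).image fun i => (i, true)) S ≤ d * T := by
  intro T
  induction T with
  | zero =>
    intro H
    exact ⟨[], rfl, rfl, fun E hE => absurd hE List.not_mem_nil, by simp [errors]⟩
  | succ T ih =>
    intro H
    obtain ⟨E, he1, he3, he2⟩ := hL H
    obtain ⟨S, hS1, hS2, hS4, hS3⟩ := ih (H ++ [E])
    refine ⟨E :: S, by rw [List.length_cons, hS1], ?_, ?_, ?_⟩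
    · show (if thr (L H) E.1 = E.2 then 0 else 1) + mistakesAfter L (H ++ [E]) S = T + 1
      rw [if_neg he1, hS2]
      omega
    · intro E' hE'
      rcases List.mem_cons.1 hE' with rfl | h
      · exact he3
      · exact hS4 E' h
    · have h1 : ∀ a, errors ((D a).image fun i => (i, true)) (E :: S) =
          errors ((D a).image fun i => (i, true)) S +
            if disj ((D a).image fun i => (i, true)) E.1 ≠ E.2 then 1 else 0 := by
        intro a
        unfold errors
        rw [List.countP_cons]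
        congr 1
        by_cases h : disj ((D a).image fun i => (i, true)) E.1 = E.2
        · rw [if_neg (by rw [h]; simp), if_neg (not_not.2 h)]
        · rw [if_pos (by rw [bne_iff_ne]; exact h), if_pos h]
      simp only [h1]
      rw [sum_add_distrib, sum_boole]
      have h2 : d * (T + 1) = d * T + d := by ring
      rw [h2]
      exact Nat.add_le_add hS3 (by exact_mod_cast he2)

/-- **The core.** -/
theorem mixed_core {A : Type} [Fintype A] [Nonempty A] {n s0 d B Q k : ℕ}
    (hNS : NoSep A s0 d B) (hQ : 1 ≤ Q) (hk : s0 * Q ≤ k) (hn : 4 * (Fintype.card A * k) ≤ n)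
    (F : Finset (Finset (Fin n × Bool) × Finset (Fin n)))
    (hF : F.card * 5 ^ (d + 1) < 6 ^ (d + 1))
    (L : List (Ex n) → MvPolynomial (Fin n) ℝ) (hL : ∀ H, Mixed F Q d (L H)) (T : ℕ) :
    ∃ S : List (Ex n), T ≤ mistakes L S ∧ rDisj S = k ∧
      Fintype.card A * mDisj S ≤ B * T := by
  classical
  set s := s0 * Q with hsdef
  obtain ⟨e⟩ : Nonempty (((A × Fin s) × Fin 3) ⊕ Fin (k - s) ↪ Fin n) := by
    apply Function.Embedding.nonempty_of_card_le
    rw [Fintype.card_sum, Fintype.card_prod, Fintype.card_prod, Fintype.card_fin,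
      Fintype.card_fin, Fintype.card_fin, Fintype.card_fin]
    have h1 : Fintype.card A * s ≤ Fintype.card A * k := Nat.mul_le_mul_left _ hk
    have h2 : k ≤ Fintype.card A * k := Nat.le_mul_of_pos_left k Fintype.card_pos
    omega
  set ι : (A × Fin s) × Fin 3 ↪ Fin n := Function.Embedding.inl.trans e with hι
  set Pad : Finset (Fin n) := univ.image fun j : Fin (k - s) => e (Sum.inr j) with hPadDef
  have hPadc : Pad.card = k - s := by
    rw [hPadDef, card_image_of_injective, card_univ, Fintype.card_fin]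
    intro i j h
    exact Sum.inr_injective (e.injective h)
  have hPad : ∀ i ∈ Pad, ¬ ∃ w, ι w = i := by
    rintro i hi ⟨w', hw'⟩
    obtain ⟨j, _, hj⟩ := mem_image.1 hi
    have h1 : e (Sum.inl w') = e (Sum.inr j) := hw'.trans hj.symm
    exact Sum.inl_ne_inr (e.injective h1)
  have hF' : F.card * 10 ^ (d + 1) < 12 ^ (d + 1) := by
    have h1 : (5 * 2 : ℕ) ^ (d + 1) = 5 ^ (d + 1) * 2 ^ (d + 1) := mul_pow _ _ _
    have h2 : (6 * 2 : ℕ) ^ (d + 1) = 6 ^ (d + 1) * 2 ^ (d + 1) := mul_pow _ _ _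
    show F.card * (5 * 2) ^ (d + 1) < (6 * 2) ^ (d + 1)
    rw [h1, h2, ← mul_assoc]
    exact Nat.mul_lt_mul_of_pos_right hF (by positivity)
  obtain ⟨ρ, hρ⟩ := exists_rho ι F hF'
  obtain ⟨Pre, hPre⟩ := prefix_r (fun a : A => blkF ι ρ Pad a)
    (fun a => blkF_card (k := k) ι ρ Pad hPad (by rw [hPadc]; omega) a) T
  obtain ⟨S, hS1, hS2, hS3, hS4⟩ := adversaryG (fun a : A => blkF ι ρ Pad a) L
    (fun H => trialF hNS hQ ι ρ Pad hPad F hρ (L H) (hL H)) T Pre
  obtain ⟨hr, hm⟩ := hPre S hS1.le hS3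
  refine ⟨Pre ++ S, ?_, hr, ?_⟩
  · show T ≤ mistakesAfter L [] (Pre ++ S)
    rw [mistakesAfter_append, List.nil_append, hS2]
    exact Nat.le_add_left _ _
  · calc Fintype.card A * mDisj (Pre ++ S) = ∑ _a : A, mDisj (Pre ++ S) := by
          rw [sum_const, card_univ, smul_eq_mul]
      _ ≤ ∑ a : A, errors ((blkF ι ρ Pad a).image fun i => (i, true)) S :=
          sum_le_sum fun a _ => hm a
      _ ≤ B * T := hS4

/-- **Fixed features together with sparse polynomials.** -/
theorem barrier_mixed {n d Q : ℕ} (hQ : 1 ≤ Q)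
    (F : Finset (Finset (Fin n × Bool) × Finset (Fin n)))
    (hF : F.card * 5 ^ (d + 1) < 6 ^ (d + 1)) (L : List (Ex n) → MvPolynomial (Fin n) ℝ)
    (hL : ∀ H, Mixed F Q d (L H)) : Barrier L d Q 4 := by
  intro A _ _ s B k hNS hk hn T
  exact mixed_core hNS hQ hk hn F hF L hL T

end Pool.Agent.THR72
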