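import Pool.Agent.THR72.Count
import Pool.Agent.THR72.Gen

/-!
# Two laws of inputs with the same moments
-/

namespace Pool.Agent.THR72

open Finset

variable {q : ℕ} [Fact q.Prime] {d s : ℕ}

open Classical in
/-- expectations of products -/
lemma sum_prod (κ : ZMod q → Finset (Fin s) → ℝ) (S : ZMod q → Finset (Fin s)) :
    ∑ x : ZMod q → Finset (Fin s), (∏ a, κ a (x a)) * (if ∀ a, S a ⊆ x a then 1 else 0) =
      ∏ a, ∑ X, κ a X * (if S a ⊆ X then 1 else 0) := by
  rw [prod_univ_sum, Fintype.piFinset_univ]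
  apply sum_congr rfl
  intro x _
  rw [prod_mul_distrib]
  congr 1
  by_cases h : ∀ a, S a ⊆ x a
  · rw [if_pos h]
    symm
    apply prod_eq_one
    intro a _
    rw [if_pos (h a)]
  · rw [if_neg h]
    push Not at h
    obtain ⟨a, ha⟩ := h
    symm
    exact prod_eq_zero (mem_univ a) (if_neg ha)

open Classical in
/-- the law of the contents, given the polynomial -/
noncomputable def kap (μ : Finset (Fin s) → ℝ) (c : Fin d → ZMod q) (a : ZMod q)
    (X : Finset (Fin s)) : ℝ := if mon c a = 0 then μ X else if X = ∅ then 1 else 0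

open Classical in
/-- **The moments.** -/
theorem moments (hdq : d ≤ q) {μ ν : Finset (Fin s) → ℝ} (hμ : ∑ X, μ X = 1) (hν : ∑ X, ν X = 1)
    (hμν : ∀ I : Finset (Fin s), I.Nonempty → I.card ≤ d →
      ∑ X, μ X * (if I ⊆ X then 1 else 0) = q * ∑ X, ν X * (if I ⊆ X then 1 else 0))
    (S : ZMod q → Finset (Fin s)) (hS : ∑ a, (S a).card ≤ d) :
    ∑ c : Fin d → ZMod q, ∑ x : ZMod q → Finset (Fin s),
      (∏ a, kap μ c a (x a)) * (if ∀ a, S a ⊆ x a then 1 else 0) =
    (q : ℝ) ^ d * ∑ x : ZMod q → Finset (Fin s),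
      (∏ a, ν (x a)) * (if ∀ a, S a ⊆ x a then 1 else 0) := by
  set A : Finset (ZMod q) := univ.filter fun a => (S a).Nonempty with hA
  have hAd : A.card ≤ d := by
    refine le_trans ?_ hS
    calc A.card = ∑ a ∈ A, 1 := by rw [card_eq_sum_ones]
      _ ≤ ∑ a ∈ A, (S a).card := by
        apply sum_le_sum
        intro a ha
        rw [hA, mem_filter] at ha
        exact ha.2.card_pos
      _ ≤ ∑ a, (S a).card := sum_le_sum_of_subset (subset_univ _)
  have hSd : ∀ a, (S a).card ≤ d := fun a =>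
    (single_le_sum (f := fun a => (S a).card) (fun _ _ => Nat.zero_le _) (mem_univ a)).trans hS
  have hempty : ∀ a, a ∉ A → S a = ∅ := by
    intro a ha
    rw [hA, mem_filter, not_and] at ha
    exact not_nonempty_iff_eq_empty.1 (ha (mem_univ a))
  -- the product law
  have h1 : ∑ x : ZMod q → Finset (Fin s), (∏ a, ν (x a)) * (if ∀ a, S a ⊆ x a then 1 else 0) =
      ∏ a ∈ A, ∑ X, ν X * (if S a ⊆ X then 1 else 0) := by
    rw [sum_prod (fun _ => ν) S]
    symm
    apply prod_subset (subset_univ A)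
    intro a _ ha
    rw [hempty a ha]
    simp [hν]
  -- the other law
  have h2 : ∀ c : Fin d → ZMod q, ∑ x : ZMod q → Finset (Fin s),
      (∏ a, kap μ c a (x a)) * (if ∀ a, S a ⊆ x a then 1 else 0) =
      (if ∀ a ∈ A, mon c a = 0 then 1 else 0) *
        ∏ a ∈ A, ∑ X, μ X * (if S a ⊆ X then 1 else 0) := by
    intro c
    rw [sum_prod (fun a => kap μ c a) S]
    by_cases hc : ∀ a ∈ A, mon c a = 0
    · rw [if_pos hc, one_mul]
      symm
      have e1 : ∏ a ∈ A, ∑ X, μ X * (if S a ⊆ X then 1 else 0) =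
          ∏ a ∈ A, ∑ X, kap μ c a X * (if S a ⊆ X then 1 else 0) := by
        apply prod_congr rfl
        intro a ha
        apply sum_congr rfl
        intro X _
        unfold kap
        rw [if_pos (hc a ha)]
      rw [e1]
      apply prod_subset (subset_univ A)
      intro a _ ha
      rw [hempty a ha]
      by_cases h : mon c a = 0
      · simp only [kap, if_pos h, empty_subset, if_true, mul_one]
        exact hμ
      · simp only [kap, if_neg h, empty_subset, if_true, mul_one]
        rw [sum_ite_eq' univ ∅ fun _ => (1 : ℝ), if_pos (mem_univ _)]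
    · rw [if_neg hc, zero_mul]
      push Not at hc
      obtain ⟨a, ha, hne⟩ := hc
      apply prod_eq_zero (mem_univ a)
      apply sum_eq_zero
      intro X _
      unfold kap
      rw [if_neg hne]
      by_cases hX : X = ∅
      · rw [if_pos hX, if_neg]
        · ring
        · intro h
          rw [hX, subset_empty] at h
          rw [hA, mem_filter] at ha
          rw [h] at ha
          exact not_nonempty_empty ha.2
      · rw [if_neg hX, zero_mul]
  rw [h1]
  simp only [h2]
  rw [← sum_mul, sum_boole]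
  have h3 : ∏ a ∈ A, ∑ X, μ X * (if S a ⊆ X then 1 else 0) =
      (q : ℝ) ^ A.card * ∏ a ∈ A, ∑ X, ν X * (if S a ⊆ X then 1 else 0) := by
    rw [← prod_const, ← prod_mul_distrib]
    apply prod_congr rfl
    intro a ha
    rw [hA, mem_filter] at ha
    exact hμν _ ha.2 (hSd a)
  have h4 := card_zero hdq A hAd
  have h5 : (q : ℝ) ^ A.card *
      (((univ : Finset (Fin d → ZMod q)).filter fun c => ∀ a ∈ A, mon c a = 0).card : ℝ) =
      (q : ℝ) ^ d := by exact_mod_cast h4
  rw [h3, ← h5]
  ring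

open Classical in
/-- **No separation.** -/
theorem no_sep (hdq : d ≤ q) {μ ν : Finset (Fin s) → ℝ} (hμ0 : ∀ X, 0 ≤ μ X) (hν0 : ∀ X, 0 ≤ ν X)
    (hνe : ν ∅ = 0) (hμ : ∑ X, μ X = 1) (hν : ∑ X, ν X = 1)
    (hμν : ∀ I : Finset (Fin s), I.Nonempty → I.card ≤ d →
      ∑ X, μ X * (if I ⊆ X then 1 else 0) = q * ∑ X, ν X * (if I ⊆ X then 1 else 0))
    (G : (ZMod q → Finset (Fin s)) → ℝ) (hG : LowDeg d G)
    (hpos : ∀ x, (∀ a, (x a).Nonempty) → 0 < G x) :
    ∃ x, ((univ : Finset (ZMod q)).filter fun a => (x a).Nonempty).card ≤ d ∧ 0 < G x := by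
  by_contra hno
  push Not at hno
  obtain ⟨J, I, coef, S, hS, hGx⟩ := hG
  have hq0 : (0 : ℝ) < q := by exact_mod_cast (Fact.out : q.Prime).pos
  -- the two expectations are equal
  have key : ∑ c : Fin d → ZMod q, ∑ x : ZMod q → Finset (Fin s),
      (∏ a, kap μ c a (x a)) * G x = (q : ℝ) ^ d * ∑ x, (∏ a, ν (x a)) * G x := by
    have e1 : ∀ w : (ZMod q → Finset (Fin s)) → ℝ, ∑ x, w x * G x =
        ∑ j ∈ I, coef j * ∑ x, w x * (if ∀ a, S j a ⊆ x a then 1 else 0) := by
      intro w
      simp only [mul_sum]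
      rw [sum_comm]
      apply sum_congr rfl
      intro x _
      rw [hGx x, mul_sum]
      apply sum_congr rfl
      intro j _
      ring
    have e2 : ∀ c : Fin d → ZMod q, ∑ x : ZMod q → Finset (Fin s),
        (∏ a, kap μ c a (x a)) * G x = ∑ j ∈ I, coef j * ∑ x : ZMod q → Finset (Fin s),
          (∏ a, kap μ c a (x a)) * (if ∀ a, S j a ⊆ x a then 1 else 0) := fun c => e1 _
    simp only [e2]
    rw [sum_comm, e1, mul_sum]
    apply sum_congr rfl
    intro j hj
    rw [← mul_sum, moments hdq hμ hν hμν (S j) (hS j hj)]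
    ring
  -- the right hand side is positive
  have hmass : ∑ x : ZMod q → Finset (Fin s), ∏ a, ν (x a) = 1 := by
    have := sum_prod (fun _ : ZMod q => ν) (fun _ => (∅ : Finset (Fin s)))
    simpa [hν] using this
  have hw : ∀ x : ZMod q → Finset (Fin s), 0 ≤ ∏ a, ν (x a) := fun x => prod_nonneg fun a _ => hν0 _
  have hterm : ∀ x : ZMod q → Finset (Fin s), 0 ≤ (∏ a, ν (x a)) * G x := by
    intro x
    by_cases h : ∀ a, (x a).Nonempty
    · exact mul_nonneg (hw x) (hpos x h).le
    · push Not at h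
      obtain ⟨a, ha⟩ := h
      have : ∏ a, ν (x a) = 0 := prod_eq_zero (mem_univ a) (by rw [ha]; exact hνe)
      rw [this, zero_mul]
  have hR : 0 < ∑ x : ZMod q → Finset (Fin s), (∏ a, ν (x a)) * G x := by
    obtain ⟨x, hx⟩ : ∃ x : ZMod q → Finset (Fin s), 0 < ∏ a, ν (x a) := by
      by_contra h
      push Not at h
      have : ∑ x : ZMod q → Finset (Fin s), ∏ a, ν (x a) ≤ 0 := sum_nonpos fun x _ => h x
      linarith
    have hne : ∀ a, (x a).Nonempty := by
      intro a
      by_contra h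
      rw [not_nonempty_iff_eq_empty] at h
      have : ∏ a, ν (x a) = 0 := prod_eq_zero (mem_univ a) (by rw [h]; exact hνe)
      linarith
    exact sum_pos' (fun x _ => hterm x) ⟨x, mem_univ x, mul_pos hx (hpos x hne)⟩
  -- the left hand side is not
  have hL : ∑ c : Fin d → ZMod q, ∑ x : ZMod q → Finset (Fin s),
      (∏ a, kap μ c a (x a)) * G x ≤ 0 := by
    apply sum_nonpos
    intro c _
    apply sum_nonpos
    intro x _
    by_cases h : ((univ : Finset (ZMod q)).filter fun a => (x a).Nonempty).card ≤ d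
    · apply mul_nonpos_of_nonneg_of_nonpos _ (hno x h)
      apply prod_nonneg
      intro a _
      unfold kap
      split_ifs
      · exact hμ0 _
      · exact zero_le_one
      · exact le_refl _
    · have h1 : ∃ a, (x a).Nonempty ∧ mon c a ≠ 0 := by
        by_contra h2
        push Not at h2
        apply h
        refine (card_le_card ?_).trans (zeros_le c)
        intro a ha
        rw [mem_filter] at ha ⊢
        exact ⟨mem_univ _, h2 a ha.2⟩
      obtain ⟨a, ha, hne⟩ := h1
      have : ∏ a, kap μ c a (x a) = 0 := by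
        apply prod_eq_zero (mem_univ a)
        unfold kap
        rw [if_neg hne, if_neg ha.ne_empty]
      rw [this, zero_mul]
  have hpd : 0 < (q : ℝ) ^ d := pow_pos hq0 d
  have := mul_pos hpd hR
  linarith

theorem noSep_field (q d : ℕ) [Fact q.Prime] (hd : 1 ≤ d) (hdq : d ≤ q) :
    NoSep (ZMod q) ((4 * q + 1) * d ^ 2) d d := by
  obtain ⟨μ, ν, h1, h2, h3, h4, h5, h6⟩ := exists_contents d q hd (hd.trans hdq)
  exact fun G hG hpos => no_sep hdq h1 h2 h3 h4 h5 h6 G hG hpos

end Pool.Agent.THR72
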