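import Pool.Agent.THR72.Defs
import Pool.Agent.THR72.Prefix
import Pool.Agent.THR72.Cheb

/-!
# A learner with thresholds of degree `d`

The Perceptron with the features `φ_α`, `α : Fin d → Option (Fin n × Bool)`, the products of `d` factors
`1` or `[x i = b]`. It starts again after `A` mistakes.
-/

namespace Pool.Agent.THR72

open Finset

/-- a factor of a feature -/
def zz {n : ℕ} (x : Fin n → Bool) : Option (Fin n × Bool) → ℝ
  | none => 1
  | some l => if x l.1 = l.2 then 1 else 0

/-- products -/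
def vec {n d : ℕ} (g : Fin d → Option (Fin n × Bool) → ℝ) (α : Fin d → Option (Fin n × Bool)) : ℝ :=
  ∏ j, g j (α j)

theorem sum_vec_mul {n d : ℕ} (g g' : Fin d → Option (Fin n × Bool) → ℝ) :
    ∑ α, vec g α * vec g' α = ∏ j, ∑ o, g j o * g' j o := by
  unfold vec
  simp only [← Finset.prod_mul_distrib]
  rw [Finset.prod_univ_sum, Fintype.piFinset_univ]

/-- the features of `x` -/
def phi {n : ℕ} (d : ℕ) (x : Fin n → Bool) (α : Fin d → Option (Fin n × Bool)) : ℝ :=
  vec (fun _ => zz x) α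

theorem zz_sum {n : ℕ} (x : Fin n → Bool) (f : Option (Fin n × Bool) → ℝ) :
    ∑ o, f o * zz x o = f none + ∑ i, f (some (i, x i)) := by
  rw [Fintype.sum_option, Fintype.sum_prod_type]
  show f none * 1 + ∑ i, ∑ b, f (some (i, b)) * (if x i = b then (1 : ℝ) else 0) = _
  rw [mul_one]
  congr 1
  apply sum_congr rfl
  intro i _
  rw [Fintype.sum_bool]
  cases hx : x i
  · simp
  · simp

theorem phi_sq {n d : ℕ} (x : Fin n → Bool) : ∑ α, phi d x α * phi d x α = ((n : ℝ) + 1) ^ d := by
  unfold phi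
  rw [sum_vec_mul]
  have h1 : ∑ o, zz x o * zz x o = (n : ℝ) + 1 := by
    rw [zz_sum]
    have h2 : ∀ i, zz x (some (i, x i)) = 1 := fun i => if_pos rfl
    simp only [h2]
    rw [sum_const, card_univ, Fintype.card_fin, nsmul_eq_mul, mul_one, add_comm]
    rfl
  rw [h1, prod_const, card_univ, Fintype.card_fin]

/-! ### The polynomials -/

/-- the kernel, as a polynomial -/
noncomputable def kpoly {n : ℕ} (d : ℕ) (x' : Fin n → Bool) : MvPolynomial (Fin n) ℝ :=
  (1 + ∑ i, (if x' i = true then MvPolynomial.X i else 1 - MvPolynomial.X i)) ^ d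

theorem kpoly_degree {n : ℕ} (d : ℕ) (x' : Fin n → Bool) : (kpoly d x').totalDegree ≤ d := by
  unfold kpoly
  refine (MvPolynomial.totalDegree_pow _ _).trans ?_
  calc d * (1 + ∑ i, (if x' i = true then MvPolynomial.X i else 1 - MvPolynomial.X i) :
        MvPolynomial (Fin n) ℝ).totalDegree ≤ d * 1 := by
        apply Nat.mul_le_mul_left
        refine (MvPolynomial.totalDegree_add _ _).trans (max_le ?_ ?_)
        · rw [MvPolynomial.totalDegree_one]
          exact Nat.zero_le _
        · refine (MvPolynomial.totalDegree_finsetSum _ _).trans (Finset.sup_le fun i _ => ?_)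
          split_ifs
          · rw [MvPolynomial.totalDegree_X]
          · refine (MvPolynomial.totalDegree_sub _ _).trans (max_le ?_ ?_)
            · rw [MvPolynomial.totalDegree_one]
              exact Nat.zero_le _
            · rw [MvPolynomial.totalDegree_X]
    _ = d := mul_one d

theorem kpoly_eval {n : ℕ} (d : ℕ) (x' x : Fin n → Bool) :
    MvPolynomial.eval (fun i => if x i = true then (1 : ℝ) else 0) (kpoly d x') =
      ∑ α, phi d x' α * phi d x α := by
  unfold kpoly phi
  rw [sum_vec_mul, prod_const, card_univ, Fintype.card_fin, map_pow]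
  congr 1
  rw [zz_sum, map_add, map_one, map_sum]
  show 1 + _ = 1 + ∑ i, (if x' i = x i then (1 : ℝ) else 0)
  congr 1
  apply sum_congr rfl
  intro i _
  cases hx' : x' i <;> cases hx : x i <;> simp [hx]

/-- the sign of a label -/
def sg (b : Bool) : ℝ := if b then 1 else -1

/-- the polynomial of the learner, if the list `s` is stored -/
noncomputable def wpoly {n : ℕ} (d : ℕ) : List (Ex n) → MvPolynomial (Fin n) ℝ
  | [] => 0
  | e :: s => wpoly d s + MvPolynomial.C (sg e.2) * kpoly d e.1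

/-- the weights -/
def wt {n : ℕ} (d : ℕ) : List (Ex n) → (Fin d → Option (Fin n × Bool)) → ℝ
  | [], _ => 0
  | e :: s, α => wt d s α + sg e.2 * phi d e.1 α

theorem wpoly_degree {n : ℕ} (d : ℕ) (s : List (Ex n)) : (wpoly d s).totalDegree ≤ d := by
  induction s with
  | nil =>
    show (0 : MvPolynomial (Fin n) ℝ).totalDegree ≤ d
    rw [MvPolynomial.totalDegree_zero]
    exact Nat.zero_le _
  | cons e s ih =>
    show (wpoly d s + MvPolynomial.C (sg e.2) * kpoly d e.1).totalDegree ≤ d
    refine (MvPolynomial.totalDegree_add _ _).trans (max_le ih ?_)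
    refine (MvPolynomial.totalDegree_mul _ _).trans ?_
    rw [MvPolynomial.totalDegree_C, zero_add]
    exact kpoly_degree d e.1

theorem wpoly_eval {n : ℕ} (d : ℕ) (s : List (Ex n)) (x : Fin n → Bool) :
    MvPolynomial.eval (fun i => if x i = true then (1 : ℝ) else 0) (wpoly d s) =
      ∑ α, wt d s α * phi d x α := by
  induction s with
  | nil =>
    show MvPolynomial.eval _ (0 : MvPolynomial (Fin n) ℝ) = ∑ α, (0 : ℝ) * phi d x α
    simp
  | cons e s ih =>
    show MvPolynomial.eval _ (wpoly d s + MvPolynomial.C (sg e.2) * kpoly d e.1) =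
      ∑ α, (wt d s α + sg e.2 * phi d e.1 α) * phi d x α
    rw [map_add, map_mul, MvPolynomial.eval_C, ih, kpoly_eval, mul_sum, ← sum_add_distrib]
    apply sum_congr rfl
    intro α _
    ring

/-! ### The norm of the weights -/

theorem sg_sq (b : Bool) : sg b * sg b = 1 := by
  cases b <;> norm_num [sg]

theorem thr_wrong {n : ℕ} {d : ℕ} {s : List (Ex n)} {e : Ex n}
    (h : thr (wpoly d s) e.1 ≠ e.2) : sg e.2 * ∑ α, wt d s α * phi d e.1 α ≤ 0 := by
  rw [← wpoly_eval]
  unfold thr at h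
  cases he : e.2
  · rw [he] at h
    have h1 := Bool.eq_true_of_not_eq_false h
    rw [decide_eq_true_eq] at h1
    show (if false = true then (1 : ℝ) else -1) * _ ≤ 0
    rw [if_neg (by decide)]
    linarith
  · rw [he] at h
    have h1 := Bool.eq_false_of_not_eq_true h
    rw [decide_eq_false_iff_not, not_lt] at h1
    show (if true = true then (1 : ℝ) else -1) * _ ≤ 0
    rw [if_pos rfl, one_mul]
    exact h1

theorem norm_step {n : ℕ} {d : ℕ} {s : List (Ex n)} {e : Ex n} {R : ℝ}
    (h : thr (wpoly d s) e.1 ≠ e.2) (hs : ∑ α, wt d s α ^ 2 ≤ R) :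
    ∑ α, wt d (e :: s) α ^ 2 ≤ R + ((n : ℝ) + 1) ^ d := by
  have h1 : ∑ α, wt d (e :: s) α ^ 2 = ∑ α, wt d s α ^ 2 +
      2 * (sg e.2 * ∑ α, wt d s α * phi d e.1 α) + ∑ α, phi d e.1 α * phi d e.1 α := by
    rw [mul_sum, mul_sum, ← sum_add_distrib, ← sum_add_distrib]
    apply sum_congr rfl
    intro α _
    show (wt d s α + sg e.2 * phi d e.1 α) ^ 2 = _
    have := sg_sq e.2
    calc (wt d s α + sg e.2 * phi d e.1 α) ^ 2 = wt d s α ^ 2 +
          2 * (sg e.2 * (wt d s α * phi d e.1 α)) +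
          (sg e.2 * sg e.2) * (phi d e.1 α * phi d e.1 α) := by ring
      _ = _ := by rw [this, one_mul]
  rw [h1, phi_sq]
  have := thr_wrong h
  linarith

/-! ### The competitor -/

/-- the number of the true literals -/
def nn {n : ℕ} (h : Finset (Fin n × Bool)) (x : Fin n → Bool) : ℕ :=
  (h.filter fun l => x l.1 = l.2).card

theorem nn_le {n : ℕ} (h : Finset (Fin n × Bool)) (x : Fin n → Bool) :
    nn h x ≤ (h.image Prod.fst).card := by
  unfold nn
  rw [← card_image_of_injOn (f := Prod.fst) (s := h.filter fun l => x l.1 = l.2)]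
  · exact card_le_card (image_subset_image (filter_subset _ _))
  · intro l hl l' hl' he
    rw [mem_coe, mem_filter] at hl hl'
    apply Prod.ext he
    rw [← hl.2, ← hl'.2, he]

theorem nn_zero {n : ℕ} {h : Finset (Fin n × Bool)} {x : Fin n → Bool} (hd : disj h x = false) :
    nn h x = 0 := by
  unfold nn
  rw [card_eq_zero, filter_eq_empty_iff]
  intro l hl hx
  unfold disj at hd
  rw [decide_eq_false_iff_not] at hd
  exact hd ⟨l, hl, hx⟩

theorem nn_pos {n : ℕ} {h : Finset (Fin n × Bool)} {x : Fin n → Bool} (hd : disj h x = true) :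
    1 ≤ nn h x := by
  unfold nn
  unfold disj at hd
  rw [decide_eq_true_eq] at hd
  obtain ⟨l, hl, hx⟩ := hd
  exact card_pos.2 ⟨l, mem_filter.2 ⟨hl, hx⟩⟩

/-- a factor of a vector of the competitor -/
def gam {n : ℕ} (h : Finset (Fin n × Bool)) (j i : ℕ) : Option (Fin n × Bool) → ℝ
  | none => if i < j then -(i : ℝ) else 1
  | some l => if i < j then (if l ∈ h then 1 else 0) else 0

theorem gam_zz {n : ℕ} (h : Finset (Fin n × Bool)) (j i : ℕ) (x : Fin n → Bool) :
    ∑ o, gam h j i o * zz x o = if i < j then (nn h x : ℝ) - i else 1 := by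
  rw [zz_sum]
  show (if i < j then -(i : ℝ) else 1) +
    ∑ t, (if i < j then (if (t, x t) ∈ h then (1 : ℝ) else 0) else 0) = _
  by_cases hij : i < j
  · simp only [if_pos hij]
    rw [sum_boole]
    have h1 : (univ.filter fun t => (t, x t) ∈ h).card = nn h x := by
      unfold nn
      rw [← card_image_of_injOn (f := Prod.fst) (s := h.filter fun l => x l.1 = l.2)]
      · congr 1
        ext t
        rw [mem_filter, mem_image]
        constructor
        · rintro ⟨_, h1⟩
          exact ⟨(t, x t), mem_filter.2 ⟨h1, rfl⟩, rfl⟩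
        · rintro ⟨l, h1, rfl⟩
          rw [mem_filter] at h1
          refine ⟨mem_univ _, ?_⟩
          rw [h1.2]
          exact h1.1
      · intro l hl l' hl' he
        rw [mem_coe, mem_filter] at hl hl'
        apply Prod.ext he
        rw [← hl.2, ← hl'.2, he]
    rw [h1]
    ring
  · simp only [if_neg hij]
    rw [sum_const_zero, add_zero]

theorem gam_sq {n d : ℕ} (hd : 1 ≤ d) (h : Finset (Fin n × Bool)) (j i : ℕ) (hi : i < d) :
    ∑ o, gam h j i o * gam h j i o ≤ 2 * n + (d : ℝ) ^ 2 := by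
  have hd1 : (1 : ℝ) ≤ d := by exact_mod_cast hd
  rw [Fintype.sum_option]
  show (if i < j then -(i : ℝ) else 1) * (if i < j then -(i : ℝ) else 1) +
    ∑ l : Fin n × Bool, (if i < j then (if l ∈ h then (1 : ℝ) else 0) else 0) *
      (if i < j then (if l ∈ h then (1 : ℝ) else 0) else 0) ≤ _
  have h1 : (if i < j then -(i : ℝ) else 1) * (if i < j then -(i : ℝ) else 1) ≤ (d : ℝ) ^ 2 := by
    have hid : (i : ℝ) ≤ d := by exact_mod_cast hi.le
    have hi0 : (0 : ℝ) ≤ i := Nat.cast_nonneg i
    split_ifs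
    · nlinarith
    · nlinarith
  have h2 : ∑ l : Fin n × Bool, (if i < j then (if l ∈ h then (1 : ℝ) else 0) else 0) *
      (if i < j then (if l ∈ h then (1 : ℝ) else 0) else 0) ≤ ∑ _l : Fin n × Bool, (1 : ℝ) := by
    apply sum_le_sum
    intro l _
    split_ifs <;> norm_num
  rw [sum_const, card_univ, Fintype.card_prod, Fintype.card_fin, Fintype.card_bool,
    nsmul_eq_mul, mul_one] at h2
  push_cast at h2
  linarith

theorem prod_desc (N : ℕ) {d j : ℕ} (hj : j ≤ d) :
    ∏ i : Fin d, (if (i : ℕ) < j then (N : ℝ) - (i : ℕ) else 1) = (j.factorial : ℝ) * N.choose j := by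
  rw [Fin.prod_univ_eq_prod_range (fun i : ℕ => if i < j then (N : ℝ) - i else 1) d,
    prod_ite, prod_const_one, mul_one]
  have h1 : (range d).filter (fun i => i < j) = range j := by
    ext i
    rw [mem_filter, mem_range, mem_range]
    omega
  rw [h1]
  have h2 : (j.factorial : ℝ) * N.choose j = (N.descFactorial j : ℝ) := by
    rw [Nat.descFactorial_eq_factorial_mul_choose]
    push_cast
    ring
  rw [h2]
  clear h1 h2 hj
  induction j with
  | zero => simp
  | succ j ih =>
    rw [prod_range_succ, ih, Nat.descFactorial_succ]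
    rcases Nat.lt_or_ge N j with h | h
    · have h0 : N.descFactorial j = 0 := Nat.descFactorial_eq_zero_iff_lt.2 h
      rw [h0]
      simp
    · push_cast [Nat.cast_sub h]
      ring

/-- the bound for the norm of the competitor -/
def uu (n d : ℕ) : ℕ := (d + 1) ^ 2 * (2 ^ (d + 1) * (n + 1) + 1) ^ 2 * (2 * n + d ^ 2) ^ d

theorem exists_u {n d : ℕ} (hd : 1 ≤ d) (h : Finset (Fin n × Bool)) :
    ∃ u : (Fin d → Option (Fin n × Bool)) → ℝ, ∑ α, u α ^ 2 ≤ (uu n d : ℝ) ∧
      ∀ e : Ex n, (if disj h e.1 = e.2 then (1 : ℝ) else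
        1 - 2 * (1 + (h.image Prod.fst).card / (d : ℝ) ^ 2)) ≤
        sg e.2 * ∑ α, u α * phi d e.1 α := by
  set r := (h.image Prod.fst).card with hr
  have hrn : r ≤ n := by
    have := card_le_univ (h.image Prod.fst)
    rwa [Fintype.card_fin] at this
  obtain ⟨a, ha1, ha2, ha3⟩ := exists_coef d r hd
  set c : ℕ → ℝ := fun j => 2 * a j / j.factorial - if j = 0 then 1 else 0 with hc
  set v : ℕ → (Fin d → Option (Fin n × Bool)) → ℝ := fun j => vec fun i => gam h j i with hv
  have hvphi : ∀ j ≤ d, ∀ x : Fin n → Bool, ∑ α, v j α * phi d x α =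
      (j.factorial : ℝ) * (nn h x).choose j := by
    intro j hj x
    rw [hv]
    unfold phi
    rw [sum_vec_mul, ← prod_desc (nn h x) hj]
    apply prod_congr rfl
    intro i _
    exact gam_zz h j i x
  have hvsq : ∀ j, ∑ α, v j α ^ 2 ≤ (2 * n + (d : ℝ) ^ 2) ^ d := by
    intro j
    have h1 : ∑ α, v j α ^ 2 = ∏ i : Fin d, ∑ o, gam h j i o * gam h j i o := by
      rw [← sum_vec_mul]
      apply sum_congr rfl
      intro α _
      rw [pow_two]
    rw [h1]
    calc ∏ i : Fin d, ∑ o, gam h j i o * gam h j i o ≤ ∏ _i : Fin d, (2 * n + (d : ℝ) ^ 2) := by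
          apply prod_le_prod
          · intro i _
            exact sum_nonneg fun o _ => mul_self_nonneg _
          · intro i _
            exact gam_sq hd h j i i.2
      _ = (2 * n + (d : ℝ) ^ 2) ^ d := by rw [prod_const, card_univ, Fintype.card_fin]
  refine ⟨fun α => ∑ j ∈ range (d + 1), c j * v j α, ?_, ?_⟩
  · have hcj : ∀ j ∈ range (d + 1), c j ^ 2 ≤ (2 ^ (d + 1) * ((n : ℝ) + 1) + 1) ^ 2 := by
      intro j hj
      rw [mem_range] at hj
      have h1 := ha1 j (by omega)
      have h2 : |c j| ≤ 2 ^ (d + 1) * ((n : ℝ) + 1) + 1 := by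
        have h3 : |2 * a j / j.factorial| ≤ 2 * |a j| := by
          rw [abs_div, abs_mul, abs_two, Nat.abs_cast]
          apply div_le_self (by positivity)
          exact_mod_cast Nat.one_le_iff_ne_zero.2 (Nat.factorial_ne_zero j)
        have h4 : |(if j = 0 then (1 : ℝ) else 0)| ≤ 1 := by
          split_ifs <;> norm_num
        have h5 : |c j| ≤ |2 * a j / j.factorial| + |(if j = 0 then (1 : ℝ) else 0)| :=
          abs_sub _ _
        have h6 : (2 : ℝ) ^ d * (r + 1) ≤ 2 ^ d * (n + 1) := by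
          have : (r : ℝ) ≤ n := by exact_mod_cast hrn
          gcongr
        have h7 : (2 : ℝ) ^ (d + 1) * (n + 1) = 2 * (2 ^ d * (n + 1)) := by ring
        linarith
      rw [← sq_abs]
      exact pow_le_pow_left₀ (abs_nonneg _) h2 2
    have h1 : ∀ α, (∑ j ∈ range (d + 1), c j * v j α) ^ 2 ≤
        (∑ j ∈ range (d + 1), c j ^ 2) * ∑ j ∈ range (d + 1), v j α ^ 2 := fun α =>
      sum_mul_sq_le_sq_mul_sq _ _ _
    calc ∑ α, (∑ j ∈ range (d + 1), c j * v j α) ^ 2 ≤
          ∑ α, (∑ j ∈ range (d + 1), c j ^ 2) * ∑ j ∈ range (d + 1), v j α ^ 2 :=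
            sum_le_sum fun α _ => h1 α
      _ = (∑ j ∈ range (d + 1), c j ^ 2) * ∑ j ∈ range (d + 1), ∑ α, v j α ^ 2 := by
            rw [← mul_sum, sum_comm]
      _ ≤ (∑ _j ∈ range (d + 1), (2 ^ (d + 1) * ((n : ℝ) + 1) + 1) ^ 2) *
            ∑ _j ∈ range (d + 1), (2 * n + (d : ℝ) ^ 2) ^ d := by
            apply mul_le_mul (sum_le_sum hcj) (sum_le_sum fun j _ => hvsq j)
            · exact sum_nonneg fun j _ => sum_nonneg fun α _ => sq_nonneg _
            · exact sum_nonneg fun j _ => sq_nonneg _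
      _ = (uu n d : ℝ) := by
            rw [sum_const, sum_const, card_range, nsmul_eq_mul, nsmul_eq_mul]
            unfold uu
            push_cast
            ring
  · intro e
    have hsum : ∑ α, (∑ j ∈ range (d + 1), c j * v j α) * phi d e.1 α =
        2 * ∑ j ∈ range (d + 1), ((nn h e.1).choose j : ℝ) * a j - 1 := by
      have h1 : ∑ α, (∑ j ∈ range (d + 1), c j * v j α) * phi d e.1 α =
          ∑ j ∈ range (d + 1), c j * ∑ α, v j α * phi d e.1 α := by
        simp only [sum_mul, mul_sum]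
        rw [sum_comm]
        apply sum_congr rfl
        intro j _
        apply sum_congr rfl
        intro α _
        ring
      rw [h1]
      have h2 : ∀ j ∈ range (d + 1), c j * ∑ α, v j α * phi d e.1 α =
          2 * (((nn h e.1).choose j : ℝ) * a j) - if j = 0 then 1 else 0 := by
        intro j hj
        rw [mem_range] at hj
        rw [hvphi j (by omega) e.1]
        have h3 : (j.factorial : ℝ) ≠ 0 := by exact_mod_cast Nat.factorial_ne_zero j
        show (2 * a j / j.factorial - if j = 0 then 1 else 0) *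
          ((j.factorial : ℝ) * (nn h e.1).choose j) = _
        by_cases hj0 : j = 0
        · subst hj0
          simp
        · rw [if_neg hj0, sub_zero, sub_zero]
          field_simp
      rw [sum_congr rfl h2, sum_sub_distrib, ← mul_sum, sum_ite_eq' (range (d + 1)) 0,
        if_pos (mem_range.2 (Nat.succ_pos d))]
    rw [hsum]
    have hzero : disj h e.1 = false →
        ∑ j ∈ range (d + 1), ((nn h e.1).choose j : ℝ) * a j = 0 := by
      intro h1
      rw [nn_zero h1]
      apply sum_eq_zero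
      intro j _
      rcases Nat.eq_zero_or_pos j with h2 | h2
      · rw [h2, ha2, mul_zero]
      · rw [Nat.choose_eq_zero_of_lt h2, Nat.cast_zero, zero_mul]
    have hpos : disj h e.1 = true →
        1 ≤ ∑ j ∈ range (d + 1), ((nn h e.1).choose j : ℝ) * a j ∧
        ∑ j ∈ range (d + 1), ((nn h e.1).choose j : ℝ) * a j ≤ 1 + r / (d : ℝ) ^ 2 := by
      intro h1
      exact ha3 (nn h e.1) (nn_pos h1) (nn_le h e.1)
    have hρ : (0 : ℝ) ≤ r / (d : ℝ) ^ 2 := by positivity
    cases he : e.2 <;> cases hdj : disj h e.1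
    · rw [if_pos rfl, hzero hdj]
      show (1 : ℝ) ≤ (if false = true then (1 : ℝ) else -1) * (2 * 0 - 1)
      rw [if_neg (by decide)]
      norm_num
    · obtain ⟨h1, h2⟩ := hpos hdj
      rw [if_neg (by decide)]
      show _ ≤ (if false = true then (1 : ℝ) else -1) * _
      rw [if_neg (by decide)]
      linarith
    · rw [if_neg (by decide), hzero hdj]
      show _ ≤ (if true = true then (1 : ℝ) else -1) * (2 * 0 - 1)
      rw [if_pos rfl]
      linarith
    · obtain ⟨h1, h2⟩ := hpos hdj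
      rw [if_pos rfl]
      show (1 : ℝ) ≤ (if true = true then (1 : ℝ) else -1) * _
      rw [if_pos rfl]
      linarith

/-! ### The learner -/

theorem errors_cons {n : ℕ} (h : Finset (Fin n × Bool)) (e : Ex n) (s : List (Ex n)) :
    errors h (e :: s) = errors h s + if disj h e.1 = e.2 then 0 else 1 := by
  unfold errors
  rw [List.countP_cons]
  congr 1
  by_cases h1 : disj h e.1 = e.2
  · rw [if_pos h1, if_neg (by rw [h1]; simp)]
  · rw [if_neg h1, if_pos (by rw [bne_iff_ne]; exact h1)]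

theorem inner_lower {n d : ℕ} (h : Finset (Fin n × Bool)) (u : (Fin d → Option (Fin n × Bool)) → ℝ)
    (ρ : ℝ) (hu : ∀ e : Ex n, (if disj h e.1 = e.2 then (1 : ℝ) else 1 - 2 * ρ) ≤
      sg e.2 * ∑ α, u α * phi d e.1 α) (s : List (Ex n)) :
    (s.length : ℝ) - 2 * ρ * errors h s ≤ ∑ α, u α * wt d s α := by
  induction s with
  | nil =>
    show ((0 : ℕ) : ℝ) - 2 * ρ * ((0 : ℕ) : ℝ) ≤ ∑ α, u α * 0
    simp
  | cons e s ih =>
    have h1 : ∑ α, u α * wt d (e :: s) α =
        ∑ α, u α * wt d s α + sg e.2 * ∑ α, u α * phi d e.1 α := by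
      rw [mul_sum, ← sum_add_distrib]
      apply sum_congr rfl
      intro α _
      show u α * (wt d s α + sg e.2 * phi d e.1 α) = _
      ring
    have h2 := hu e
    rw [h1, errors_cons, List.length_cons]
    by_cases h3 : disj h e.1 = e.2
    · rw [if_pos h3] at h2 ⊢
      push_cast
      linarith
    · rw [if_neg h3] at h2 ⊢
      push_cast
      linarith

/-- the length of a phase -/
def phs (n d : ℕ) : ℕ := 4 * uu n d * (n + 1) ^ d

theorem phs_pos {n d : ℕ} (hd : 1 ≤ d) : 1 ≤ phs n d := by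
  unfold phs uu
  have : 0 < 2 * n + d ^ 2 := by positivity
  exact Nat.one_le_iff_ne_zero.2 (by positivity)

/-- a full phase has many errors -/
theorem phase_bound {n d : ℕ} (hd : 1 ≤ d) (h : Finset (Fin n × Bool)) (s : List (Ex n))
    (hs : ∑ α, wt d s α ^ 2 ≤ s.length * ((n : ℝ) + 1) ^ d) (hl : phs n d ≤ s.length) :
    (s.length : ℝ) ≤ 4 * (1 + (h.image Prod.fst).card / (d : ℝ) ^ 2) * errors h s := by
  obtain ⟨u, hu1, hu2⟩ := exists_u hd h
  have h1 := inner_lower h u _ hu2 s
  have h2 : (∑ α, u α * wt d s α) ^ 2 ≤ (∑ α, u α ^ 2) * ∑ α, wt d s α ^ 2 :=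
    sum_mul_sq_le_sq_mul_sq _ _ _
  have h3 : (∑ α, u α ^ 2) * ∑ α, wt d s α ^ 2 ≤
      (uu n d : ℝ) * (s.length * ((n : ℝ) + 1) ^ d) :=
    mul_le_mul hu1 hs (sum_nonneg fun α _ => sq_nonneg _) (Nat.cast_nonneg _)
  have h4 : 4 * ((uu n d : ℝ) * ((n : ℝ) + 1) ^ d) ≤ s.length := by
    have : ((phs n d : ℕ) : ℝ) ≤ (s.length : ℝ) := by exact_mod_cast hl
    unfold phs at this
    push_cast at this
    linarith
  have hl0 : (0 : ℝ) ≤ s.length := Nat.cast_nonneg _
  have h5 : 4 * (∑ α, u α * wt d s α) ^ 2 ≤ (s.length : ℝ) ^ 2 := by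
    calc 4 * (∑ α, u α * wt d s α) ^ 2 ≤
          4 * ((uu n d : ℝ) * (s.length * ((n : ℝ) + 1) ^ d)) := by linarith
      _ = (4 * ((uu n d : ℝ) * ((n : ℝ) + 1) ^ d)) * s.length := by ring
      _ ≤ s.length * s.length := mul_le_mul_of_nonneg_right h4 hl0
      _ = (s.length : ℝ) ^ 2 := by ring
  have h6 : 2 * (∑ α, u α * wt d s α) ≤ s.length := by
    have h7 : (2 * (∑ α, u α * wt d s α)) ^ 2 ≤ (s.length : ℝ) ^ 2 := by
      rw [mul_pow]
      linarith
    exact le_trans (le_abs_self _) (abs_le_of_sq_le_sq h7 hl0)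
  linarith

/-- one step of the learner -/
noncomputable def pstep {n : ℕ} (d : ℕ) (s : List (Ex n)) (e : Ex n) : List (Ex n) :=
  if thr (wpoly d s) e.1 = e.2 then s else if s.length + 1 < phs n d then e :: s else []

/-- the stored examples after `H` -/
noncomputable def pst {n : ℕ} (d : ℕ) (H : List (Ex n)) : List (Ex n) := H.foldl (pstep d) []

/-- the learner -/
noncomputable def perc {n : ℕ} (d : ℕ) (H : List (Ex n)) : MvPolynomial (Fin n) ℝ :=
  wpoly d (pst d H)

theorem pst_snoc {n d : ℕ} (H : List (Ex n)) (e : Ex n) :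
    pst d (H ++ [e]) = pstep d (pst d H) e := by
  unfold pst
  rw [List.foldl_append, List.foldl_cons, List.foldl_nil]

theorem norm_cons {n d : ℕ} {s : List (Ex n)} {e : Ex n} (h : thr (wpoly d s) e.1 ≠ e.2)
    (hs : ∑ α, wt d s α ^ 2 ≤ s.length * ((n : ℝ) + 1) ^ d) :
    ∑ α, wt d (e :: s) α ^ 2 ≤ (e :: s).length * ((n : ℝ) + 1) ^ d := by
  refine (norm_step h hs).trans (le_of_eq ?_)
  rw [List.length_cons]
  push_cast
  ring

theorem pst_inv {n d : ℕ} (hd : 1 ≤ d) (H : List (Ex n)) : (pst d H).length < phs n d ∧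
    ∑ α, wt d (pst d H) α ^ 2 ≤ (pst d H).length * ((n : ℝ) + 1) ^ d := by
  have hnil : ([] : List (Ex n)).length < phs n d ∧
      ∑ α, wt d ([] : List (Ex n)) α ^ 2 ≤ ([] : List (Ex n)).length * ((n : ℝ) + 1) ^ d := by
    refine ⟨phs_pos hd, ?_⟩
    show ∑ α : Fin d → Option (Fin n × Bool), (0 : ℝ) ^ 2 ≤ ((0 : ℕ) : ℝ) * ((n : ℝ) + 1) ^ d
    simp
  induction H using List.reverseRecOn with
  | nil => exact hnil
  | append_singleton H e ih =>
    rw [pst_snoc]
    unfold pstep
    split_ifs with h1 h2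
    · exact ih
    · exact ⟨h2, norm_cons h1 ih.2⟩
    · exact hnil

theorem perc_pot {n d : ℕ} (hd : 1 ≤ d) (h : Finset (Fin n × Bool)) :
    ∀ (S H : List (Ex n)), (mistakesAfter (perc d) H S : ℝ) ≤
      4 * (1 + (h.image Prod.fst).card / (d : ℝ) ^ 2) *
        ((errors h (pst d H) : ℝ) + errors h S) + ((phs n d : ℝ) - (pst d H).length) := by
  intro S
  set ρ := 4 * (1 + (h.image Prod.fst).card / (d : ℝ) ^ 2) with hρ
  have hρ0 : 0 ≤ ρ := by positivity
  induction S with
  | nil =>
    intro H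
    show ((0 : ℕ) : ℝ) ≤ ρ * ((errors h (pst d H) : ℝ) + ((0 : ℕ) : ℝ)) +
      ((phs n d : ℝ) - (pst d H).length)
    have h1 : ((pst d H).length : ℝ) ≤ phs n d := by exact_mod_cast (pst_inv hd H).1.le
    have h2 : 0 ≤ ρ * ((errors h (pst d H) : ℝ) + ((0 : ℕ) : ℝ)) := by positivity
    push_cast at h2 ⊢
    linarith
  | cons e S ih =>
    intro H
    have h1 := ih (H ++ [e])
    obtain ⟨hi1, hi2⟩ := pst_inv hd H
    have h2 : mistakesAfter (perc d) H (e :: S) =
        (if thr (perc d H) e.1 = e.2 then 0 else 1) + mistakesAfter (perc d) (H ++ [e]) S := rfl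
    rw [h2, errors_cons]
    rw [pst_snoc] at h1
    have hE : (0 : ℝ) ≤ (if disj h e.1 = e.2 then 0 else 1 : ℕ) := Nat.cast_nonneg _
    by_cases h3 : thr (wpoly d (pst d H)) e.1 = e.2
    · have h4 : thr (perc d H) e.1 = e.2 := h3
      rw [if_pos h4]
      unfold pstep at h1
      rw [if_pos h3] at h1
      push_cast
      push_cast at hE
      have h5 : 0 ≤ ρ * (if disj h e.1 = e.2 then (0 : ℝ) else 1) := mul_nonneg hρ0 hE
      linarith
    · have h4 : ¬ thr (perc d H) e.1 = e.2 := h3
      rw [if_neg h4]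
      unfold pstep at h1
      rw [if_neg h3] at h1
      by_cases h5 : (pst d H).length + 1 < phs n d
      · rw [if_pos h5, errors_cons, List.length_cons] at h1
        push_cast at h1 ⊢
        linarith
      · rw [if_neg h5] at h1
        have h6 := phase_bound hd h (e :: pst d H) (norm_cons h3 hi2)
          (by rw [List.length_cons]; omega)
        rw [← hρ, errors_cons, List.length_cons] at h6
        have h7 : ((pst d H).length : ℝ) + 1 ≤ phs n d := by exact_mod_cast hi1
        have h8 : (phs n d : ℝ) ≤ ((pst d H).length : ℝ) + 1 := by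
          exact_mod_cast not_lt.1 h5
        have h9 : ((errors h ([] : List (Ex n)) : ℕ) : ℝ) = 0 := by
          show ((0 : ℕ) : ℝ) = 0
          exact Nat.cast_zero
        rw [h9, List.length_nil] at h1
        push_cast at h1 h6 ⊢
        linarith

theorem exists_rmin {n : ℕ} (S : List (Ex n)) : ∃ h : Finset (Fin n × Bool),
    errors h S = mDisj S ∧ (h.image Prod.fst).card = rDisj S := by
  have hne : ((fun h : Finset (Fin n × Bool) => (h.image Prod.fst).card) ''
      {h | errors h S = mDisj S}).Nonempty := by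
    obtain ⟨h, hh⟩ := exists_min S
    exact ⟨_, h, hh, rfl⟩
  obtain ⟨h, h1, h2⟩ := Nat.sInf_mem hne
  exact ⟨h, h1, h2⟩

/-- **Thresholds of degree `d`: the ratio `O(1 + r / d ^ 2)` is attained.** -/
theorem perceptron (n : ℕ) {d : ℕ} (hd : 1 ≤ d) : ∃ L : List (Ex n) → MvPolynomial (Fin n) ℝ,
    (∀ H, (L H).totalDegree ≤ d) ∧
    ∀ S : List (Ex n), (mistakes L S : ℝ) ≤
      4 * (1 + rDisj S / (d : ℝ) ^ 2) * mDisj S + phs n d := by
  refine ⟨perc d, fun H => wpoly_degree d _, fun S => ?_⟩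
  obtain ⟨h, h1, h2⟩ := exists_rmin S
  have h3 := perc_pot hd h S []
  have h4 : pst d ([] : List (Ex n)) = [] := rfl
  have h9 : ((errors h ([] : List (Ex n)) : ℕ) : ℝ) = 0 := by
    show ((0 : ℕ) : ℝ) = 0
    exact Nat.cast_zero
  rw [h4, h9, h1, h2, List.length_nil, Nat.cast_zero, zero_add, sub_zero] at h3
  exact h3

/-- **The matching learners**, with a polynomial number of additional mistakes for every degree. -/
theorem perceptron_poly {d : ℕ} (hd : 1 ≤ d) : ∃ p : Polynomial ℕ, ∀ n : ℕ,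
    ∃ L : List (Ex n) → MvPolynomial (Fin n) ℝ, (∀ H, (L H).totalDegree ≤ d) ∧
      ∀ S : List (Ex n), (mistakes L S : ℝ) ≤
        4 * (1 + rDisj S / (d : ℝ) ^ 2) * mDisj S + p.eval n := by
  refine ⟨4 * (((d : Polynomial ℕ) + 1) ^ 2 * (2 ^ (d + 1) * (Polynomial.X + 1) + 1) ^ 2 *
    (2 * Polynomial.X + (d : Polynomial ℕ) ^ 2) ^ d) * (Polynomial.X + 1) ^ d, fun n => ?_⟩
  obtain ⟨L, h1, h2⟩ := perceptron n hd
  refine ⟨L, h1, fun S => (h2 S).trans (le_of_eq ?_)⟩
  congr 2
  unfold phs uu
  simp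

end Pool.Agent.THR72
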