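import Pool.Agent.THR72.Defs
import Pool.Agent.THR72.Gen

/-!
# The adversary against thresholds of sparse polynomials
-/

namespace Pool.Agent.THR72

open Finset

section

variable {A : Type} {n d s : ℕ} (ι : A × Fin s ↪ Fin n)

open Classical in
/-- the input of the contents -/
noncomputable def pt (x : A → Finset (Fin s)) (v : Fin n) : Bool :=
  decide (∃ a i, ι (a, i) = v ∧ i ∈ x a)

open Classical in
lemma pt_iff (x : A → Finset (Fin s)) (v : Fin n) :
    pt ι x v = true ↔ ∃ a i, ι (a, i) = v ∧ i ∈ x a := by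
  unfold pt
  exact decide_eq_true_iff

lemma pt_apply (x : A → Finset (Fin s)) (a : A) (i : Fin s) :
    pt ι x (ι (a, i)) = true ↔ i ∈ x a := by
  rw [pt_iff]
  constructor
  · rintro ⟨a', i', h, hi⟩
    have := ι.injective h
    rw [Prod.mk.injEq] at this
    obtain ⟨rfl, rfl⟩ := this
    exact hi
  · intro h
    exact ⟨a, i, rfl, h⟩

open Classical in
/-- the values of a polynomial whose surviving monomials have few variables -/
lemma lowDeg_eval [Fintype A] (p : MvPolynomial (Fin n) ℝ)
    (hp : ∀ m ∈ p.support, (m.support : Set (Fin n)) ⊆ Set.range ι → m.support.card ≤ d) :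
    LowDeg d fun x : A → Finset (Fin s) =>
      MvPolynomial.eval (fun v => if pt ι x v = true then (1 : ℝ) else 0) p := by
  refine ⟨Fin n →₀ ℕ, p.support.filter fun m => (m.support : Set (Fin n)) ⊆ Set.range ι,
    fun m => p.coeff m, fun m a => univ.filter fun i => ι (a, i) ∈ m.support, ?_, ?_⟩
  · intro m hm
    rw [mem_filter] at hm
    have h1 : ∑ a : A, (univ.filter fun i : Fin s => ι (a, i) ∈ m.support).card =
        ((univ : Finset (A × Fin s)).filter fun e => ι e ∈ m.support).card := by
      rw [← card_sigma]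
      apply card_bij (fun e _ => (e.1, e.2))
      · intro e he
        rw [mem_sigma, mem_filter] at he
        rw [mem_filter]
        exact ⟨mem_univ _, he.2.2⟩
      · rintro ⟨a, i⟩ _ ⟨b, j⟩ _ h
        rw [Prod.mk.injEq] at h
        obtain ⟨h1, h2⟩ := h
        dsimp only at h1 h2
        subst h1
        subst h2
        rfl
      · rintro ⟨a, i⟩ h
        rw [mem_filter] at h
        exact ⟨⟨a, i⟩, by rw [mem_sigma, mem_filter]; exact ⟨mem_univ _, mem_univ _, h.2⟩, rfl⟩
    have h2 : ((univ : Finset (A × Fin s)).filter fun e => ι e ∈ m.support).card ≤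
        m.support.card := by
      apply card_le_card_of_injOn ι
      · intro e he
        rw [mem_coe, mem_filter] at he
        exact he.2
      · exact ι.injective.injOn
    rw [h1]
    exact h2.trans (hp m hm.1 hm.2)
  · intro x
    show MvPolynomial.eval (fun v => if pt ι x v = true then (1 : ℝ) else 0) p =
      ∑ m ∈ p.support.filter fun m => (m.support : Set (Fin n)) ⊆ Set.range ι, p.coeff m *
        (if ∀ a, (univ.filter fun i => ι (a, i) ∈ m.support) ⊆ x a then 1 else 0)
    rw [MvPolynomial.eval_eq, sum_filter]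
    apply sum_congr rfl
    intro m _
    have h1 : ∏ v ∈ m.support, (if pt ι x v = true then (1 : ℝ) else 0) ^ m v =
        if ∀ v ∈ m.support, pt ι x v = true then 1 else 0 := by
      by_cases h : ∀ v ∈ m.support, pt ι x v = true
      · rw [if_pos h]
        apply prod_eq_one
        intro v hv
        rw [if_pos (h v hv), one_pow]
      · rw [if_neg h]
        push Not at h
        obtain ⟨v, hv, hne⟩ := h
        apply prod_eq_zero hv
        rw [if_neg hne]
        exact zero_pow (Finsupp.mem_support_iff.1 hv)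
    rw [h1]
    by_cases hr : (m.support : Set (Fin n)) ⊆ Set.range ι
    · rw [if_pos hr]
      congr 1
      have h2 : (∀ v ∈ m.support, pt ι x v = true) ↔
          ∀ a, (univ.filter fun i => ι (a, i) ∈ m.support) ⊆ x a := by
        constructor
        · intro h a i hi
          rw [mem_filter] at hi
          exact (pt_apply ι x a i).1 (h _ hi.2)
        · intro h v hv
          obtain ⟨⟨a, i⟩, rfl⟩ := hr hv
          exact (pt_apply ι x a i).2 (h a (by rw [mem_filter]; exact ⟨mem_univ _, hv⟩))
      by_cases h3 : ∀ v ∈ m.support, pt ι x v = true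
      · rw [if_pos h3, if_pos (h2.1 h3)]
      · rw [if_neg h3, if_neg (fun h => h3 (h2.2 h))]
    · rw [if_neg hr, if_neg, mul_zero]
      intro h
      apply hr
      intro v hv
      obtain ⟨a, i, h4, _⟩ := (pt_iff ι x v).1 (h v hv)
      exact ⟨(a, i), h4⟩

end

section

variable {B : Type} [Fintype B] [DecidableEq B] {n Q : ℕ} (ι : B × Fin Q ↪ Fin n)

/-- the alive copies -/
def alive (α : B → Fin Q) : B ↪ Fin n :=
  ⟨fun b => ι (b, α b), fun _ _ h => congrArg Prod.fst (ι.injective h)⟩

open Classical in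
/-- few choices keep a given set of variables -/
lemma few_choices {d : ℕ} (U : Finset (Fin n)) (hU : d < U.card) :
    Q ^ (d + 1) * ((univ : Finset (B → Fin Q)).filter fun α =>
      (U : Set (Fin n)) ⊆ Set.range (alive ι α)).card ≤ Q ^ Fintype.card B := by
  rcases ((univ : Finset (B → Fin Q)).filter fun α =>
      (U : Set (Fin n)) ⊆ Set.range (alive ι α)).eq_empty_or_nonempty with h0 | ⟨α₀, hα₀⟩
  · rw [h0, card_empty, mul_zero]
    exact Nat.zero_le _
  rw [mem_filter] at hα₀
  set W : Finset B := univ.filter fun b => ∃ κ, ι (b, κ) ∈ U with hW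
  have hfix : ∀ α : B → Fin Q, (U : Set (Fin n)) ⊆ Set.range (alive ι α) →
      ∀ b κ, ι (b, κ) ∈ U → α b = κ := by
    intro α hα b κ hv
    obtain ⟨b', hb'⟩ := hα hv
    have := ι.injective hb'
    rw [Prod.mk.injEq] at this
    obtain ⟨rfl, h2⟩ := this
    exact h2
  have hUW : U.card ≤ W.card := by
    apply card_le_card_of_surjOn (alive ι α₀)
    intro v hv
    obtain ⟨b, hb⟩ := hα₀.2 hv
    refine ⟨b, ?_, hb⟩
    rw [mem_coe, hW, mem_filter]
    exact ⟨mem_univ _, α₀ b, by rw [← hb] at hv; exact hv⟩
  have hsub : ((univ : Finset (B → Fin Q)).filter fun α =>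
      (U : Set (Fin n)) ⊆ Set.range (alive ι α)) ⊆
      Fintype.piFinset fun b => if b ∈ W then {α₀ b} else univ := by
    intro α hα
    rw [mem_filter] at hα
    rw [Fintype.mem_piFinset]
    intro b
    by_cases hb : b ∈ W
    · rw [if_pos hb, mem_singleton]
      rw [hW, mem_filter] at hb
      obtain ⟨_, κ, hκ⟩ := hb
      rw [hfix α hα.2 b κ hκ, hfix α₀ hα₀.2 b κ hκ]
    · rw [if_neg hb]
      exact mem_univ _
  have hc := card_le_card hsub
  rw [Fintype.card_piFinset] at hc
  have h1 : ∏ b : B, (if b ∈ W then ({α₀ b} : Finset (Fin Q)) else univ).card =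
      Q ^ (Fintype.card B - W.card) := by
    have h2 : ∀ b : B, (if b ∈ W then ({α₀ b} : Finset (Fin Q)) else univ).card =
        if b ∈ W then 1 else Q := by
      intro b
      by_cases hb : b ∈ W
      · rw [if_pos hb, if_pos hb, card_singleton]
      · rw [if_neg hb, if_neg hb, card_univ, Fintype.card_fin]
    simp only [h2]
    rw [prod_ite, prod_const_one, one_mul, prod_const]
    congr 1
    have h3 : (univ.filter fun b => ¬ b ∈ W) = univ \ W := by
      ext b
      rw [mem_filter, mem_sdiff]
    have h4 : (univ.filter fun x => x ∉ W).card = Fintype.card B - W.card := by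
      rw [h3, card_sdiff_of_subset (subset_univ _), card_univ]
    exact h4
  rw [h1] at hc
  have hWB : W.card ≤ Fintype.card B := card_le_univ _
  have hQ : 0 < Q := by
    obtain ⟨v, hv⟩ := card_pos.1 (lt_of_le_of_lt (Nat.zero_le _) hU)
    obtain ⟨b, _⟩ := hα₀.2 hv
    exact lt_of_le_of_lt (Nat.zero_le _) (α₀ b).2
  calc Q ^ (d + 1) * ((univ : Finset (B → Fin Q)).filter fun α =>
      (U : Set (Fin n)) ⊆ Set.range (alive ι α)).card
      ≤ Q ^ (d + 1) * Q ^ (Fintype.card B - W.card) := Nat.mul_le_mul_left _ hc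
    _ = Q ^ (d + 1 + (Fintype.card B - W.card)) := (pow_add _ _ _).symm
    _ ≤ Q ^ Fintype.card B := Nat.pow_le_pow_right hQ (by omega)

open Classical in
/-- a choice of the copies that kills all monomials with many variables -/
theorem exists_choice {d : ℕ} (hQ : 1 ≤ Q) (p : MvPolynomial (Fin n) ℝ) (hp : Sparse Q d p) :
    ∃ α : B → Fin Q, ∀ m ∈ p.support, (m.support : Set (Fin n)) ⊆ Set.range (alive ι α) →
      m.support.card ≤ d := by
  by_contra hno
  push Not at hno
  set Big := p.support.filter fun m => d < m.support.card with hBig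
  have h1 : (univ : Finset (B → Fin Q)) ⊆ Big.biUnion fun m =>
      univ.filter fun α => (m.support : Set (Fin n)) ⊆ Set.range (alive ι α) := by
    intro α _
    obtain ⟨m, hm1, hm2, hm3⟩ := hno α
    rw [mem_biUnion]
    exact ⟨m, by rw [hBig, mem_filter]; exact ⟨hm1, hm3⟩, by
      rw [mem_filter]; exact ⟨mem_univ _, hm2⟩⟩
  have h2 := (card_le_card h1).trans card_biUnion_le
  rw [card_univ, Fintype.card_fun, Fintype.card_fin] at h2
  have hpos : 0 < Q ^ Fintype.card B := pow_pos (by omega) _
  have h3 : Q ^ (d + 1) * Q ^ Fintype.card B ≤ Big.card * Q ^ Fintype.card B := by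
    calc Q ^ (d + 1) * Q ^ Fintype.card B ≤ Q ^ (d + 1) * ∑ m ∈ Big,
          ((univ : Finset (B → Fin Q)).filter fun α =>
            (m.support : Set (Fin n)) ⊆ Set.range (alive ι α)).card := Nat.mul_le_mul_left _ h2
      _ = ∑ m ∈ Big, Q ^ (d + 1) * ((univ : Finset (B → Fin Q)).filter fun α =>
            (m.support : Set (Fin n)) ⊆ Set.range (alive ι α)).card := by rw [mul_sum]
      _ ≤ ∑ _m ∈ Big, Q ^ Fintype.card B := by
          apply sum_le_sum
          intro m hm
          rw [hBig, mem_filter] at hm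
          exact few_choices ι m.support hm.2
      _ = Big.card * Q ^ Fintype.card B := by rw [sum_const, smul_eq_mul]
  have h4 := Nat.le_of_mul_le_mul_right h3 hpos
  have h5 : Big.card < Q ^ (d + 1) := by
    unfold Sparse at hp
    rw [hBig]
    refine lt_of_eq_of_lt ?_ hp
    congr 1
  omega

end

/-- the disjunction of positive literals -/
def lits {n : ℕ} (D : Finset (Fin n)) : Finset (Fin n × Bool) := D.image fun i => (i, true)

lemma disj_lits {n : ℕ} (D : Finset (Fin n)) (x : Fin n → Bool) :
    disj (lits D) x = true ↔ ∃ i ∈ D, x i = true := by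
  unfold disj lits
  rw [decide_eq_true_eq]
  constructor
  · rintro ⟨l, hl, h⟩
    obtain ⟨i, hi, rfl⟩ := mem_image.1 hl
    exact ⟨i, hi, h⟩
  · rintro ⟨i, hi, h⟩
    exact ⟨(i, true), mem_image_of_mem _ hi, h⟩

open Classical in
/-- one trial -/
theorem trial {A : Type} [Fintype A] {n s d B k Q : ℕ} (hNS : NoSep A s d B) (hQ : 1 ≤ Q)
    (e : A × Fin k ↪ Fin n) (g : Fin s × Fin Q ↪ Fin k)
    (p : MvPolynomial (Fin n) ℝ) (hp : Sparse Q d p) : ∃ E : Ex n, thr p E.1 ≠ E.2 ∧
      (E.2 = true → ∀ a : A, ∃ i ∈ univ.image fun j : Fin k => e (a, j), E.1 i = true) ∧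
      ((univ : Finset A).filter fun a =>
        disj (lits (univ.image fun j : Fin k => e (a, j))) E.1 ≠ E.2).card ≤ B := by
  let ι : (A × Fin s) × Fin Q ↪ Fin n :=
    ⟨fun b => e (b.1.1, g (b.1.2, b.2)), by
      rintro ⟨⟨a, i⟩, κ⟩ ⟨⟨a', i'⟩, κ'⟩ h
      have h1 := e.injective h
      rw [Prod.mk.injEq] at h1
      obtain ⟨h2, h3⟩ := h1
      dsimp only at h2 h3
      have h4 := g.injective h3
      rw [Prod.mk.injEq] at h4
      rw [h2, h4.1, h4.2]⟩
  obtain ⟨α, hα⟩ := exists_choice ι hQ p hp
  set j := alive ι α with hj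
  have hjv : ∀ a i, j (a, i) = e (a, g (i, α (a, i))) := fun a i => rfl
  have hit : ∀ (x : A → Finset (Fin s)) (a : A),
      (∃ v ∈ univ.image fun l : Fin k => e (a, l), pt j x v = true) ↔ (x a).Nonempty := by
    intro x a
    constructor
    · rintro ⟨v, hv, hx⟩
      obtain ⟨l, _, rfl⟩ := mem_image.1 hv
      obtain ⟨a', i, h7, h8⟩ := (pt_iff j x _).1 hx
      rw [hjv] at h7
      have h9 := e.injective h7
      rw [Prod.mk.injEq] at h9
      rw [h9.1] at h8
      exact ⟨i, h8⟩
    · rintro ⟨i, hi⟩
      exact ⟨j (a, i), mem_image.2 ⟨g (i, α (a, i)), mem_univ _, rfl⟩, (pt_apply j x a i).2 hi⟩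
  by_cases hpos : ∀ x : A → Finset (Fin s), (∀ a, (x a).Nonempty) →
      0 < MvPolynomial.eval (fun v => if pt j x v = true then (1 : ℝ) else 0) p
  · obtain ⟨x, hx1, hx2⟩ := hNS _ (lowDeg_eval j p hα) hpos
    refine ⟨(pt j x, false), ?_, fun h => Bool.noConfusion h, ?_⟩
    · show thr p (pt j x) ≠ false
      unfold thr
      rw [decide_eq_true hx2]
      exact Bool.noConfusion
    · refine (card_le_card ?_).trans hx1
      intro a ha
      rw [mem_filter] at ha ⊢
      refine ⟨mem_univ _, (hit x a).1 ((disj_lits _ _).1 ?_)⟩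
      exact Bool.eq_true_of_not_eq_false ha.2
  · push Not at hpos
    obtain ⟨x, hx1, hx2⟩ := hpos
    refine ⟨(pt j x, true), ?_, fun _ a => (hit x a).2 (hx1 a), ?_⟩
    · show thr p (pt j x) ≠ true
      unfold thr
      rw [decide_eq_false (not_lt.2 hx2)]
      exact Bool.noConfusion
    · have : ((univ : Finset A).filter fun a =>
          disj (lits (univ.image fun l : Fin k => e (a, l))) (pt j x, true).1 ≠
            (pt j x, true).2) = ∅ := by
        rw [filter_eq_empty_iff]
        intro a _
        rw [not_not]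
        exact (disj_lits _ _).2 ((hit x a).2 (hx1 a))
      rw [this, card_empty]
      exact Nat.zero_le _

open Classical in
/-- the adversary -/
theorem adversary {A : Type} [Fintype A] {n s d B k Q : ℕ} (hNS : NoSep A s d B) (hQ : 1 ≤ Q)
    (e : A × Fin k ↪ Fin n) (g : Fin s × Fin Q ↪ Fin k)
    (L : List (Ex n) → MvPolynomial (Fin n) ℝ)
    (hL : ∀ H, Sparse Q d (L H)) : ∀ (T : ℕ) (H : List (Ex n)), ∃ S : List (Ex n),
      S.length = T ∧ mistakesAfter L H S = T ∧
      (∀ E ∈ S, E.2 = true → ∀ a : A, ∃ i ∈ univ.image fun j : Fin k => e (a, j),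
        E.1 i = true) ∧
      ∑ a : A, errors (lits (univ.image fun j : Fin k => e (a, j))) S ≤ B * T := by
  intro T
  induction T with
  | zero =>
    intro H
    exact ⟨[], rfl, rfl, fun E hE => absurd hE List.not_mem_nil, by simp [errors]⟩
  | succ T ih =>
    intro H
    obtain ⟨E, he1, he3, he2⟩ := trial hNS hQ e g (L H) (hL H)
    obtain ⟨S, hS1, hS2, hS4, hS3⟩ := ih (H ++ [E])
    refine ⟨E :: S, by rw [List.length_cons, hS1], ?_, ?_, ?_⟩
    · show (if thr (L H) E.1 = E.2 then 0 else 1) + mistakesAfter L (H ++ [E]) S = T + 1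
      rw [if_neg he1, hS2]
      omega
    · intro E' hE'
      rcases List.mem_cons.1 hE' with rfl | h
      · exact he3
      · exact hS4 E' h
    · have h1 : ∀ a : A, errors (lits (univ.image fun j : Fin k => e (a, j))) (E :: S) =
          errors (lits (univ.image fun j : Fin k => e (a, j))) S +
            if disj (lits (univ.image fun j : Fin k => e (a, j))) E.1 ≠ E.2 then 1 else 0 := by
        intro a
        unfold errors
        rw [List.countP_cons]
        congr 1
        by_cases h : disj (lits (univ.image fun j : Fin k => e (a, j))) E.1 = E.2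
        · rw [if_neg (by rw [h]; simp), if_neg (not_not.2 h)]
        · rw [if_pos (by rw [bne_iff_ne]; exact h), if_pos h]
      simp only [h1]
      rw [sum_add_distrib, sum_boole]
      have h2 : B * (T + 1) = B * T + B := by ring
      rw [h2]
      exact Nat.add_le_add hS3 (by exact_mod_cast he2)

end Pool.Agent.THR72
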