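import Pool.Agent.THR72.MixedMain

/-!
# The lower bounds for polynomials of degree `d` and for mixed features
-/

namespace Pool.Agent.THR72

open Finset

lemma sparse_of_degree {n d : ℕ} {p : MvPolynomial (Fin n) ℝ} (hp : p.totalDegree ≤ d) :
    Sparse 1 d p := by
  unfold Sparse
  rw [one_pow, Nat.lt_one_iff, card_eq_zero, filter_eq_empty_iff]
  intro m hm
  rw [not_lt]
  have h2 : m.support.card ≤ m.sum fun _ e => e := by
    rw [card_eq_sum_ones, Finsupp.sum]
    apply sum_le_sum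
    intro v hv
    exact Nat.one_le_iff_ne_zero.2 (Finsupp.mem_support_iff.1 hv)
  exact h2.trans ((MvPolynomial.le_totalDegree hm).trans hp)

/-- **Degree `d`, in terms of the number of relevant variables.** -/
theorem degree_k {n d k : ℕ} (hd : 1 ≤ d) (hk1 : 60 * d ^ 2 ≤ k) (hk2 : k ^ 2 ≤ 4 * d * n)
    (L : List (Ex n) → MvPolynomial (Fin n) ℝ) (hL : ∀ H, (L H).totalDegree ≤ d) (T : ℕ) :
    ∃ S : List (Ex n), T ≤ mistakes L S ∧ rDisj S = k ∧ k * mDisj S ≤ 57 * d ^ 2 * T := by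
  have h1 := barrier_k (κ := 1) (Q := 1) (k := k) hd le_rfl L
    (barrier_sparse le_rfl L fun H => sparse_of_degree (hL H)) (by rw [mul_one]; exact hk1)
    (by rw [one_mul, mul_one]; exact hk2) T
  rw [mul_one] at h1
  exact h1

/-- **Degree `d`, in terms of the number of variables.** -/
theorem degree_n {n d : ℕ} (hd : 1 ≤ d)
    (L : List (Ex n) → MvPolynomial (Fin n) ℝ) (hL : ∀ H, (L H).totalDegree ≤ d) (c b : ℝ)
    (hc : c < Real.sqrt n / (30 * d * Real.sqrt d)) :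
    ∃ S : List (Ex n), c * mDisj S + b < mistakes L S := by
  have h1 : Barrier L d 1 (1 ^ 2) := by
    rw [one_pow]
    exact barrier_sparse le_rfl L fun H => sparse_of_degree (hL H)
  apply barrier_n hd le_rfl le_rfl L h1 c b
  rw [Nat.cast_one, mul_one, mul_one]
  exact hc

/-- The learners of the theorem on few features: `N` features fixed in advance and `N` monomials. -/
def FewFeatures {n : ℕ} (N : ℕ) (L : List (Ex n) → MvPolynomial (Fin n) ℝ) : Prop :=
  ∃ F : Finset (Finset (Fin n × Bool) × Finset (Fin n)), F.card ≤ N ∧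
    ∀ H, ∃ (w : Finset (Fin n × Bool) × Finset (Fin n) → ℝ) (p : MvPolynomial (Fin n) ℝ),
      p.support.card ≤ N ∧ ∀ x : Fin n → Bool,
        MvPolynomial.eval (fun i => if x i = true then (1 : ℝ) else 0) (L H) =
          ∑ g ∈ F, w g * feat g x +
            MvPolynomial.eval (fun i => if x i = true then (1 : ℝ) else 0) p

theorem barrier_features {n N : ℕ} (L : List (Ex n) → MvPolynomial (Fin n) ℝ)
    (hL : FewFeatures N L) : Barrier L (4 * Nat.log 2 N + 3) 2 4 := by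
  obtain ⟨F, hF, hL⟩ := hL
  set l := Nat.log 2 N with hl
  have hNl : N < 2 ^ (l + 1) := Nat.lt_pow_succ_log_self (by norm_num) N
  apply barrier_mixed (by norm_num) F
  · have h1 : (2 : ℕ) ^ (l + 1) * 5 ^ (4 * l + 3 + 1) ≤ 6 ^ (4 * l + 3 + 1) := by
      have h2 : 4 * l + 3 + 1 = 4 * (l + 1) := by ring
      rw [h2, pow_mul, pow_mul, ← mul_pow]
      exact Nat.pow_le_pow_left (by norm_num) _
    have h3 : 0 < (5 : ℕ) ^ (4 * l + 3 + 1) := by positivity
    calc F.card * 5 ^ (4 * l + 3 + 1) ≤ N * 5 ^ (4 * l + 3 + 1) := Nat.mul_le_mul_right _ hF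
      _ < 2 ^ (l + 1) * 5 ^ (4 * l + 3 + 1) := Nat.mul_lt_mul_of_pos_right hNl h3
      _ ≤ 6 ^ (4 * l + 3 + 1) := h1
  · intro H
    obtain ⟨w, p, hp, h⟩ := hL H
    refine ⟨w, p, ?_, h⟩
    unfold Sparse
    calc (p.support.filter fun m => 4 * l + 3 < m.support.card).card ≤ p.support.card :=
          card_le_card (filter_subset _ _)
      _ ≤ N := hp
      _ < 2 ^ (l + 1) := hNl
      _ ≤ 2 ^ (4 * l + 3 + 1) := Nat.pow_le_pow_right (by norm_num) (by omega)

/-- **Few features, in terms of the number of relevant variables.** -/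
theorem features_k {n N k : ℕ} (L : List (Ex n) → MvPolynomial (Fin n) ℝ)
    (hL : FewFeatures N L) (hk1 : 1920 * (Nat.log 2 N + 1) ^ 2 ≤ k)
    (hk2 : k ^ 2 ≤ 6 * (Nat.log 2 N + 1) * n) (T : ℕ) :
    ∃ S : List (Ex n), T ≤ mistakes L S ∧ rDisj S = k ∧
      k * mDisj S ≤ 1824 * (Nat.log 2 N + 1) ^ 2 * T := by
  have hB := barrier_features L hL
  set l := Nat.log 2 N with hl
  have hd : (4 * l + 3) ^ 2 ≤ 16 * (l + 1) ^ 2 := by
    calc (4 * l + 3) ^ 2 ≤ (4 * (l + 1)) ^ 2 := Nat.pow_le_pow_left (by omega) _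
      _ = 16 * (l + 1) ^ 2 := by ring
  obtain ⟨S, hS1, hS2, hS3⟩ := barrier_k (k := k) (by omega) (by norm_num) L hB (by
      calc 60 * (4 * l + 3) ^ 2 * 2 = 120 * (4 * l + 3) ^ 2 := by ring
        _ ≤ 120 * (16 * (l + 1) ^ 2) := Nat.mul_le_mul_left _ hd
        _ = 1920 * (l + 1) ^ 2 := by ring
        _ ≤ k := hk1) (by
      calc 4 * k ^ 2 ≤ 4 * (6 * (l + 1) * n) := Nat.mul_le_mul_left _ hk2
        _ = (24 * l + 24) * n := by ring
        _ ≤ (32 * l + 24) * n := Nat.mul_le_mul_right _ (by omega)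
        _ = 4 * (4 * l + 3) * 2 * n := by ring) T
  refine ⟨S, hS1, hS2, hS3.trans ?_⟩
  calc 57 * (4 * l + 3) ^ 2 * 2 * T = 114 * (4 * l + 3) ^ 2 * T := by ring
    _ ≤ 114 * (16 * (l + 1) ^ 2) * T := by gcongr
    _ = 1824 * (l + 1) ^ 2 * T := by ring

/-- **Few features, in terms of the number of variables.** -/
theorem features_n {n N : ℕ} (L : List (Ex n) → MvPolynomial (Fin n) ℝ)
    (hL : FewFeatures N L) (c b : ℝ)
    (hc : c < Real.sqrt n / (680 * ((Nat.log 2 N : ℝ) + 1) * Real.sqrt ((Nat.log 2 N : ℝ) + 1))) :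
    ∃ S : List (Ex n), c * mDisj S + b < mistakes L S := by
  have hB : Barrier L (4 * Nat.log 2 N + 3) 2 (2 ^ 2) := barrier_features L hL
  set l := Nat.log 2 N with hl
  apply barrier_n (by omega) (by norm_num) (by norm_num) L hB c b
  refine hc.trans_le ?_
  have hl0 : (0 : ℝ) ≤ l := Nat.cast_nonneg _
  have h1 : Real.sqrt (((4 * l + 3 : ℕ) : ℝ) * ((2 : ℕ) : ℝ)) ≤
      17 / 6 * Real.sqrt ((l : ℝ) + 1) := by
    rw [Real.sqrt_le_left (by positivity), mul_pow, Real.sq_sqrt (by positivity)]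
    push_cast
    linarith
  have h2 : 0 < Real.sqrt (((4 * l + 3 : ℕ) : ℝ) * ((2 : ℕ) : ℝ)) := by
    apply Real.sqrt_pos.2
    positivity
  have h3 : 0 < Real.sqrt ((l : ℝ) + 1) := Real.sqrt_pos.2 (by linarith)
  apply div_le_div_of_nonneg_left (Real.sqrt_nonneg _) (by positivity)
  calc 30 * ((2 : ℕ) : ℝ) * ((4 * l + 3 : ℕ) : ℝ) * Real.sqrt (((4 * l + 3 : ℕ) : ℝ) * ((2 : ℕ) : ℝ))
      ≤ 30 * ((2 : ℕ) : ℝ) * ((4 * l + 3 : ℕ) : ℝ) * (17 / 6 * Real.sqrt ((l : ℝ) + 1)) :=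
        mul_le_mul_of_nonneg_left h1 (by positivity)
    _ = 170 * ((4 * l + 3 : ℕ) : ℝ) * Real.sqrt ((l : ℝ) + 1) := by push_cast; ring
    _ ≤ 680 * ((l : ℝ) + 1) * Real.sqrt ((l : ℝ) + 1) := by
        apply mul_le_mul_of_nonneg_right _ h3.le
        push_cast
        linarith

end Pool.Agent.THR72
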